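import Pool.Agent.QTW.Defs

/-!
# QTW-Psum: partial summation

With `A n = ∑_{p ≤ n} a p log p / p` and `S n = ∑_{p ≤ n} a p / p` the difference `D n = S n - A n / log n` satisfies
`D (n + 1) = D n + A n (1 / log n - 1 / log (n + 1))`, so `D n - (1 - κ) log log n + |C| / log n` is decreasing.
-/

set_option autoImplicit false

namespace Pool.Agent.QTW

open Finset

private theorem ps_succ (f : ℕ → ℝ) (n : ℕ) :
    ∑ p ∈ pri (n + 1), f p = ∑ p ∈ pri n, f p + if (n + 1).Prime then f (n + 1) else 0 := by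
  unfold pri
  rw [Finset.sum_filter, Finset.sum_filter, Finset.sum_Ioc_succ_top (Nat.zero_le n)]

private theorem ps_log {u v : ℝ} (hu : 0 < u) (hv : 0 < v) :
    (v - u) / v ≤ Real.log v - Real.log u := by
  have h := Real.log_le_sub_one_of_pos (div_pos hu hv)
  rw [Real.log_div hu.ne' hv.ne'] at h
  have e : (v - u) / v = 1 - u / v := by
    field_simp
  rw [e]
  linarith

theorem psum (a : ℕ → ℝ) (κ C : ℝ) (hκ : κ ≤ 1)
    (h : ∀ n : ℕ, 1 ≤ n → ∑ p ∈ pri n, a p * Real.log p / p ≤ (1 - κ) * Real.log n + C) :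
    ∃ C' : ℝ, ∀ x : ℕ, 3 ≤ x → ∑ p ∈ pri x, a p / p ≤ (1 - κ) * Real.log (Real.log x) + C' := by
  obtain ⟨A, hA⟩ : ∃ A : ℕ → ℝ, A = fun n => ∑ p ∈ pri n, a p * Real.log p / p := ⟨_, rfl⟩
  obtain ⟨S, hS⟩ : ∃ S : ℕ → ℝ, S = fun n => ∑ p ∈ pri n, a p / p := ⟨_, rfl⟩
  have hlog : ∀ n : ℕ, 2 ≤ n → 0 < Real.log n := fun n hn =>
    Real.log_pos (by exact_mod_cast (by omega : 1 < n))
  have hbd : ∀ n : ℕ, 2 ≤ n → A n ≤ (1 - κ) * Real.log n + |C| := by
    intro n hn
    rw [hA]
    exact (h n (by omega)).trans (by linarith [le_abs_self C])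
  obtain ⟨E, hE⟩ : ∃ E : ℕ → ℝ, E = fun n =>
      S n - A n / Real.log n - (1 - κ) * Real.log (Real.log n) + |C| / Real.log n := ⟨_, rfl⟩
  have hstep : ∀ n : ℕ, 2 ≤ n → E (n + 1) ≤ E n := by
    intro n hn
    have hu := hlog n hn
    have hv := hlog (n + 1) (by omega)
    have huv : Real.log n ≤ Real.log (n + 1 : ℕ) :=
      Real.log_le_log (by exact_mod_cast (by omega : 0 < n)) (by push_cast; linarith)
    obtain ⟨u, hu'⟩ : ∃ u, u = Real.log n := ⟨_, rfl⟩
    obtain ⟨v, hv'⟩ : ∃ v, v = Real.log (n + 1 : ℕ) := ⟨_, rfl⟩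
    have hD : S (n + 1) - A (n + 1) / v = S n - A n / u + A n * (1 / u - 1 / v) := by
      have h1 : S (n + 1) = S n + if (n + 1).Prime then a (n + 1) / ((n + 1 : ℕ) : ℝ) else 0 := by
        rw [hS]
        exact ps_succ (fun p => a p / p) n
      have h2 : A (n + 1) = A n +
          if (n + 1).Prime then a (n + 1) * Real.log (n + 1 : ℕ) / ((n + 1 : ℕ) : ℝ) else 0 := by
        rw [hA]
        exact ps_succ (fun p => a p * Real.log p / p) n
      rw [h1, h2, ← hv']
      have hv0 : v ≠ 0 := by rw [hv']; exact hv.ne'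
      have hu0 : u ≠ 0 := by rw [hu']; exact hu.ne'
      have hn0 : ((n + 1 : ℕ) : ℝ) ≠ 0 := by exact_mod_cast (by omega : n + 1 ≠ 0)
      split_ifs with hp
      · field_simp
        ring
      · field_simp
        ring
    rw [← hu'] at hu huv
    rw [← hv'] at hv huv
    have h3 : 0 ≤ 1 / u - 1 / v := by
      have := one_div_le_one_div_of_le hu huv
      linarith
    have h4 : A n * (1 / u - 1 / v) ≤ ((1 - κ) * u + |C|) * (1 / u - 1 / v) := by
      refine mul_le_mul_of_nonneg_right ?_ h3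
      rw [hu']
      exact hbd n hn
    have h5 : ((1 - κ) * u + |C|) * (1 / u - 1 / v) = (1 - κ) * ((v - u) / v) + (|C| / u - |C| / v) := by
      field_simp
    have h6 : (1 - κ) * ((v - u) / v) ≤ (1 - κ) * (Real.log v - Real.log u) :=
      mul_le_mul_of_nonneg_left (ps_log hu hv) (by linarith)
    rw [hE]
    simp only
    rw [← hu', ← hv', hD]
    linarith
  have hmono : ∀ n : ℕ, 2 ≤ n → E n ≤ E 2 := by
    intro n hn
    induction n, hn using Nat.le_induction with
    | base => exact le_rfl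
    | succ n hn ih => exact (hstep n hn).trans ih
  refine ⟨E 2 + (1 - κ), fun x hx => ?_⟩
  have h1 := hmono x (by omega)
  have hx0 := hlog x (by omega)
  have h2 : A x / Real.log x ≤ (1 - κ) + |C| / Real.log x := by
    rw [div_le_iff₀ hx0, add_mul, div_mul_cancel₀ _ hx0.ne']
    exact hbd x (by omega)
  have h3 : E x = S x - A x / Real.log x - (1 - κ) * Real.log (Real.log x) + |C| / Real.log x := by
    rw [hE]
  have h4 : ∑ p ∈ pri x, a p / p = S x := by rw [hS]
  rw [h4]
  linarith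

end Pool.Agent.QTW
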