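import Pool.Agent.QTW.Rep

/-!
# QTW-ESet: the possible vectors of signs

`es F k p`: the set of the vectors `l ↦ qc p (ev_l r)` (`1` at `k`), `r` a root of the `k`-th form.

`card_sg_le`: a vector `v ∈ sg F u P K s k p` is determined by the vector `e ∈ es F k p` of a root and by the sign `τ`; if all
degrees are even, or if some degree outside `K` is odd, it is determined by `e` alone.
-/

set_option autoImplicit false

namespace Pool.Agent.QTW

open Finset

variable {I : Type} [Fintype I] [DecidableEq I]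

open Classical in
/-- the set of the vectors of signs of the roots of the `k`-th form modulo `p` -/
noncomputable def es (F : Fam I) (k : I) (p : ℕ) : Finset (I → ℤ) :=
  (Fintype.piFinset fun _ => ({0, 1, -1} : Finset ℤ)).filter fun e =>
    ∃ r : Option (ZMod p), ev p (F.f k) (F.n k) r = 0 ∧
      e = fun l => if l = k then 1 else qc p (ev p (F.f l) (F.n l) r)

private theorem mem_es {F : Fam I} {k : I} {p : ℕ} {e : I → ℤ} (he : e ∈ es F k p) :
    ∃ r : Option (ZMod p), ev p (F.f k) (F.n k) r = 0 ∧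
      e = fun l => if l = k then 1 else qc p (ev p (F.f l) (F.n l) r) := by
  classical
  rw [es, mem_filter] at he
  exact he.2

private theorem sign_odd {τ : ℤ} (h : τ = 1 ∨ τ = -1) {n : ℕ} (hn : Odd n) : τ ^ n = τ := by
  rcases h with rfl | rfl
  · exact one_pow n
  · exact hn.neg_one_pow

private theorem sign_even {τ : ℤ} (h : τ = 1 ∨ τ = -1) {n : ℕ} (hn : Even n) : τ ^ n = 1 := by
  rcases h with rfl | rfl
  · exact one_pow n
  · exact hn.neg_one_pow

private theorem sign_ne {τ : ℤ} (h : τ = 1 ∨ τ = -1) : τ ≠ 0 := by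
  rcases h with rfl | rfl <;> decide

private theorem sg_data {F : Fam I} {c : ℤ} {P : ℕ} (hP : Bad F c P) (u : I → ℤ) (K : Finset I)
    (s : I → ℕ) (k : {x // x ∈ K}) {p : ℕ} (hp : p.Prime) (v : {x // x ∈ K} → ℤ)
    (hv : v ∈ sg F u P K s k p) :
    ∃ e ∈ es F k p, ∃ τ : ℤ, (τ = 1 ∨ τ = -1) ∧ (∀ l, l ≠ (k : I) → e l = 1 ∨ e l = -1) ∧
      (∀ l : {x // x ∈ K}, l ≠ k → jacobiSym (u l) p * v l = e l * τ ^ (F.n l)) ∧
      (∀ l, l ∉ K → jacobiSym (u l * (s l : ℤ)) p = e l * τ ^ (F.n l)) := by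
  classical
  obtain ⟨-, -, hpP, r, hr, τ, hτ, h1, h2⟩ := mem_sg.1 hv
  have hbad := (hP.2 p hp hpP).2.2
  have hsign : ∀ l, l ≠ (k : I) → qc p (ev p (F.f l) (F.n l) r) = 1 ∨ qc p (ev p (F.f l) (F.n l) r) = -1 := by
    intro l hl
    exact qc_sign hp fun h => hbad l k hl r ⟨h, hr⟩
  refine ⟨fun l => if l = (k : I) then 1 else qc p (ev p (F.f l) (F.n l) r), ?_, τ, hτ, ?_, ?_, ?_⟩
  · rw [es, mem_filter, Fintype.mem_piFinset]
    refine ⟨fun l => ?_, r, hr, rfl⟩
    by_cases hl : l = (k : I)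
    · rw [if_pos hl]
      decide
    · simp only [hl, if_false, mem_insert, mem_singleton]
      exact Or.inr (hsign l hl)
  · intro l hl
    simp only [hl, if_false]
    exact hsign l hl
  · intro l hl
    have hl' : (l : I) ≠ (k : I) := fun h => hl (Subtype.ext h)
    simp only [hl', if_false]
    exact h1 l hl
  · intro l hl
    have hl' : l ≠ (k : I) := fun h => hl (h ▸ k.2)
    simp only [hl', if_false]
    exact h2 l hl

theorem card_sg_le {F : Fam I} {c : ℤ} {P : ℕ} (hP : Bad F c P) (u : I → ℤ) (K : Finset I)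
    (s : I → ℕ) (k : {x // x ∈ K}) {p : ℕ} (hp : p.Prime) :
    (sg F u P K s k p).card ≤ 2 * (es F k p).card ∧
    (((∀ l, Even (F.n l)) ∨ ∃ j, j ∉ K ∧ Odd (F.n j)) →
      (sg F u P K s k p).card ≤ (es F k p).card) := by
  classical
  choose! E hE T hT hsgn h1 h2 using sg_data hP u K s k hp
  have core : ∀ v ∈ sg F u P K s k p, ∀ v' ∈ sg F u P K s k p, E v = E v' →
      (∀ l, T v ^ (F.n l) = T v' ^ (F.n l)) → v = v' := by
    intro v hv v' hv' hEE hTT
    funext l
    by_cases hl : l = k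
    · rw [hl, (mem_sg.1 hv).2.1, (mem_sg.1 hv').2.1]
    · have h3 := h1 v hv l hl
      have h4 := h1 v' hv' l hl
      have hl' : (l : I) ≠ (k : I) := fun h => hl (Subtype.ext h)
      have h5 : jacobiSym (u l) p * v l ≠ 0 := by
        rw [h3]
        exact mul_ne_zero (sign_ne (hsgn v hv l hl')) (pow_ne_zero _ (sign_ne (hT v hv)))
      rw [← hEE, ← hTT, ← h3] at h4
      exact (mul_left_cancel₀ (left_ne_zero_of_mul h5) h4).symm
  refine ⟨?_, fun hcase => ?_⟩
  · have h3 : (sg F u P K s k p).card ≤ ((es F k p) ×ˢ ({1, -1} : Finset ℤ)).card := by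
      refine Finset.card_le_card_of_injOn (fun v => (E v, T v)) ?_ ?_
      · intro v hv
        rw [mem_coe, mem_product]
        refine ⟨hE v hv, ?_⟩
        rw [mem_insert, mem_singleton]
        exact hT v hv
      · intro v hv v' hv' h
        have h4 := Prod.ext_iff.1 h
        refine core v hv v' hv' h4.1 fun l => ?_
        have h5 : T v = T v' := h4.2
        rw [h5]
    rw [card_product, card_pair (by decide), mul_comm] at h3
    exact h3
  · refine Finset.card_le_card_of_injOn E hE ?_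
    intro v hv v' hv' hEE
    refine core v hv v' hv' hEE ?_
    rcases hcase with hev | ⟨j, hj, hodd⟩
    · intro l
      rw [sign_even (hT v hv) (hev l), sign_even (hT v' hv') (hev l)]
    · have hjk : j ≠ (k : I) := fun h => hj (h ▸ k.2)
      have h3 := h2 v hv j hj
      have h4 := h2 v' hv' j hj
      rw [sign_odd (hT v hv) hodd] at h3
      rw [sign_odd (hT v' hv') hodd, ← hEE, h3] at h4
      have h5 := mul_left_cancel₀ (sign_ne (hsgn v hv j hjk)) h4
      intro l
      rw [h5]

/-- a linear form has one root only -/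
theorem card_es_linear {F : Fam I} {k : I} (h1 : F.n k = 1) (h2 : (F.f k).natDegree ≤ 1)
    (h3 : F.f k ≠ 0) {p : ℕ} (hp : p.Prime)
    (hpr : ¬ ((p : ℤ) ∣ (F.f k).coeff 0 ∧ (p : ℤ) ∣ (F.f k).coeff 1)) :
    (es F k p).card ≤ 1 := by
  classical
  have : Fact p.Prime := ⟨hp⟩
  have hev : ∀ x : ZMod p, ev p (F.f k) (F.n k) (some x) =
      (((F.f k).coeff 1 : ℤ) : ZMod p) * x + (((F.f k).coeff 0 : ℤ) : ZMod p) := by
    intro x
    have h4 := Polynomial.eq_X_add_C_of_natDegree_le_one h2
    rw [ev]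
    conv_lhs => rw [h4]
    simp
  have hnone : ev p (F.f k) (F.n k) none = (((F.f k).coeff 1 : ℤ) : ZMod p) := by
    rw [ev, h1]
  rw [← ZMod.intCast_zmod_eq_zero_iff_dvd, ← ZMod.intCast_zmod_eq_zero_iff_dvd] at hpr
  have key : ∀ r r' : Option (ZMod p), ev p (F.f k) (F.n k) r = 0 → ev p (F.f k) (F.n k) r' = 0 → r = r' := by
    have h5 : ∀ x : ZMod p, ev p (F.f k) (F.n k) (some x) = 0 → ev p (F.f k) (F.n k) none = 0 → False := by
      intro x hx hn
      rw [hev] at hx
      rw [hnone] at hn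
      rw [hn, zero_mul, zero_add] at hx
      exact hpr ⟨hx, hn⟩
    intro r r' hr hr'
    rcases r with _ | x <;> rcases r' with _ | x'
    · rfl
    · exact (h5 x' hr' hr).elim
    · exact (h5 x hr hr').elim
    · have h6 : (((F.f k).coeff 1 : ℤ) : ZMod p) ≠ 0 := by
        intro h
        exact h5 x hr (by rw [hnone, h])
      rw [hev] at hr hr'
      have h7 : (((F.f k).coeff 1 : ℤ) : ZMod p) * x = (((F.f k).coeff 1 : ℤ) : ZMod p) * x' :=
        add_right_cancel (hr.trans hr'.symm)
      rw [mul_left_cancel₀ h6 h7]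
  rw [card_le_one_iff]
  intro e e' he he'
  obtain ⟨r, hr, rfl⟩ := mem_es he
  obtain ⟨r', hr', rfl⟩ := mem_es he'
  rw [key r r' hr hr']

end Pool.Agent.QTW
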