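import Pool.Agent.QTW.AvN
import Pool.Agent.QTW.ESet

/-!
# QTW-AvA: the hypothesis on averages for families without linear forms

Combination of `avn` (the mean number of vectors of signs is less than one) and `card_sg_le`.
-/

set_option autoImplicit false

namespace Pool.Agent.QTW

open Finset

variable {I : Type} [Fintype I] [DecidableEq I]

private theorem loglog_nonneg {y : ℝ} (hy : 3 ≤ y) : 0 ≤ Real.log (Real.log y) := by
  refine Real.log_nonneg ?_
  rw [Real.le_log_iff_exp_le (by linarith)]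
  have := Real.exp_one_lt_d9
  linarith

private theorem two_mul_le_pow {q : ℕ} (hq : 4 ≤ q) : 2 * q ≤ 2 ^ (q - 1) := by
  induction q, hq using Nat.le_induction with
  | base => norm_num
  | succ n hn ih =>
    have h1 : n + 1 - 1 = (n - 1) + 1 := by omega
    rw [h1, pow_succ]
    omega

private theorem av_core (F : Fam I) (u : I → ℤ) (P : ℕ) (K : Finset I) (s : I → ℕ) (m : ℕ)
    (hm : m * K.card ≤ 2 ^ (K.card - 1))
    (hsg : ∀ (k : {x // x ∈ K}) (p : ℕ), p.Prime → (sg F u P K s k p).card ≤ m * (es F k p).card)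
    {B : ℝ} (hB : 0 ≤ B) (x : ℕ)
    (hes : ∀ k : I, ∑ p ∈ pri x, ((es F k p).card : ℝ) / p ≤ B) :
    ∑ p ∈ pri x, ∑ k : {x // x ∈ K}, (2 : ℝ)⁻¹ ^ (K.card - 1) *
      ((sg F u P K s k p).card : ℝ) / p ≤ B := by
  have h0 : (0 : ℝ) < (2 : ℝ)⁻¹ ^ (K.card - 1) := by positivity
  rw [sum_comm]
  have h1 : ∀ k ∈ (univ : Finset {x // x ∈ K}), ∑ p ∈ pri x, (2 : ℝ)⁻¹ ^ (K.card - 1) *
      ((sg F u P K s k p).card : ℝ) / p ≤ (2 : ℝ)⁻¹ ^ (K.card - 1) * m * B := by
    intro k _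
    have h2 : ∀ p ∈ pri x, (2 : ℝ)⁻¹ ^ (K.card - 1) * ((sg F u P K s k p).card : ℝ) / p ≤
        (2 : ℝ)⁻¹ ^ (K.card - 1) * m * (((es F k p).card : ℝ) / p) := by
      intro p hp
      have h3 : ((sg F u P K s k p).card : ℝ) ≤ m * ((es F k p).card : ℝ) := by
        exact_mod_cast hsg k p (mem_pri.1 hp).2
      calc (2 : ℝ)⁻¹ ^ (K.card - 1) * ((sg F u P K s k p).card : ℝ) / p =
          (2 : ℝ)⁻¹ ^ (K.card - 1) * (((sg F u P K s k p).card : ℝ) / p) := by ring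
        _ ≤ (2 : ℝ)⁻¹ ^ (K.card - 1) * (m * ((es F k p).card : ℝ) / p) := by
          refine mul_le_mul_of_nonneg_left ?_ h0.le
          exact div_le_div_of_nonneg_right h3 (Nat.cast_nonneg p)
        _ = _ := by ring
    refine (sum_le_sum h2).trans ?_
    rw [← mul_sum]
    exact mul_le_mul_of_nonneg_left (hes k) (by positivity)
  refine (sum_le_sum h1).trans ?_
  rw [sum_const, card_univ, Fintype.card_coe, nsmul_eq_mul]
  have h4 : (m : ℝ) * (K.card : ℝ) ≤ 2 ^ (K.card - 1) := by exact_mod_cast hm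
  have h5 : (2 : ℝ)⁻¹ ^ (K.card - 1) * 2 ^ (K.card - 1) = 1 := by
    rw [← mul_pow]
    norm_num
  calc (K.card : ℝ) * ((2 : ℝ)⁻¹ ^ (K.card - 1) * m * B) =
      (2 : ℝ)⁻¹ ^ (K.card - 1) * (m * K.card) * B := by ring
    _ ≤ (2 : ℝ)⁻¹ ^ (K.card - 1) * 2 ^ (K.card - 1) * B :=
      mul_le_mul_of_nonneg_right (mul_le_mul_of_nonneg_left h4 h0.le) hB
    _ = B := by rw [h5, one_mul]

theorem av_a (F : Fam I) {c : ℤ} {P : ℕ} (hP : Bad F c P)
    (hirr : ∀ k, Irreducible ((F.f k).map (Int.castRingHom ℚ)))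
    (hdeg : ∀ k, 2 ≤ (F.f k).natDegree) (hn : ∀ k, F.n k = (F.f k).natDegree)
    (hcop : ∀ l k, l ≠ k →
      IsCoprime ((F.f l).map (Int.castRingHom ℚ)) ((F.f k).map (Int.castRingHom ℚ)))
    (heven : Even (∑ i, F.n i)) (hodd : (univ.filter (fun i => Odd (F.n i))).card ≠ 2)
    (u : I → ℤ) : AV F u P (fun _ _ => True) := by
  intro K hK
  have hA : ∀ k, ∃ κ C : ℝ, 0 < κ ∧ κ ≤ 1 ∧ 0 ≤ C ∧ ∀ x : ℕ, 3 ≤ x →
      ∑ p ∈ pri x, ((es F k p).card : ℝ) / p ≤ (1 - κ) * Real.log (Real.log x) + C :=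
    fun k => avn F k (hirr k) (hdeg k) (hn k) (fun l hl => hcop l k hl)
  choose κf Cf h1 h2 h3 h4 using hA
  obtain ⟨i0, hi0⟩ := hK
  obtain ⟨k0, -, hk0⟩ := exists_min_image (univ : Finset I) κf ⟨i0, mem_univ i0⟩
  have hC0 : 0 ≤ ∑ k, Cf k := sum_nonneg fun k _ => h3 k
  refine ⟨κf k0, ∑ k, Cf k, h1 k0, hC0, ?_⟩
  intro s _ _ x hx
  have hLL : 0 ≤ Real.log (Real.log x) := loglog_nonneg (by exact_mod_cast hx)
  have hSS : 0 ≤ Real.log (Real.log ((∏ j, s j : ℕ) + 3)) := by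
    refine loglog_nonneg ?_
    have : (0 : ℝ) ≤ ((∏ j, s j : ℕ) : ℝ) := Nat.cast_nonneg _
    linarith
  set B : ℝ := (1 - κf k0) * Real.log (Real.log x) + ∑ k, Cf k with hBdef
  have hB : 0 ≤ B := by
    have := h2 k0
    have h5 : 0 ≤ (1 - κf k0) * Real.log (Real.log x) := mul_nonneg (by linarith) hLL
    linarith
  have hes : ∀ k : I, ∑ p ∈ pri x, ((es F k p).card : ℝ) / p ≤ B := by
    intro k
    refine (h4 k x hx).trans ?_
    have h5 := hk0 k (mem_univ k)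
    have h6 : Cf k ≤ ∑ k, Cf k := single_le_sum (fun j _ => h3 j) (mem_univ k)
    have h7 : (1 - κf k) * Real.log (Real.log x) ≤ (1 - κf k0) * Real.log (Real.log x) :=
      mul_le_mul_of_nonneg_right (by linarith) hLL
    linarith
  have hmain : ∑ p ∈ pri x, ∑ k : {x // x ∈ K}, (2 : ℝ)⁻¹ ^ (K.card - 1) *
      ((sg F u P K s k p).card : ℝ) / p ≤ B := by
    have hcard : 1 ≤ K.card := card_pos.2 ⟨i0, hi0⟩
    by_cases hc : (∀ l, Even (F.n l)) ∨ ∃ j, j ∉ K ∧ Odd (F.n j)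
    · refine av_core F u P K s 1 ?_ (fun k p hp => ?_) hB x hes
      · have := Nat.lt_two_pow_self (n := K.card - 1)
        omega
      · rw [one_mul]
        exact (card_sg_le hP u K s k hp).2 hc
    · refine av_core F u P K s 2 (two_mul_le_pow ?_)
        (fun k p hp => (card_sg_le hP u K s k hp).1) hB x hes
      have hc1 : ¬ ∀ l, Even (F.n l) := fun h => hc (Or.inl h)
      have hc2 : ∀ j, Odd (F.n j) → j ∈ K := by
        intro j hj
        by_contra h
        exact hc (Or.inr ⟨j, h, hj⟩)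
      have h5 : (univ.filter (fun i => Odd (F.n i))) ⊆ K := fun j hj => hc2 j (mem_filter.1 hj).2
      have h6 := card_le_card h5
      have h7 : Even (univ.filter (fun i => Odd (F.n i))).card :=
        (even_sum_iff_even_card_odd F.n).1 heven
      have h8 : 1 ≤ (univ.filter (fun i => Odd (F.n i))).card := by
        rw [not_forall] at hc1
        obtain ⟨l, hl⟩ := hc1
        exact card_pos.2 ⟨l, mem_filter.2 ⟨mem_univ l, Nat.not_even_iff_odd.1 hl⟩⟩
      obtain ⟨t, ht⟩ := h7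
      omega
  refine hmain.trans ?_
  rw [hBdef]
  have h9 := mul_nonneg hC0 hSS
  have h10 : (∑ k, Cf k) * (1 + Real.log (Real.log ((∏ j, s j : ℕ) + 3))) =
      ∑ k, Cf k + (∑ k, Cf k) * Real.log (Real.log ((∏ j, s j : ℕ) + 3)) := by ring
  linarith

end Pool.Agent.QTW
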