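import Pool.Agent.QTW.Fam2

/-!
# QTW-Comb: the weights

Inequality for the weights of a nonempty subset `K`, by cases on its cardinality.
-/

set_option autoImplicit false

namespace Pool.Agent.QTW

open Finset

private theorem comb_pow (q : ℕ) (hq : 5 ≤ q) : (2 : ℝ)⁻¹ ^ (q - 1) * (2 * q) ≤ 5 / 8 := by
  induction q, hq using Nat.le_induction with
  | base => norm_num
  | succ q hq ih =>
    have e1 : q + 1 - 1 = (q - 1) + 1 := by omega
    have hq' : (5 : ℝ) ≤ q := by exact_mod_cast hq
    have h0 : 0 < (2 : ℝ)⁻¹ ^ (q - 1) := by positivity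
    rw [e1, pow_succ]
    push_cast
    nlinarith

private theorem comb_four {r : ℕ} {K : Finset (I2 r)} (h : ∀ j : Fin 4, (Sum.inl j : I2 r) ∈ K) :
    univ.image (Sum.inl : Fin 4 → I2 r) ⊆ K ∧ (univ.image (Sum.inl : Fin 4 → I2 r)).card = 4 := by
  classical
  refine ⟨?_, ?_⟩
  · intro x hx
    obtain ⟨j, -, rfl⟩ := mem_image.1 hx
    exact h j
  · rw [card_image_of_injective _ Sum.inl_injective]
    simp

open Classical in
theorem comb {r : ℕ} (K : Finset (I2 r)) (hK : K.Nonempty) (σ : Fin 4 → ℝ) (hσ : ∀ k, σ k ≤ 1)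
    (h1 : ∀ k, K = {Sum.inl k} → σ k ≤ 1 / 2)
    (h2 : ∀ k l, k ≠ l → K = {Sum.inl k, Sum.inl l} → σ k + σ l ≤ 3 / 2)
    (h3 : K = univ.image (Sum.inl : Fin 4 → I2 r) → σ 0 + σ 1 ≤ 3 / 2)
    {κ : ℝ} (h0 : 0 ≤ κ) (hκ : κ ≤ 1) :
    (2 : ℝ)⁻¹ ^ (K.card - 1) * ((if ∀ j : Fin 4, (Sum.inl j : I2 r) ∈ K then 2 else 1) *
      ∑ i ∈ K, Sum.elim σ (fun _ => 1 - κ) i) ≤ 1 - κ / 8 := by
  have hf : ∀ i : I2 r, Sum.elim σ (fun _ => 1 - κ) i ≤ 1 := by
    rintro (k | o)
    · exact hσ k
    · show 1 - κ ≤ 1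
      linarith
  have hS : ∑ i ∈ K, Sum.elim σ (fun _ => 1 - κ) i ≤ K.card := by
    calc ∑ i ∈ K, Sum.elim σ (fun _ => 1 - κ) i ≤ ∑ _i ∈ K, (1 : ℝ) := sum_le_sum fun i _ => hf i
      _ = K.card := by rw [sum_const, nsmul_eq_mul, mul_one]
  have hpos : 1 ≤ K.card := hK.card_pos
  have hnall : K.card < 4 → ¬ ∀ j : Fin 4, (Sum.inl j : I2 r) ∈ K := by
    intro hlt hall
    obtain ⟨ha, hb⟩ := comb_four hall
    have := card_le_card ha
    omega
  rcases Nat.lt_or_ge K.card 5 with hlt | hge
  · interval_cases hc : K.card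
    · -- one element
      rw [if_neg (hnall (by norm_num))]
      obtain ⟨i, hi⟩ := card_eq_one.1 hc
      subst hi
      rw [sum_singleton]
      rcases i with k | o
      · have := h1 k rfl
        simp only [Sum.elim_inl]
        norm_num
        linarith
      · simp only [Sum.elim_inr]
        norm_num
        linarith
    · -- two elements
      rw [if_neg (hnall (by norm_num))]
      obtain ⟨i, j, hij, hi⟩ := card_eq_two.1 hc
      subst hi
      rw [sum_pair hij]
      have key : Sum.elim σ (fun _ => 1 - κ) i + Sum.elim σ (fun _ => 1 - κ) j ≤ 2 - κ / 2 := by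
        rcases i with k | o
        · rcases j with l | o'
          · have := h2 k l (fun h => hij (congrArg Sum.inl h)) rfl
            simp only [Sum.elim_inl]
            linarith
          · have := hσ k
            simp only [Sum.elim_inl, Sum.elim_inr]
            linarith
        · have := hf j
          simp only [Sum.elim_inr]
          linarith
      norm_num
      linarith
    · -- three elements
      rw [if_neg (hnall (by norm_num))]
      push_cast at hS
      norm_num
      linarith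
    · -- four elements
      push_cast at hS
      by_cases hall : ∀ j : Fin 4, (Sum.inl j : I2 r) ∈ K
      · rw [if_pos hall]
        obtain ⟨ha, hb⟩ := comb_four hall
        have hKe : K = univ.image (Sum.inl : Fin 4 → I2 r) := (eq_of_subset_of_card_le ha (by rw [hb, hc])).symm
        have h4 := h3 hKe
        have h5 : ∑ i ∈ K, Sum.elim σ (fun _ => 1 - κ) i = σ 0 + σ 1 + σ 2 + σ 3 := by
          rw [hKe, sum_image fun _ _ _ _ h => Sum.inl_injective h, Fin.sum_univ_four]
          rfl
        rw [h5]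
        have h6 := hσ 2
        have h7 := hσ 3
        norm_num
        linarith
      · rw [if_neg hall]
        norm_num
        linarith
  · have hp := comb_pow K.card hge
    have hT : (if ∀ j : Fin 4, (Sum.inl j : I2 r) ∈ K then (2 : ℝ) else 1) *
        ∑ i ∈ K, Sum.elim σ (fun _ => 1 - κ) i ≤ 2 * K.card := by
      have hq : (0 : ℝ) ≤ K.card := Nat.cast_nonneg _
      split_ifs <;> linarith
    have h8 : (2 : ℝ)⁻¹ ^ (K.card - 1) * ((if ∀ j : Fin 4, (Sum.inl j : I2 r) ∈ K then (2 : ℝ) else 1) *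
        ∑ i ∈ K, Sum.elim σ (fun _ => 1 - κ) i) ≤ (2 : ℝ)⁻¹ ^ (K.card - 1) * (2 * K.card) :=
      mul_le_mul_of_nonneg_left hT (by positivity)
    linarith

end Pool.Agent.QTW
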