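import Pool.Agent.SNP.B.Mean

/-!
# QTW-Split: a number field whose degree one primes split a polynomial completely, with square values

The field generated by the roots `θ` of `g` and the square roots of the values `(h j)(θ)`.
-/

set_option autoImplicit false

namespace Pool.Agent.QTW

open NumberField

open Polynomial in
private theorem partB {M : Type} [Field M] [NumberField M] (g : Polynomial ℤ) (hg : g ≠ 0)
    {ι : Type} [Fintype ι] (h : ι → Polynomial ℤ) (θ : Fin g.natDegree → M)
    (hθ : Function.Injective θ) (hgθ : ∀ i, eval₂ (Int.castRingHom M) (θ i) g = 0)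
    (σ : Fin g.natDegree → ι → M)
    (hσ : ∀ i j, σ i j ^ 2 = eval₂ (Int.castRingHom M) (θ i) (h j)) :
    ∃ p₀ : ℕ, ∀ p : ℕ, p.Prime → p₀ < p →
      Nonempty (𝓞 M →+* ZMod p) →
      g.natDegree ≤ Nat.card {x : ZMod p // (g.map (Int.castRingHom (ZMod p))).eval x = 0} ∧
      ∀ x : ZMod p, (g.map (Int.castRingHom (ZMod p))).eval x = 0 → ∀ j,
        IsSquare (((h j).map (Int.castRingHom (ZMod p))).eval x) := by
  classical
  obtain ⟨T, hT⟩ : ∃ T : Finset M, T = Finset.univ.image θ ∪
    Finset.univ.image (fun q : Fin g.natDegree × ι => σ q.1 q.2) ∪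
    Finset.univ.image (fun q : Fin g.natDegree × Fin g.natDegree => (θ q.1 - θ q.2)⁻¹) := ⟨_, rfl⟩
  obtain ⟨m, hm0, hm⟩ := exists_integral_multiples ℤ ℚ T
  have hint : ∀ x ∈ T, ∃ y : 𝓞 M, algebraMap (𝓞 M) M y = (m : M) * x := by
    intro x hx
    have h1 := hm x hx
    rw [zsmul_eq_mul] at h1
    exact (IsIntegralClosure.isIntegral_iff (A := 𝓞 M)).1 h1
  have h1 : ∀ i, ∃ y : 𝓞 M, algebraMap (𝓞 M) M y = (m : M) * θ i := fun i => by
    apply hint
    rw [hT]
    exact Finset.mem_union_left _ (Finset.mem_union_left _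
      (Finset.mem_image_of_mem _ (Finset.mem_univ i)))
  have h2 : ∀ i j, ∃ y : 𝓞 M, algebraMap (𝓞 M) M y = (m : M) * σ i j := fun i j => by
    apply hint
    rw [hT]
    exact Finset.mem_union_left _ (Finset.mem_union_right _
      (Finset.mem_image_of_mem (fun q : Fin g.natDegree × ι => σ q.1 q.2)
        (Finset.mem_univ (i, j))))
  have h3 : ∀ i i', ∃ y : 𝓞 M, algebraMap (𝓞 M) M y = (m : M) * (θ i - θ i')⁻¹ := fun i i' => by
    apply hint
    rw [hT]
    exact Finset.mem_union_right _
      (Finset.mem_image_of_mem (fun q : Fin g.natDegree × Fin g.natDegree => (θ q.1 - θ q.2)⁻¹)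
        (Finset.mem_univ (i, i')))
  choose t ht using h1
  choose u hu using h2
  choose β hβ using h3
  have hinj : Function.Injective (algebraMap (𝓞 M) M) := RingOfIntegers.coe_injective
  refine ⟨max m.natAbs g.leadingCoeff.natAbs, fun p hp hlt hφ => ?_⟩
  obtain ⟨φ⟩ := hφ
  have hpf : Fact p.Prime := ⟨hp⟩
  have hne : ∀ k : ℤ, k ≠ 0 → k.natAbs < p → (k : ZMod p) ≠ 0 := by
    intro k hk hkp h0
    rw [ZMod.intCast_zmod_eq_zero_iff_dvd] at h0
    have h4 : p ∣ k.natAbs := Int.natCast_dvd.1 h0
    have h5 := Nat.le_of_dvd (Int.natAbs_pos.2 hk) h4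
    omega
  have hmp : (m : ZMod p) ≠ 0 := hne m hm0 (lt_of_le_of_lt (le_max_left _ _) hlt)
  have hap : (g.leadingCoeff : ZMod p) ≠ 0 :=
    hne _ (leadingCoeff_ne_zero.2 hg) (lt_of_le_of_lt (le_max_right _ _) hlt)
  obtain ⟨x, hx⟩ : ∃ x : Fin g.natDegree → ZMod p, x = fun i => φ (t i) * (m : ZMod p)⁻¹ :=
    ⟨_, rfl⟩
  have hxt : ∀ i, φ (t i) = (m : ZMod p) * x i := fun i => by
    rw [hx]
    field_simp
  -- evaluation
  have key1 : ∀ (f : Polynomial ℤ) (i : Fin g.natDegree),
      algebraMap (𝓞 M) M (eval₂ (Int.castRingHom (𝓞 M)) (t i) (f.scaleRoots m)) =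
        (m : M) ^ f.natDegree * eval₂ (Int.castRingHom M) (θ i) f := by
    intro f i
    rw [hom_eval₂, ht]
    have h4 : (algebraMap (𝓞 M) M).comp (Int.castRingHom (𝓞 M)) = Int.castRingHom M :=
      RingHom.ext_int _ _
    rw [h4]
    have h5 := scaleRoots_eval₂_mul (p := f) (Int.castRingHom M) (θ i) m
    rw [eq_intCast] at h5
    exact h5
  have key2 : ∀ (f : Polynomial ℤ) (i : Fin g.natDegree),
      φ (eval₂ (Int.castRingHom (𝓞 M)) (t i) (f.scaleRoots m)) =
        (m : ZMod p) ^ f.natDegree * eval₂ (Int.castRingHom (ZMod p)) (x i) f := by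
    intro f i
    rw [hom_eval₂, hxt]
    have h4 : φ.comp (Int.castRingHom (𝓞 M)) = Int.castRingHom (ZMod p) :=
      RingHom.ext_int _ _
    rw [h4]
    have h5 := scaleRoots_eval₂_mul (p := f) (Int.castRingHom (ZMod p)) (x i) m
    rw [eq_intCast] at h5
    exact h5
  have hroot : ∀ i, eval₂ (Int.castRingHom (ZMod p)) (x i) g = 0 := by
    intro i
    have h4 : eval₂ (Int.castRingHom (𝓞 M)) (t i) (g.scaleRoots m) = 0 := by
      apply hinj
      rw [key1, hgθ, mul_zero, map_zero]
    have h5 := key2 g i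
    rw [h4, map_zero] at h5
    exact (mul_eq_zero.1 h5.symm).resolve_left (pow_ne_zero _ hmp)
  have hxinj : Function.Injective x := by
    intro i j hij
    by_contra hne'
    have h4 : (t i - t j) * β i j = ((m ^ 2 : ℤ) : 𝓞 M) := by
      apply hinj
      rw [map_mul, map_sub, ht, ht, hβ, map_intCast]
      have h5 : θ i - θ j ≠ 0 := sub_ne_zero.2 (hθ.ne hne')
      push_cast
      field_simp
    have h5 := congrArg φ h4
    rw [map_mul, map_sub, hxt, hxt, hij, sub_self, zero_mul, map_intCast] at h5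
    push_cast at h5
    exact pow_ne_zero 2 hmp h5.symm
  have hG : g.map (Int.castRingHom (ZMod p)) ≠ 0 := by
    intro h0
    have h4 := congrArg (fun q : Polynomial (ZMod p) => q.coeff g.natDegree) h0
    simp only [coeff_map, coeff_natDegree, coeff_zero, eq_intCast] at h4
    exact hap h4
  have hall : ∀ y : ZMod p, (g.map (Int.castRingHom (ZMod p))).eval y = 0 → ∃ i, x i = y := by
    intro y hy
    by_contra hcon
    have hy' : y ∉ Finset.univ.image x := by
      intro hmem
      obtain ⟨i, -, hi⟩ := Finset.mem_image.1 hmem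
      exact hcon ⟨i, hi⟩
    have h4 : (insert y (Finset.univ.image x)).card = g.natDegree + 1 := by
      rw [Finset.card_insert_of_notMem hy', Finset.card_image_of_injective _ hxinj,
        Finset.card_univ, Fintype.card_fin]
    have h5 := card_le_degree_of_subset_roots (p := g.map (Int.castRingHom (ZMod p)))
      (Z := insert y (Finset.univ.image x)) (by
        intro z hz
        rw [mem_roots hG, IsRoot.def]
        have hz' : z ∈ insert y (Finset.univ.image x) := hz
        rw [Finset.mem_insert] at hz'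
        rcases hz' with hz' | hz'
        · rw [hz']; exact hy
        · obtain ⟨i, -, hi⟩ := Finset.mem_image.1 hz'
          rw [← hi, eval_map]
          exact hroot i)
    rw [h4] at h5
    have h6 : (g.map (Int.castRingHom (ZMod p))).natDegree ≤ g.natDegree := natDegree_map_le
    omega
  constructor
  · have h4 : Nat.card (Fin g.natDegree) = g.natDegree := Nat.card_fin _
    conv_lhs => rw [← h4]
    refine Nat.card_le_card_of_injective (fun i => (⟨x i, by
      rw [eval_map]; exact hroot i⟩ : {x : ZMod p // (g.map (Int.castRingHom (ZMod p))).eval x = 0}))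
      ?_
    intro i j hij
    exact hxinj (congrArg Subtype.val hij)
  · intro y hy j
    obtain ⟨i, rfl⟩ := hall y hy
    rw [eval_map]
    have h4 : ((m ^ 2 : ℤ) : 𝓞 M) * eval₂ (Int.castRingHom (𝓞 M)) (t i) ((h j).scaleRoots m) =
        ((m ^ (h j).natDegree : ℤ) : 𝓞 M) * u i j ^ 2 := by
      apply hinj
      rw [map_mul, key1, map_mul, map_pow, hu, map_intCast, map_intCast, ← hσ]
      push_cast
      ring
    have h5 := congrArg φ h4
    rw [map_mul, key2, map_mul, map_pow, map_intCast, map_intCast] at h5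
    push_cast at h5
    have hmd : (m : ZMod p) ^ (h j).natDegree ≠ 0 := pow_ne_zero _ hmp
    have h6 : (m : ZMod p) ^ 2 * eval₂ (Int.castRingHom (ZMod p)) (x i) (h j) =
        φ (u i j) ^ 2 := by
      apply mul_left_cancel₀ hmd
      rw [← h5]
      ring
    refine ⟨φ (u i j) * (m : ZMod p)⁻¹, ?_⟩
    have h7 : eval₂ (Int.castRingHom (ZMod p)) (x i) (h j) =
        φ (u i j) ^ 2 * ((m : ZMod p)⁻¹) ^ 2 := by
      rw [← h6]
      field_simp
    rw [h7]
    ring

theorem split (g : Polynomial ℤ) (hirr : Irreducible (g.map (Int.castRingHom ℚ))) {ι : Type}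
    [Fintype ι] (h : ι → Polynomial ℤ) :
    ∃ (M : Type) (_ : Field M) (_ : NumberField M) (p₀ : ℕ), ∀ p : ℕ, p.Prime → p₀ < p →
      Nonempty (𝓞 M →+* ZMod p) →
      g.natDegree ≤ Nat.card {x : ZMod p // (g.map (Int.castRingHom (ZMod p))).eval x = 0} ∧
      ∀ x : ZMod p, (g.map (Int.castRingHom (ZMod p))).eval x = 0 → ∀ j,
        IsSquare (((h j).map (Int.castRingHom (ZMod p))).eval x) := by
  classical
  obtain ⟨G, hGdef⟩ : ∃ G, G = g.map (Int.castRingHom ℚ) := ⟨_, rfl⟩
  have hdeg : G.natDegree = g.natDegree := by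
    rw [hGdef]
    exact Polynomial.natDegree_map_eq_of_injective (RingHom.injective_int _) g
  have hg : g ≠ 0 := by
    rintro rfl
    rw [Polynomial.map_zero] at hirr
    exact not_irreducible_zero hirr
  rw [← hGdef] at hirr
  have hsep : G.Separable := hirr.separable
  have hcard := Polynomial.card_rootSet_eq_natDegree (K := AlgebraicClosure ℚ) hsep
    (IsAlgClosed.splits _)
  obtain ⟨e⟩ : Nonempty (Fin g.natDegree ≃ G.rootSet (AlgebraicClosure ℚ)) := by
    refine Fintype.card_eq.1 ?_
    rw [Fintype.card_fin, hcard, hdeg]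
  obtain ⟨θ, hθ⟩ : ∃ θ : Fin g.natDegree → AlgebraicClosure ℚ, θ = fun i =>
      ((e i : G.rootSet (AlgebraicClosure ℚ)) : AlgebraicClosure ℚ) := ⟨_, rfl⟩
  have hθi : Function.Injective θ := by
    intro i j hij
    rw [hθ] at hij
    exact e.injective (Subtype.ext hij)
  have hroot : ∀ y : AlgebraicClosure ℚ, Polynomial.aeval y G = 0 →
      Polynomial.eval₂ (Int.castRingHom (AlgebraicClosure ℚ)) y g = 0 := by
    intro y h1
    rw [hGdef, Polynomial.aeval_def, Polynomial.eval₂_map] at h1
    have h2 : (algebraMap ℚ (AlgebraicClosure ℚ)).comp (Int.castRingHom ℚ) =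
        Int.castRingHom (AlgebraicClosure ℚ) := RingHom.ext_int _ _
    rw [h2] at h1
    exact h1
  have hθ0 : ∀ i, Polynomial.eval₂ (Int.castRingHom (AlgebraicClosure ℚ)) (θ i) g = 0 := by
    intro i
    rw [hθ]
    exact hroot _ (Polynomial.mem_rootSet.1 (e i).2).2
  have hsq : ∀ (i : Fin g.natDegree) (j : ι), ∃ z : AlgebraicClosure ℚ,
      z ^ 2 = Polynomial.eval₂ (Int.castRingHom (AlgebraicClosure ℚ)) (θ i) (h j) :=
    fun i j => IsAlgClosed.exists_pow_nat_eq _ two_pos
  choose σ hσ using hsq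
  obtain ⟨S, hS⟩ : ∃ S : Set (AlgebraicClosure ℚ), S = Set.range θ ∪
    Set.range (fun q : Fin g.natDegree × ι => σ q.1 q.2) := ⟨_, rfl⟩
  have hSf : S.Finite := by
    rw [hS]
    exact (Set.finite_range _).union (Set.finite_range _)
  have hSfin : Finite S := hSf.to_subtype
  have halg : Algebra.IsAlgebraic ℚ (AlgebraicClosure ℚ) := AlgebraicClosure.isAlgebraic ℚ
  have hfd : FiniteDimensional ℚ (IntermediateField.adjoin ℚ S) :=
    IntermediateField.finiteDimensional_adjoin fun x _ => (halg.isAlgebraic x).isIntegral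
  have hnf : NumberField (IntermediateField.adjoin ℚ S) :=
    { to_charZero := inferInstance
      to_finiteDimensional := hfd }
  have hθS : ∀ i, θ i ∈ IntermediateField.adjoin ℚ S := fun i => by
    apply IntermediateField.subset_adjoin
    rw [hS]
    exact Or.inl ⟨i, rfl⟩
  have hσS : ∀ i j, σ i j ∈ IntermediateField.adjoin ℚ S := fun i j => by
    apply IntermediateField.subset_adjoin
    rw [hS]
    exact Or.inr ⟨(i, j), rfl⟩
  have hev : ∀ (f : Polynomial ℤ) (y : IntermediateField.adjoin ℚ S),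
      ((Polynomial.eval₂ (Int.castRingHom (IntermediateField.adjoin ℚ S)) y f :
        IntermediateField.adjoin ℚ S) : AlgebraicClosure ℚ) =
      Polynomial.eval₂ (Int.castRingHom (AlgebraicClosure ℚ)) (y : AlgebraicClosure ℚ) f := by
    intro f y
    have h1 := Polynomial.hom_eval₂ f (Int.castRingHom (IntermediateField.adjoin ℚ S))
      (algebraMap (IntermediateField.adjoin ℚ S) (AlgebraicClosure ℚ)) y
    have h2 : (algebraMap (IntermediateField.adjoin ℚ S) (AlgebraicClosure ℚ)).comp
        (Int.castRingHom (IntermediateField.adjoin ℚ S)) =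
        Int.castRingHom (AlgebraicClosure ℚ) := RingHom.ext_int _ _
    rw [h2] at h1
    exact h1
  obtain ⟨p₀, hp₀⟩ := partB (M := IntermediateField.adjoin ℚ S) g hg h
    (fun i => ⟨θ i, hθS i⟩) (fun i j hij => hθi (congrArg Subtype.val hij))
    (fun i => by
      apply Subtype.ext
      rw [hev]
      exact hθ0 i)
    (fun i j => ⟨σ i j, hσS i j⟩)
    (fun i j => by
      apply Subtype.ext
      rw [hev]
      exact hσ i j)
  exact ⟨IntermediateField.adjoin ℚ S, inferInstance, hnf, p₀, hp₀⟩

end Pool.Agent.QTW
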