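import Pool.Agent.QTW.RtHom
import Pool.Agent.QTW.Split
import Pool.Agent.QTW.ESet
import Pool.Agent.QTW.Psum

/-!
# QTW-AvN: the mean number of vectors of signs of a nonlinear form is less than one

PROOF. Let `g = F.f k`, `K, p₁` from `rt_hom`, `M, p₂` from `split` with `h l = F.f l` (`ι = I`), `m = finrank ℚ M`.
For a large prime `p`, `none` is not a root of the `k`-th form, so `card (es F k p)` is at most the number of
roots of `g`, which is at most `Nat.card (𝓞 K →+* ZMod p)`. If moreover `𝓞 M →+* ZMod p` is nonempty, all the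
values of the other forms at the roots are nonzero squares, so `card (es F k p) ≤ 1`, while there are at least 2 roots.
So `card (es F k p) ≤ Nat.card (𝓞 K →+* ZMod p) - Nat.card (𝓞 M →+* ZMod p) / m`; then `mean_hom` for `K` and `M`
with `ε = 1/(4 m)` and `psum` with `κ = 1/(2 m)`.
-/

set_option autoImplicit false

namespace Pool.Agent.QTW

open Finset

variable {I : Type} [Fintype I] [DecidableEq I]

open NumberField in
private theorem card_hom_le (M : Type) [Field M] [NumberField M] {p : ℕ} (hp : p.Prime) :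
    Nat.card (𝓞 M →+* ZMod p) ≤ Module.finrank ℚ M := by
  rw [Pool.Agent.Helper1.SP.card_hom_eq M p hp]
  refine Pool.Agent.Helper83.TW.card_above M p hp _ ?_
  intro I hI
  have h1 := (Pool.Agent.Helper83.TW.mem_d1 hp.pos).1 hI
  refine ⟨Ideal.isPrime_of_irreducible_absNorm (by rw [h1]; exact hp), ?_⟩
  have h2 := Ideal.absNorm_mem I
  rwa [h1] at h2

private theorem no_common (f g : Polynomial ℤ)
    (h : IsCoprime (f.map (Int.castRingHom ℚ)) (g.map (Int.castRingHom ℚ))) :
    ∃ N : ℕ, ∀ p : ℕ, p.Prime → N < p → ∀ x : ZMod p,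
      (g.map (Int.castRingHom (ZMod p))).eval x = 0 →
        (f.map (Int.castRingHom (ZMod p))).eval x ≠ 0 := by
  obtain ⟨a, b, hab⟩ := h
  have hinj : Function.Injective (Int.castRingHom ℚ) := Int.cast_injective
  have hclear : ∀ a : Polynomial ℚ, ∃ (α : ℤ) (a' : Polynomial ℤ), α ≠ 0 ∧
      a'.map (Int.castRingHom ℚ) = Polynomial.C (α : ℚ) * a := by
    intro a
    obtain ⟨α, hα0, hα⟩ := IsLocalization.integerNormalization_spec (nonZeroDivisors ℤ) a
    refine ⟨α, IsLocalization.integerNormalization (nonZeroDivisors ℤ) a,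
      nonZeroDivisors.ne_zero hα0, ?_⟩
    have h1 : algebraMap ℤ ℚ = Int.castRingHom ℚ := rfl
    rw [← h1, hα]
    rw [← Polynomial.smul_eq_C_mul]
    ext i
    simp
  obtain ⟨α, a', hα, ha'⟩ := hclear a
  obtain ⟨β, b', hβ, hb'⟩ := hclear b
  have key : Polynomial.C β * a' * f + Polynomial.C α * b' * g = Polynomial.C (α * β) := by
    apply Polynomial.map_injective _ hinj
    have h1 : Polynomial.C (β : ℚ) * (Polynomial.C (α : ℚ) * a) * f.map (Int.castRingHom ℚ) +
        Polynomial.C (α : ℚ) * (Polynomial.C (β : ℚ) * b) * g.map (Int.castRingHom ℚ) =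
        Polynomial.C (α : ℚ) * Polynomial.C (β : ℚ) *
          (a * f.map (Int.castRingHom ℚ) + b * g.map (Int.castRingHom ℚ)) := by ring
    rw [hab, mul_one] at h1
    simp only [Polynomial.map_add, Polynomial.map_mul, Polynomial.map_C, ha', hb',
      Int.coe_castRingHom, map_mul]
    exact h1
  refine ⟨(α * β).natAbs, ?_⟩
  intro p hp hN x hg hf
  have h1 := congrArg (fun q => (Polynomial.map (Int.castRingHom (ZMod p)) q).eval x) key
  simp only [Polynomial.map_add, Polynomial.map_mul, Polynomial.map_C, Polynomial.eval_add,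
    Polynomial.eval_mul, Polynomial.eval_C, hg, hf, mul_zero, add_zero, Int.coe_castRingHom] at h1
  have h2 : (p : ℤ) ∣ α * β := (ZMod.intCast_zmod_eq_zero_iff_dvd _ _).1 h1.symm
  have h3 : α * β ≠ 0 := mul_ne_zero hα hβ
  have h4 := Int.natAbs_dvd_natAbs.2 h2
  have h5 := Nat.le_of_dvd (Int.natAbs_pos.2 h3) h4
  simp only [Int.natAbs_natCast] at h5
  omega

private theorem of_mem_es {F : Fam I} {k : I} {p : ℕ} {e : I → ℤ} (he : e ∈ es F k p) :
    ∃ r : Option (ZMod p), ev p (F.f k) (F.n k) r = 0 ∧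
      e = fun l => if l = k then 1 else qc p (ev p (F.f l) (F.n l) r) := by
  classical
  unfold es at he
  rw [mem_filter] at he
  exact he.2

private theorem es_le_roots (F : Fam I) (k : I) {p : ℕ} (hp : p.Prime)
    (hn : F.n k = (F.f k).natDegree) (hlc : ¬ (p : ℤ) ∣ (F.f k).leadingCoeff) :
    (es F k p).card ≤
      Nat.card {x : ZMod p // ((F.f k).map (Int.castRingHom (ZMod p))).eval x = 0} := by
  classical
  have : NeZero p := ⟨hp.ne_zero⟩
  let T : Finset (ZMod p) :=
    Finset.univ.filter (fun x => ((F.f k).map (Int.castRingHom (ZMod p))).eval x = 0)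
  have hT : Nat.card {x : ZMod p // ((F.f k).map (Int.castRingHom (ZMod p))).eval x = 0} =
      T.card := by
    rw [Nat.card_eq_fintype_card, Fintype.card_subtype]
  rw [hT]
  refine le_trans (Finset.card_le_card (t := T.image (fun x => fun l => if l = k then 1
    else qc p (ev p (F.f l) (F.n l) (some x)))) ?_) Finset.card_image_le
  intro e he
  obtain ⟨r, hr, he⟩ := of_mem_es he
  rcases r with _ | x
  · exfalso
    have h1 : (((F.f k).coeff (F.n k) : ℤ) : ZMod p) = 0 := hr
    rw [hn] at h1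
    exact hlc ((ZMod.intCast_zmod_eq_zero_iff_dvd _ _).1 h1)
  · rw [mem_image]
    exact ⟨x, by rw [mem_filter]; exact ⟨mem_univ _, hr⟩, he.symm⟩

private theorem es_le_one (F : Fam I) (k : I) {p : ℕ} (hp : p.Prime)
    (hn : F.n k = (F.f k).natDegree) (hlc : ¬ (p : ℤ) ∣ (F.f k).leadingCoeff)
    (h : ∀ x : ZMod p, ((F.f k).map (Int.castRingHom (ZMod p))).eval x = 0 → ∀ l, l ≠ k →
      ((F.f l).map (Int.castRingHom (ZMod p))).eval x ≠ 0 ∧
        IsSquare (((F.f l).map (Int.castRingHom (ZMod p))).eval x)) :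
    (es F k p).card ≤ 1 := by
  classical
  refine le_trans (Finset.card_le_card (t := {fun _ => 1}) ?_) (by simp)
  intro e he
  obtain ⟨r, hr, he⟩ := of_mem_es he
  rw [mem_singleton, he]
  rcases r with _ | x
  · exfalso
    have h1 : (((F.f k).coeff (F.n k) : ℤ) : ZMod p) = 0 := hr
    rw [hn] at h1
    exact hlc ((ZMod.intCast_zmod_eq_zero_iff_dvd _ _).1 h1)
  · funext l
    split_ifs with hl
    · rfl
    · obtain ⟨h0, y, hy⟩ := h x hr l hl
      have h2 : ev p (F.f l) (F.n l) (some x) = y ^ 2 := by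
        rw [pow_two, ← hy]
        rfl
      rw [h2]
      refine qc_sq hp ?_
      rintro rfl
      rw [mul_zero] at hy
      exact h0 hy

theorem avn (F : Fam I) (k : I) (hirr : Irreducible ((F.f k).map (Int.castRingHom ℚ)))
    (hdeg : 2 ≤ (F.f k).natDegree) (hn : F.n k = (F.f k).natDegree)
    (hcop : ∀ l, l ≠ k →
      IsCoprime ((F.f l).map (Int.castRingHom ℚ)) ((F.f k).map (Int.castRingHom ℚ))) :
    ∃ κ C : ℝ, 0 < κ ∧ κ ≤ 1 ∧ 0 ≤ C ∧ ∀ x : ℕ, 3 ≤ x →
      ∑ p ∈ pri x, ((es F k p).card : ℝ) / p ≤ (1 - κ) * Real.log (Real.log x) + C := by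
  classical
  obtain ⟨K, _, _, p₁, hK⟩ := rt_hom (F.f k) hirr
  obtain ⟨M, _, _, p₂, hM⟩ := split (F.f k) hirr (fun l => F.f l)
  have hno : ∀ l, ∃ N : ℕ, l ≠ k → ∀ p : ℕ, p.Prime → N < p → ∀ x : ZMod p,
      ((F.f k).map (Int.castRingHom (ZMod p))).eval x = 0 →
        ((F.f l).map (Int.castRingHom (ZMod p))).eval x ≠ 0 := by
    intro l
    by_cases hl : l = k
    · exact ⟨0, fun h => absurd hl h⟩
    · obtain ⟨N, hN⟩ := no_common (F.f l) (F.f k) (hcop l hl)
      exact ⟨N, fun _ => hN⟩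
  choose N hN using hno
  have hg0 : F.f k ≠ 0 := by
    intro h
    rw [h, Polynomial.natDegree_zero] at hdeg
    omega
  have hlc0 : (F.f k).leadingCoeff ≠ 0 := Polynomial.leadingCoeff_ne_zero.2 hg0
  set p₃ : ℕ := max (max p₁ p₂) (max (∑ l, N l) (F.f k).leadingCoeff.natAbs) with hp₃
  set m : ℕ := Module.finrank ℚ M with hm
  have hm1 : 1 ≤ m := Module.finrank_pos
  have hm1' : (1 : ℝ) ≤ m := by exact_mod_cast hm1
  let nK : ℕ → ℝ := fun p => (Nat.card (NumberField.RingOfIntegers K →+* ZMod p) : ℝ)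
  let nM : ℕ → ℝ := fun p => (Nat.card (NumberField.RingOfIntegers M →+* ZMod p) : ℝ)
  have hpt : ∀ p : ℕ, p.Prime → p₃ < p → ((es F k p).card : ℝ) ≤ nK p - nM p / m := by
    intro p hp hlt
    have h1 : p₁ < p := lt_of_le_of_lt (le_trans (le_max_left _ _) (le_max_left _ _)) hlt
    have h2 : p₂ < p := lt_of_le_of_lt (le_trans (le_max_right _ _) (le_max_left _ _)) hlt
    have h3 : ∑ l, N l < p := lt_of_le_of_lt (le_trans (le_max_left _ _) (le_max_right _ _)) hlt
    have h4 : (F.f k).leadingCoeff.natAbs < p :=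
      lt_of_le_of_lt (le_trans (le_max_right _ _) (le_max_right _ _)) hlt
    have hlc : ¬ (p : ℤ) ∣ (F.f k).leadingCoeff := by
      intro h
      have h5 := Nat.le_of_dvd (Int.natAbs_pos.2 hlc0) (Int.natAbs_dvd_natAbs.2 h)
      simp only [Int.natAbs_natCast] at h5
      omega
    have hKp := hK p hp h1
    have hes := le_trans (es_le_roots F k hp hn hlc) hKp
    by_cases hne : Nonempty (NumberField.RingOfIntegers M →+* ZMod p)
    · have hcK : nK p = ((Nat.card (NumberField.RingOfIntegers K →+* ZMod p) : ℕ) : ℝ) := rfl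
      have hcM : nM p = ((Nat.card (NumberField.RingOfIntegers M →+* ZMod p) : ℕ) : ℝ) := rfl
      obtain ⟨hr, hsq⟩ := hM p hp h2 hne
      have hone : (es F k p).card ≤ 1 := by
        refine es_le_one F k hp hn hlc ?_
        intro x hx l hl
        refine ⟨hN l hl p hp ?_ x hx, hsq x hx l⟩
        exact lt_of_le_of_lt (Finset.single_le_sum (f := N) (fun _ _ => Nat.zero_le _) (mem_univ l)) h3
      have h5 : 2 ≤ Nat.card (NumberField.RingOfIntegers K →+* ZMod p) :=
        le_trans hdeg (le_trans hr hKp)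
      have h6 : (2 : ℝ) ≤ nK p := by rw [hcK]; exact_mod_cast h5
      have h7 : ((es F k p).card : ℝ) ≤ 1 := by exact_mod_cast hone
      have h8 : nM p ≤ m := by rw [hcM]; exact_mod_cast card_hom_le M hp
      have h9 : nM p / m ≤ 1 := by rwa [div_le_one (by linarith)]
      linarith
    · have h5 : nM p = 0 := by
        have : IsEmpty (NumberField.RingOfIntegers M →+* ZMod p) := not_nonempty_iff.1 hne
        show ((Nat.card (NumberField.RingOfIntegers M →+* ZMod p) : ℕ) : ℝ) = 0
        rw [Nat.card_of_isEmpty, Nat.cast_zero]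
      rw [h5, zero_div, sub_zero]
      show ((es F k p).card : ℝ) ≤ ((Nat.card (NumberField.RingOfIntegers K →+* ZMod p) : ℕ) : ℝ)
      exact_mod_cast hes
  -- weights
  have hw : ∀ p : ℕ, 0 ≤ Real.log p / p := fun p =>
    div_nonneg (Real.log_natCast_nonneg p) (Nat.cast_nonneg p)
  have hnM0 : ∀ p, 0 ≤ nM p := fun p => Nat.cast_nonneg _
  have hnK0 : ∀ p, 0 ≤ nK p := fun p => Nat.cast_nonneg _
  set C₁ : ℝ := ∑ p ∈ pri p₃, (((es F k p).card : ℝ) + nM p / m) * (Real.log p / p) with hC₁
  have hC₁0 : 0 ≤ C₁ := by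
    refine Finset.sum_nonneg fun p _ => mul_nonneg ?_ (hw p)
    have := hnM0 p
    positivity
  have hA : ∀ n : ℕ, ∑ p ∈ pri n, ((es F k p).card : ℝ) * Real.log p / p ≤
      (∑ p ∈ pri n, nK p * (Real.log p / p)) - (∑ p ∈ pri n, nM p * (Real.log p / p)) / m + C₁ := by
    intro n
    have h1 : ∀ p ∈ pri n, ((es F k p).card : ℝ) * Real.log p / p ≤
        nK p * (Real.log p / p) - nM p * (Real.log p / p) / m +
          (if p ≤ p₃ then (((es F k p).card : ℝ) + nM p / m) * (Real.log p / p) else 0) := by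
      intro p hp
      have hpp := (mem_pri.1 hp).2
      have e1 : ((es F k p).card : ℝ) * Real.log p / p = ((es F k p).card : ℝ) * (Real.log p / p) := by
        ring
      have e2 : nK p * (Real.log p / p) - nM p * (Real.log p / p) / m =
        (nK p - nM p / m) * (Real.log p / p) := by ring
      rw [e1, e2]
      split_ifs with hle
      · rw [← add_mul]
        refine mul_le_mul_of_nonneg_right ?_ (hw p)
        have := hnK0 p
        linarith
      · rw [add_zero]
        exact mul_le_mul_of_nonneg_right (hpt p hpp (not_le.1 hle)) (hw p)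
    refine le_trans (Finset.sum_le_sum h1) ?_
    rw [Finset.sum_add_distrib, Finset.sum_sub_distrib, ← Finset.sum_div]
    have h2 : ∑ p ∈ pri n, (if p ≤ p₃ then (((es F k p).card : ℝ) + nM p / m) * (Real.log p / p)
        else 0) ≤ C₁ := by
      rw [← Finset.sum_filter]
      refine Finset.sum_le_sum_of_subset_of_nonneg ?_ ?_
      · intro p hp
        rw [mem_filter, mem_pri] at hp
        exact mem_pri.2 ⟨hp.2, hp.1.2⟩
      · intro p _ _
        have := hnM0 p
        exact mul_nonneg (by positivity) (hw p)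
    linarith
  have hε : (0 : ℝ) < 1 / (4 * m) := by positivity
  obtain ⟨n₁, hn₁⟩ := Pool.Agent.SNP.B.mean_hom K (1 / (4 * m)) hε
  obtain ⟨n₂, hn₂⟩ := Pool.Agent.SNP.B.mean_hom M (1 / (4 * m)) hε
  set n₀ : ℕ := max n₁ n₂ with hn₀
  set C₂ : ℝ := ∑ p ∈ pri n₀, ((es F k p).card : ℝ) * Real.log p / p with hC₂
  have hC₂0 : 0 ≤ C₂ := by
    refine Finset.sum_nonneg fun p _ => ?_
    rw [mul_div_assoc]
    exact mul_nonneg (Nat.cast_nonneg _) (hw p)
  have hκ1 : (1 : ℝ) / (2 * m) ≤ 1 := by
    rw [div_le_one (by positivity)]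
    linarith
  obtain ⟨C', hC'⟩ := psum (fun p => ((es F k p).card : ℝ)) (1 / (2 * m)) (C₁ + C₂) hκ1 (by
    intro n hn1
    have hlog : 0 ≤ Real.log (n : ℝ) := Real.log_natCast_nonneg n
    by_cases hnn : n₀ ≤ n
    · have a1 := (abs_le.1 (hn₁ n (le_trans (le_max_left _ _) hnn))).2
      have a2 := (abs_le.1 (hn₂ n (le_trans (le_max_right _ _) hnn))).1
      have a3 := hA n
      have e1 : ∑ p ∈ Pool.Agent.Helper83.TW.prm 0 n,
          (Nat.card (NumberField.RingOfIntegers K →+* ZMod p) : ℝ) * (Real.log (p : ℝ) / (p : ℝ)) =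
          ∑ p ∈ pri n, nK p * (Real.log p / p) := rfl
      have e2 : ∑ p ∈ Pool.Agent.Helper83.TW.prm 0 n,
          (Nat.card (NumberField.RingOfIntegers M →+* ZMod p) : ℝ) * (Real.log (p : ℝ) / (p : ℝ)) =
          ∑ p ∈ pri n, nM p * (Real.log p / p) := rfl
      rw [e1] at a1
      rw [e2] at a2
      set SK := ∑ p ∈ pri n, nK p * (Real.log p / p)
      set SM := ∑ p ∈ pri n, nM p * (Real.log p / p)
      have b1 : SK ≤ (1 + 1 / (4 * m)) * Real.log n := by linarith
      have b2 : (1 - 1 / (4 * m)) * Real.log n ≤ SM := by linarith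
      have b3 : (1 - 1 / (4 * m)) * Real.log n / m ≤ SM / m :=
        div_le_div_of_nonneg_right b2 (by positivity)
      have b4 : (1 + 1 / (4 * m)) * Real.log n - (1 - 1 / (4 * m)) * Real.log n / m ≤
          (1 - 1 / (2 * m)) * Real.log n := by
        have c1 : (1 + 1 / (4 * (m : ℝ))) - (1 - 1 / (4 * m)) / m ≤ 1 - 1 / (2 * m) := by
          have c2 : (1 + 1 / (4 * (m : ℝ))) - (1 - 1 / (4 * m)) / m =
            1 - 3 / (4 * m) + 1 / (4 * m) / m := by field_simp; ring
          have c3 : (1 : ℝ) / (4 * m) / m ≤ 1 / (4 * m) := div_le_self (by positivity) hm1'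
          have c4 : (1 : ℝ) - 1 / (2 * m) = 1 - 3 / (4 * m) + 1 / (4 * m) := by field_simp; ring
          rw [c2, c4]
          linarith
        have c5 := mul_le_mul_of_nonneg_right c1 hlog
        have c6 : ((1 + 1 / (4 * (m : ℝ))) - (1 - 1 / (4 * m)) / m) * Real.log n =
          (1 + 1 / (4 * m)) * Real.log n - (1 - 1 / (4 * m)) * Real.log n / m := by ring
        linarith
      linarith
    · have b1 : ∑ p ∈ pri n, ((es F k p).card : ℝ) * Real.log p / p ≤ C₂ := by
        refine Finset.sum_le_sum_of_subset_of_nonneg ?_ ?_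
        · intro p hp
          rw [mem_pri] at hp ⊢
          exact ⟨by omega, hp.2⟩
        · intro p _ _
          rw [mul_div_assoc]
          exact mul_nonneg (Nat.cast_nonneg _) (hw p)
      have b2 : 0 ≤ (1 - 1 / (2 * (m : ℝ))) * Real.log n := mul_nonneg (by linarith) hlog
      linarith)
  refine ⟨1 / (2 * m), max C' 0, by positivity, hκ1, le_max_right _ _, ?_⟩
  intro x hx
  exact le_trans (hC' x hx) (by linarith [le_max_left C' 0])

end Pool.Agent.QTW
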