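import Pool.Agent.QTW.Fam2
import Pool.Agent.QTW.AvN
import Pool.Agent.QTW.ESet

/-!
# QTW-NonAv: means for the nonlinear forms

`avn` for each of the finitely many nonlinear forms, with the minimum of the `κ` and the sum of the constants, and `card_sg_le`.
-/

set_option autoImplicit false

namespace Pool.Agent.QTW

open Finset

private theorem nav_irr : Irreducible (((Polynomial.X ^ 2 + 1 : Polynomial ℤ)).map (Int.castRingHom ℚ)) := by
  have h1 : ((Polynomial.X ^ 2 + 1 : Polynomial ℤ)).map (Int.castRingHom ℚ) =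
      (Polynomial.X ^ 2 + 1 : Polynomial ℚ) := by simp
  rw [h1]
  have h2 : (Polynomial.X ^ 2 + 1 : Polynomial ℚ) = Polynomial.X ^ 2 + Polynomial.C 1 := by simp
  refine Polynomial.irreducible_of_degree_le_three_of_not_isRoot ?_ fun x hx => ?_
  · rw [h2, Polynomial.natDegree_X_pow_add_C]
    decide
  · have h3 : x ^ 2 + 1 = 0 := by
      have := hx.eq_zero
      simpa using this
    nlinarith [sq_nonneg x]

private theorem nav_deg : (Polynomial.X ^ 2 + 1 : Polynomial ℤ).natDegree = 2 := by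
  have h2 : (Polynomial.X ^ 2 + 1 : Polynomial ℤ) = Polynomial.X ^ 2 + Polynomial.C 1 := by simp
  rw [h2, Polynomial.natDegree_X_pow_add_C]

private theorem nav_log {x : ℕ} (hx : 3 ≤ x) : 0 ≤ Real.log (Real.log x) := by
  refine Real.log_nonneg ?_
  have h1 : Real.exp 1 < 3 := Real.exp_one_lt_three
  have h2 : (3 : ℝ) ≤ x := by exact_mod_cast hx
  rw [Real.le_log_iff_exp_le (by linarith)]
  linarith

open Classical in
theorem non_av {r : ℕ} {g : Fin r → Polynomial ℤ} {c : ℤ} {P : ℕ} (hP : Bad (fam2 g) c P)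
    (hirr : ∀ i, Irreducible ((g i).map (Int.castRingHom ℚ))) (hdeg : ∀ i, 2 ≤ (g i).natDegree)
    (hcop : ∀ i j, i ≠ j → IsCoprime (((fam2 g).f i).map (Int.castRingHom ℚ))
      (((fam2 g).f j).map (Int.castRingHom ℚ))) (u : I2 r → ℤ) :
    ∃ κ C : ℝ, 0 < κ ∧ κ ≤ 1 ∧ 0 ≤ C ∧ ∀ (K : Finset (I2 r)) (s : I2 r → ℕ)
      (o : Option (Fin r)) (hk : Sum.inr o ∈ K) (x : ℕ), 3 ≤ x →
      ∑ p ∈ pri x, ((sg (fam2 g) u P K s ⟨Sum.inr o, hk⟩ p).card : ℝ) / p ≤
        (if ∀ j : Fin 4, Sum.inl j ∈ K then 2 else 1) * (1 - κ) * Real.log (Real.log x) + C := by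
  have key : ∀ o : Option (Fin r), ∃ κ C : ℝ, 0 < κ ∧ κ ≤ 1 ∧ 0 ≤ C ∧ ∀ x : ℕ, 3 ≤ x →
      ∑ p ∈ pri x, ((es (fam2 g) (Sum.inr o) p).card : ℝ) / p ≤
        (1 - κ) * Real.log (Real.log x) + C := by
    intro o
    refine avn (fam2 g) (Sum.inr o) ?_ ?_ ?_ fun l hl => hcop l (Sum.inr o) hl
    · rcases o with _ | i
      · exact nav_irr
      · exact hirr i
    · rcases o with _ | i
      · exact nav_deg.ge
      · exact hdeg i
    · rcases o with _ | i
      · exact nav_deg.symm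
      · rfl
  choose κ C h1 h2 h3 h4 using key
  have hne : (Finset.univ : Finset (Option (Fin r))).Nonempty := ⟨none, Finset.mem_univ _⟩
  refine ⟨Finset.univ.inf' hne κ, 2 * ∑ o, C o, ?_, ?_, ?_, ?_⟩
  · rw [Finset.lt_inf'_iff]
    exact fun o _ => h1 o
  · exact (Finset.inf'_le κ (Finset.mem_univ none)).trans (h2 none)
  · have : 0 ≤ ∑ o, C o := Finset.sum_nonneg fun o _ => h3 o
    linarith
  · intro K s o hk x hx
    set κ₀ := Finset.univ.inf' hne κ with hκ₀
    have hκo : κ₀ ≤ κ o := Finset.inf'_le κ (Finset.mem_univ o)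
    have hL := nav_log hx
    have hC : C o ≤ ∑ o, C o := Finset.single_le_sum (fun o _ => h3 o) (Finset.mem_univ o)
    have hC0 := h3 o
    have h5 := h4 o x hx
    have h6 : (1 - κ o) * Real.log (Real.log x) ≤ (1 - κ₀) * Real.log (Real.log x) :=
      mul_le_mul_of_nonneg_right (by linarith) hL
    have hpr : ∀ p ∈ pri x, p.Prime := fun p hp => (mem_pri.1 hp).2
    by_cases hall : ∀ j : Fin 4, Sum.inl j ∈ K
    · rw [if_pos hall]
      have h7 : ∑ p ∈ pri x, ((sg (fam2 g) u P K s ⟨Sum.inr o, hk⟩ p).card : ℝ) / p ≤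
          2 * ∑ p ∈ pri x, ((es (fam2 g) (Sum.inr o) p).card : ℝ) / p := by
        rw [Finset.mul_sum]
        refine Finset.sum_le_sum fun p hp => ?_
        have h8 := (card_sg_le hP u K s ⟨Sum.inr o, hk⟩ (hpr p hp)).1
        have h9 : ((sg (fam2 g) u P K s ⟨Sum.inr o, hk⟩ p).card : ℝ) ≤
            2 * ((es (fam2 g) (Sum.inr o) p).card : ℝ) := by exact_mod_cast h8
        calc ((sg (fam2 g) u P K s ⟨Sum.inr o, hk⟩ p).card : ℝ) / p ≤
              2 * ((es (fam2 g) (Sum.inr o) p).card : ℝ) / p :=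
              div_le_div_of_nonneg_right h9 (Nat.cast_nonneg p)
          _ = _ := by ring
      linarith
    · rw [if_neg hall]
      push Not at hall
      obtain ⟨j, hj⟩ := hall
      have h7 : ∑ p ∈ pri x, ((sg (fam2 g) u P K s ⟨Sum.inr o, hk⟩ p).card : ℝ) / p ≤
          ∑ p ∈ pri x, ((es (fam2 g) (Sum.inr o) p).card : ℝ) / p := by
        refine Finset.sum_le_sum fun p hp => ?_
        have h8 := (card_sg_le hP u K s ⟨Sum.inr o, hk⟩ (hpr p hp)).2
          (Or.inr ⟨Sum.inl j, hj, odd_one⟩)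
        have h9 : ((sg (fam2 g) u P K s ⟨Sum.inr o, hk⟩ p).card : ℝ) ≤
            ((es (fam2 g) (Sum.inr o) p).card : ℝ) := by exact_mod_cast h8
        exact div_le_div_of_nonneg_right h9 (Nat.cast_nonneg p)
      linarith

end Pool.Agent.QTW
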