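import Pool.Agent.QTW.Fam2

/-!
# QTW-Pairs: two linear forms are not both unrestricted

Basic fact (`sq_basic`): if `m ≠ 0` and `m x`, `m y` are squares in `ℤ`, then `x y` is a square in `ℤ`. It is used with `x y = 2` or `-1`.
-/

set_option autoImplicit false

namespace Pool.Agent.QTW

open Finset

private theorem sq_basic {m x y : ℤ} (hm : m ≠ 0) (h1 : IsSquare (m * x)) (h2 : IsSquare (m * y)) :
    IsSquare (x * y) := by
  obtain ⟨a, ha⟩ := h1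
  obtain ⟨b, hb⟩ := h2
  have h3 : m ^ 2 * (x * y) = (a * b) ^ 2 := by
    calc m ^ 2 * (x * y) = (m * x) * (m * y) := by ring
      _ = (a * b) ^ 2 := by rw [ha, hb]; ring
  have h4 : m ∣ a * b := (Int.pow_dvd_pow_iff two_ne_zero).1 ⟨x * y, h3.symm⟩
  obtain ⟨c, hc⟩ := h4
  refine ⟨c, ?_⟩
  have h5 : m ^ 2 * (x * y) = m ^ 2 * (c * c) := by rw [h3, hc]; ring
  exact mul_left_cancel₀ (pow_ne_zero 2 hm) h5

private theorem not_sq_two : ¬ IsSquare (2 : ℤ) := by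
  rintro ⟨a, ha⟩
  have h1 : a ≤ 1 := by nlinarith
  have h2 : -1 ≤ a := by nlinarith
  interval_cases a <;> omega

private theorem not_sq_two' : ¬ IsSquare (2 : ℕ) := by
  rintro ⟨a, ha⟩
  have h1 : a ≤ 1 := by nlinarith
  interval_cases a <;> omega

private theorem not_sq_neg : ¬ IsSquare (-1 : ℤ) := by
  rintro ⟨a, ha⟩
  nlinarith [mul_self_nonneg a]

private theorem sq_none {r : ℕ} (u : I2 r → ℤ) (hu : ∀ i, u i ≠ 0) (s : I2 r → ℕ) (hs : ∀ i, s i ≠ 0)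
    (K : Finset (I2 r)) (hK : (Sum.inr none : I2 r) ∉ K) {k l : Fin 4} (h1 : Sq u K s k) (h2 : Sq u K s l) :
    IsSquare (b4 k * b4 l) := by
  have hm : u (Sum.inr none) * (s (Sum.inr none) : ℤ) ≠ 0 :=
    mul_ne_zero (hu _) (by exact_mod_cast hs _)
  exact sq_basic hm (h1.1 hK) (h2.1 hK)

private theorem sq_pair {r : ℕ} (u : I2 r → ℤ) (hu : ∀ i, u i ≠ 0) (s : I2 r → ℕ) (hs : ∀ i, s i ≠ 0)
    (K : Finset (I2 r)) {k l : Fin 4} (hpa : pa k = pa l) (hpb : pb k = pb l)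
    (ha : (Sum.inl (pa k) : I2 r) ∉ K) (hb : (Sum.inl (pb k) : I2 r) ∉ K)
    (h1 : Sq u K s k) (h2 : Sq u K s l) :
    IsSquare (bp k * bp l) := by
  have hm : u (Sum.inl (pa k)) * (s (Sum.inl (pa k)) : ℤ) *
      (u (Sum.inl (pb k)) * (s (Sum.inl (pb k)) : ℤ)) ≠ 0 :=
    mul_ne_zero (mul_ne_zero (hu _) (by exact_mod_cast hs _)) (mul_ne_zero (hu _) (by exact_mod_cast hs _))
  have h3 := h2.2 (hpa ▸ ha) (hpb ▸ hb)
  rw [← hpa, ← hpb] at h3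
  exact sq_basic hm (h1.2 ha hb) h3

theorem pair_ne {r : ℕ} (u : I2 r → ℤ) (hu : ∀ i, u i ≠ 0) (s : I2 r → ℕ) (hs : ∀ i, s i ≠ 0)
    (K : Finset (I2 r)) (k l : Fin 4) (hkl : k ≠ l) (hK : K = {Sum.inl k, Sum.inl l}) :
    ¬ (Sq u K s k ∧ Sq u K s l) := by
  rintro ⟨h1, h2⟩
  have hn : (Sum.inr none : I2 r) ∉ K := by rw [hK]; simp
  have h3 := sq_none u hu s hs K hn h1 h2
  have h4 : pa k = pa l → pb k = pb l → pa k ≠ k → pa k ≠ l → pb k ≠ k → pb k ≠ l → IsSquare (bp k * bp l) := by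
    intro e1 e2 e3 e4 e5 e6
    refine sq_pair u hu s hs K e1 e2 ?_ ?_ h1 h2
    · rw [hK]; simp [e3, e4]
    · rw [hK]; simp [e5, e6]
  clear h1 h2 hn hK
  fin_cases k <;> fin_cases l <;> simp_all [b4, bp, pa, pb, not_sq_neg] <;>
    first | exact not_sq_two h3 | exact not_sq_two' h3

theorem four_ne {r : ℕ} (u : I2 r → ℤ) (hu : ∀ i, u i ≠ 0) (s : I2 r → ℕ) (hs : ∀ i, s i ≠ 0)
    (K : Finset (I2 r)) (hK : K = univ.image (Sum.inl : Fin 4 → I2 r)) :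
    ¬ (Sq u K s 0 ∧ Sq u K s 1) := by
  rintro ⟨h1, h2⟩
  have hn : (Sum.inr none : I2 r) ∉ K := by rw [hK]; simp
  have h3 := sq_none u hu s hs K hn h1 h2
  have h4 : b4 0 * b4 1 = 2 := by simp [b4]
  rw [h4] at h3
  exact not_sq_two h3

end Pool.Agent.QTW
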