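import Pool.Agent.QTW.LinAv
import Pool.Agent.QTW.NonAv
import Pool.Agent.QTW.Comb
import Pool.Agent.QTW.Pairs

/-!
# QTW-AvB: the hypothesis on averages for the family of `(X ^ 5 - X) * h`

The two sums are exchanged; the inner sums over the primes are estimated by `lin_av` and `non_av`, the sum of the weights by
`comb` (with `pair_ne`, `four_ne` and the hypothesis `N2`).
-/

set_option autoImplicit false

namespace Pool.Agent.QTW

open Finset

theorem av_b {r : ℕ} {g : Fin r → Polynomial ℤ} {c : ℤ} {P : ℕ} (hP : Bad (fam2 g) c P)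
    (hirr : ∀ i, Irreducible ((g i).map (Int.castRingHom ℚ))) (hdeg : ∀ i, 2 ≤ (g i).natDegree)
    (hcop : ∀ i j, i ≠ j → IsCoprime (((fam2 g).f i).map (Int.castRingHom ℚ))
      (((fam2 g).f j).map (Int.castRingHom ℚ))) (u : I2 r → ℤ) (hu : ∀ i, u i ≠ 0) :
    AV (fam2 g) u P (N2 u) := by
  classical
  obtain ⟨C₁, hC₁, hlin⟩ := lin_av hP u hu
  obtain ⟨κ, C₂, hκ, hκ1, hC₂, hnon⟩ := non_av hP hirr hdeg hcop u
  intro K hK
  refine ⟨κ / 8, K.card * (C₁ + C₂), by positivity, by positivity, fun s hs hN x hx => ?_⟩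
  have hs0 : ∀ i, s i ≠ 0 := fun i => (hs.1 i).1.ne_zero
  obtain ⟨t, ht1, ht2⟩ : ∃ t : ℝ, ((∀ j : Fin 4, (Sum.inl j : I2 r) ∈ K) → t = 2) ∧
      ((¬ ∀ j : Fin 4, (Sum.inl j : I2 r) ∈ K) → t = 1) := by
    by_cases h : ∀ j : Fin 4, (Sum.inl j : I2 r) ∈ K
    · exact ⟨2, fun _ => rfl, fun h' => absurd h h'⟩
    · exact ⟨1, fun h' => absurd h' h, fun _ => rfl⟩
  obtain ⟨σ, hσ1, hσ2⟩ : ∃ σ : Fin 4 → ℝ, (∀ k, Sq u K s k → σ k = 1) ∧
      ∀ k, ¬ Sq u K s k → σ k = 1 / 2 :=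
    ⟨fun k => if Sq u K s k then 1 else 1 / 2, fun k h => if_pos h, fun k h => if_neg h⟩
  have hσ : ∀ k, σ k ≤ 1 := by
    intro k
    by_cases h : Sq u K s k
    · rw [hσ1 k h]
    · rw [hσ2 k h]
      norm_num
  have hσσ : ∀ k l, ¬ (Sq u K s k ∧ Sq u K s l) → σ k + σ l ≤ 3 / 2 := by
    intro k l h
    by_cases hk : Sq u K s k
    · have hl : ¬ Sq u K s l := fun hl => h ⟨hk, hl⟩
      have h1 := hσ k
      rw [hσ2 l hl]
      linarith
    · have h1 := hσ l
      rw [hσ2 k hk]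
      linarith
  have hcomb : (2 : ℝ)⁻¹ ^ (K.card - 1) * (t * ∑ i ∈ K, Sum.elim σ (fun _ => 1 - κ) i) ≤
      1 - κ / 8 := by
    have h := comb K hK σ hσ (fun k hk => by rw [hσ2 k (hN k hk)])
      (fun k l hkl hKl => hσσ k l (pair_ne u hu s hs0 K k l hkl hKl))
      (fun hK4 => hσσ 0 1 (four_ne u hu s hs0 K hK4)) hκ.le hκ1
    by_cases hall : ∀ j : Fin 4, (Sum.inl j : I2 r) ∈ K
    · rw [if_pos hall] at h
      rw [ht1 hall]
      exact h
    · rw [if_neg hall] at h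
      rw [ht2 hall]
      exact h
  obtain ⟨L, hL⟩ : ∃ L, L = Real.log (Real.log x) := ⟨_, rfl⟩
  obtain ⟨M, hM⟩ : ∃ M, M = 1 + Real.log (Real.log ((∏ j, s j : ℕ) + 3)) := ⟨_, rfl⟩
  have hlog3 : ∀ y : ℝ, 3 ≤ y → 0 ≤ Real.log (Real.log y) := by
    intro y hy
    apply Real.log_nonneg
    rw [Real.le_log_iff_exp_le (by linarith)]
    have := Real.exp_one_lt_d9
    linarith
  have hL0 : 0 ≤ L := by
    rw [hL]
    exact hlog3 _ (by exact_mod_cast hx)
  have hM1 : 1 ≤ M := by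
    rw [hM]
    have h1 : (3 : ℝ) ≤ ((∏ j, s j : ℕ) : ℝ) + 3 := by
      have : (0 : ℝ) ≤ ((∏ j, s j : ℕ) : ℝ) := Nat.cast_nonneg _
      linarith
    have := hlog3 _ h1
    linarith
  rw [← hL, ← hM]
  have hone : ∀ k : {x // x ∈ K}, ∑ p ∈ pri x, ((sg (fam2 g) u P K s k p).card : ℝ) / p ≤
      t * Sum.elim σ (fun _ => 1 - κ) (k : I2 r) * L + (C₁ + C₂) * M := by
    rintro ⟨k | o, hk⟩
    · have h := hlin K s hs k hk x hx
      have h1 : ∑ p ∈ pri x, ((sg (fam2 g) u P K s ⟨Sum.inl k, hk⟩ p).card : ℝ) / p ≤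
          t * σ k * L + C₁ * M := by
        rw [hL, hM]
        by_cases hall : ∀ j : Fin 4, (Sum.inl j : I2 r) ∈ K
        · rw [if_pos hall] at h
          rw [ht1 hall]
          by_cases hq : Sq u K s k
          · rw [if_pos hq] at h
            rw [hσ1 k hq]
            exact h
          · rw [if_neg hq] at h
            rw [hσ2 k hq]
            exact h
        · rw [if_neg hall] at h
          rw [ht2 hall]
          by_cases hq : Sq u K s k
          · rw [if_pos hq] at h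
            rw [hσ1 k hq]
            exact h
          · rw [if_neg hq] at h
            rw [hσ2 k hq]
            exact h
      have h2 : 0 ≤ C₂ * M := mul_nonneg hC₂ (by linarith)
      show _ ≤ t * σ k * L + (C₁ + C₂) * M
      linarith
    · have h := hnon K s o hk x hx
      have h1 : ∑ p ∈ pri x, ((sg (fam2 g) u P K s ⟨Sum.inr o, hk⟩ p).card : ℝ) / p ≤
          t * (1 - κ) * L + C₂ := by
        rw [hL]
        by_cases hall : ∀ j : Fin 4, (Sum.inl j : I2 r) ∈ K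
        · rw [if_pos hall] at h
          rw [ht1 hall]
          exact h
        · rw [if_neg hall] at h
          rw [ht2 hall]
          exact h
      have h2 : 0 ≤ C₁ * M := mul_nonneg hC₁ (by linarith)
      have h3 : C₂ * 1 ≤ C₂ * M := mul_le_mul_of_nonneg_left hM1 hC₂
      show _ ≤ t * (1 - κ) * L + (C₁ + C₂) * M
      linarith
  obtain ⟨w, hw⟩ : ∃ w : ℝ, w = (2 : ℝ)⁻¹ ^ (K.card - 1) := ⟨_, rfl⟩
  rw [← hw] at hcomb
  have hw0 : 0 ≤ w := by
    rw [hw]
    positivity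
  have hw1 : w ≤ 1 := by
    rw [hw]
    exact pow_le_one₀ (by norm_num) (by norm_num)
  have hswap : ∑ p ∈ pri x, ∑ k : {x // x ∈ K},
      (2 : ℝ)⁻¹ ^ (K.card - 1) * ((sg (fam2 g) u P K s k p).card : ℝ) / p =
      w * ∑ k : {x // x ∈ K}, ∑ p ∈ pri x, ((sg (fam2 g) u P K s k p).card : ℝ) / p := by
    rw [Finset.sum_comm, Finset.mul_sum, ← hw]
    refine Finset.sum_congr rfl fun k _ => ?_
    rw [Finset.mul_sum]
    refine Finset.sum_congr rfl fun p _ => ?_
    rw [mul_div_assoc]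
  rw [hswap]
  have hsum : ∑ k : {x // x ∈ K}, ∑ p ∈ pri x, ((sg (fam2 g) u P K s k p).card : ℝ) / p ≤
      (t * ∑ i ∈ K, Sum.elim σ (fun _ => 1 - κ) i) * L + K.card * ((C₁ + C₂) * M) := by
    refine (Finset.sum_le_sum fun k _ => hone k).trans (le_of_eq ?_)
    rw [Finset.sum_add_distrib, Finset.sum_const, Finset.card_univ, Fintype.card_coe,
      nsmul_eq_mul, ← Finset.sum_mul, ← Finset.mul_sum,
      Finset.sum_coe_sort K fun i => Sum.elim σ (fun _ => 1 - κ) i]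
  have h1 := mul_le_mul_of_nonneg_left hsum hw0
  have h2 : w * ((t * ∑ i ∈ K, Sum.elim σ (fun _ => 1 - κ) i) * L) ≤ (1 - κ / 8) * L := by
    rw [← mul_assoc]
    exact mul_le_mul_of_nonneg_right hcomb hL0
  have h3 : w * (K.card * ((C₁ + C₂) * M)) ≤ 1 * (K.card * ((C₁ + C₂) * M)) := by
    refine mul_le_mul_of_nonneg_right hw1 ?_
    have : 0 ≤ M := by linarith
    positivity
  rw [mul_add] at h1
  rw [one_mul, ← mul_assoc (K.card : ℝ)] at h3
  linarith

end Pool.Agent.QTW
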