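import Pool.Agent.QTW.Defs

/-!
# QTW-HT: upper bound for sums of nonnegative multiplicative functions on squarefree numbers

With `H n = cc h n`, `F = ∑ H n`, `G = ∑ H n / n` (squarefree `n ≤ x`): `G` is at most the exponential by the Euler product, and
`log x * F = ∑ H n log n + ∑ H n log (x / n) ≤ (R log 4 + 1) x G` by Chebyshev's bound.
-/

set_option autoImplicit false

namespace Pool.Agent.QTW

open Finset

private theorem pf_inj {x : ℕ} {n m : ℕ} (hn : n ∈ (Icc 1 x).filter Squarefree)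
    (hm : m ∈ (Icc 1 x).filter Squarefree) (h : n.primeFactors = m.primeFactors) : n = m := by
  rw [← Nat.prod_primeFactors_of_squarefree (mem_filter.1 hn).2,
    ← Nat.prod_primeFactors_of_squarefree (mem_filter.1 hm).2, h]

private theorem sum_div_le (h : ℕ → ℝ) (hh : ∀ p, 0 ≤ h p) (x : ℕ) :
    ∑ n ∈ (Icc 1 x).filter Squarefree, cc h n / n ≤ Real.exp (∑ p ∈ pri x, h p / p) := by
  have h1 : ∀ n ∈ (Icc 1 x).filter Squarefree, cc h n / n =
      ∏ p ∈ n.primeFactors, h p / p := by
    intro n hn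
    rw [prod_div_distrib]
    congr 1
    have h2 := Nat.prod_primeFactors_of_squarefree (mem_filter.1 hn).2
    conv_lhs => rw [← h2]
    push_cast
    rfl
  rw [sum_congr rfl h1]
  have h3 : ∑ n ∈ (Icc 1 x).filter Squarefree, ∏ p ∈ n.primeFactors, h p / p =
      ∑ A ∈ ((Icc 1 x).filter Squarefree).image Nat.primeFactors, ∏ p ∈ A, h p / p := by
    rw [sum_image]
    intro n hn m hm hnm
    exact pf_inj hn hm hnm
  rw [h3]
  have h4 : ∑ A ∈ ((Icc 1 x).filter Squarefree).image Nat.primeFactors, ∏ p ∈ A, h p / p ≤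
      ∑ A ∈ (pri x).powerset, ∏ p ∈ A, h p / p := by
    refine sum_le_sum_of_subset_of_nonneg ?_ ?_
    · intro A hA
      obtain ⟨n, hn, rfl⟩ := mem_image.1 hA
      rw [mem_powerset]
      intro p hp
      rw [mem_pri]
      refine ⟨?_, Nat.prime_of_mem_primeFactors hp⟩
      have h5 := mem_Icc.1 (mem_filter.1 hn).1
      exact (Nat.le_of_dvd (by omega) (Nat.dvd_of_mem_primeFactors hp)).trans h5.2
    · intro A _ _
      exact prod_nonneg fun p _ => div_nonneg (hh p) (Nat.cast_nonneg p)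
  refine h4.trans ?_
  rw [← prod_one_add, Real.exp_sum]
  refine prod_le_prod (fun p _ => ?_) (fun p _ => ?_)
  · have := div_nonneg (hh p) (Nat.cast_nonneg (α := ℝ) p)
    linarith
  · rw [add_comm]
    exact Real.add_one_le_exp _

private theorem sum_log_le {R : ℝ} (hR : 0 ≤ R) (h : ℕ → ℝ) (hh : ∀ p, 0 ≤ h p ∧ h p ≤ R)
    (x : ℕ) : ∑ n ∈ (Icc 1 x).filter Squarefree, cc h n * Real.log n ≤
      R * Real.log 4 * x * ∑ n ∈ (Icc 1 x).filter Squarefree, cc h n / n := by
  have hcc : ∀ n, 0 ≤ cc h n := fun n => prod_nonneg fun p _ => (hh p).1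
  have h1 : ∑ n ∈ (Icc 1 x).filter Squarefree, cc h n * Real.log n =
      ∑ y ∈ ((Icc 1 x).filter Squarefree).sigma fun n => n.primeFactors,
        cc h (y.1 / y.2) * h y.2 * Real.log y.2 := by
    rw [sum_sigma]
    refine sum_congr rfl fun n hn => ?_
    have hsq := (mem_filter.1 hn).2
    have h2 : Real.log n = ∑ p ∈ n.primeFactors, Real.log p := by
      conv_lhs => rw [← Nat.prod_primeFactors_of_squarefree hsq]
      push_cast
      rw [Real.log_prod]
      intro p hp
      have := (Nat.prime_of_mem_primeFactors hp).pos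
      positivity
    rw [h2, mul_sum]
    refine sum_congr rfl fun p hp => ?_
    have hpp := Nat.prime_of_mem_primeFactors hp
    have hpn := Nat.dvd_of_mem_primeFactors hp
    have h3 : cc h n = cc h (n / p) * h p := by
      unfold cc
      obtain ⟨m, hm⟩ := hpn
      have hcop : Nat.Coprime p m := by
        rw [hm] at hsq
        exact (Nat.squarefree_mul_iff.1 hsq).1
      rw [hm, Nat.mul_div_cancel_left m hpp.pos, hcop.primeFactors_mul,
        prod_union hcop.disjoint_primeFactors, hpp.primeFactors, prod_singleton, mul_comm]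
    rw [h3]
  rw [h1]
  have h4 : ∑ y ∈ ((Icc 1 x).filter Squarefree).sigma fun n => n.primeFactors,
      cc h (y.1 / y.2) * h y.2 * Real.log y.2 =
      ∑ z ∈ (((Icc 1 x).filter Squarefree).sigma fun n => n.primeFactors).image
        (fun y => (⟨y.1 / y.2, y.2⟩ : (Σ _ : ℕ, ℕ))), cc h z.1 * h z.2 * Real.log z.2 := by
    rw [sum_image]
    rintro ⟨n, p⟩ hn ⟨m, q⟩ hm hnm
    have hn' : p ∈ n.primeFactors := (mem_sigma.1 hn).2
    have hm' : q ∈ m.primeFactors := (mem_sigma.1 hm).2
    simp only [Sigma.mk.injEq, heq_eq_eq] at hnm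
    obtain ⟨e1, e2⟩ := hnm
    have g1 : n / p * p = n := Nat.div_mul_cancel (Nat.dvd_of_mem_primeFactors hn')
    have g2 : m / q * q = m := Nat.div_mul_cancel (Nat.dvd_of_mem_primeFactors hm')
    have g3 : n = m := by
      rw [← g1, ← g2, e1, e2]
    subst e2
    rw [g3]
  rw [h4]
  have h5 : ∑ z ∈ (((Icc 1 x).filter Squarefree).sigma fun n => n.primeFactors).image
        (fun y => (⟨y.1 / y.2, y.2⟩ : (Σ _ : ℕ, ℕ))), cc h z.1 * h z.2 * Real.log z.2 ≤
      ∑ z ∈ ((Icc 1 x).filter Squarefree).sigma fun m => pri (x / m),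
        cc h z.1 * h z.2 * Real.log z.2 := by
    refine sum_le_sum_of_subset_of_nonneg ?_ ?_
    · intro z hz
      obtain ⟨⟨n, p⟩, hy, rfl⟩ := mem_image.1 hz
      obtain ⟨hn, hp⟩ := mem_sigma.1 hy
      have hp' : p ∈ n.primeFactors := hp
      have hn' : n ∈ (Icc 1 x).filter Squarefree := hn
      have hpp := Nat.prime_of_mem_primeFactors hp'
      have hpn := Nat.dvd_of_mem_primeFactors hp'
      have hI := mem_Icc.1 (mem_filter.1 hn').1
      have hsq := (mem_filter.1 hn').2
      have hle : p ≤ n := Nat.le_of_dvd (by omega) hpn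
      have hpos : 0 < n / p := Nat.div_pos hle hpp.pos
      rw [mem_sigma]
      refine ⟨?_, ?_⟩
      · show n / p ∈ (Icc 1 x).filter Squarefree
        rw [mem_filter, mem_Icc]
        exact ⟨⟨hpos, (Nat.div_le_self n p).trans hI.2⟩,
          hsq.squarefree_of_dvd (Nat.div_dvd_of_dvd hpn)⟩
      · show p ∈ pri (x / (n / p))
        rw [mem_pri]
        refine ⟨?_, hpp⟩
        rw [Nat.le_div_iff_mul_le hpos, Nat.mul_div_cancel' hpn]
        exact hI.2
    · intro z _ _
      exact mul_nonneg (mul_nonneg (hcc _) (hh _).1) (Real.log_natCast_nonneg _)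
  refine h5.trans ?_
  rw [sum_sigma, mul_sum]
  refine sum_le_sum fun m hm => ?_
  have hm1 : 1 ≤ m := (mem_Icc.1 (mem_filter.1 hm).1).1
  have hm0 : (0 : ℝ) < m := by exact_mod_cast hm1
  have h6 : ∑ p ∈ pri (x / m), Real.log p ≤ Real.log 4 * (x / m) := by
    have h7 := Chebyshev.theta_le_log4_mul_x (x := ((x / m : ℕ) : ℝ)) (Nat.cast_nonneg _)
    have h8 : Chebyshev.theta ((x / m : ℕ) : ℝ) = ∑ p ∈ pri (x / m), Real.log p := by
      unfold Chebyshev.theta pri
      rw [Nat.floor_natCast]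
    rw [h8] at h7
    refine h7.trans ?_
    have h9 : ((x / m : ℕ) : ℝ) ≤ (x : ℝ) / m := Nat.cast_div_le
    exact mul_le_mul_of_nonneg_left h9 (Real.log_nonneg (by norm_num))
  calc ∑ p ∈ pri (x / m), cc h m * h p * Real.log p
      ≤ ∑ p ∈ pri (x / m), cc h m * R * Real.log p := by
        refine sum_le_sum fun p _ => ?_
        exact mul_le_mul_of_nonneg_right (mul_le_mul_of_nonneg_left (hh p).2 (hcc m))
          (Real.log_natCast_nonneg _)
    _ = cc h m * R * ∑ p ∈ pri (x / m), Real.log p := by rw [mul_sum]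
    _ ≤ cc h m * R * (Real.log 4 * (x / m)) :=
        mul_le_mul_of_nonneg_left h6 (mul_nonneg (hcc m) hR)
    _ = R * Real.log 4 * x * (cc h m / m) := by ring

theorem ht (R : ℝ) (hR : 0 ≤ R) : ∃ C : ℝ, 0 < C ∧ ∀ h : ℕ → ℝ, (∀ p, 0 ≤ h p ∧ h p ≤ R) →
    ∀ x : ℕ, 2 ≤ x → ∑ n ∈ (Icc 1 x).filter Squarefree, cc h n ≤
      C * (x / Real.log x) * Real.exp (∑ p ∈ pri x, h p / p) := by
  refine ⟨R * Real.log 4 + 1, ?_, ?_⟩
  · have h4 : 0 < Real.log 4 := Real.log_pos (by norm_num)
    positivity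
  intro h hh x hx
  set S : Finset ℕ := (Icc 1 x).filter Squarefree with hS
  set F : ℝ := ∑ n ∈ S, cc h n with hF
  set G : ℝ := ∑ n ∈ S, cc h n / n with hG
  have hxpos : (0 : ℝ) < x := by exact_mod_cast (by omega : 0 < x)
  have hlog : 0 < Real.log x := Real.log_pos (by exact_mod_cast (by omega : 1 < x))
  have hcc : ∀ n, 0 ≤ cc h n := fun n => prod_nonneg fun p _ => (hh p).1
  have h1 : G ≤ Real.exp (∑ p ∈ pri x, h p / p) := sum_div_le h (fun p => (hh p).1) x
  have h2 : ∑ n ∈ S, cc h n * Real.log n ≤ R * Real.log 4 * x * G := sum_log_le hR h hh x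
  have h3 : ∑ n ∈ S, cc h n * Real.log (x / n) ≤ x * G := by
    rw [hG, mul_sum]
    refine sum_le_sum fun n hn => ?_
    have hn1 : 1 ≤ n := (mem_Icc.1 (mem_filter.1 hn).1).1
    have hn0 : (0 : ℝ) < n := by exact_mod_cast hn1
    have h4 : Real.log ((x : ℝ) / n) ≤ x / n :=
      (Real.log_le_sub_one_of_pos (div_pos hxpos hn0)).trans (by linarith)
    calc cc h n * Real.log ((x : ℝ) / n) ≤ cc h n * (x / n) :=
          mul_le_mul_of_nonneg_left h4 (hcc n)
      _ = x * (cc h n / n) := by ring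
  have h5 : F * Real.log x ≤ (R * Real.log 4 + 1) * x * G := by
    have h6 : F * Real.log x = ∑ n ∈ S, cc h n * Real.log n +
        ∑ n ∈ S, cc h n * Real.log (x / n) := by
      rw [hF, sum_mul, ← sum_add_distrib]
      refine sum_congr rfl fun n hn => ?_
      have hn1 : 1 ≤ n := (mem_Icc.1 (mem_filter.1 hn).1).1
      have hn0 : (0 : ℝ) < n := by exact_mod_cast hn1
      rw [Real.log_div hxpos.ne' hn0.ne']
      ring
    rw [h6]
    nlinarith [h2, h3]
  have hC : 0 ≤ R * Real.log 4 + 1 := by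
    have h4 : 0 < Real.log 4 := Real.log_pos (by norm_num)
    positivity
  have h7 : F ≤ (R * Real.log 4 + 1) * x * G / Real.log x := (le_div_iff₀ hlog).2 h5
  refine h7.trans ?_
  have h8 : (R * Real.log 4 + 1) * x * G ≤
      (R * Real.log 4 + 1) * x * Real.exp (∑ p ∈ pri x, h p / p) :=
    mul_le_mul_of_nonneg_left h1 (by positivity)
  calc (R * Real.log 4 + 1) * x * G / Real.log x
      ≤ (R * Real.log 4 + 1) * x * Real.exp (∑ p ∈ pri x, h p / p) / Real.log x :=
        div_le_div_of_nonneg_right h8 hlog.le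
    _ = (R * Real.log 4 + 1) * (x / Real.log x) * Real.exp (∑ p ∈ pri x, h p / p) := by
        ring

end Pool.Agent.QTW
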