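import Pool.Agent.QTW.Per
import Pool.Agent.QTW.HT
import Pool.Agent.MEN.Mer

/-!
# QTW-CSum: an upper bound for `∑ χ(p)/p`, uniform in the character

The quadratic character of a nonsquare `a` (as a completely multiplicative function on `ℕ`) is periodic with sum zero over a period, by
quadratic reciprocity; so its `L`-function at `1 + 1 / log x` is `O(log |a|)`. The Euler product and Mertens' theorems compare
`∑ χ(p) / p` over the primes up to `x` with the logarithm of the `L`-function.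
-/

set_option autoImplicit false

namespace Pool.Agent.QTW

open Finset

/-! ### A negative value of the symbol of a nonsquare -/

private theorem nonres {l : ℕ} (hl : l.Prime) (h2 : l ≠ 2) : ∃ r : ℕ, jacobiSym r l = -1 := by
  have := Fact.mk hl
  obtain ⟨x, hx⟩ := FiniteField.exists_nonsquare (F := ZMod l) (by rw [ZMod.ringChar_zmod_n]; exact h2)
  refine ⟨x.val, ?_⟩
  rw [← jacobiSym.legendreSym.to_jacobiSym, legendreSym.eq_neg_one_iff]
  simpa using hx

private theorem exists_neg {a : ℤ} (ha : ¬ IsSquare a) : ∃ n : ℕ, Odd n ∧ jacobiSym a n = -1 := by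
  have ha0 : a ≠ 0 := by rintro rfl; exact ha ⟨0, by simp⟩
  obtain ⟨d, b, hbd, hd⟩ := Nat.sq_mul_squarefree a.natAbs
  obtain ⟨s, hs, has⟩ : ∃ s : ℤ, (s = 1 ∨ s = -1) ∧ a = s * a.natAbs := by
    rcases Int.natAbs_eq a with h | h
    · exact ⟨1, Or.inl rfl, by rw [one_mul]; exact h⟩
    · exact ⟨-1, Or.inr rfl, by rw [neg_one_mul]; exact h⟩
  have hs1 : s.natAbs = 1 := by rcases hs with rfl | rfl <;> rfl
  have hna : a.natAbs ≠ 0 := Int.natAbs_ne_zero.2 ha0
  have hb0 : b ≠ 0 := by rintro rfl; apply hna; rw [← hbd]; simp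
  have hd0 : d ≠ 0 := hd.ne_zero
  have haD : a = (s * d) * (b : ℤ) ^ 2 := by
    rw [has, ← hbd]; push_cast; ring
  suffices h : ∃ n : ℕ, Odd n ∧ Nat.Coprime b n ∧ jacobiSym (s * d) n = -1 by
    obtain ⟨n, h1, h2, h3⟩ := h
    refine ⟨n, h1, ?_⟩
    rw [haD, jacobiSym.mul_left, h3, jacobiSym.sq_one' (by
      rw [Int.gcd_natCast_natCast]; exact h2), mul_one]
  by_cases hodd : ∃ l : ℕ, l.Prime ∧ l ≠ 2 ∧ l ∣ d
  · obtain ⟨l, hl, hl2, d', hd'⟩ := hodd
    obtain ⟨r, hr⟩ := nonres hl hl2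
    have hcop : Nat.Coprime l d' := by
      rw [hd'] at hd; exact Nat.coprime_of_squarefree_mul hd
    have hd'0 : d' ≠ 0 := by rintro rfl; exact hd0 (by rw [hd', mul_zero])
    have hcb : Nat.Coprime l (b / l ^ b.factorization l) := Nat.coprime_ordCompl hl hb0
    have hc2 : Nat.Coprime l 8 := by
      have h1 : Nat.Coprime l 2 := (Nat.coprime_primes hl Nat.prime_two).2 hl2
      have : (8 : ℕ) = 2 ^ 3 := by norm_num
      rw [this]
      exact Nat.Coprime.pow_right 3 h1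
    have hc8 : Nat.Coprime l (8 * d' * (b / l ^ b.factorization l)) :=
      Nat.Coprime.mul_right (Nat.Coprime.mul_right hc2 hcop) hcb
    obtain ⟨n, hn1, hn2⟩ := Nat.chineseRemainder hc8 r 1
    have hn8d : n ≡ 1 [MOD 8 * d'] := hn2.of_mul_right _
    have hn8 : n % 8 = 1 := hn8d.of_mul_right _
    have hnb : n ≡ 1 [MOD b / l ^ b.factorization l] := hn2.of_mul_left _
    have hnodd : Odd n := by rw [Nat.odd_iff]; omega
    have hlodd : Odd l := hl.odd_of_ne_two hl2
    have hJ : jacobiSym n l = -1 := by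
      rw [← hr]
      exact jacobiSym.mod_left' (by exact_mod_cast hn1)
    have : NeZero l := ⟨hl.ne_zero⟩
    have hcl : Nat.Coprime l n := by
      by_contra h
      have h1 : jacobiSym n l = 0 := by
        rw [jacobiSym.eq_zero_iff_not_coprime, Int.gcd_natCast_natCast]
        exact fun h' => h (Nat.Coprime.symm h')
      rw [h1] at hJ
      norm_num at hJ
    refine ⟨n, hnodd, ?_, ?_⟩
    · rw [← Nat.ordProj_mul_ordCompl_eq_self b l]
      refine Nat.Coprime.mul_left (Nat.Coprime.pow_left _ hcl) ?_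
      have h1 := hnb.gcd_eq
      rw [Nat.gcd_one_left] at h1
      exact Nat.Coprime.symm h1
    · have h1 : (s * (d : ℤ)) = (l : ℤ) * (s * d') := by rw [hd']; push_cast; ring
      rw [h1, jacobiSym.mul_left, jacobiSym.quadratic_reciprocity_one_mod_four' hlodd (by omega), hJ,
        jacobiSym.mod_right (s * d') hnodd]
      have h2 : (s * (d' : ℤ)).natAbs = d' := by rw [Int.natAbs_mul, hs1, one_mul, Int.natAbs_natCast]
      have h3 : n % (4 * d') = 1 := by
        have h4 : n ≡ 1 [MOD 4 * d'] := hn8d.of_dvd ⟨2, by ring⟩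
        have h5 : 1 % (4 * d') = 1 := Nat.mod_eq_of_lt (by omega)
        rw [← h5]
        exact h4
      rw [h2, h3, jacobiSym.one_right]
      norm_num
  · push Not at hodd
    have hd12 : d = 1 ∨ d = 2 := by
      by_cases h1 : d = 1
      · exact Or.inl h1
      · right
        obtain ⟨p, hp, hpd⟩ := Nat.exists_prime_and_dvd h1
        have hp2 : p = 2 := by
          by_contra h; exact hodd p hp h hpd
        subst hp2
        obtain ⟨e, he⟩ := hpd
        by_cases h2 : e = 1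
        · rw [he, h2]
        · exfalso
          obtain ⟨p', hp', hpe⟩ := Nat.exists_prime_and_dvd h2
          have hp2' : p' = 2 := by
            by_contra h; exact hodd p' hp' h (hpe.trans ⟨2, by rw [he]; ring⟩)
          subst hp2'
          rw [he] at hd
          have := Nat.coprime_of_squarefree_mul hd
          exact absurd (Nat.dvd_gcd (dvd_refl 2) hpe) (by rw [this]; norm_num)
    have hcb : Nat.Coprime 8 (b / 2 ^ b.factorization 2) := by
      have : (8 : ℕ) = 2 ^ 3 := by norm_num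
      rw [this]
      exact Nat.Coprime.pow_left 3 (Nat.coprime_ordCompl Nat.prime_two hb0)
    have hgen : ∀ c : ℕ, c % 2 = 1 → ∃ n : ℕ, n % 8 = c % 8 ∧ Odd n ∧ Nat.Coprime b n := by
      intro c hc
      obtain ⟨n, hn1, hn2⟩ := Nat.chineseRemainder hcb c 1
      have hn8 : n % 8 = c % 8 := hn1
      have hodd : Odd n := by rw [Nat.odd_iff]; omega
      refine ⟨n, hn8, hodd, ?_⟩
      rw [← Nat.ordProj_mul_ordCompl_eq_self b 2]
      refine Nat.Coprime.mul_left (Nat.Coprime.pow_left _ ?_) ?_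
      · exact (Nat.coprime_two_left).2 hodd
      · have h1 := hn2.gcd_eq
        rw [Nat.gcd_one_left] at h1
        exact Nat.Coprime.symm h1
    rcases hd12 with rfl | rfl
    · rcases hs with rfl | rfl
      · exfalso
        apply ha
        exact ⟨b, by rw [haD]; push_cast; ring⟩
      · obtain ⟨n, hn8, hn, hbn⟩ := hgen 3 (by norm_num)
        refine ⟨n, hn, hbn, ?_⟩
        rw [jacobiSym.mod_right _ hn]
        have h1 : n % (4 * (-1 * ((1 : ℕ) : ℤ)).natAbs) = 3 := by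
          have : (-1 * ((1 : ℕ) : ℤ)).natAbs = 1 := rfl
          rw [this]; omega
        rw [h1]
        norm_num
    · obtain ⟨n, hn8, hn, hbn⟩ := hgen 5 (by norm_num)
      refine ⟨n, hn, hbn, ?_⟩
      rw [jacobiSym.mod_right _ hn]
      have h1 : n % (4 * (s * ((2 : ℕ) : ℤ)).natAbs) = 5 := by
        have : (s * ((2 : ℕ) : ℤ)).natAbs = 2 := by rw [Int.natAbs_mul, hs1]; rfl
        rw [this]; omega
      rw [h1]
      rcases hs with rfl | rfl <;> norm_num

/-! ### The character -/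

/-- the quadratic character of `a`, as a function on `ℕ`. -/
private noncomputable def ch (a : ℤ) : ℕ →*₀ ℝ where
  toFun n := if Odd n then J a n else 0
  map_zero' := by simp
  map_one' := by simp [J]
  map_mul' m n := by
    by_cases hm : Odd m
    · by_cases hn : Odd n
      · have h : Odd (m * n) := hm.mul hn
        have : NeZero m := ⟨hm.pos.ne'⟩
        have : NeZero n := ⟨hn.pos.ne'⟩
        rw [if_pos h, if_pos hm, if_pos hn, J, J, J, jacobiSym.mul_right]
        push_cast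
        ring
      · have h : ¬ Odd (m * n) := fun h => hn (Nat.odd_mul.1 h).2
        rw [if_neg h, if_neg hn, mul_zero]
    · have h : ¬ Odd (m * n) := fun h => hm (Nat.odd_mul.1 h).1
      rw [if_neg h, if_neg hm, zero_mul]

private theorem ch_apply (a : ℤ) (n : ℕ) : ch a n = if Odd n then J a n else 0 := rfl

private theorem abs_J_le (a : ℤ) (n : ℕ) : |J a n| ≤ 1 := by
  unfold J
  rcases jacobiSym.trichotomy a n with h | h | h <;> rw [h] <;> norm_num

private theorem abs_ch_le (a : ℤ) (n : ℕ) : |ch a n| ≤ 1 := by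
  rw [ch_apply]
  split_ifs
  · exact abs_J_le a n
  · norm_num

private theorem ch_mod (a : ℤ) (n : ℕ) : ch a (n % (4 * a.natAbs)) = ch a n := by
  have hpar : (n % (4 * a.natAbs)) % 2 = n % 2 := Nat.mod_mod_of_dvd n ⟨2 * a.natAbs, by ring⟩
  rw [ch_apply, ch_apply]
  by_cases hn : Odd n
  · have h : Odd (n % (4 * a.natAbs)) := by rw [Nat.odd_iff] at hn ⊢; rw [hpar]; exact hn
    rw [if_pos h, if_pos hn, J, J, ← jacobiSym.mod_right a hn]
  · have h : ¬ Odd (n % (4 * a.natAbs)) := by rw [Nat.odd_iff] at hn ⊢; rw [hpar]; exact hn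
    rw [if_neg h, if_neg hn]

private theorem ch_sum_zero {a : ℤ} (ha : ¬ IsSquare a) :
    ∑ n ∈ range (4 * a.natAbs), ch a n = 0 := by
  have ha0 : a ≠ 0 := by rintro rfl; exact ha ⟨0, by simp⟩
  have hna : a.natAbs ≠ 0 := Int.natAbs_ne_zero.2 ha0
  obtain ⟨q, hq⟩ : ∃ q : ℕ, q = 4 * a.natAbs := ⟨_, rfl⟩
  have : NeZero q := ⟨by rw [hq]; omega⟩
  obtain ⟨n₀, hodd, hJ⟩ := exists_neg ha
  have : NeZero n₀ := ⟨hodd.pos.ne'⟩
  have hco : Nat.Coprime n₀ q := by
    have h1 : Nat.Coprime n₀ a.natAbs := by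
      by_contra h
      have h2 : jacobiSym a n₀ = 0 := by
        rw [jacobiSym.eq_zero_iff_not_coprime]
        intro h'
        apply h
        rw [Int.gcd_eq_natAbs, Int.natAbs_natCast] at h'
        exact Nat.Coprime.symm h'
      rw [h2] at hJ
      norm_num at hJ
    have h2 : Nat.Coprime n₀ 4 := by
      have : (4 : ℕ) = 2 ^ 2 := by norm_num
      rw [this]
      exact Nat.Coprime.pow_right 2 (Nat.coprime_two_right.2 hodd)
    rw [hq]
    exact Nat.Coprime.mul_right h2 h1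
  have hmq : ∀ n, ch a (n % q) = ch a n := fun n => by rw [hq]; exact ch_mod a n
  rw [← hq]
  have e1 : ∑ n ∈ range q, ch a n = ∑ x : ZMod q, ch a x.val := by
    refine (Finset.sum_nbij' (fun x : ZMod q => x.val) (fun n => (n : ZMod q)) ?_ ?_ ?_ ?_ ?_).symm
    · intro x _; exact mem_range.2 (ZMod.val_lt x)
    · intro n _; exact mem_univ _
    · intro x _; exact ZMod.natCast_zmod_val x
    · intro n hn
      show ((n : ZMod q)).val = n
      rw [ZMod.val_natCast, Nat.mod_eq_of_lt (mem_range.1 hn)]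
    · intro x _; rfl
  have e2 : ∑ x : ZMod q, ch a x.val = ∑ x : ZMod q, ch a ((ZMod.unitOfCoprime n₀ hco : ZMod q) * x).val :=
    (Equiv.sum_comp (Units.mulLeft (ZMod.unitOfCoprime n₀ hco)) (fun x : ZMod q => ch a x.val)).symm
  have e3 : ∀ x : ZMod q, ch a ((ZMod.unitOfCoprime n₀ hco : ZMod q) * x).val = -ch a x.val := by
    intro x
    have h1 : ch a n₀ = -1 := by
      rw [ch_apply, if_pos hodd, J, hJ]; norm_num
    rw [ZMod.coe_unitOfCoprime, ZMod.val_mul, ZMod.val_natCast, hmq, map_mul, hmq, h1]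
    ring
  rw [e1]
  have e4 := e2
  rw [Finset.sum_congr rfl fun x _ => e3 x, Finset.sum_neg_distrib] at e4
  linarith

private theorem ch_add {a : ℤ} (n : ℕ) : ch a (4 * a.natAbs + n) = ch a n := by
  rw [← ch_mod a (4 * a.natAbs + n), Nat.add_mod_left, ch_mod]

private theorem ch_sum_le {a : ℤ} (ha : ¬ IsSquare a) (m : ℕ) :
    ∑ n ∈ range m, ch a n ≤ (4 * a.natAbs : ℕ) := by
  have ha0 : a ≠ 0 := by rintro rfl; exact ha ⟨0, by simp⟩
  have hna : a.natAbs ≠ 0 := Int.natAbs_ne_zero.2 ha0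
  induction m using Nat.strong_induction_on with
  | _ m ih =>
    rcases lt_or_ge m (4 * a.natAbs) with h | h
    · calc ∑ n ∈ range m, ch a n ≤ ∑ n ∈ range m, (1 : ℝ) :=
            Finset.sum_le_sum fun n _ => (le_abs_self _).trans (abs_ch_le a n)
        _ = m := by simp
        _ ≤ _ := by exact_mod_cast h.le
    · obtain ⟨k, rfl⟩ := Nat.exists_eq_add_of_le h
      rw [Finset.sum_range_add, ch_sum_zero ha, zero_add]
      simp only [ch_add]
      exact ih k (by omega)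

/-! ### Sums with decreasing weights -/

private theorem abel_le {c w : ℕ → ℝ} {B : ℝ} (hc : ∀ m, ∑ n ∈ range m, c n ≤ B)
    (hw : Antitone w) (hw0 : ∀ n, 0 ≤ w n) (N : ℕ) : ∑ n ∈ range N, c n * w n ≤ B * w 0 := by
  have h : ∀ N : ℕ, ∑ n ∈ range N, c n * w n ≤ (∑ n ∈ range N, c n) * w N + B * (w 0 - w N) := by
    intro N
    induction N with
    | zero => simp
    | succ N ih =>
      rw [Finset.sum_range_succ]
      have h1 : (∑ n ∈ range (N + 1), c n) * (w N - w (N + 1)) ≤ B * (w N - w (N + 1)) :=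
        mul_le_mul_of_nonneg_right (hc (N + 1)) (by linarith [hw (Nat.le_succ N)])
      rw [Finset.sum_range_succ c N] at h1 ⊢
      linarith
  have h1 := h N
  have h2 : (∑ n ∈ range N, c n) * w N ≤ B * w N := mul_le_mul_of_nonneg_right (hc N) (hw0 N)
  linarith

private theorem rpow_anti {σ : ℝ} (hσ : 0 < σ) {m n : ℕ} (hm : 0 < m) (h : m ≤ n) :
    (n : ℝ) ^ (-σ) ≤ (m : ℝ) ^ (-σ) :=
  Real.rpow_le_rpow_of_nonpos (by exact_mod_cast hm) (by exact_mod_cast h) (by linarith)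

private theorem rpow_le_inv {σ : ℝ} (hσ : 1 < σ) (n : ℕ) : (n : ℝ) ^ (-σ) ≤ 1 / (n : ℝ) := by
  rcases Nat.eq_zero_or_pos n with rfl | hn
  · rw [Nat.cast_zero, Real.zero_rpow (by linarith)]; simp
  · have h1 : (1 : ℝ) ≤ n := by exact_mod_cast hn
    rw [one_div, ← Real.rpow_neg_one]
    exact Real.rpow_le_rpow_of_exponent_le h1 (by linarith)

private theorem sum_inv_le {q : ℕ} (hq : 0 < q) : ∑ n ∈ range q, 1 / (n : ℝ) ≤ 1 + Real.log q := by
  obtain ⟨m, rfl⟩ := Nat.exists_eq_succ_of_ne_zero hq.ne'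
  rw [Finset.sum_range_succ']
  have h1 := harmonic_le_one_add_log m
  have h2 : ((harmonic m : ℚ) : ℝ) = ∑ i ∈ range m, 1 / ((i + 1 : ℕ) : ℝ) := by
    unfold harmonic
    push_cast
    simp
  rw [h2] at h1
  have h3 : Real.log m ≤ Real.log (m + 1 : ℕ) := by
    rcases Nat.eq_zero_or_pos m with rfl | hm
    · simp
    · exact Real.log_le_log (by exact_mod_cast hm) (by push_cast; linarith)
  simp only [Nat.cast_zero, div_zero, add_zero]
  exact h1.trans (by linarith)

/-- upper bound for the partial sums of `L(σ, χ)`. -/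
private theorem L_le {a : ℤ} (ha : ¬ IsSquare a) {σ : ℝ} (hσ : 1 < σ) (m : ℕ) :
    ∑ n ∈ range (4 * a.natAbs + m), ch a n * (n : ℝ) ^ (-σ) ≤ 2 + Real.log (4 * a.natAbs : ℕ) := by
  have ha0 : a ≠ 0 := by rintro rfl; exact ha ⟨0, by simp⟩
  have hna : a.natAbs ≠ 0 := Int.natAbs_ne_zero.2 ha0
  obtain ⟨q, hq⟩ : ∃ q : ℕ, q = 4 * a.natAbs := ⟨_, rfl⟩
  have hq0 : 0 < q := by rw [hq]; omega
  have hadd : ∀ n, ch a (q + n) = ch a n := fun n => by rw [hq]; exact ch_add n
  have hle : ∀ m, ∑ n ∈ range m, ch a n ≤ (q : ℝ) := fun m => by rw [hq]; exact ch_sum_le ha m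
  rw [← hq, Finset.sum_range_add]
  have h1 : ∑ n ∈ range q, ch a n * (n : ℝ) ^ (-σ) ≤ 1 + Real.log q := by
    refine (Finset.sum_le_sum fun n _ => ?_).trans (sum_inv_le hq0)
    have h2 : 0 ≤ (n : ℝ) ^ (-σ) := Real.rpow_nonneg (Nat.cast_nonneg n) _
    calc ch a n * (n : ℝ) ^ (-σ) ≤ 1 * (n : ℝ) ^ (-σ) :=
          mul_le_mul_of_nonneg_right ((le_abs_self _).trans (abs_ch_le a n)) h2
      _ ≤ 1 / (n : ℝ) := by rw [one_mul]; exact rpow_le_inv hσ n
  have h2 : ∑ n ∈ range m, ch a (q + n) * ((q + n : ℕ) : ℝ) ^ (-σ) ≤ q * ((q + 0 : ℕ) : ℝ) ^ (-σ) := by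
    simp only [hadd]
    exact abel_le (w := fun n => ((q + n : ℕ) : ℝ) ^ (-σ)) hle
      (fun i j hij => rpow_anti (by linarith) (by omega) (by omega))
      (fun n => Real.rpow_nonneg (Nat.cast_nonneg _) _) m
  have h3 : (q : ℝ) * ((q + 0 : ℕ) : ℝ) ^ (-σ) ≤ 1 := by
    rw [Nat.add_zero]
    have h4 := rpow_le_inv hσ q
    have hq1 : (0 : ℝ) < q := by exact_mod_cast hq0
    calc (q : ℝ) * (q : ℝ) ^ (-σ) ≤ q * (1 / q) := mul_le_mul_of_nonneg_left h4 hq1.le
      _ = 1 := mul_one_div_cancel hq1.ne'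
  linarith

/-! ### The zeta function -/

private theorem zeta_step {s x : ℝ} (hs : 0 < s) (hx : 0 < x) :
    s * (x + 1) ^ (-(1 + s)) ≤ x ^ (-s) - (x + 1) ^ (-s) := by
  have hy : 0 < x + 1 := by linarith
  have h1 : (x + 1) ^ (-(1 + s)) = (x + 1) ^ (-s) * (x + 1)⁻¹ := by
    rw [show -(1 + s) = -s + -1 by ring, Real.rpow_add hy, Real.rpow_neg_one]
  have h2 : Real.log x ≤ Real.log (x + 1) - (x + 1)⁻¹ := by
    have h3 := Real.log_le_sub_one_of_pos (div_pos hx hy)
    rw [Real.log_div hx.ne' hy.ne'] at h3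
    have h4 : x / (x + 1) - 1 = -(x + 1)⁻¹ := by field_simp; ring
    linarith
  have h3 : (x + 1) ^ (-s) * (1 + s * (x + 1)⁻¹) ≤ x ^ (-s) := by
    rw [Real.rpow_def_of_pos hx, Real.rpow_def_of_pos hy]
    have h4 : 1 + s * (x + 1)⁻¹ ≤ Real.exp (s * (x + 1)⁻¹) := by
      linarith [Real.add_one_le_exp (s * (x + 1)⁻¹)]
    calc Real.exp (Real.log (x + 1) * -s) * (1 + s * (x + 1)⁻¹)
        ≤ Real.exp (Real.log (x + 1) * -s) * Real.exp (s * (x + 1)⁻¹) :=
          mul_le_mul_of_nonneg_left h4 (Real.exp_pos _).le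
      _ = Real.exp (Real.log (x + 1) * -s + s * (x + 1)⁻¹) := (Real.exp_add _ _).symm
      _ ≤ Real.exp (Real.log x * -s) := Real.exp_le_exp.2 (by nlinarith)
  rw [h1]
  nlinarith

private theorem zeta_le {s : ℝ} (hs : 0 < s) (N : ℕ) :
    ∑ n ∈ range N, (n : ℝ) ^ (-(1 + s)) ≤ 1 + 1 / s := by
  have h : ∀ N : ℕ, ∑ n ∈ range (N + 2), (n : ℝ) ^ (-(1 + s)) ≤
      1 + 1 / s - ((N + 1 : ℕ) : ℝ) ^ (-s) / s := by
    intro N
    induction N with
    | zero =>
      rw [Finset.sum_range_succ, Finset.sum_range_succ, Finset.sum_range_zero]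
      rw [Nat.cast_zero, Real.zero_rpow (by linarith)]
      simp
    | succ N ih =>
      rw [Finset.sum_range_succ]
      have h1 := zeta_step hs (x := ((N + 1 : ℕ) : ℝ)) (by positivity)
      have h2 : (((N + 1 : ℕ) : ℝ) + 1) = ((N + 2 : ℕ) : ℝ) := by push_cast; ring
      rw [h2] at h1
      have h3 : ((N + 2 : ℕ) : ℝ) ^ (-(1 + s)) ≤
          ((N + 1 : ℕ) : ℝ) ^ (-s) / s - ((N + 2 : ℕ) : ℝ) ^ (-s) / s := by
        rw [← sub_div, le_div_iff₀ hs]
        linarith
      have h4 : N + 1 + 1 = N + 2 := rfl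
      rw [h4]
      linarith
  have h0 : ∀ n : ℕ, 0 ≤ (n : ℝ) ^ (-(1 + s)) := fun n => Real.rpow_nonneg (Nat.cast_nonneg n) _
  have h1 : ∑ n ∈ range N, (n : ℝ) ^ (-(1 + s)) ≤ ∑ n ∈ range (N + 2), (n : ℝ) ^ (-(1 + s)) :=
    Finset.sum_le_sum_of_subset_of_nonneg (Finset.range_subset_range.2 (by omega)) fun n _ _ => h0 n
  have h2 : 0 ≤ ((N + 1 : ℕ) : ℝ) ^ (-s) / s := by positivity
  linarith [h N]

/-! ### Euler products -/

private theorem euler_le {f : ℕ →*₀ ℝ} (hsum : Summable fun n => ‖f n‖)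
    (hlt : ∀ p : ℕ, p.Prime → f p < 1) {U : ℝ} {N0 : ℕ}
    (hU : ∀ N ≥ N0, U ≤ ∑ p ∈ Nat.primesBelow N, f p) : Real.exp U ≤ ∑' n, f n := by
  have h1 := EulerProduct.eulerProduct_completely_multiplicative hsum
  refine ge_of_tendsto h1 (Filter.eventually_atTop.2 ⟨N0, fun N hN => ?_⟩)
  calc Real.exp U ≤ Real.exp (∑ p ∈ Nat.primesBelow N, f p) := Real.exp_le_exp.2 (hU N hN)
    _ = ∏ p ∈ Nat.primesBelow N, Real.exp (f p) := Real.exp_sum _ _
    _ ≤ ∏ p ∈ Nat.primesBelow N, (1 - f p)⁻¹ := by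
        refine Finset.prod_le_prod (fun _ _ => (Real.exp_pos _).le) fun p hp => ?_
        have h2 := hlt p (Nat.prime_of_mem_primesBelow hp)
        have h3 := Real.one_sub_le_exp_neg (f p)
        have h4 : 0 < 1 - f p := by linarith
        have h5 : Real.exp (f p) = (Real.exp (-f p))⁻¹ := by rw [Real.exp_neg, inv_inv]
        rw [h5]
        exact inv_anti₀ h4 h3

/-- the function `n ↦ χ n / n ^ σ`. -/
private noncomputable def tw (χ : ℕ →*₀ ℝ) (σ : ℝ) : ℕ →*₀ ℝ where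
  toFun n := χ n * (n : ℝ) ^ (-σ)
  map_zero' := by simp
  map_one' := by simp
  map_mul' m n := by
    rw [map_mul, Nat.cast_mul, Real.mul_rpow (Nat.cast_nonneg m) (Nat.cast_nonneg n)]
    ring

/-- the function `n ↦ 1 / n ^ σ`. -/
private noncomputable def zt (σ : ℝ) (hσ : 1 < σ) : ℕ →*₀ ℝ where
  toFun n := (n : ℝ) ^ (-σ)
  map_zero' := by rw [Nat.cast_zero, Real.zero_rpow (by linarith)]
  map_one' := by simp
  map_mul' m n := by
    rw [Nat.cast_mul, Real.mul_rpow (Nat.cast_nonneg m) (Nat.cast_nonneg n)]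

private theorem summ {σ : ℝ} (hσ : 1 < σ) : Summable fun n : ℕ => (n : ℝ) ^ (-σ) :=
  Real.summable_nat_rpow.2 (by linarith)

private theorem prime_rpow_lt {σ : ℝ} (hσ : 1 < σ) {p : ℕ} (hp : p.Prime) : (p : ℝ) ^ (-σ) < 1 := by
  have h1 := rpow_le_inv hσ p
  have h2 : (2 : ℝ) ≤ p := by exact_mod_cast hp.two_le
  have h3 : 1 / (p : ℝ) ≤ 1 / 2 := one_div_le_one_div_of_le (by norm_num) h2
  linarith

private theorem zeta_primes {s : ℝ} (hs : 0 < s) (N : ℕ) :
    ∑ p ∈ Nat.primesBelow N, (p : ℝ) ^ (-(1 + s)) ≤ Real.log (1 + 1 / s) := by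
  have hσ : 1 < 1 + s := by linarith
  have hn : ∀ n : ℕ, 0 ≤ (n : ℝ) ^ (-(1 + s)) := fun n => Real.rpow_nonneg (Nat.cast_nonneg n) _
  have h1 : Real.exp (∑ p ∈ Nat.primesBelow N, (p : ℝ) ^ (-(1 + s))) ≤ ∑' n, zt (1 + s) hσ n := by
    refine euler_le (f := zt (1 + s) hσ) (N0 := N) ?_ (fun p hp => prime_rpow_lt hσ hp) fun N' hN' => ?_
    · have : (fun n => ‖zt (1 + s) hσ n‖) = fun n : ℕ => (n : ℝ) ^ (-(1 + s)) := by
        funext n
        show ‖(n : ℝ) ^ (-(1 + s))‖ = _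
        rw [Real.norm_of_nonneg (hn n)]
      rw [this]
      exact summ hσ
    · refine Finset.sum_le_sum_of_subset_of_nonneg ?_ fun n _ _ => hn n
      intro p hp
      rw [Nat.mem_primesBelow] at hp ⊢
      exact ⟨lt_of_lt_of_le hp.1 hN', hp.2⟩
  have h2 : ∑' n, zt (1 + s) hσ n ≤ 1 + 1 / s := by
    refine le_of_tendsto (summ hσ).hasSum.tendsto_sum_nat (Filter.Eventually.of_forall fun N => ?_)
    exact zeta_le hs N
  rw [Real.le_log_iff_exp_le (by positivity)]
  exact h1.trans h2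

/-! ### The main theorem -/

private theorem pri_eq (x : ℕ) : Helper52.pr 0 x = pri x := by
  ext p
  rw [Helper52.mem_pr, mem_pri]
  exact ⟨fun h => ⟨h.2.1, h.2.2⟩, fun h => ⟨h.2.pos, h.1, h.2⟩⟩

/-- comparison of `1 / p` and `1 / p ^ (1 + s)`. -/
private theorem diff_le {s : ℝ} {x : ℕ} (hs : 0 < s) (hx : 1 ≤ x) (c : ℕ → ℝ) (hc : ∀ p, |c p| ≤ 1) :
    ∑ p ∈ pri x, c p / (p : ℝ) ≤ ∑ p ∈ pri x, c p * (p : ℝ) ^ (-(1 + s)) +
      s * (Real.log x + Real.log 4) := by
  have h1 : ∑ p ∈ pri x, Real.log p / (p : ℝ) ≤ Real.log x + Real.log 4 := by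
    rw [← pri_eq]
    exact Helper52.mertens1 hx
  have h2 : ∀ p ∈ pri x, c p / (p : ℝ) ≤ c p * (p : ℝ) ^ (-(1 + s)) + s * (Real.log p / (p : ℝ)) := by
    intro p hp
    have hpp := (mem_pri.1 hp).2
    have hp0 : (0 : ℝ) < p := by exact_mod_cast hpp.pos
    have h3 : (p : ℝ) ^ (-(1 + s)) = (p : ℝ)⁻¹ * Real.exp (-(s * Real.log p)) := by
      rw [show -(1 + s) = -1 + -s by ring, Real.rpow_add hp0, Real.rpow_neg_one,
        Real.rpow_def_of_pos hp0 (-s)]
      congr 2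
      ring
    have h4 : 1 - s * Real.log p ≤ Real.exp (-(s * Real.log p)) := Real.one_sub_le_exp_neg _
    have h5 : Real.exp (-(s * Real.log p)) ≤ 1 := by
      rw [Real.exp_le_one_iff]
      have : 0 ≤ s * Real.log p := mul_nonneg hs.le (Real.log_natCast_nonneg p)
      linarith
    have h6 : c p * (1 - Real.exp (-(s * Real.log p))) ≤ s * Real.log p := by
      calc c p * (1 - Real.exp (-(s * Real.log p))) ≤ 1 * (1 - Real.exp (-(s * Real.log p))) :=
            mul_le_mul_of_nonneg_right ((le_abs_self _).trans (hc p)) (by linarith)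
        _ ≤ _ := by linarith
    have h7 := mul_le_mul_of_nonneg_left h6 (inv_pos.2 hp0).le
    rw [h3, div_eq_mul_inv, div_eq_mul_inv]
    nlinarith [h7]
  calc ∑ p ∈ pri x, c p / (p : ℝ)
      ≤ ∑ p ∈ pri x, (c p * (p : ℝ) ^ (-(1 + s)) + s * (Real.log p / (p : ℝ))) :=
        Finset.sum_le_sum h2
    _ = ∑ p ∈ pri x, c p * (p : ℝ) ^ (-(1 + s)) + s * ∑ p ∈ pri x, Real.log p / (p : ℝ) := by
        rw [Finset.sum_add_distrib, Finset.mul_sum]
    _ ≤ _ := by
        have := mul_le_mul_of_nonneg_left h1 hs.le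
        linarith

private theorem log_three : 1 < Real.log 3 := by
  rw [Real.lt_log_iff_exp_lt (by norm_num)]
  have := Real.exp_one_lt_d9
  linarith

private theorem csum_ch : ∃ C : ℝ, 0 < C ∧ ∀ a : ℤ, ¬ IsSquare a → ∀ x : ℕ, 3 ≤ x →
    ∑ p ∈ pri x, ch a p / (p : ℝ) ≤ Real.log (2 + Real.log (4 * a.natAbs : ℕ)) + C := by
  obtain ⟨CM, hCM, hmert⟩ := MEN.mert_sum0
  have hl4 : 0 < Real.log 4 := Real.log_pos (by norm_num)
  refine ⟨CM + 2 * (1 + Real.log 4) + 1, by positivity, fun a ha x hx => ?_⟩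
  have hx3 : (3 : ℝ) ≤ x := by exact_mod_cast hx
  have hL : 1 < Real.log x := log_three.trans_le (Real.log_le_log (by norm_num) hx3)
  obtain ⟨s, hs⟩ : ∃ s : ℝ, s = 1 / Real.log x := ⟨_, rfl⟩
  have hs0 : 0 < s := by rw [hs]; positivity
  have hsL : s * Real.log x = 1 := by rw [hs]; field_simp
  have hs1 : s ≤ 1 := by rw [hs, div_le_one (by linarith)]; exact hL.le
  have hsx : s * (Real.log x + Real.log 4) ≤ 1 + Real.log 4 := by nlinarith
  have hσ : 1 < 1 + s := by linarith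
  have hn : ∀ n : ℕ, 0 ≤ (n : ℝ) ^ (-(1 + s)) := fun n => Real.rpow_nonneg (Nat.cast_nonneg n) _
  -- the primes up to `x` in the zeta function
  have hz1 : Real.log (Real.log x) - CM - (1 + Real.log 4) ≤ ∑ p ∈ pri x, (p : ℝ) ^ (-(1 + s)) := by
    have h1 := diff_le hs0 (by omega : 1 ≤ x) (fun _ => 1) (fun _ => by norm_num)
    have h2 := (abs_le.1 (hmert x (by omega))).1
    rw [pri_eq] at h2
    simp only [one_mul] at h1
    linarith
  have hz2 : Real.log (1 + 1 / s) ≤ Real.log (Real.log x) + 1 := by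
    have h1 : 1 / s = Real.log x := by rw [hs]; field_simp
    rw [h1]
    have h2 : Real.log (1 + Real.log x) ≤ Real.log (Real.log x * Real.exp 1) := by
      refine Real.log_le_log (by linarith) ?_
      have h3 : (2 : ℝ) ≤ Real.exp 1 := by
        have := Real.add_one_le_exp (1 : ℝ)
        linarith
      nlinarith
    rw [Real.log_mul (by linarith) (Real.exp_pos 1).ne', Real.log_exp] at h2
    exact h2
  -- the Euler product
  obtain ⟨U, hU⟩ : ∃ U : ℝ, U = ∑ p ∈ pri x, ch a p * (p : ℝ) ^ (-(1 + s)) -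
    (CM + (1 + Real.log 4) + 1) := ⟨_, rfl⟩
  have hsub : ∀ N, x + 1 ≤ N → pri x ⊆ Nat.primesBelow N := by
    intro N hN p hp
    rw [mem_pri] at hp
    rw [Nat.mem_primesBelow]
    exact ⟨by omega, hp.2⟩
  have hE : Real.exp U ≤ ∑' n, tw (ch a) (1 + s) n := by
    refine euler_le (N0 := x + 1) ?_ (fun p hp => ?_) fun N hN => ?_
    · refine Summable.of_nonneg_of_le (fun n => norm_nonneg _) (fun n => ?_) (summ hσ)
      show ‖ch a n * (n : ℝ) ^ (-(1 + s))‖ ≤ _
      rw [norm_mul, Real.norm_of_nonneg (hn n), Real.norm_eq_abs]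
      calc |ch a n| * (n : ℝ) ^ (-(1 + s)) ≤ 1 * (n : ℝ) ^ (-(1 + s)) :=
            mul_le_mul_of_nonneg_right (abs_ch_le a n) (hn n)
        _ = _ := one_mul _
    · show ch a p * (p : ℝ) ^ (-(1 + s)) < 1
      calc ch a p * (p : ℝ) ^ (-(1 + s)) ≤ 1 * (p : ℝ) ^ (-(1 + s)) :=
            mul_le_mul_of_nonneg_right ((le_abs_self _).trans (abs_ch_le a p)) (hn p)
        _ < 1 := by rw [one_mul]; exact prime_rpow_lt hσ hp
    · show U ≤ ∑ p ∈ Nat.primesBelow N, ch a p * (p : ℝ) ^ (-(1 + s))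
      have h1 := zeta_primes hs0 N
      rw [← Finset.sum_sdiff (hsub N hN)] at h1 ⊢
      have h2 : -(∑ p ∈ Nat.primesBelow N \ pri x, (p : ℝ) ^ (-(1 + s))) ≤
          ∑ p ∈ Nat.primesBelow N \ pri x, ch a p * (p : ℝ) ^ (-(1 + s)) := by
        rw [← Finset.sum_neg_distrib]
        refine Finset.sum_le_sum fun p _ => ?_
        have h3 := mul_le_mul_of_nonneg_right (abs_le.1 (abs_ch_le a p)).1 (hn p)
        linarith
      linarith
  have hlim : ∑' n, tw (ch a) (1 + s) n ≤ 2 + Real.log (4 * a.natAbs : ℕ) := by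
    have hsum : Summable fun n => tw (ch a) (1 + s) n := by
      refine Summable.of_norm (Summable.of_nonneg_of_le (fun n => norm_nonneg _) (fun n => ?_) (summ hσ))
      show ‖ch a n * (n : ℝ) ^ (-(1 + s))‖ ≤ _
      rw [norm_mul, Real.norm_of_nonneg (hn n), Real.norm_eq_abs]
      calc |ch a n| * (n : ℝ) ^ (-(1 + s)) ≤ 1 * (n : ℝ) ^ (-(1 + s)) :=
            mul_le_mul_of_nonneg_right (abs_ch_le a n) (hn n)
        _ = _ := one_mul _
    refine le_of_tendsto hsum.hasSum.tendsto_sum_nat (Filter.eventually_atTop.2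
      ⟨4 * a.natAbs, fun N hN => ?_⟩)
    obtain ⟨m, rfl⟩ := Nat.exists_eq_add_of_le hN
    exact L_le ha hσ m
  have hfin : U ≤ Real.log (2 + Real.log (4 * a.natAbs : ℕ)) := by
    have h1 := hE.trans hlim
    rw [Real.le_log_iff_exp_le (lt_of_lt_of_le (Real.exp_pos U) h1)]
    exact h1
  have hd := diff_le hs0 (by omega : 1 ≤ x) (ch a) (abs_ch_le a)
  linarith

theorem csum : ∃ C : ℝ, 0 < C ∧ ∀ a : ℤ, ¬ IsSquare a → ∀ x : ℕ, 3 ≤ x →
    ∑ p ∈ (pri x).erase 2, J a p / p ≤ Real.log (Real.log (|(a : ℝ)| + 3)) + C := by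
  obtain ⟨C, hC, h⟩ := csum_ch
  have hl4 : 0 < Real.log 4 := Real.log_pos (by norm_num)
  have hK : 0 < Real.log (3 + Real.log 4) := Real.log_pos (by linarith)
  refine ⟨C + Real.log (3 + Real.log 4), by linarith, fun a ha x hx => ?_⟩
  have ha0 : a ≠ 0 := by rintro rfl; exact ha ⟨0, by simp⟩
  have hna : 1 ≤ a.natAbs := Nat.one_le_iff_ne_zero.2 (Int.natAbs_ne_zero.2 ha0)
  have hab : ((a.natAbs : ℕ) : ℝ) = |(a : ℝ)| := by rw [Nat.cast_natAbs, Int.cast_abs]
  have hab1 : 1 ≤ |(a : ℝ)| := by rw [← hab]; exact_mod_cast hna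
  have h1 : ∑ p ∈ (pri x).erase 2, J a p / p ≤ ∑ p ∈ pri x, ch a p / (p : ℝ) := by
    have h2 : (2 : ℕ) ∈ pri x := mem_pri.2 ⟨by omega, Nat.prime_two⟩
    rw [← Finset.add_sum_erase _ _ h2]
    have h3 : ch a 2 = 0 := by rw [ch_apply, if_neg (by decide)]
    rw [h3, zero_div, zero_add]
    refine Finset.sum_le_sum fun p hp => ?_
    rw [Finset.mem_erase] at hp
    have h4 : Odd p := (mem_pri.1 hp.2).2.odd_of_ne_two hp.1
    rw [ch_apply, if_pos h4]
  have h2 := h a ha x hx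
  have hLA : 1 < Real.log (|(a : ℝ)| + 3) :=
    log_three.trans_le (Real.log_le_log (by norm_num) (by linarith))
  have h3 : 2 + Real.log (4 * a.natAbs : ℕ) ≤ (3 + Real.log 4) * Real.log (|(a : ℝ)| + 3) := by
    push_cast
    rw [hab, Real.log_mul (by norm_num) (by linarith)]
    have h4 : Real.log |(a : ℝ)| ≤ Real.log (|(a : ℝ)| + 3) := Real.log_le_log (by linarith) (by linarith)
    nlinarith
  have h5 : 0 ≤ Real.log (4 * a.natAbs : ℕ) := Real.log_natCast_nonneg _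
  have h4 := Real.log_le_log (by linarith) h3
  rw [Real.log_mul (by linarith) (by linarith)] at h4
  linarith

open Classical in
theorem ind : ∃ C : ℝ, 0 < C ∧ ∀ a : ℤ, ¬ IsSquare a → ∀ x : ℕ, 3 ≤ x →
    ∑ p ∈ pri x, (if jacobiSym a p = 1 then (1 : ℝ) else 0) / p ≤
      (1 / 2 : ℝ) * Real.log (Real.log x) + Real.log (Real.log (|(a : ℝ)| + 3)) + C := by
  obtain ⟨C, hC, h⟩ := csum
  obtain ⟨CM, hCM, hmert⟩ := MEN.mert_sum0
  refine ⟨C + CM + 1, by linarith, fun a ha x hx => ?_⟩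
  have h1 := h a ha x hx
  have h2 := (abs_le.1 (hmert x (by omega))).2
  rw [pri_eq] at h2
  have h2m : (2 : ℕ) ∈ pri x := mem_pri.2 ⟨by omega, Nat.prime_two⟩
  rw [← Finset.add_sum_erase _ _ h2m] at h2 ⊢
  have h3 : (if jacobiSym a 2 = 1 then (1 : ℝ) else 0) / ((2 : ℕ) : ℝ) ≤ 1 / 2 := by
    split_ifs <;> norm_num
  have h4 : ∑ p ∈ (pri x).erase 2, (if jacobiSym a p = 1 then (1 : ℝ) else 0) / p ≤
      (1 / 2 : ℝ) * ∑ p ∈ (pri x).erase 2, 1 / (p : ℝ) + (1 / 2 : ℝ) * ∑ p ∈ (pri x).erase 2, J a p / p := by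
    rw [Finset.mul_sum, Finset.mul_sum, ← Finset.sum_add_distrib]
    refine Finset.sum_le_sum fun p hp => ?_
    have hp0 : (0 : ℝ) ≤ 1 / (p : ℝ) := by positivity
    unfold J
    rcases jacobiSym.trichotomy a p with h | h | h
    · rw [h, if_neg (by norm_num), Int.cast_zero, zero_div]; linarith
    · rw [h, if_pos rfl, Int.cast_one]; linarith
    · rw [h, if_neg (by norm_num), Int.cast_neg, Int.cast_one, zero_div, neg_div]; linarith
  have hLA : 1 < Real.log (|(a : ℝ)| + 3) :=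
    log_three.trans_le (Real.log_le_log (by norm_num) (by linarith [abs_nonneg (a : ℝ)]))
  have h5 : 0 ≤ Real.log (Real.log (|(a : ℝ)| + 3)) := Real.log_nonneg hLA.le
  have h6 : (0 : ℝ) ≤ 1 / ((2 : ℕ) : ℝ) := by positivity
  linarith

end Pool.Agent.QTW
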