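import Pool.Agent.QTW.Hyp

/-!
# QTW-Lnk: the sum over tuples with two large linked entries

PROOF. Group the tuples `D` by their entries at the `t ≠ t₁, t₂`: let `E` be such an outer tuple (say `E t₁ = E t₂ = 1`), `ρ = ∏ t, E t` and `D = E` with the
entries `a` at `t₁` and `b` at `t₂`. For fixed `E` (its entries `SF` and pairwise coprime) `term c ℓ D = w(E) * α a * β b * J a b` with
`|w(E)| ≤ 1` (all symbols between entries of `E`, and the `cc`), where
`α a = [SF a, a coprime to all E t, Q₁ (update E t₁ a)] * cc (c t₁) a * ∏_{t' ≠ t₁,t₂} (if ℓ t' t₁ then J (E t') a else 1) * ∏_{t ≠ t₁,t₂} (if ℓ t₁ t then J a (E t) else 1)`,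
`β b` the same with `t₂`, `Q₂`: here the pair `(t₁,t₂)` contributes exactly the symbol `J a b` (`ℓ t₁ t₂` true, `ℓ t₂ t₁` false), `ℓ t t` false. Both are `Adm` (`|cc| ≤ 1`, `|J| ≤ 1`).
The condition that `a`, `b` are coprime may be dropped or added (`J a b = 0` otherwise, `jacobiSym.eq_zero_iff_not_coprime`), and `∏ D ≤ Y` is `a * b ≤ Y / ρ`.
So by `hyp` (with `Y / ρ`, or an empty sum if `Y / ρ = 0`) the inner sum is at most `C (Y/ρ) (log Y + 1)^2 z^(-1/80)` in absolute value, and the sum over the outer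
tuples of `1/ρ` is at most `(∑_{n ≤ Y} 1/n)^(card T - 2) ≤ (1 + log Y)^(card T)`.
(Independence: `Q₁ D ↔ Q₁ (update E t₁ a)` and `Q₂ D ↔ Q₂ (update E t₂ b)` by the hypotheses.)
-/

set_option autoImplicit false

namespace Pool.Agent.QTW

open Finset

private theorem lk_absJ (a : ℤ) (n : ℕ) : |J a n| ≤ 1 := by
  unfold J
  rcases jacobiSym.trichotomy a n with h | h | h <;> rw [h] <;> norm_num

private theorem lk_abscc (c : ℕ → ℝ) (h : ∀ p, |c p| ≤ 1) (n : ℕ) : |cc c n| ≤ 1 := by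
  unfold cc
  rw [Finset.abs_prod]
  exact Finset.prod_le_one (fun p _ => abs_nonneg _) (fun p _ => h p)

private theorem lk_absif (b : Bool) (x : ℝ) (h : |x| ≤ 1) :
    |if b = true then x else 1| ≤ 1 := by
  split_ifs
  · exact h
  · simp

private theorem lk_absprod {ι : Type} (s : Finset ι) (f : ι → ℝ) (h : ∀ i ∈ s, |f i| ≤ 1) :
    |∏ i ∈ s, f i| ≤ 1 := by
  rw [Finset.abs_prod]
  exact Finset.prod_le_one (fun p _ => abs_nonneg _) h

private theorem lk_absmul {x y : ℝ} (hx : |x| ≤ 1) (hy : |y| ≤ 1) : |x * y| ≤ 1 := by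
  rw [abs_mul]
  exact mul_le_one₀ hx (abs_nonneg _) hy

section

variable {T : Type} [Fintype T] [DecidableEq T]

private def RR (t₁ t₂ : T) : Finset T := (univ.erase t₁).erase t₂

private theorem mem_RR {t₁ t₂ t : T} : t ∈ RR t₁ t₂ ↔ t ≠ t₂ ∧ t ≠ t₁ := by
  simp [RR]

private theorem lk_split {t₁ t₂ : T} (h : t₁ ≠ t₂) {M : Type} [CommMonoid M] (g : T → M) :
    ∏ t, g t = g t₁ * (g t₂ * ∏ t ∈ RR t₁ t₂, g t) := by
  unfold RR
  rw [← Finset.mul_prod_erase univ g (mem_univ t₁),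
    ← Finset.mul_prod_erase (univ.erase t₁) g (mem_erase.2 ⟨h.symm, mem_univ _⟩)]

private noncomputable def aa (c : T → ℕ → ℝ) (ℓ : T → T → Bool) (t₁ t₂ s : T) (E : T → ℕ)
    (a : ℕ) : ℝ :=
  cc (c s) a * (∏ t ∈ RR t₁ t₂, if ℓ t s then J (E t : ℤ) a else 1) *
    ∏ t ∈ RR t₁ t₂, if ℓ s t then J (a : ℤ) (E t) else 1

private noncomputable def ww (c : T → ℕ → ℝ) (ℓ : T → T → Bool) (t₁ t₂ : T) (E : T → ℕ) : ℝ :=
  (∏ t ∈ RR t₁ t₂, cc (c t) (E t)) *
    ∏ t ∈ RR t₁ t₂, ∏ t' ∈ RR t₁ t₂, if ℓ t' t then J (E t' : ℤ) (E t) else 1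

private theorem abs_aa {c : T → ℕ → ℝ} (hc : ∀ t p, |c t p| ≤ 1) (ℓ : T → T → Bool)
    (t₁ t₂ s : T) (E : T → ℕ) (a : ℕ) : |aa c ℓ t₁ t₂ s E a| ≤ 1 := by
  unfold aa
  exact lk_absmul (lk_absmul (lk_abscc _ (hc s) _)
    (lk_absprod _ _ fun t _ => lk_absif _ _ (lk_absJ _ _)))
    (lk_absprod _ _ fun t _ => lk_absif _ _ (lk_absJ _ _))

private theorem abs_ww {c : T → ℕ → ℝ} (hc : ∀ t p, |c t p| ≤ 1) (ℓ : T → T → Bool)
    (t₁ t₂ : T) (E : T → ℕ) : |ww c ℓ t₁ t₂ E| ≤ 1 := by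
  unfold ww
  exact lk_absmul (lk_absprod _ _ fun t _ => lk_abscc _ (hc t) _)
    (lk_absprod _ _ fun t _ => lk_absprod _ _ fun t' _ => lk_absif _ _ (lk_absJ _ _))

private theorem term_eq (c : T → ℕ → ℝ) {ℓ : T → T → Bool} (hl : ∀ t, ℓ t t = false)
    {t₁ t₂ : T} (h12 : t₁ ≠ t₂) (h1 : ℓ t₁ t₂ = true) (h2 : ℓ t₂ t₁ = false) (E : T → ℕ)
    (a b : ℕ) : term c ℓ (Function.update (Function.update E t₁ a) t₂ b) =
      ww c ℓ t₁ t₂ E * (aa c ℓ t₁ t₂ t₁ E a * aa c ℓ t₁ t₂ t₂ E b * J (a : ℤ) b) := by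
  set D := Function.update (Function.update E t₁ a) t₂ b with hD
  have hD1 : D t₁ = a := by
    rw [hD, Function.update_of_ne h12, Function.update_self]
  have hD2 : D t₂ = b := by rw [hD, Function.update_self]
  have hD3 : ∀ t ∈ RR t₁ t₂, D t = E t := by
    intro t ht
    rw [mem_RR] at ht
    rw [hD, Function.update_of_ne ht.1, Function.update_of_ne ht.2]
  have e1 : ∏ t, cc (c t) (D t) =
      cc (c t₁) a * (cc (c t₂) b * ∏ t ∈ RR t₁ t₂, cc (c t) (E t)) := by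
    rw [lk_split h12, hD1, hD2, Finset.prod_congr rfl (fun t ht => by rw [hD3 t ht])]
  have e2 : ∀ s, ∏ t', (if ℓ t' s then J (D t' : ℤ) (D s) else 1) =
      (if ℓ t₁ s then J (a : ℤ) (D s) else 1) * ((if ℓ t₂ s then J (b : ℤ) (D s) else 1) *
        ∏ t' ∈ RR t₁ t₂, if ℓ t' s then J (E t' : ℤ) (D s) else 1) := by
    intro s
    rw [lk_split h12, hD1, hD2]
    congr 2
    exact Finset.prod_congr rfl (fun t ht => by rw [hD3 t ht])
  have e3 : ∏ s, ∏ t', (if ℓ t' s then J (D t' : ℤ) (D s) else 1) =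
      (∏ t' ∈ RR t₁ t₂, if ℓ t' t₁ then J (E t' : ℤ) a else 1) *
      ((J (a : ℤ) b * ∏ t' ∈ RR t₁ t₂, if ℓ t' t₂ then J (E t' : ℤ) b else 1) *
      ((∏ s ∈ RR t₁ t₂, if ℓ t₁ s then J (a : ℤ) (E s) else 1) *
      ((∏ s ∈ RR t₁ t₂, if ℓ t₂ s then J (b : ℤ) (E s) else 1) *
      ∏ s ∈ RR t₁ t₂, ∏ t' ∈ RR t₁ t₂, if ℓ t' s then J (E t' : ℤ) (E s) else 1))) := by
    rw [lk_split h12, e2 t₁, e2 t₂, hD1, hD2, hl t₁, hl t₂, h1, h2]
    rw [Finset.prod_congr rfl (fun s hs => by rw [e2 s, hD3 s hs] :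
      ∀ s ∈ RR t₁ t₂, (∏ t', (if ℓ t' s then J (D t' : ℤ) (D s) else 1)) =
      (if ℓ t₁ s then J (a : ℤ) (E s) else 1) * ((if ℓ t₂ s then J (b : ℤ) (E s) else 1) *
        ∏ t' ∈ RR t₁ t₂, if ℓ t' s then J (E t' : ℤ) (E s) else 1))]
    rw [Finset.prod_mul_distrib, Finset.prod_mul_distrib]
    simp only [Bool.false_eq_true, if_false, if_true, one_mul]
  unfold term
  rw [e1, e3]
  unfold ww aa
  ring

private theorem SF_one : SF 1 := ⟨squarefree_one, odd_one⟩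

private theorem mem_iff {t₁ t₂ : T} (h12 : t₁ ≠ t₂) {E : T → ℕ} (hE1 : E t₁ = 1)
    (hE2 : E t₂ = 1) (hS : ∀ t, SF (E t)) (hC : ∀ t t', t ≠ t' → Nat.Coprime (E t) (E t'))
    (Y a b : ℕ) : Function.update (Function.update E t₁ a) t₂ b ∈ Tup T Y ↔
      (SF a ∧ ∀ t, Nat.Coprime a (E t)) ∧ (SF b ∧ ∀ t, Nat.Coprime b (E t)) ∧
        Nat.Coprime a b ∧ a * b * ∏ t, E t ≤ Y := by
  set D := Function.update (Function.update E t₁ a) t₂ b with hD
  have hD1 : D t₁ = a := by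
    rw [hD, Function.update_of_ne h12, Function.update_self]
  have hD2 : D t₂ = b := by rw [hD, Function.update_self]
  have hD3 : ∀ t, t ≠ t₁ → t ≠ t₂ → D t = E t := by
    intro t h h'
    rw [hD, Function.update_of_ne h', Function.update_of_ne h]
  have hp : ∏ t, D t = a * b * ∏ t, E t := by
    rw [lk_split h12 D, lk_split h12 E, hD1, hD2, hE1, hE2,
      Finset.prod_congr rfl (fun t ht => hD3 t (mem_RR.1 ht).2 (mem_RR.1 ht).1)]
    ring
  rw [mem_Tup, hp]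
  constructor
  · rintro ⟨s, co, le⟩
    refine ⟨⟨hD1 ▸ s t₁, fun t => ?_⟩, ⟨hD2 ▸ s t₂, fun t => ?_⟩, ?_, le⟩
    · by_cases h : t = t₁
      · rw [h, hE1]; exact Nat.coprime_one_right a
      · by_cases h' : t = t₂
        · rw [h', hE2]; exact Nat.coprime_one_right a
        · have := co t₁ t (Ne.symm h)
          rwa [hD1, hD3 t h h'] at this
    · by_cases h : t = t₁
      · rw [h, hE1]; exact Nat.coprime_one_right b
      · by_cases h' : t = t₂
        · rw [h', hE2]; exact Nat.coprime_one_right b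
        · have := co t₂ t (Ne.symm h')
          rwa [hD2, hD3 t h h'] at this
    · have := co t₁ t₂ h12
      rwa [hD1, hD2] at this
  · rintro ⟨⟨sa, ca⟩, ⟨sb, cb⟩, cab, le⟩
    refine ⟨fun t => ?_, fun t t' htt => ?_, le⟩
    · by_cases h : t = t₁
      · rw [h, hD1]; exact sa
      · by_cases h' : t = t₂
        · rw [h', hD2]; exact sb
        · rw [hD3 t h h']; exact hS t
    · by_cases h : t = t₁
      · by_cases h' : t' = t₂
        · rw [h, h', hD1, hD2]; exact cab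
        · rw [h, hD1, hD3 t' (fun e => htt (h.trans e.symm)) h']
          exact ca t'
      · by_cases h2 : t = t₂
        · by_cases h' : t' = t₁
          · rw [h2, h', hD1, hD2]; exact cab.symm
          · rw [h2, hD2, hD3 t' h' (fun e => htt (h2.trans e.symm))]
            exact cb t'
        · rw [hD3 t h h2]
          by_cases h3 : t' = t₁
          · rw [h3, hD1]; exact (ca t).symm
          · by_cases h4 : t' = t₂
            · rw [h4, hD2]; exact (cb t).symm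
            · rw [hD3 t' h3 h4]; exact hC t t' htt

open Classical in
private noncomputable def Out (t₁ t₂ : T) (Y : ℕ) : Finset (T → ℕ) :=
  (Fintype.piFinset fun _ : T => Icc 1 Y).filter fun E => E t₁ = 1 ∧ E t₂ = 1 ∧
    (∀ t, SF (E t)) ∧ ∀ t t', t ≠ t' → Nat.Coprime (E t) (E t')

private theorem mem_Out {t₁ t₂ : T} {Y : ℕ} {E : T → ℕ} : E ∈ Out t₁ t₂ Y ↔
    (∀ t, 1 ≤ E t ∧ E t ≤ Y) ∧ E t₁ = 1 ∧ E t₂ = 1 ∧
    (∀ t, SF (E t)) ∧ ∀ t t', t ≠ t' → Nat.Coprime (E t) (E t') := by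
  classical
  rw [Out, mem_filter, Fintype.mem_piFinset]
  simp only [mem_Icc]

private theorem upd_out {t₁ t₂ : T} (h12 : t₁ ≠ t₂) (D : T → ℕ) :
    Function.update (Function.update
      (Function.update (Function.update D t₁ 1) t₂ 1) t₁ (D t₁)) t₂ (D t₂) = D := by
  funext t
  by_cases h' : t = t₂
  · rw [h', Function.update_self]
  · rw [Function.update_of_ne h']
    by_cases h : t = t₁
    · rw [h, Function.update_self]
    · rw [Function.update_of_ne h, Function.update_of_ne h', Function.update_of_ne h]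

private theorem out_upd {t₁ t₂ : T} (h12 : t₁ ≠ t₂) {E : T → ℕ} (hE1 : E t₁ = 1)
    (hE2 : E t₂ = 1) (a b : ℕ) :
    Function.update (Function.update
      (Function.update (Function.update E t₁ a) t₂ b) t₁ 1) t₂ 1 = E := by
  funext t
  by_cases h' : t = t₂
  · rw [h', Function.update_self, hE2]
  · rw [Function.update_of_ne h']
    by_cases h : t = t₁
    · rw [h, Function.update_self, hE1]
    · rw [Function.update_of_ne h, Function.update_of_ne h', Function.update_of_ne h]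

private theorem out_mem {t₁ t₂ : T} (h12 : t₁ ≠ t₂) {D : T → ℕ} {Y : ℕ} (hY : 1 ≤ Y)
    (hD : D ∈ Tup T Y) :
    Function.update (Function.update D t₁ 1) t₂ 1 ∈ Out t₁ t₂ Y ∧
      (1 ≤ D t₁ ∧ D t₁ ≤ Y) ∧ (1 ≤ D t₂ ∧ D t₂ ≤ Y) := by
  rw [mem_Tup] at hD
  obtain ⟨s, co, le⟩ := hD
  have h1 : ∀ t, 1 ≤ D t := fun t => Nat.one_le_iff_ne_zero.2 (s t).1.ne_zero
  have h2 : ∀ t, D t ≤ Y := fun t =>
    (Finset.single_le_prod' (fun s _ => h1 s) (mem_univ t)).trans le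
  set E := Function.update (Function.update D t₁ 1) t₂ 1 with hE
  have hE1 : E t₁ = 1 := by rw [hE, Function.update_of_ne h12, Function.update_self]
  have hE2 : E t₂ = 1 := by rw [hE, Function.update_self]
  have hE3 : ∀ t, t ≠ t₁ → t ≠ t₂ → E t = D t := by
    intro t h h'
    rw [hE, Function.update_of_ne h', Function.update_of_ne h]
  have hE4 : ∀ t, E t = 1 ∨ E t = D t := by
    intro t
    by_cases h : t = t₁
    · left; rw [h, hE1]
    · by_cases h' : t = t₂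
      · left; rw [h', hE2]
      · right; exact hE3 t h h'
  refine ⟨mem_Out.2 ⟨fun t => ?_, hE1, hE2, fun t => ?_, fun t t' htt => ?_⟩, ⟨h1 _, h2 _⟩,
    ⟨h1 _, h2 _⟩⟩
  · rcases hE4 t with h | h
    · rw [h]; exact ⟨le_rfl, hY⟩
    · rw [h]; exact ⟨h1 t, h2 t⟩
  · rcases hE4 t with h | h
    · rw [h]; exact SF_one
    · rw [h]; exact s t
  · rcases hE4 t with h | h
    · rw [h]; exact Nat.coprime_one_left _
    · rcases hE4 t' with h' | h'
      · rw [h']; exact Nat.coprime_one_right _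
      · rw [h, h']; exact co t t' htt

private theorem sum_inv_le (Y : ℕ) : ∑ n ∈ Icc 1 Y, (1 : ℝ) / n ≤ 1 + Real.log Y := by
  have h := harmonic_le_one_add_log Y
  rw [harmonic_eq_sum_Icc] at h
  push_cast at h
  simpa only [one_div] using h

private theorem sum_Out_le (t₁ t₂ : T) {Y : ℕ} (hY : 1 ≤ Y) :
    ∑ E ∈ Out t₁ t₂ Y, (1 : ℝ) / ((∏ t, E t : ℕ) : ℝ) ≤ (Real.log Y + 1) ^ Fintype.card T := by
  classical
  have h0 : 0 ≤ ∑ n ∈ Icc 1 Y, (1 : ℝ) / n := Finset.sum_nonneg fun n _ => by positivity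
  calc ∑ E ∈ Out t₁ t₂ Y, (1 : ℝ) / ((∏ t, E t : ℕ) : ℝ)
      ≤ ∑ E ∈ Fintype.piFinset fun _ : T => Icc 1 Y, (1 : ℝ) / ((∏ t, E t : ℕ) : ℝ) :=
        Finset.sum_le_sum_of_subset_of_nonneg (Finset.filter_subset _ _)
          fun E _ _ => by positivity
    _ = ∑ E ∈ Fintype.piFinset fun _ : T => Icc 1 Y, ∏ t, (1 : ℝ) / (E t : ℝ) := by
        refine Finset.sum_congr rfl fun E _ => ?_
        rw [Nat.cast_prod, Finset.prod_div_distrib, Finset.prod_const_one]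
    _ = ∏ _t : T, ∑ n ∈ Icc 1 Y, (1 : ℝ) / (n : ℝ) := by
        rw [Finset.prod_univ_sum]
    _ = (∑ n ∈ Icc 1 Y, (1 : ℝ) / (n : ℝ)) ^ Fintype.card T := by
        rw [Finset.prod_const, Finset.card_univ]
    _ ≤ (Real.log Y + 1) ^ Fintype.card T := by
        refine pow_le_pow_left₀ h0 ?_ _
        linarith [sum_inv_le Y]

end

private theorem restr {Y Y' : ℕ} (h : Y' ≤ Y) (F : ℕ → ℕ → ℝ)
    (hF : ∀ a b, 1 ≤ a → 1 ≤ b → ¬ a * b ≤ Y' → F a b = 0) :
    ∑ a ∈ Icc 1 Y, ∑ b ∈ Icc 1 Y, F a b = ∑ a ∈ Icc 1 Y', ∑ b ∈ Icc 1 Y', F a b := by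
  have hs : Icc 1 Y' ⊆ Icc 1 Y := Finset.Icc_subset_Icc_right h
  rw [← Finset.sum_subset hs]
  · refine Finset.sum_congr rfl fun a ha => ?_
    rw [mem_Icc] at ha
    rw [← Finset.sum_subset hs]
    intro b hb hb'
    rw [mem_Icc] at hb hb'
    refine hF a b ha.1 hb.1 fun hle => hb' ⟨hb.1, ?_⟩
    nlinarith [ha.1, hb.1]
  · intro a ha ha'
    rw [mem_Icc] at ha ha'
    refine Finset.sum_eq_zero fun b hb => ?_
    rw [mem_Icc] at hb
    refine hF a b ha.1 hb.1 fun hle => ha' ⟨ha.1, ?_⟩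
    nlinarith [ha.1, hb.1]

open Classical in
private theorem inner_eq {T : Type} [Fintype T] [DecidableEq T] (c : T → ℕ → ℝ)
    {ℓ : T → T → Bool} (hl : ∀ t, ℓ t t = false)
    {t₁ t₂ : T} (h12 : t₁ ≠ t₂) (h1 : ℓ t₁ t₂ = true) (h2 : ℓ t₂ t₁ = false)
    {Q₁ Q₂ : (T → ℕ) → Prop} (hQ1 : ∀ D x, Q₁ (Function.update D t₂ x) ↔ Q₁ D)
    (hQ2 : ∀ D x, Q₂ (Function.update D t₁ x) ↔ Q₂ D) {Y z : ℕ} {E : T → ℕ}
    (hE : E ∈ Out t₁ t₂ Y) (a b : ℕ) (hb : 1 ≤ b) :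
    (if Function.update (Function.update E t₁ a) t₂ b ∈ Tup T Y ∧ z < a ∧ z < b ∧
        Q₁ (Function.update (Function.update E t₁ a) t₂ b) ∧
        Q₂ (Function.update (Function.update E t₁ a) t₂ b) then
      term c ℓ (Function.update (Function.update E t₁ a) t₂ b) else 0) =
    ww c ℓ t₁ t₂ E * (if z < a ∧ z < b ∧ a * b ≤ Y / (∏ t, E t) then
      (if (SF a ∧ ∀ t, Nat.Coprime a (E t)) ∧ Q₁ (Function.update E t₁ a) then
        aa c ℓ t₁ t₂ t₁ E a else 0) *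
      (if (SF b ∧ ∀ t, Nat.Coprime b (E t)) ∧ Q₂ (Function.update E t₂ b) then
        aa c ℓ t₁ t₂ t₂ E b else 0) * J (a : ℤ) b else 0) := by
  obtain ⟨hr, hE1, hE2, hS, hC⟩ := mem_Out.1 hE
  have hρ : 0 < ∏ t, E t := Finset.prod_pos fun t _ => (hr t).1
  have q1 : Q₁ (Function.update (Function.update E t₁ a) t₂ b) ↔
      Q₁ (Function.update E t₁ a) := hQ1 _ _
  have q2 : Q₂ (Function.update (Function.update E t₁ a) t₂ b) ↔
      Q₂ (Function.update E t₂ b) := by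
    rw [Function.update_comm h12]
    exact hQ2 _ _
  rw [term_eq c hl h12 h1 h2]
  simp only [mem_iff h12 hE1 hE2 hS hC, q1, q2, Nat.le_div_iff_mul_le hρ]
  by_cases hz : z < a ∧ z < b ∧ a * b * ∏ t, E t ≤ Y
  · rw [if_pos hz]
    by_cases hA : (SF a ∧ ∀ t, Nat.Coprime a (E t)) ∧ Q₁ (Function.update E t₁ a)
    · rw [if_pos hA]
      by_cases hB : (SF b ∧ ∀ t, Nat.Coprime b (E t)) ∧ Q₂ (Function.update E t₂ b)
      · rw [if_pos hB]
        by_cases hab : Nat.Coprime a b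
        · rw [if_pos ⟨⟨hA.1, hB.1, hab, hz.2.2⟩, hz.1, hz.2.1, hA.2, hB.2⟩]
        · have hJ : J (a : ℤ) b = 0 := by
            unfold J
            haveI : NeZero b := ⟨by omega⟩
            have : jacobiSym (a : ℤ) b = 0 := by
              rw [jacobiSym.eq_zero_iff_not_coprime]
              intro h
              exact hab (by simpa [Nat.Coprime, Int.gcd_natCast_natCast] using h)
            rw [this]
            simp
          rw [hJ, if_neg (fun h => hab h.1.2.2.1)]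
          ring
      · rw [if_neg hB, if_neg (fun h => hB ⟨h.1.2.1, h.2.2.2.2⟩)]
        ring
    · rw [if_neg hA, if_neg (fun h => hA ⟨h.1.1, h.2.2.2.1⟩)]
      ring
  · rw [if_neg hz, if_neg (fun h => hz ⟨h.2.1, h.2.2.1, h.1.2.2.2⟩)]
    ring

open Classical in
theorem lnk (T : Type) [Fintype T] [DecidableEq T] : ∃ C : ℝ, 0 < C ∧
    ∀ (c : T → ℕ → ℝ) (ℓ : T → T → Bool), (∀ t p, |c t p| ≤ 1) → (∀ t, ℓ t t = false) →
    ∀ t₁ t₂ : T, t₁ ≠ t₂ → ℓ t₁ t₂ = true → ℓ t₂ t₁ = false →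
    ∀ Q₁ Q₂ : (T → ℕ) → Prop, (∀ D x, Q₁ (Function.update D t₂ x) ↔ Q₁ D) →
    (∀ D x, Q₂ (Function.update D t₁ x) ↔ Q₂ D) → ∀ Y z : ℕ, 1 ≤ Y → 1 ≤ z →
    |∑ D ∈ (Tup T Y).filter (fun D => z < D t₁ ∧ z < D t₂ ∧ Q₁ D ∧ Q₂ D), term c ℓ D| ≤
      C * Y * (Real.log Y + 1) ^ (Fintype.card T + 2) * (z : ℝ) ^ (-(1 / 80) : ℝ) := by
  obtain ⟨C, hC, hy⟩ := hyp
  refine ⟨C, hC, ?_⟩
  intro c ℓ hc hl t₁ t₂ h12 hl1 hl2 Q₁ Q₂ hQ1 hQ2 Y z hY hz
  have hYR : (1 : ℝ) ≤ Y := by exact_mod_cast hY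
  have hlog : 0 ≤ Real.log Y := Real.log_nonneg hYR
  have hzp : (0 : ℝ) ≤ (z : ℝ) ^ (-(1 / 80) : ℝ) := Real.rpow_nonneg (Nat.cast_nonneg z) _
  -- Step 1: regroup
  have s1 : ∑ D ∈ (Tup T Y).filter (fun D => z < D t₁ ∧ z < D t₂ ∧ Q₁ D ∧ Q₂ D), term c ℓ D =
      ∑ E ∈ Out t₁ t₂ Y, ∑ a ∈ Icc 1 Y, ∑ b ∈ Icc 1 Y,
        if Function.update (Function.update E t₁ a) t₂ b ∈ Tup T Y ∧ z < a ∧ z < b ∧
          Q₁ (Function.update (Function.update E t₁ a) t₂ b) ∧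
          Q₂ (Function.update (Function.update E t₁ a) t₂ b) then
        term c ℓ (Function.update (Function.update E t₁ a) t₂ b) else 0 := by
    have s2 : (∑ E ∈ Out t₁ t₂ Y, ∑ a ∈ Icc 1 Y, ∑ b ∈ Icc 1 Y,
        if Function.update (Function.update E t₁ a) t₂ b ∈ Tup T Y ∧ z < a ∧ z < b ∧
          Q₁ (Function.update (Function.update E t₁ a) t₂ b) ∧
          Q₂ (Function.update (Function.update E t₁ a) t₂ b) then
        term c ℓ (Function.update (Function.update E t₁ a) t₂ b) else 0) =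
        ∑ x ∈ (Out t₁ t₂ Y ×ˢ (Icc 1 Y ×ˢ Icc 1 Y)).filter (fun x : (T → ℕ) × (ℕ × ℕ) =>
          Function.update (Function.update x.1 t₁ x.2.1) t₂ x.2.2 ∈ Tup T Y ∧ z < x.2.1 ∧
          z < x.2.2 ∧ Q₁ (Function.update (Function.update x.1 t₁ x.2.1) t₂ x.2.2) ∧
          Q₂ (Function.update (Function.update x.1 t₁ x.2.1) t₂ x.2.2)),
        term c ℓ (Function.update (Function.update x.1 t₁ x.2.1) t₂ x.2.2) := by
      rw [Finset.sum_filter, Finset.sum_product]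
      refine Finset.sum_congr rfl fun E _ => ?_
      rw [Finset.sum_product]
    rw [s2]
    refine Finset.sum_nbij'
      (fun D => (Function.update (Function.update D t₁ 1) t₂ 1, (D t₁, D t₂)))
      (fun x => Function.update (Function.update x.1 t₁ x.2.1) t₂ x.2.2) ?_ ?_ ?_ ?_ ?_
    · intro D hD
      rw [mem_filter] at hD
      obtain ⟨m1, m2, m3⟩ := out_mem h12 hY hD.1
      rw [mem_filter, mem_product, mem_product]
      refine ⟨⟨m1, mem_Icc.2 m2, mem_Icc.2 m3⟩, ?_⟩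
      simp only [upd_out h12]
      exact ⟨hD.1, hD.2⟩
    · intro x hx
      rw [mem_filter] at hx
      rw [mem_filter]
      refine ⟨hx.2.1, ?_, ?_, hx.2.2.2.2⟩
      · rw [Function.update_of_ne h12, Function.update_self]
        exact hx.2.2.1
      · rw [Function.update_self]
        exact hx.2.2.2.1
    · intro D _
      exact upd_out h12 D
    · intro x hx
      rw [mem_filter, mem_product] at hx
      obtain ⟨-, hE1, hE2, -⟩ := mem_Out.1 hx.1.1
      refine Prod.ext (out_upd h12 hE1 hE2 _ _) (Prod.ext ?_ ?_)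
      · exact (Function.update_of_ne h12 _ _).trans (Function.update_self _ _ _)
      · exact Function.update_self _ _ _
    · intro D _
      rw [upd_out h12]
  rw [s1]
  -- Step 2: bound for one outer tuple
  have s3 : ∀ E ∈ Out t₁ t₂ Y, |∑ a ∈ Icc 1 Y, ∑ b ∈ Icc 1 Y,
        if Function.update (Function.update E t₁ a) t₂ b ∈ Tup T Y ∧ z < a ∧ z < b ∧
          Q₁ (Function.update (Function.update E t₁ a) t₂ b) ∧
          Q₂ (Function.update (Function.update E t₁ a) t₂ b) then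
        term c ℓ (Function.update (Function.update E t₁ a) t₂ b) else 0| ≤
      C * Y * (Real.log Y + 1) ^ 2 * (z : ℝ) ^ (-(1 / 80) : ℝ) *
        ((1 : ℝ) / ((∏ t, E t : ℕ) : ℝ)) := by
    intro E hE
    obtain ⟨hr, hE1, hE2, hS, hCo⟩ := mem_Out.1 hE
    have hρ : 0 < ∏ t, E t := Finset.prod_pos fun t _ => (hr t).1
    have e1 : (∑ a ∈ Icc 1 Y, ∑ b ∈ Icc 1 Y,
        if Function.update (Function.update E t₁ a) t₂ b ∈ Tup T Y ∧ z < a ∧ z < b ∧
          Q₁ (Function.update (Function.update E t₁ a) t₂ b) ∧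
          Q₂ (Function.update (Function.update E t₁ a) t₂ b) then
        term c ℓ (Function.update (Function.update E t₁ a) t₂ b) else 0) =
        ww c ℓ t₁ t₂ E * ∑ a ∈ Icc 1 Y, ∑ b ∈ Icc 1 Y,
        (if z < a ∧ z < b ∧ a * b ≤ Y / (∏ t, E t) then
      (if (SF a ∧ ∀ t, Nat.Coprime a (E t)) ∧ Q₁ (Function.update E t₁ a) then
        aa c ℓ t₁ t₂ t₁ E a else 0) *
      (if (SF b ∧ ∀ t, Nat.Coprime b (E t)) ∧ Q₂ (Function.update E t₂ b) then
        aa c ℓ t₁ t₂ t₂ E b else 0) * J (a : ℤ) b else 0) := by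
      rw [Finset.mul_sum]
      refine Finset.sum_congr rfl fun a _ => ?_
      rw [Finset.mul_sum]
      refine Finset.sum_congr rfl fun b hb => ?_
      exact inner_eq c hl h12 hl1 hl2 hQ1 hQ2 hE a b (mem_Icc.1 hb).1
    rw [e1, abs_mul, restr (Nat.div_le_self Y _) _ (fun a b _ _ h => if_neg fun h' => h h'.2.2)]
    set Y' := Y / (∏ t, E t) with hY'
    have hle : (Y' : ℝ) ≤ Y * ((1 : ℝ) / ((∏ t, E t : ℕ) : ℝ)) := by
      rw [hY', mul_one_div]
      exact Nat.cast_div_le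
    have hw := abs_ww hc ℓ t₁ t₂ E
    have key : |∑ a ∈ Icc 1 Y', ∑ b ∈ Icc 1 Y',
        (if z < a ∧ z < b ∧ a * b ≤ Y' then
      (if (SF a ∧ ∀ t, Nat.Coprime a (E t)) ∧ Q₁ (Function.update E t₁ a) then
        aa c ℓ t₁ t₂ t₁ E a else 0) *
      (if (SF b ∧ ∀ t, Nat.Coprime b (E t)) ∧ Q₂ (Function.update E t₂ b) then
        aa c ℓ t₁ t₂ t₂ E b else 0) * J (a : ℤ) b else 0)| ≤
        C * Y' * (Real.log Y + 1) ^ 2 * (z : ℝ) ^ (-(1 / 80) : ℝ) := by
      rcases Nat.eq_zero_or_pos Y' with h0 | h0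
      · rw [h0]
        simp
      · refine (hy Y' z h0 hz _ _ (fun n => ?_) (fun n => ?_)).trans ?_
        · by_cases hn : (SF n ∧ ∀ t, Nat.Coprime n (E t)) ∧ Q₁ (Function.update E t₁ n)
          · rw [if_pos hn]
            exact ⟨abs_aa hc _ _ _ _ _ _, fun _ => hn.1.1⟩
          · rw [if_neg hn]
            exact ⟨by simp, fun h => absurd rfl h⟩
        · by_cases hn : (SF n ∧ ∀ t, Nat.Coprime n (E t)) ∧ Q₂ (Function.update E t₂ n)
          · rw [if_pos hn]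
            exact ⟨abs_aa hc _ _ _ _ _ _, fun _ => hn.1.1⟩
          · rw [if_neg hn]
            exact ⟨by simp, fun h => absurd rfl h⟩
        · have hY'R : (1 : ℝ) ≤ Y' := by exact_mod_cast h0
          have l1 : 0 ≤ Real.log Y' := Real.log_nonneg hY'R
          have l2 : Real.log Y' ≤ Real.log Y :=
            Real.log_le_log (by linarith) (by exact_mod_cast Nat.div_le_self Y _)
          have l3 : (Real.log Y' + 1) ^ 2 ≤ (Real.log Y + 1) ^ 2 :=
            pow_le_pow_left₀ (by linarith) (by linarith) 2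
          exact mul_le_mul_of_nonneg_right
            (mul_le_mul_of_nonneg_left l3 (by positivity)) hzp
    calc |ww c ℓ t₁ t₂ E| * _ ≤ 1 * _ := mul_le_mul_of_nonneg_right hw (abs_nonneg _)
      _ ≤ C * Y' * (Real.log Y + 1) ^ 2 * (z : ℝ) ^ (-(1 / 80) : ℝ) := by
          rw [one_mul]; exact key
      _ ≤ C * (Y * ((1 : ℝ) / ((∏ t, E t : ℕ) : ℝ))) * (Real.log Y + 1) ^ 2 *
            (z : ℝ) ^ (-(1 / 80) : ℝ) := by gcongr
      _ = _ := by ring
  calc |∑ E ∈ Out t₁ t₂ Y, _| ≤ ∑ E ∈ Out t₁ t₂ Y, |_| := Finset.abs_sum_le_sum_abs _ _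
    _ ≤ ∑ E ∈ Out t₁ t₂ Y, C * Y * (Real.log Y + 1) ^ 2 * (z : ℝ) ^ (-(1 / 80) : ℝ) *
        ((1 : ℝ) / ((∏ t, E t : ℕ) : ℝ)) := Finset.sum_le_sum s3
    _ = C * Y * (Real.log Y + 1) ^ 2 * (z : ℝ) ^ (-(1 / 80) : ℝ) *
        ∑ E ∈ Out t₁ t₂ Y, ((1 : ℝ) / ((∏ t, E t : ℕ) : ℝ)) := by rw [Finset.mul_sum]
    _ ≤ C * Y * (Real.log Y + 1) ^ 2 * (z : ℝ) ^ (-(1 / 80) : ℝ) *
        (Real.log Y + 1) ^ Fintype.card T :=
        mul_le_mul_of_nonneg_left (sum_Out_le t₁ t₂ hY) (by positivity)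
    _ = _ := by rw [pow_add]; ring

end Pool.Agent.QTW
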