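import Pool.Agent.QTW.HT
import Pool.Agent.Helper24.Mertens

/-!
# QTW-TupS: nonnegative sums over tuples

`tup_sum`: the tuples with product `n` correspond to functions from the prime factors of `n` to the
index set, and `cc` of the sum of the weights expands as a sum over these functions.

`unl`: a tuple whose entries outside `Λ` are at most `z` has the same weight if the weights outside
`Λ` are put to zero at the primes above `z`; apply `tup_sum` and `ht`, and Mertens' upper bound for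
the primes up to `z`.
-/

set_option autoImplicit false

namespace Pool.Agent.QTW

open Finset

private theorem TupS_fib {T : Type} [Fintype T] [DecidableEq T] (c : T → ℕ → ℝ)
    (hc : ∀ t p, 0 ≤ c t p) (Y n : ℕ) (hn : n ≠ 0) :
    ∑ D ∈ (Tup T Y).filter (fun D => ∏ t, D t = n), ∏ t, cc (c t) (D t) ≤
      cc (fun p => ∑ t, c t p) n := by
  classical
  obtain ⟨s, hs⟩ : ∃ s, s = (Tup T Y).filter (fun D => ∏ t, D t = n) := ⟨_, rfl⟩
  rw [← hs]
  have h1 : cc (fun p => ∑ t, c t p) n =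
      ∑ φ : n.primeFactors → T, ∏ p : n.primeFactors, c (φ p) p := by
    unfold cc
    rw [← Finset.prod_coe_sort, Finset.prod_univ_sum, Fintype.piFinset_univ]
  have h2 : ∀ D ∈ s, ∃ φ : n.primeFactors → T, ∀ t, (D t).primeFactors =
      (univ.filter (fun p => φ p = t)).map (Function.Embedding.subtype _) := by
    intro D hD
    rw [hs, mem_filter, mem_Tup] at hD
    obtain ⟨⟨hD1, hD2, _⟩, hD3⟩ := hD
    have h3 : ∀ p : n.primeFactors, ∃ t, (p : ℕ) ∣ D t := by
      intro p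
      have h4 : (p : ℕ) ∣ ∏ t, D t := by
        rw [hD3]
        exact Nat.dvd_of_mem_primeFactors p.2
      obtain ⟨t, _, ht⟩ := (Prime.dvd_finsetProd_iff
        (Nat.prime_of_mem_primeFactors p.2).prime _).1 h4
      exact ⟨t, ht⟩
    choose φ hφ using h3
    refine ⟨φ, fun t => ?_⟩
    ext p
    rw [mem_map]
    constructor
    · intro hp
      have hpp := Nat.prime_of_mem_primeFactors hp
      have hpt := Nat.dvd_of_mem_primeFactors hp
      have hpn : p ∈ n.primeFactors := by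
        refine Nat.mem_primeFactors.2 ⟨hpp, ?_, hn⟩
        rw [← hD3]
        exact hpt.trans (Finset.dvd_prod_of_mem D (mem_univ t))
      refine ⟨⟨p, hpn⟩, mem_filter.2 ⟨mem_univ _, ?_⟩, rfl⟩
      by_contra h5
      have h6 := hD2 _ _ h5
      have h7 := Nat.dvd_gcd (hφ ⟨p, hpn⟩) hpt
      rw [Nat.Coprime] at h6
      rw [h6] at h7
      exact hpp.one_lt.ne' (Nat.dvd_one.1 h7)
    · rintro ⟨⟨x, hx⟩, hx1, hx2⟩
      rw [mem_filter] at hx1
      have hx3 : x = p := hx2
      subst hx3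
      refine Nat.mem_primeFactors.2 ⟨Nat.prime_of_mem_primeFactors hx, ?_, (hD1 t).1.ne_zero⟩
      rw [← hx1.2]
      exact hφ ⟨x, hx⟩
  choose φ hφ using h2
  have hinj : Function.Injective fun D : s => φ D.1 D.2 := by
    rintro ⟨D, hD⟩ ⟨D', hD'⟩ h3
    have h4 : φ D hD = φ D' hD' := h3
    refine Subtype.ext (funext fun t => ?_)
    have h5 : (D t).primeFactors = (D' t).primeFactors := by
      rw [hφ D hD t, hφ D' hD' t, h4]
    rw [hs, mem_filter, mem_Tup] at hD hD'
    show D t = D' t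
    rw [← Nat.prod_primeFactors_of_squarefree (hD.1.1 t).1,
      ← Nat.prod_primeFactors_of_squarefree (hD'.1.1 t).1, h5]
  have hval : ∀ D : s, ∏ t, cc (c t) (D.1 t) =
      ∏ p : n.primeFactors, c (φ D.1 D.2 p) p := by
    intro D
    rw [← Finset.prod_fiberwise univ (φ D.1 D.2)]
    refine Finset.prod_congr rfl fun t _ => ?_
    unfold cc
    rw [hφ D.1 D.2 t, prod_map]
    refine Finset.prod_congr rfl fun p hp => ?_
    rw [(mem_filter.1 hp).2]
    rfl
  rw [h1, ← Finset.sum_coe_sort, Finset.sum_congr rfl fun D _ => hval D,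
    ← Finset.sum_image (f := fun ψ : n.primeFactors → T => ∏ p : n.primeFactors, c (ψ p) p)
      (g := fun D : s => φ D.1 D.2) (hinj.injOn)]
  exact Finset.sum_le_sum_of_subset_of_nonneg (subset_univ _) fun ψ _ _ =>
    prod_nonneg fun p _ => hc _ _

theorem tup_sum {T : Type} [Fintype T] [DecidableEq T] (c : T → ℕ → ℝ) (hc : ∀ t p, 0 ≤ c t p)
    (Y : ℕ) : ∑ D ∈ Tup T Y, ∏ t, cc (c t) (D t) ≤
      ∑ n ∈ (Icc 1 Y).filter Squarefree, cc (fun p => ∑ t, c t p) n := by
  classical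
  have hmap : ∀ D ∈ Tup T Y, ∏ t, D t ∈ (Icc 1 Y).filter Squarefree := by
    intro D hD
    rw [mem_Tup] at hD
    obtain ⟨hD1, hD2, hD3⟩ := hD
    have h0 : ∏ t, D t ≠ 0 := Finset.prod_ne_zero_iff.2 fun t _ => (hD1 t).1.ne_zero
    refine mem_filter.2 ⟨mem_Icc.2 ⟨Nat.one_le_iff_ne_zero.2 h0, hD3⟩, ?_⟩
    exact Finset.squarefree_prod_of_pairwise_isCoprime
      (fun t _ t' _ htt => Nat.coprime_iff_isRelPrime.1 (hD2 t t' htt)) fun t _ => (hD1 t).1
  rw [← Finset.sum_fiberwise_of_maps_to hmap]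
  refine Finset.sum_le_sum fun n hn => TupS_fib c hc Y n ?_
  have h1 := (mem_Icc.1 (mem_filter.1 hn).1).1
  omega

private theorem TupS_mertens (z : ℕ) (hz : 1 ≤ z) :
    ∑ p ∈ pri z, 1 / (p : ℝ) ≤ Real.log (1 + Real.log z) + 3.4 := by
  rcases Nat.eq_or_lt_of_le hz with h1 | h1
  · have h2 : pri z = ∅ := by
      rw [Finset.eq_empty_iff_forall_notMem]
      intro p hp
      rw [mem_pri] at hp
      have := hp.2.two_le
      omega
    rw [h2, sum_empty, ← h1, Nat.cast_one, Real.log_one, add_zero, Real.log_one]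
    norm_num
  · have h2 : pri z = Nat.primesLE z := by
      ext p
      rw [mem_pri, Nat.mem_primesLE]
    rw [h2]
    refine (Helper24.sum_inv_primes_le z h1).trans ?_
    have h3 : 0 < Real.log z := Real.log_pos (by exact_mod_cast h1)
    have h4 := Real.log_le_log h3 (by linarith : Real.log z ≤ 1 + Real.log z)
    linarith

open Classical in
theorem unl (T : Type) [Fintype T] [DecidableEq T] : ∃ C : ℝ, 0 < C ∧ ∀ c : T → ℕ → ℝ,
    (∀ t p, 0 ≤ c t p ∧ c t p ≤ 1) → ∀ Λ : Finset T, ∀ Y z : ℕ, 16 ≤ Y → 1 ≤ z →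
    z ^ (2 * Fintype.card T) ≤ Y →
    ∑ D ∈ (Tup T Y).filter (fun D => ∀ t, t ∉ Λ → D t ≤ z), ∏ t, cc (c t) (D t) ≤
      C * (Y / Real.log Y) * (1 + Real.log z) ^ Fintype.card T *
        Real.exp (∑ p ∈ pri Y, ∑ t ∈ Λ, c t p / p) := by
  obtain ⟨C, hC, hht⟩ := ht (Fintype.card T) (Nat.cast_nonneg _)
  refine ⟨C * Real.exp 3.4 ^ Fintype.card T, by positivity, ?_⟩
  intro c hc Λ Y z hY hz _
  obtain ⟨c', hc'⟩ : ∃ c' : T → ℕ → ℝ, c' = fun t p =>
      if t ∈ Λ then c t p else if p ≤ z then c t p else 0 := ⟨_, rfl⟩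
  have hc1 : ∀ t p, 0 ≤ c' t p ∧ c' t p ≤ 1 := by
    intro t p
    rw [hc']
    dsimp only
    split_ifs
    · exact hc t p
    · exact hc t p
    · exact ⟨le_rfl, zero_le_one⟩
  have h1 : ∑ D ∈ (Tup T Y).filter (fun D => ∀ t, t ∉ Λ → D t ≤ z), ∏ t, cc (c t) (D t) ≤
      ∑ D ∈ Tup T Y, ∏ t, cc (c' t) (D t) := by
    have h2 : ∑ D ∈ (Tup T Y).filter (fun D => ∀ t, t ∉ Λ → D t ≤ z), ∏ t, cc (c t) (D t) =
        ∑ D ∈ (Tup T Y).filter (fun D => ∀ t, t ∉ Λ → D t ≤ z), ∏ t, cc (c' t) (D t) := by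
      refine Finset.sum_congr rfl fun D hD => Finset.prod_congr rfl fun t _ => ?_
      rw [mem_filter, mem_Tup] at hD
      unfold cc
      refine Finset.prod_congr rfl fun p hp => ?_
      rw [hc']
      dsimp only
      by_cases ht : t ∈ Λ
      · rw [if_pos ht]
      · have h3 : p ≤ z := (Nat.le_of_dvd (Nat.pos_of_ne_zero (hD.1.1 t).1.ne_zero)
          (Nat.dvd_of_mem_primeFactors hp)).trans (hD.2 t ht)
        rw [if_neg ht, if_pos h3]
    rw [h2]
    exact Finset.sum_le_sum_of_subset_of_nonneg (filter_subset _ _) fun D _ _ =>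
      prod_nonneg fun t _ => prod_nonneg fun p _ => (hc1 t p).1
  have h2 := tup_sum c' (fun t p => (hc1 t p).1) Y
  have h3 := hht (fun p => ∑ t, c' t p) (fun p => ⟨sum_nonneg fun t _ => (hc1 t p).1, by
    refine (sum_le_sum fun t _ => (hc1 t p).2).trans ?_
    rw [sum_const, card_univ, nsmul_eq_mul, mul_one]⟩) Y (by omega)
  -- the exponent
  have h4 : ∑ p ∈ pri Y, (∑ t, c' t p) / p ≤ ∑ p ∈ pri Y, ∑ t ∈ Λ, c t p / p +
      Fintype.card T * (Real.log (1 + Real.log z) + 3.4) := by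
    have h5 : ∀ p ∈ pri Y, (∑ t, c' t p) / p ≤ ∑ t ∈ Λ, c t p / p +
        if p ≤ z then (Fintype.card T : ℝ) * (1 / p) else 0 := by
      intro p hp
      have h6 : ∑ t, c' t p = ∑ t ∈ Λ, c' t p + ∑ t ∈ Λᶜ, c' t p :=
        (Finset.sum_add_sum_compl Λ _).symm
      have h7 : ∑ t ∈ Λ, c' t p = ∑ t ∈ Λ, c t p := by
        refine Finset.sum_congr rfl fun t ht => ?_
        rw [hc']
        exact if_pos ht
      rw [h6, h7, add_div, Finset.sum_div]
      refine add_le_add le_rfl ?_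
      split_ifs with hpz
      · rw [mul_one_div]
        refine div_le_div_of_nonneg_right ?_ (Nat.cast_nonneg p)
        calc ∑ t ∈ Λᶜ, c' t p ≤ ∑ t ∈ Λᶜ, (1 : ℝ) := sum_le_sum fun t _ => (hc1 t p).2
          _ ≤ ∑ t : T, (1 : ℝ) := Finset.sum_le_sum_of_subset_of_nonneg (subset_univ _)
            fun _ _ _ => zero_le_one
          _ = Fintype.card T := by rw [sum_const, card_univ, nsmul_eq_mul, mul_one]
      · have h8 : ∑ t ∈ Λᶜ, c' t p = 0 := by
          refine Finset.sum_eq_zero fun t ht => ?_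
          rw [mem_compl] at ht
          rw [hc']
          dsimp only
          rw [if_neg ht, if_neg hpz]
        rw [h8, zero_div]
    refine (sum_le_sum h5).trans ?_
    rw [sum_add_distrib]
    refine add_le_add le_rfl ?_
    rw [← Finset.sum_filter, ← Finset.mul_sum]
    refine mul_le_mul_of_nonneg_left (le_trans ?_ (TupS_mertens z hz)) (Nat.cast_nonneg _)
    refine Finset.sum_le_sum_of_subset_of_nonneg ?_ fun p _ _ => by positivity
    intro p hp
    rw [mem_filter, mem_pri] at hp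
    exact mem_pri.2 ⟨hp.2, hp.1.2⟩
  have hlz : 0 ≤ Real.log z := Real.log_nonneg (by exact_mod_cast hz)
  have h5 : Real.exp (∑ p ∈ pri Y, (∑ t, c' t p) / p) ≤
      Real.exp (∑ p ∈ pri Y, ∑ t ∈ Λ, c t p / p) *
        ((1 + Real.log z) * Real.exp 3.4) ^ Fintype.card T := by
    refine (Real.exp_le_exp.2 h4).trans ?_
    rw [Real.exp_add, Real.exp_nat_mul, Real.exp_add, Real.exp_log (by linarith)]
  have hY0 : 0 ≤ C * ((Y : ℝ) / Real.log Y) := by
    have : 0 ≤ Real.log Y := Real.log_natCast_nonneg Y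
    positivity
  refine (h1.trans (h2.trans h3)).trans ?_
  refine (mul_le_mul_of_nonneg_left h5 hY0).trans (le_of_eq ?_)
  rw [mul_pow]
  ring

end Pool.Agent.QTW
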