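import Pool.Agent.QTW.Cnt
import Pool.Agent.QTW.Lnk
import Pool.Agent.QTW.TupS

/-!
# QTW-KC: the number of tuples with large entries satisfying the symbol conditions

The sum of `count_eq` is split according to the set `Λ` of the large entries: two large linked entries (`lnk`), or the large entries
are unlinked, one for every owner (`unl`).
-/

set_option autoImplicit false

namespace Pool.Agent.QTW

open Finset

private theorem kc_cc_abs (c : ℕ → ℝ) (n : ℕ) : |cc c n| = cc (fun p => |c p|) n := by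
  unfold cc
  rw [Finset.abs_prod]

private theorem kc_term_abs {T : Type} [Fintype T] (c : T → ℕ → ℝ) (ℓ : T → T → Bool) (D : T → ℕ) :
    |term c ℓ D| ≤ ∏ t, cc (fun p => |c t p|) (D t) := by
  unfold term
  rw [abs_mul, Finset.abs_prod, Finset.abs_prod]
  have h1 : ∏ t, |∏ t', if ℓ t' t then J (D t' : ℤ) (D t) else 1| ≤ 1 := by
    refine Finset.prod_le_one (fun _ _ => abs_nonneg _) fun t _ => ?_
    rw [Finset.abs_prod]
    refine Finset.prod_le_one (fun _ _ => abs_nonneg _) fun t' _ => ?_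
    split_ifs
    · exact abs_J_le _ _
    · simp
  have h2 : ∏ t, |cc (c t) (D t)| = ∏ t, cc (fun p => |c t p|) (D t) :=
    Finset.prod_congr rfl fun t _ => kc_cc_abs _ _
  rw [h2]
  have h3 : 0 ≤ ∏ t, cc (fun p => |c t p|) (D t) :=
    Finset.prod_nonneg fun t _ => Finset.prod_nonneg fun p _ => abs_nonneg _
  exact mul_le_of_le_one_right h3 h1

private theorem kc_lk_iff {K : Type} [DecidableEq K] (t' t : TT K) : lk t' t = true ↔ t'.own ∈ t.set := by
  unfold lk
  exact decide_eq_true_iff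

private theorem kc_own_notin {K : Type} [DecidableEq K] (t : TT K) : t.own ∉ t.set := t.2

private theorem kc_ext {K : Type} [DecidableEq K] {t t' : TT K} (h1 : t.own = t'.own)
    (h2 : t.set = t'.set) : t = t' := Subtype.ext (Prod.ext h1 h2)

private theorem kc_inj {K : Type} [DecidableEq K] {Λ : Finset (TT K)}
    (hs : ∀ t ∈ Λ, ∀ t' ∈ Λ, lk t t' = true → lk t' t = true)
    (hk : ∀ k : K, ∃ t ∈ Λ, t.own = k) {t t₁ : TT K} (ht : t ∈ Λ) (ht₁ : t₁ ∈ Λ)
    (ho : t.own = t₁.own) : t = t₁ := by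
  refine kc_ext ho ?_
  ext l
  obtain ⟨t', ht', rfl⟩ := hk l
  constructor
  · intro h
    have h1 := hs t' ht' t ht ((kc_lk_iff _ _).2 h)
    rw [kc_lk_iff, ho, ← kc_lk_iff] at h1
    exact (kc_lk_iff _ _).1 (hs t₁ ht₁ t' ht' h1)
  · intro h
    have h1 := hs t' ht' t₁ ht₁ ((kc_lk_iff _ _).2 h)
    rw [kc_lk_iff, ← ho, ← kc_lk_iff] at h1
    exact (kc_lk_iff _ _).1 (hs t ht t' ht' h1)

/-- product of the entries of one owner. -/
private def kcP {K : Type} [Fintype K] [DecidableEq K] (k : K) (D : TT K → ℕ) : ℕ :=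
  ∏ t ∈ univ.filter (fun t : TT K => t.own = k), D t

private theorem kcP_update {K : Type} [Fintype K] [DecidableEq K] {k : K} {t : TT K} (h : t.own ≠ k)
    (D : TT K → ℕ) (x : ℕ) : kcP k (Function.update D t x) = kcP k D := by
  unfold kcP
  refine Finset.prod_congr rfl fun t' ht' => ?_
  rw [Finset.mem_filter] at ht'
  rw [Function.update_of_ne]
  rintro rfl
  exact h ht'.2

open Classical in
theorem kc (K : Type) [Fintype K] [DecidableEq K] : ∃ C : ℝ, 0 < C ∧
    ∀ 𝓔 : K → ℕ → Finset (K → ℤ), SignSets 𝓔 → ∀ Y z : ℕ, 16 ≤ Y → 1 ≤ z →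
    z ^ (2 * Fintype.card (TT K)) ≤ Y →
    (((Tup K Y).filter (fun D => (∀ k, z ^ Fintype.card (TT K) < D k) ∧ Cond 𝓔 D)).card : ℝ) ≤
      C * (Y / Real.log Y) * (1 + Real.log z) ^ Fintype.card (TT K) *
        Real.exp (∑ p ∈ pri Y,
          ∑ k, (2 : ℝ)⁻¹ ^ (Fintype.card K - 1) * ((𝓔 k p).card : ℝ) / p) +
      C * Y * (Real.log Y + 1) ^ (Fintype.card (TT K) + 2) * (z : ℝ) ^ (-(1 / 80) : ℝ) := by
  obtain ⟨C₁, hC₁, hunl⟩ := unl (TT K)
  obtain ⟨C₂, hC₂, hlnk⟩ := lnk (TT K)
  refine ⟨2 ^ Fintype.card (TT K) * (C₁ + C₂), by positivity, ?_⟩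
  intro 𝓔 h𝓔 Y z hY hz hzY
  obtain ⟨w, hw⟩ : ∃ w : ℕ, w = Fintype.card (TT K) := ⟨_, rfl⟩
  rw [← hw] at hzY ⊢
  obtain ⟨A, hA⟩ : ∃ A : ℝ, A = (Y / Real.log Y) * (1 + Real.log z) ^ w *
        Real.exp (∑ p ∈ pri Y,
          ∑ k, (2 : ℝ)⁻¹ ^ (Fintype.card K - 1) * ((𝓔 k p).card : ℝ) / p) := ⟨_, rfl⟩
  obtain ⟨B, hB⟩ : ∃ B : ℝ, B = Y * (Real.log Y + 1) ^ (w + 2) * (z : ℝ) ^ (-(1 / 80) : ℝ) := ⟨_, rfl⟩
  have hY1 : (1 : ℝ) < Y := by
    have : 1 < Y := by omega
    exact_mod_cast this
  have hz1 : (1 : ℝ) ≤ z := by exact_mod_cast hz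
  have hlY : 0 < Real.log Y := Real.log_pos hY1
  have hlz : 0 ≤ Real.log z := Real.log_nonneg hz1
  have hA0 : 0 ≤ A := by rw [hA]; positivity
  have hB0 : 0 ≤ B := by rw [hB]; positivity
  -- the index set
  obtain ⟨F, hF⟩ : ∃ F : Finset (TT K → ℕ), F = (Tup (TT K) Y).filter (fun G => ∀ k, z ^ w < kcP k G) :=
    ⟨_, rfl⟩
  have hcount : (((Tup K Y).filter (fun D => (∀ k, z ^ w < D k) ∧ Cond 𝓔 D)).card : ℝ) =
      ∑ Λ : Finset (TT K), ∑ G ∈ F.filter (fun G => univ.filter (fun t => z < G t) = Λ),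
        term (fc 𝓔) lk G := by
    rw [count_eq 𝓔 h𝓔 Y (z ^ w)]
    rw [hF]
    rw [Finset.sum_fiberwise]
    rfl
  rw [hcount]
  -- the bound for one `Λ`
  have hone : ∀ Λ : Finset (TT K), |∑ G ∈ F.filter (fun G => univ.filter (fun t => z < G t) = Λ),
        term (fc 𝓔) lk G| ≤ C₁ * A + C₂ * B := by
    intro Λ
    have hbd : ∀ t p, |fc 𝓔 t p| ≤ 1 := fun t p => (abs_fc_le 𝓔 h𝓔 t p).1.trans (abs_fc_le 𝓔 h𝓔 t p).2
    by_cases hown : ∀ k : K, ∃ t ∈ Λ, t.own = k
    · by_cases hsym : ∀ t ∈ Λ, ∀ t' ∈ Λ, lk t t' = true → lk t' t = true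
      · -- unlinked
        refine (Finset.abs_sum_le_sum_abs _ _).trans ?_
        refine (Finset.sum_le_sum fun G _ => kc_term_abs (fc 𝓔) lk G).trans ?_
        have hsub : F.filter (fun G => univ.filter (fun t => z < G t) = Λ) ⊆
            (Tup (TT K) Y).filter (fun D => ∀ t, t ∉ Λ → D t ≤ z) := by
          intro G hG
          rw [mem_filter, hF, mem_filter] at hG
          rw [mem_filter]
          refine ⟨hG.1.1, fun t ht => ?_⟩
          rw [← hG.2, Finset.mem_filter, not_and] at ht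
          exact not_lt.1 (ht (mem_univ _))
        refine (Finset.sum_le_sum_of_subset_of_nonneg hsub fun G _ _ =>
          Finset.prod_nonneg fun t _ => Finset.prod_nonneg fun p _ => abs_nonneg _).trans ?_
        have h1 := hunl (fun t p => |fc 𝓔 t p|) (fun t p => ⟨abs_nonneg _, hbd t p⟩) Λ Y z hY hz
          (by rw [← hw]; exact hzY)
        refine h1.trans ?_
        rw [← hw]
        have h2 : ∑ p ∈ pri Y, ∑ t ∈ Λ, |fc 𝓔 t p| / p ≤
            ∑ p ∈ pri Y, ∑ k, (2 : ℝ)⁻¹ ^ (Fintype.card K - 1) * ((𝓔 k p).card : ℝ) / p := by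
          refine Finset.sum_le_sum fun p _ => ?_
          have h3 : ∑ t ∈ Λ, |fc 𝓔 t p| / p ≤
              ∑ t ∈ Λ, (2 : ℝ)⁻¹ ^ (Fintype.card K - 1) * ((𝓔 t.own p).card : ℝ) / p := by
            refine Finset.sum_le_sum fun t _ => ?_
            exact div_le_div_of_nonneg_right (abs_fc_le 𝓔 h𝓔 t p).1 (Nat.cast_nonneg p)
          have h4 : ∑ t ∈ Λ, (2 : ℝ)⁻¹ ^ (Fintype.card K - 1) * ((𝓔 t.own p).card : ℝ) / p =
              ∑ k ∈ Λ.image TT.own, (2 : ℝ)⁻¹ ^ (Fintype.card K - 1) * ((𝓔 k p).card : ℝ) / p := by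
            rw [Finset.sum_image]
            intro t ht t₁ ht₁ ho
            exact kc_inj hsym hown ht ht₁ ho
          rw [h4] at h3
          refine h3.trans ?_
          refine Finset.sum_le_sum_of_subset_of_nonneg (Finset.subset_univ _) fun k _ _ => ?_
          positivity
        have h5 : C₁ * (Y / Real.log Y) * (1 + Real.log z) ^ w *
            Real.exp (∑ p ∈ pri Y, ∑ t ∈ Λ, |fc 𝓔 t p| / p) ≤ C₁ * A := by
          rw [hA]
          have h6 := Real.exp_le_exp.2 h2
          have h7 : 0 ≤ C₁ * (Y / Real.log Y) * (1 + Real.log z) ^ w := by positivity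
          refine (mul_le_mul_of_nonneg_left h6 h7).trans (le_of_eq ?_)
          ring
        have h8 : 0 ≤ C₂ * B := by positivity
        linarith
      · -- linked
        push Not at hsym
        obtain ⟨t₁, ht₁, t₂, ht₂, hl₁, hl₂⟩ := hsym
        have hl₂' : lk t₂ t₁ = false := by
          rw [Bool.eq_false_iff]
          exact hl₂
        have ho : t₁.own ≠ t₂.own := by
          intro h
          have h3 := (kc_lk_iff _ _).1 hl₁
          rw [h] at h3
          exact kc_own_notin t₂ h3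
        have hne : t₁ ≠ t₂ := by
          rintro rfl
          exact ho rfl
        have h1 := hlnk (fc 𝓔) lk hbd (fun t => by
            unfold lk
            exact decide_eq_false (kc_own_notin t)) t₁ t₂ hne hl₁ hl₂'
          (fun D => (∀ t, t ≠ t₁ → t ≠ t₂ → (z < D t ↔ t ∈ Λ)) ∧ ∀ k, k ≠ t₂.own → z ^ w < kcP k D)
          (fun D => z ^ w < kcP t₂.own D) ?_ ?_ Y z (by omega) hz
        · rw [← hw] at h1
          have hset : F.filter (fun G => univ.filter (fun t => z < G t) = Λ) =
              (Tup (TT K) Y).filter (fun D => z < D t₁ ∧ z < D t₂ ∧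
                ((∀ t, t ≠ t₁ → t ≠ t₂ → (z < D t ↔ t ∈ Λ)) ∧ ∀ k, k ≠ t₂.own → z ^ w < kcP k D) ∧
                z ^ w < kcP t₂.own D) := by
            ext G
            rw [mem_filter, hF, mem_filter, mem_filter]
            constructor
            · rintro ⟨⟨g1, g2⟩, g3⟩
              have g4 : ∀ t, z < G t ↔ t ∈ Λ := by
                intro t
                rw [← g3, Finset.mem_filter]
                exact ⟨fun h => ⟨mem_univ _, h⟩, fun h => h.2⟩
              exact ⟨g1, (g4 t₁).2 ht₁, (g4 t₂).2 ht₂, ⟨fun t _ _ => g4 t, fun k _ => g2 k⟩, g2 _⟩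
            · rintro ⟨g1, g2, g3, ⟨g4, g5⟩, g6⟩
              refine ⟨⟨g1, fun k => ?_⟩, ?_⟩
              · by_cases hk : k = t₂.own
                · rw [hk]; exact g6
                · exact g5 k hk
              · ext t
                rw [Finset.mem_filter]
                by_cases h3 : t = t₁
                · rw [h3]; exact ⟨fun _ => ht₁, fun _ => ⟨mem_univ _, g2⟩⟩
                by_cases h4 : t = t₂
                · rw [h4]; exact ⟨fun _ => ht₂, fun _ => ⟨mem_univ _, g3⟩⟩
                exact ⟨fun h => (g4 t h3 h4).1 h.2, fun h => ⟨mem_univ _, (g4 t h3 h4).2 h⟩⟩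
          have h1' : |∑ G ∈ F.filter (fun G => univ.filter (fun t => z < G t) = Λ),
              term (fc 𝓔) lk G| ≤
              C₂ * Y * (Real.log Y + 1) ^ (w + 2) * (z : ℝ) ^ (-(1 / 80) : ℝ) := by
            rw [hset]
            convert h1
          refine h1'.trans ?_
          have h2 : C₂ * Y * (Real.log Y + 1) ^ (w + 2) * (z : ℝ) ^ (-(1 / 80) : ℝ) = C₂ * B := by
            rw [hB]; ring
          rw [h2]
          have h3 : 0 ≤ C₁ * A := by positivity
          linarith
        · intro D x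
          have e1 : ∀ t, t ≠ t₁ → t ≠ t₂ → Function.update D t₂ x t = D t := fun t _ h =>
            Function.update_of_ne h _ _
          have e2 : ∀ k, k ≠ t₂.own → kcP k (Function.update D t₂ x) = kcP k D := fun k hk =>
            kcP_update hk.symm D x
          constructor
          · rintro ⟨g1, g2⟩
            refine ⟨fun t h h' => ?_, fun k hk => ?_⟩
            · have := g1 t h h'
              rwa [e1 t h h'] at this
            · have := g2 k hk
              rwa [e2 k hk] at this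
          · rintro ⟨g1, g2⟩
            refine ⟨fun t h h' => ?_, fun k hk => ?_⟩
            · rw [e1 t h h']; exact g1 t h h'
            · rw [e2 k hk]; exact g2 k hk
        · intro D x
          rw [kcP_update ho D x]
    · -- no large entry for some owner
      push Not at hown
      obtain ⟨k, hk⟩ := hown
      have hempty : F.filter (fun G => univ.filter (fun t => z < G t) = Λ) = ∅ := by
        rw [Finset.eq_empty_iff_forall_notMem]
        intro G hG
        rw [mem_filter, hF, mem_filter] at hG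
        have h1 := hG.1.2 k
        have h2 : kcP k G ≤ z ^ w := by
          unfold kcP
          have h3 : ∀ t ∈ univ.filter (fun t : TT K => t.own = k), G t ≤ z := by
            intro t ht
            rw [Finset.mem_filter] at ht
            by_contra h4
            rw [not_le] at h4
            have h5 : t ∈ Λ := by
              rw [← hG.2, Finset.mem_filter]
              exact ⟨mem_univ _, h4⟩
            exact hk t h5 ht.2
          refine (Finset.prod_le_pow_card _ _ _ h3).trans ?_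
          refine Nat.pow_le_pow_right hz ?_
          rw [hw]
          exact Finset.card_le_univ _
        omega
      rw [hempty, Finset.sum_empty, abs_zero]
      positivity
  refine (le_abs_self _).trans ((Finset.abs_sum_le_sum_abs _ _).trans ?_)
  refine (Finset.sum_le_sum fun Λ _ => hone Λ).trans ?_
  rw [Finset.sum_const, Finset.card_univ, Fintype.card_finset, ← hw, nsmul_eq_mul]
  push_cast
  have h1 : (2 : ℝ) ^ w * (C₁ * A + C₂ * B) ≤ 2 ^ w * (C₁ + C₂) * A + 2 ^ w * (C₁ + C₂) * B := by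
    have e1 : 0 ≤ (2 : ℝ) ^ w * (C₂ * A) := by positivity
    have e2 : 0 ≤ (2 : ℝ) ^ w * (C₁ * B) := by positivity
    nlinarith
  refine h1.trans (le_of_eq ?_)
  rw [hA, hB]
  ring

end Pool.Agent.QTW
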