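import Pool.Agent.QTW.Slc
import Pool.Agent.QTW.KC

/-!
# QTW-CT: the counting theorem

Assembly of `slice` and `kc`: the tuples are sliced according to their entries `≤ W = z ^ w`, where
`z = ⌈(log Y) ^ A⌉₊`; the number of tuples with given small entries is bounded by `kc` and the hypothesis
on averages (`ct_term`), the sum over the small entries costs a power of `1 + log W` (`ct_harm`), and all
these quantities are powers of `log log Y` (`ct_asym`).
-/

set_option autoImplicit false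

namespace Pool.Agent.QTW

open Finset

variable {I : Type} [Fintype I] [DecidableEq I]

open Classical in
private theorem ct_term (F : Fam I) (u : I → ℤ) (P : ℕ) (N : Finset I → (I → ℕ) → Prop)
    {κ C1 C2 : ℝ} {w : ℕ} (hκ1 : κ ≤ 1) (hC1 : 0 ≤ C1) (hC2 : 0 ≤ C2) (K : Finset I)
    (hav : ∀ s : I → ℕ, Sml P K s → N K s → ∀ x : ℕ, 3 ≤ x →
      ∑ p ∈ pri x, ∑ k : {x // x ∈ K}, (2 : ℝ)⁻¹ ^ (K.card - 1) *
        ((sg F u P K s k p).card : ℝ) / p ≤
      (1 - κ) * Real.log (Real.log x) + C1 * (1 + Real.log (Real.log ((∏ j, s j : ℕ) + 3))))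
    (hkc : ∀ 𝓔 : {x // x ∈ K} → ℕ → Finset ({x // x ∈ K} → ℤ), SignSets 𝓔 →
      ∀ Y z : ℕ, 16 ≤ Y → 1 ≤ z → z ^ (2 * Fintype.card (TT {x // x ∈ K})) ≤ Y →
      (((Tup {x // x ∈ K} Y).filter
        (fun D => (∀ k, z ^ Fintype.card (TT {x // x ∈ K}) < D k) ∧ Cond 𝓔 D)).card : ℝ) ≤
      C2 * (Y / Real.log Y) * (1 + Real.log z) ^ Fintype.card (TT {x // x ∈ K}) *
        Real.exp (∑ p ∈ pri Y,
          ∑ k, (2 : ℝ)⁻¹ ^ (Fintype.card {x // x ∈ K} - 1) * ((𝓔 k p).card : ℝ) / p) +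
      C2 * Y * (Real.log Y + 1) ^ (Fintype.card (TT {x // x ∈ K}) + 2) *
        (z : ℝ) ^ (-(1 / 80) : ℝ))
    (hw : Fintype.card (TT {x // x ∈ K}) ≤ w)
    {Y z : ℕ} (hz : 1 ≤ z) (hbig : (32 * z ^ (w * Fintype.card I + 2 * w + 1)) ^ 2 ≤ Y)
    (s : I → ℕ) (hs : s ∈ smalls P N (z ^ w) K) :
    (((Tup {x // x ∈ K} (Y / ∏ j, s j)).filter
          (fun D => (∀ k, z ^ w < D k) ∧ Cond (sg F u P K s) D)).card : ℝ) ≤
      ((Y : ℝ) / ((∏ j, s j : ℕ) : ℝ)) * (C2 * (2 * (1 + Real.log z) ^ w *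
        Real.log Y ^ (-κ) *
        Real.exp (C1 * (1 + Real.log (Real.log ((z : ℝ) ^ (w * Fintype.card I) + 3)))) +
        (Real.log Y + 1) ^ (w + 2) * (z : ℝ) ^ (-(1 / 80) : ℝ))) := by
  rw [smalls, mem_filter, Fintype.mem_piFinset] at hs
  obtain ⟨hs1, hs2, hs3⟩ := hs
  obtain ⟨r, hr⟩ : ∃ r : ℕ, r = ∏ j, s j := ⟨_, rfl⟩
  rw [← hr]
  have hr1 : 1 ≤ r := by
    rw [hr]
    exact Finset.one_le_prod' fun j _ => (mem_Icc.1 (hs1 j)).1
  have hr2 : r ≤ z ^ (w * Fintype.card I) := by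
    rw [hr, pow_mul]
    have h1 := Finset.prod_le_pow_card (univ : Finset I) s (z ^ w)
      fun j _ => (mem_Icc.1 (hs1 j)).2
    rwa [Finset.card_univ] at h1
  obtain ⟨Z0, hZ0⟩ : ∃ Z0 : ℕ, Z0 = z ^ (w * Fintype.card I + 2 * w + 1) := ⟨_, rfl⟩
  rw [← hZ0] at hbig
  have hZ1 : 1 ≤ Z0 := by
    rw [hZ0]
    exact Nat.one_le_pow _ _ hz
  have hrZ : r ≤ Z0 := by
    rw [hZ0]
    exact hr2.trans (Nat.pow_le_pow_right hz (by omega))
  have hZY : 16 * Z0 ≤ Y := by nlinarith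
  obtain ⟨y, hy⟩ : ∃ y : ℕ, y = Y / r := ⟨_, rfl⟩
  rw [← hy]
  have hy16 : 16 ≤ y := by
    rw [hy, Nat.le_div_iff_mul_le hr1]
    exact (Nat.mul_le_mul_left 16 hrZ).trans hZY
  have hyz : z ^ (2 * Fintype.card (TT {x // x ∈ K})) ≤ y := by
    rw [hy, Nat.le_div_iff_mul_le hr1]
    calc z ^ (2 * Fintype.card (TT {x // x ∈ K})) * r ≤
        z ^ (2 * w) * z ^ (w * Fintype.card I) :=
          Nat.mul_le_mul (Nat.pow_le_pow_right hz (by omega)) hr2
      _ = z ^ (2 * w + w * Fintype.card I) := (pow_add _ _ _).symm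
      _ ≤ Z0 := by
          rw [hZ0]
          exact Nat.pow_le_pow_right hz (by omega)
      _ ≤ Y := by omega
  have hY0 : 0 < Y := by omega
  have hyY : y ≤ Y := by
    rw [hy]
    exact Nat.div_le_self _ _
  have hlt : Y < r * (y + 1) := by
    rw [hy]
    exact Nat.lt_mul_div_succ Y hr1
  have hsq : Y ≤ y ^ 2 := by
    by_contra hcon
    rw [not_le] at hcon
    have h1 : Y < 2 * r * y := by nlinarith
    have h2 : Y * Y < (2 * r * y) * (2 * r * y) := Nat.mul_self_lt_mul_self h1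
    have h3 : (2 * r) ^ 2 ≤ Y := by
      calc (2 * r) ^ 2 ≤ (32 * Z0) ^ 2 := Nat.pow_le_pow_left (by omega) 2
        _ ≤ Y := hbig
    have h4 : (2 * r * y) * (2 * r * y) = (2 * r) ^ 2 * y ^ 2 := by ring
    have h5 : (2 * r) ^ 2 * y ^ 2 ≤ Y * Y := Nat.mul_le_mul h3 hcon.le
    omega
  -- real versions
  have hyR : (16 : ℝ) ≤ y := by exact_mod_cast hy16
  have hy0 : (0 : ℝ) < y := by linarith
  have hYR : (0 : ℝ) < Y := by exact_mod_cast hY0
  have hrR : (1 : ℝ) ≤ r := by exact_mod_cast hr1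
  have hylog : 1 ≤ Real.log y := by
    rw [Real.le_log_iff_exp_le hy0]
    have := Real.exp_one_lt_d9
    linarith
  have hLy : Real.log y ≤ Real.log Y := Real.log_le_log hy0 (by exact_mod_cast hyY)
  have hL0 : 0 < Real.log Y := by linarith
  have hL2 : Real.log Y ≤ 2 * Real.log y := by
    have h1 : Real.log Y ≤ Real.log ((y : ℝ) ^ 2) :=
      Real.log_le_log hYR (by exact_mod_cast hsq)
    rwa [Real.log_pow, Nat.cast_ofNat] at h1
  have hzR : (1 : ℝ) ≤ z := by exact_mod_cast hz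
  have hlz : 0 ≤ Real.log z := Real.log_nonneg hzR
  have hyr : (y : ℝ) ≤ Y / r := by
    rw [hy]
    exact Nat.cast_div_le
  have hav' := hav s hs2 hs3 y (by omega)
  rw [← hr] at hav'
  have hexp : ∑ p ∈ pri y, ∑ k : {x // x ∈ K}, (2 : ℝ)⁻¹ ^ (Fintype.card {x // x ∈ K} - 1) *
        ((sg F u P K s k p).card : ℝ) / p ≤ (1 - κ) * Real.log (Real.log Y) +
        C1 * (1 + Real.log (Real.log ((z : ℝ) ^ (w * Fintype.card I) + 3))) := by
    rw [Fintype.card_coe]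
    refine hav'.trans (add_le_add ?_ ?_)
    · exact mul_le_mul_of_nonneg_left (Real.log_le_log (by linarith) hLy) (by linarith)
    · refine mul_le_mul_of_nonneg_left (by
        have h3 : (0 : ℝ) < Real.log (r + 3) := Real.log_pos (by linarith)
        have h4 : Real.log ((r : ℝ) + 3) ≤
            Real.log ((z : ℝ) ^ (w * Fintype.card I) + 3) := by
          refine Real.log_le_log (by linarith) ?_
          have h5 : (r : ℝ) ≤ (z : ℝ) ^ (w * Fintype.card I) := by exact_mod_cast hr2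
          linarith
        have h6 := Real.log_le_log h3 h4
        linarith) hC1
  have hmain := hkc (sg F u P K s) (signSets_sg F u P K s) y z hy16 hz hyz
  have hcard : (((Tup {x // x ∈ K} y).filter
          (fun D => (∀ k, z ^ w < D k) ∧ Cond (sg F u P K s) D)).card : ℝ) ≤
      (((Tup {x // x ∈ K} y).filter
        (fun D => (∀ k, z ^ Fintype.card (TT {x // x ∈ K}) < D k) ∧
          Cond (sg F u P K s) D)).card : ℝ) := by
    refine Nat.cast_le.2 (Finset.card_le_card ?_)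
    intro D hD
    rw [mem_filter] at hD ⊢
    exact ⟨hD.1, fun k => (Nat.pow_le_pow_right hz hw).trans_lt (hD.2.1 k), hD.2.2⟩
  refine (hcard.trans hmain).trans ?_
  have hq1 : (y : ℝ) / Real.log y ≤ (Y / r) * (2 / Real.log Y) := by
    rw [div_le_iff₀ (by linarith)]
    calc (y : ℝ) ≤ Y / r := hyr
      _ = (Y / r) * 1 := (mul_one _).symm
      _ ≤ (Y / r) * (2 / Real.log Y * Real.log y) := by
          refine mul_le_mul_of_nonneg_left ?_ (by positivity)
          rw [div_mul_eq_mul_div, le_div_iff₀ hL0]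
          linarith
      _ = (Y / r) * (2 / Real.log Y) * Real.log y := by ring
  have hq2 : (1 + Real.log z) ^ Fintype.card (TT {x // x ∈ K}) ≤ (1 + Real.log z) ^ w :=
    pow_le_pow_right₀ (by linarith) hw
  have hq3 : (Real.log y + 1) ^ (Fintype.card (TT {x // x ∈ K}) + 2) ≤
      (Real.log Y + 1) ^ (w + 2) :=
    (pow_le_pow_left₀ (by linarith) (by linarith) _).trans
      (pow_le_pow_right₀ (by linarith) (by omega))
  have hq4 : 2 / Real.log Y * Real.exp ((1 - κ) * Real.log (Real.log Y)) =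
      2 * Real.log Y ^ (-κ) := by
    rw [Real.rpow_def_of_pos hL0]
    have h1 : (1 - κ) * Real.log (Real.log Y) =
        Real.log (Real.log Y) + Real.log (Real.log Y) * (-κ) := by ring
    rw [h1, Real.exp_add, Real.exp_log hL0]
    field_simp
  have hB : C2 * (y / Real.log y) * (1 + Real.log z) ^ Fintype.card (TT {x // x ∈ K}) *
        Real.exp (∑ p ∈ pri y,
          ∑ k, (2 : ℝ)⁻¹ ^ (Fintype.card {x // x ∈ K} - 1) *
            ((sg F u P K s k p).card : ℝ) / p) ≤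
      C2 * ((Y / r) * (2 / Real.log Y)) * (1 + Real.log z) ^ w *
        Real.exp ((1 - κ) * Real.log (Real.log Y) +
        C1 * (1 + Real.log (Real.log ((z : ℝ) ^ (w * Fintype.card I) + 3)))) := by
    have h0 : 0 ≤ (y : ℝ) / Real.log y := by positivity
    have h1 : 0 ≤ 1 + Real.log z := by linarith
    refine mul_le_mul (mul_le_mul (mul_le_mul_of_nonneg_left hq1 hC2) hq2 (pow_nonneg h1 _)
      (mul_nonneg hC2 (h0.trans hq1))) (Real.exp_le_exp.2 hexp) (Real.exp_pos _).le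
      (mul_nonneg (mul_nonneg hC2 (h0.trans hq1)) (pow_nonneg h1 _))
  have hD : C2 * y * (Real.log y + 1) ^ (Fintype.card (TT {x // x ∈ K}) + 2) *
        (z : ℝ) ^ (-(1 / 80) : ℝ) ≤
      C2 * (Y / r) * (Real.log Y + 1) ^ (w + 2) * (z : ℝ) ^ (-(1 / 80) : ℝ) := by
    refine mul_le_mul_of_nonneg_right (mul_le_mul (mul_le_mul_of_nonneg_left hyr hC2) hq3
      (pow_nonneg (by linarith) _) (mul_nonneg hC2 (hy0.le.trans hyr))) (by positivity)
  refine (add_le_add hB hD).trans (le_of_eq ?_)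
  rw [Real.exp_add]
  calc _ = (Y / r) * (C2 * (2 / Real.log Y * Real.exp ((1 - κ) * Real.log (Real.log Y)) *
        (1 + Real.log z) ^ w *
        Real.exp (C1 * (1 + Real.log (Real.log ((z : ℝ) ^ (w * Fintype.card I) + 3)))) +
        (Real.log Y + 1) ^ (w + 2) * (z : ℝ) ^ (-(1 / 80) : ℝ))) := by ring
    _ = _ := by
        rw [hq4]
        ring

private theorem ct_harm (P : ℕ) (N : Finset I → (I → ℕ) → Prop) (W : ℕ) (K : Finset I) :
    ∑ s ∈ smalls P N W K, (((∏ j, s j : ℕ) : ℝ))⁻¹ ≤ (1 + Real.log W) ^ Fintype.card I := by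
  classical
  have h1 : ∑ s ∈ smalls P N W K, (((∏ j, s j : ℕ) : ℝ))⁻¹ ≤
      ∑ s ∈ Fintype.piFinset fun _ : I => Icc 1 W, (((∏ j, s j : ℕ) : ℝ))⁻¹ := by
    refine Finset.sum_le_sum_of_subset_of_nonneg ?_ fun _ _ _ => by positivity
    unfold smalls
    exact Finset.filter_subset _ _
  have h2 : ∑ s ∈ Fintype.piFinset fun _ : I => Icc 1 W, (((∏ j, s j : ℕ) : ℝ))⁻¹ =
      (∑ a ∈ Icc 1 W, ((a : ℝ))⁻¹) ^ Fintype.card I := by
    have h3 := Finset.prod_univ_sum (fun _ : I => Icc 1 W) (fun _ (a : ℕ) => ((a : ℝ))⁻¹)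
    rw [Finset.prod_const, Finset.card_univ] at h3
    rw [h3]
    refine Finset.sum_congr rfl fun s _ => ?_
    rw [Nat.cast_prod, Finset.prod_inv_distrib]
  have h4 : ∑ a ∈ Icc 1 W, ((a : ℝ))⁻¹ ≤ 1 + Real.log W := by
    have h5 := harmonic_le_one_add_log W
    rw [harmonic_eq_sum_Icc] at h5
    push_cast at h5
    exact h5
  rw [h2] at h1
  exact h1.trans (pow_le_pow_left₀ (Finset.sum_nonneg fun _ _ => by positivity) h4 _)

private theorem ct_unif (F : Fam I) (u : I → ℤ) (P : ℕ) (N : Finset I → (I → ℕ) → Prop)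
    (h : AV F u P N) : ∃ κ C1 : ℝ, 0 < κ ∧ κ ≤ 1 / 2 ∧ 0 ≤ C1 ∧ ∀ K : Finset I, K.Nonempty →
      ∀ s : I → ℕ, Sml P K s → N K s → ∀ x : ℕ, 3 ≤ x →
      ∑ p ∈ pri x, ∑ k : {x // x ∈ K}, (2 : ℝ)⁻¹ ^ (K.card - 1) *
        ((sg F u P K s k p).card : ℝ) / p ≤
      (1 - κ) * Real.log (Real.log x) +
        C1 * (1 + Real.log (Real.log ((∏ j, s j : ℕ) + 3))) := by
  classical
  have h' : ∀ K : Finset I, ∃ κ C : ℝ, K.Nonempty → (0 < κ ∧ 0 ≤ C ∧ ∀ s : I → ℕ, Sml P K s →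
      N K s → ∀ x : ℕ, 3 ≤ x →
      ∑ p ∈ pri x, ∑ k : {x // x ∈ K}, (2 : ℝ)⁻¹ ^ (K.card - 1) *
        ((sg F u P K s k p).card : ℝ) / p ≤
      (1 - κ) * Real.log (Real.log x) +
        C * (1 + Real.log (Real.log ((∏ j, s j : ℕ) + 3)))) := by
    intro K
    by_cases hK : K.Nonempty
    · obtain ⟨κ, C, h1⟩ := h K hK
      exact ⟨κ, C, fun _ => h1⟩
    · exact ⟨0, 0, fun h1 => absurd h1 hK⟩
  choose κ C hκ using h'
  obtain ⟨S, hS⟩ : ∃ S : Finset ℝ, S = insert (1 / 2)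
      ((univ.filter fun K : Finset I => K.Nonempty).image κ) := ⟨_, rfl⟩
  have hne : S.Nonempty := by
    rw [hS]
    exact Finset.insert_nonempty _ _
  have hall : ∀ t ∈ S, 0 < t := by
    intro t ht
    rw [hS, Finset.mem_insert, Finset.mem_image] at ht
    rcases ht with h1 | ⟨K, hK, h1⟩
    · rw [h1]
      norm_num
    · rw [← h1]
      exact (hκ K (mem_filter.1 hK).2).1
  have hpos : 0 < S.min' hne := hall _ (S.min'_mem hne)
  refine ⟨S.min' hne, ∑ K : Finset I, |C K|, hpos, ?_, Finset.sum_nonneg fun _ _ => abs_nonneg _,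
    ?_⟩
  · refine S.min'_le _ ?_
    rw [hS]
    exact Finset.mem_insert_self _ _
  · intro K hK s hs hN x hx
    obtain ⟨h1, h2, h3⟩ := hκ K hK
    refine (h3 s hs hN x hx).trans ?_
    have hx3 : (3 : ℝ) ≤ x := by exact_mod_cast hx
    have hlog3 : ∀ t : ℝ, 3 ≤ t → 0 ≤ Real.log (Real.log t) := by
      intro t ht
      apply Real.log_nonneg
      rw [Real.le_log_iff_exp_le (by linarith)]
      have := Real.exp_one_lt_d9
      linarith
    have h4 : S.min' hne ≤ κ K := by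
      refine S.min'_le _ ?_
      rw [hS]
      exact Finset.mem_insert_of_mem (Finset.mem_image_of_mem _
        (mem_filter.2 ⟨mem_univ _, hK⟩))
    have h5 : C K ≤ ∑ K : Finset I, |C K| :=
      (le_abs_self _).trans (Finset.single_le_sum (f := fun K => |C K|)
        (fun _ _ => abs_nonneg _) (mem_univ K))
    have h6 := hlog3 x hx3
    have h7 := hlog3 (((∏ j, s j : ℕ) : ℝ) + 3) (by
      have : (0 : ℝ) ≤ ((∏ j, s j : ℕ) : ℝ) := Nat.cast_nonneg _
      linarith)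
    refine add_le_add (mul_le_mul_of_nonneg_right (by linarith) h6)
      (mul_le_mul_of_nonneg_right h5 (by linarith))

private theorem ct_log (a b : ℝ) {κ : ℝ} (hκ : 0 < κ) :
    ∀ᶠ L : ℝ in Filter.atTop, a * Real.log L ^ b ≤ L ^ κ := by
  have h1 := (isLittleO_log_rpow_rpow_atTop b hκ).bound (c := 1 / (|a| + 1))
    (by positivity)
  filter_upwards [h1, Filter.eventually_ge_atTop 1] with L hL hL1
  have h2 : 0 ≤ Real.log L ^ b := Real.rpow_nonneg (Real.log_nonneg hL1) b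
  have h3 : 0 ≤ L ^ κ := Real.rpow_nonneg (by linarith) κ
  rw [Real.norm_of_nonneg h2, Real.norm_of_nonneg h3] at hL
  have h4 : 0 < |a| + 1 := by positivity
  have h5 : (|a| + 1) * Real.log L ^ b ≤ L ^ κ := by
    calc (|a| + 1) * Real.log L ^ b ≤ (|a| + 1) * (1 / (|a| + 1) * L ^ κ) :=
          mul_le_mul_of_nonneg_left hL h4.le
      _ = L ^ κ := by field_simp
  have h6 : a * Real.log L ^ b ≤ (|a| + 1) * Real.log L ^ b :=
    mul_le_mul_of_nonneg_right (by linarith [le_abs_self a]) h2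
  exact h6.trans h5

private theorem ct_exp (a : ℝ) (n : ℕ) :
    ∀ᶠ L : ℝ in Filter.atTop, a * L ^ n ≤ Real.exp L := by
  have h1 := (Real.isLittleO_pow_exp_atTop (n := n)).bound (c := 1 / (|a| + 1))
    (by positivity)
  filter_upwards [h1, Filter.eventually_ge_atTop 1] with L hL hL1
  have h2 : 0 ≤ L ^ n := pow_nonneg (by linarith) n
  rw [Real.norm_of_nonneg h2, Real.norm_of_nonneg (Real.exp_pos L).le] at hL
  have h4 : 0 < |a| + 1 := by positivity
  have h5 : (|a| + 1) * L ^ n ≤ Real.exp L := by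
    calc (|a| + 1) * L ^ n ≤ (|a| + 1) * (1 / (|a| + 1) * Real.exp L) :=
          mul_le_mul_of_nonneg_left hL h4.le
      _ = Real.exp L := by field_simp
  have h6 : a * L ^ n ≤ (|a| + 1) * L ^ n :=
    mul_le_mul_of_nonneg_right (by linarith [le_abs_self a]) h2
  exact h6.trans h5

private theorem ct_asym (w m : ℕ) {κ C1 : ℝ} (hκ : 0 < κ) (hκ2 : κ ≤ 1 / 2) (hC1 : 0 ≤ C1) :
    ∀ᶠ L : ℝ in Filter.atTop, ∀ z : ℕ, z = ⌈L ^ (80 * (w + 4))⌉₊ → 1 ≤ L ∧ 1 ≤ z ∧
      (32 * (z : ℝ) ^ (w * m + 2 * w + 1)) ^ 2 ≤ Real.exp L ∧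
      (1 + Real.log z) ^ w *
        Real.exp (C1 * (1 + Real.log (Real.log ((z : ℝ) ^ (w * m) + 3)))) ≤ L ^ (κ / 4) ∧
      (1 + Real.log ((z ^ w : ℕ) : ℝ)) ^ m ≤ L ^ (κ / 4) ∧
      (L + 1) ^ (w + 2) * (z : ℝ) ^ (-(1 / 80) : ℝ) ≤ L ^ (-1 : ℝ) ∧
      (((z ^ w : ℕ) : ℝ) + 1) ^ m ≤ Real.exp L * L ^ (-(κ / 2)) := by
  obtain ⟨A, hA⟩ : ∃ A : ℕ, A = 80 * (w + 4) := ⟨_, rfl⟩
  rw [← hA]
  have hκ4 : 0 < κ / 4 := by linarith
  filter_upwards [Filter.eventually_ge_atTop (2 : ℝ),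
    Filter.eventually_ge_atTop ((2 : ℝ) ^ (w + 2)),
    Filter.eventually_ge_atTop (Real.exp 1),
    ct_exp 1024 ((A + 1) * (2 * (w * m + 2 * w + 1))),
    ct_log (((A : ℝ) + 2) ^ w * Real.exp (C1 * (1 + Real.log ((A + 1) * (w * m) + 2))))
      (w + C1) hκ4,
    ct_log (((w : ℝ) * (A + 1) + 1) ^ m) m hκ4,
    ct_exp (2 ^ m) ((A + 1) * (w * m) + 1)] with L h2 hw2 he hx1 hl1 hl2 hx2
  intro z hz
  have hL0 : 0 < L := by linarith
  have hL1 : 1 ≤ L := by linarith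
  have hlog1 : 1 ≤ Real.log L := by rwa [Real.le_log_iff_exp_le hL0]
  have hlog0 : 0 < Real.log L := by linarith
  have hLA : L ^ A ≤ z := by
    rw [hz]
    exact Nat.le_ceil _
  have hLA1 : 1 ≤ L ^ A := one_le_pow₀ hL1
  have hzR : (1 : ℝ) ≤ z := hLA1.trans hLA
  have hz1 : 1 ≤ z := by exact_mod_cast hzR
  have hzle : (z : ℝ) ≤ L ^ (A + 1) := by
    have h3 : (z : ℝ) < L ^ A + 1 := by
      rw [hz]
      exact Nat.ceil_lt_add_one (by linarith)
    have h4 : L ^ (A + 1) = L ^ A * L := pow_succ _ _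
    nlinarith
  have hz0 : (0 : ℝ) < z := by linarith
  have hlz0 : 0 ≤ Real.log z := Real.log_nonneg hzR
  have hlz : Real.log z ≤ (A + 1) * Real.log L := by
    have h3 := Real.log_le_log hz0 hzle
    rw [Real.log_pow] at h3
    push_cast at h3
    exact h3
  have hzq : ∀ q : ℕ, (z : ℝ) ^ q ≤ L ^ ((A + 1) * q) := by
    intro q
    rw [pow_mul]
    exact pow_le_pow_left₀ hz0.le hzle q
  refine ⟨hL1, hz1, ?_, ?_, ?_, ?_, ?_⟩
  · calc (32 * (z : ℝ) ^ (w * m + 2 * w + 1)) ^ 2 =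
        1024 * (z : ℝ) ^ (2 * (w * m + 2 * w + 1)) := by ring
      _ ≤ 1024 * L ^ ((A + 1) * (2 * (w * m + 2 * w + 1))) :=
        mul_le_mul_of_nonneg_left (hzq _) (by norm_num)
      _ ≤ Real.exp L := hx1
  · refine le_trans ?_ hl1
    have h3 : (1 + Real.log z) ^ w ≤ ((A + 2) * Real.log L) ^ w :=
      pow_le_pow_left₀ (by linarith) (by nlinarith) w
    have h4 : Real.log ((z : ℝ) ^ (w * m) + 3) ≤ ((A + 1) * (w * m) + 2) * Real.log L := by
      have h5 : (z : ℝ) ^ (w * m) + 3 ≤ L ^ ((A + 1) * (w * m) + 2) := by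
        have h6 : (1 : ℝ) ≤ (z : ℝ) ^ (w * m) := one_le_pow₀ hzR
        have h7 := hzq (w * m)
        have h8 : (4 : ℝ) ≤ L ^ 2 := by nlinarith
        calc (z : ℝ) ^ (w * m) + 3 ≤ (z : ℝ) ^ (w * m) * 4 := by linarith
          _ ≤ L ^ ((A + 1) * (w * m)) * L ^ 2 :=
            mul_le_mul h7 h8 (by norm_num) (by positivity)
          _ = L ^ ((A + 1) * (w * m) + 2) := (pow_add _ _ _).symm
      have h6 := Real.log_le_log (by positivity) h5
      rw [Real.log_pow] at h6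
      push_cast at h6
      exact h6
    have h5 : 0 < Real.log ((z : ℝ) ^ (w * m) + 3) := by
      have h6 : (1 : ℝ) ≤ (z : ℝ) ^ (w * m) := one_le_pow₀ hzR
      exact Real.log_pos (by linarith)
    have hB : (0 : ℝ) < (A + 1) * (w * m) + 2 := by positivity
    have h6 : Real.log (Real.log ((z : ℝ) ^ (w * m) + 3)) ≤
        Real.log ((A + 1) * (w * m) + 2) + Real.log (Real.log L) := by
      rw [← Real.log_mul hB.ne' hlog0.ne']
      exact Real.log_le_log h5 h4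
    have h7 : Real.exp (C1 * (1 + Real.log (Real.log ((z : ℝ) ^ (w * m) + 3)))) ≤
        Real.exp (C1 * (1 + Real.log ((A + 1) * (w * m) + 2))) * Real.log L ^ C1 := by
      rw [Real.rpow_def_of_pos hlog0, ← Real.exp_add]
      refine Real.exp_le_exp.2 ?_
      have h8 := mul_le_mul_of_nonneg_left h6 hC1
      nlinarith
    have h8 : Real.log L ^ ((w : ℝ) + C1) = Real.log L ^ w * Real.log L ^ C1 := by
      rw [Real.rpow_add hlog0, Real.rpow_natCast]
    calc _ ≤ ((A + 2) * Real.log L) ^ w *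
          (Real.exp (C1 * (1 + Real.log ((A + 1) * (w * m) + 2))) * Real.log L ^ C1) :=
        mul_le_mul h3 h7 (Real.exp_pos _).le (by positivity)
      _ = _ := by
        rw [h8, mul_pow]
        ring
  · have h3 : Real.log ((z ^ w : ℕ) : ℝ) = w * Real.log z := by
      rw [Nat.cast_pow, Real.log_pow]
    rw [h3]
    have h4 : 1 + w * Real.log z ≤ (w * (A + 1) + 1) * Real.log L := by
      have h5 := mul_le_mul_of_nonneg_left hlz (Nat.cast_nonneg w : (0 : ℝ) ≤ w)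
      nlinarith
    refine (pow_le_pow_left₀ (by positivity) h4 m).trans ?_
    rw [mul_pow]
    rwa [Real.rpow_natCast] at hl2
  · have h3 : L ^ (w + 4) ≤ (z : ℝ) ^ ((80 : ℝ)⁻¹) := by
      have h4 : (L ^ (w + 4)) ^ 80 ≤ (z : ℝ) := by
        rw [← pow_mul]
        have h5 : (w + 4) * 80 = A := by
          rw [hA]
          ring
        rw [h5]
        exact hLA
      have h5 := Real.rpow_le_rpow (by positivity) h4 (by norm_num : (0 : ℝ) ≤ (80 : ℝ)⁻¹)
      have h6 : ((L ^ (w + 4)) ^ 80) ^ ((80 : ℝ)⁻¹) = L ^ (w + 4) := by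
        have h7 := Real.pow_rpow_inv_natCast (n := 80)
          (pow_nonneg hL0.le (w + 4)) (by norm_num)
        exact_mod_cast h7
      rwa [h6] at h5
    have h4 : (z : ℝ) ^ (-(1 / 80) : ℝ) = ((z : ℝ) ^ ((80 : ℝ)⁻¹))⁻¹ := by
      rw [← Real.rpow_neg hz0.le]
      congr 1
      norm_num
    rw [h4, Real.rpow_neg_one]
    have h5 : 0 < L ^ (w + 4) := by positivity
    have h6 : ((z : ℝ) ^ ((80 : ℝ)⁻¹))⁻¹ ≤ (L ^ (w + 4))⁻¹ := inv_anti₀ h5 h3
    have h7 : (L + 1) ^ (w + 2) ≤ 2 ^ (w + 2) * L ^ (w + 2) := by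
      rw [← mul_pow]
      exact pow_le_pow_left₀ (by linarith) (by linarith) _
    calc (L + 1) ^ (w + 2) * ((z : ℝ) ^ ((80 : ℝ)⁻¹))⁻¹ ≤
        (2 ^ (w + 2) * L ^ (w + 2)) * (L ^ (w + 4))⁻¹ :=
          mul_le_mul h7 h6 (by positivity) (by positivity)
      _ ≤ (L * L ^ (w + 2)) * (L ^ (w + 4))⁻¹ := by
          refine mul_le_mul_of_nonneg_right (mul_le_mul_of_nonneg_right hw2
            (by positivity)) (by positivity)
      _ = L⁻¹ := by
          have h8 : L ^ (w + 4) = L * L ^ (w + 2) * L := by ring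
          rw [h8]
          field_simp
  · have h3 : L ^ (κ / 2) ≤ L := by
      calc L ^ (κ / 2) ≤ L ^ (1 : ℝ) := Real.rpow_le_rpow_of_exponent_le hL1 (by linarith)
        _ = L := Real.rpow_one L
    have h4 : 0 < L ^ (κ / 2) := Real.rpow_pos_of_pos hL0 _
    rw [Real.rpow_neg hL0.le, ← div_eq_mul_inv, le_div_iff₀ h4]
    have h5 : (((z ^ w : ℕ) : ℝ) + 1) ^ m ≤ 2 ^ m * L ^ ((A + 1) * (w * m)) := by
      have h6 : ((z ^ w : ℕ) : ℝ) + 1 ≤ 2 * (z : ℝ) ^ w := by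
        have h7 : (1 : ℝ) ≤ (z : ℝ) ^ w := one_le_pow₀ hzR
        push_cast
        linarith
      calc (((z ^ w : ℕ) : ℝ) + 1) ^ m ≤ (2 * (z : ℝ) ^ w) ^ m :=
            pow_le_pow_left₀ (by positivity) h6 m
        _ = 2 ^ m * (z : ℝ) ^ (w * m) := by rw [mul_pow, ← pow_mul]
        _ ≤ _ := mul_le_mul_of_nonneg_left (hzq _) (by positivity)
    calc (((z ^ w : ℕ) : ℝ) + 1) ^ m * L ^ (κ / 2) ≤
        2 ^ m * L ^ ((A + 1) * (w * m)) * L :=
          mul_le_mul h5 h3 h4.le (by positivity)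
      _ = 2 ^ m * L ^ ((A + 1) * (w * m) + 1) := by
          rw [pow_succ]
          ring
      _ ≤ Real.exp L := hx2

theorem ct (F : Fam I) (u : I → ℤ) (P : ℕ) (N : Finset I → (I → ℕ) → Prop)
    (h : AV F u P N) : ∃ δ C : ℝ, 0 < δ ∧ 0 < C ∧ ∀ Y : ℕ, 3 ≤ Y →
      ((GT F u P N Y).card : ℝ) ≤ C * Y / Real.log Y ^ δ := by
  classical
  obtain ⟨κ, C1, hκ0, hκ2, hC1, hav⟩ := ct_unif F u P N h
  choose Ck hCk0 hCk using fun K : Finset I => kc {x // x ∈ K}
  obtain ⟨C2, hC2d⟩ : ∃ C2 : ℝ, C2 = ∑ K : Finset I, Ck K := ⟨_, rfl⟩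
  have hC2 : ∀ K, Ck K ≤ C2 := by
    intro K
    rw [hC2d]
    exact Finset.single_le_sum (f := Ck) (fun K _ => (hCk0 K).le) (mem_univ K)
  have hC20 : 0 ≤ C2 := (hCk0 ∅).le.trans (hC2 ∅)
  obtain ⟨w, hwd⟩ : ∃ w : ℕ, w = ∑ K : Finset I, Fintype.card (TT {x // x ∈ K}) := ⟨_, rfl⟩
  have hw : ∀ K : Finset I, Fintype.card (TT {x // x ∈ K}) ≤ w := by
    intro K
    rw [hwd]
    exact Finset.single_le_sum (f := fun K : Finset I => Fintype.card (TT {x // x ∈ K}))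
      (fun K _ => Nat.zero_le _) (mem_univ K)
  have hkc : ∀ K : Finset I, ∀ 𝓔 : {x // x ∈ K} → ℕ → Finset ({x // x ∈ K} → ℤ),
      SignSets 𝓔 → ∀ Y z : ℕ, 16 ≤ Y → 1 ≤ z →
      z ^ (2 * Fintype.card (TT {x // x ∈ K})) ≤ Y →
      (((Tup {x // x ∈ K} Y).filter
        (fun D => (∀ k, z ^ Fintype.card (TT {x // x ∈ K}) < D k) ∧ Cond 𝓔 D)).card : ℝ) ≤
      C2 * (Y / Real.log Y) * (1 + Real.log z) ^ Fintype.card (TT {x // x ∈ K}) *
        Real.exp (∑ p ∈ pri Y,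
          ∑ k, (2 : ℝ)⁻¹ ^ (Fintype.card {x // x ∈ K} - 1) * ((𝓔 k p).card : ℝ) / p) +
      C2 * Y * (Real.log Y + 1) ^ (Fintype.card (TT {x // x ∈ K}) + 2) *
        (z : ℝ) ^ (-(1 / 80) : ℝ) := by
    intro K 𝓔 h𝓔 Y z hY hz hzY
    refine (hCk K 𝓔 h𝓔 Y z hY hz hzY).trans ?_
    have hYR : (16 : ℝ) ≤ Y := by exact_mod_cast hY
    have hlY : 0 ≤ Real.log Y := Real.log_nonneg (by linarith)
    have hlz : 0 ≤ Real.log z := Real.log_nonneg (by exact_mod_cast hz)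
    have h1 := hC2 K
    refine add_le_add ?_ ?_
    · refine mul_le_mul_of_nonneg_right (mul_le_mul_of_nonneg_right
        (mul_le_mul_of_nonneg_right h1 (by positivity)) (by positivity)) (Real.exp_pos _).le
    · refine mul_le_mul_of_nonneg_right (mul_le_mul_of_nonneg_right
        (mul_le_mul_of_nonneg_right h1 (by positivity)) (by positivity)) (by positivity)
  obtain ⟨m, hm⟩ : ∃ m : ℕ, m = Fintype.card I := ⟨_, rfl⟩
  have hasym := ct_asym w m hκ0 hκ2 hC1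
  have htend : Filter.Tendsto (fun Y : ℕ => Real.log (Y : ℝ)) Filter.atTop Filter.atTop :=
    Real.tendsto_log_atTop.comp tendsto_natCast_atTop_atTop
  obtain ⟨Y0, hY0⟩ := Filter.eventually_atTop.1 (htend.eventually hasym)
  obtain ⟨B, hB⟩ : ∃ B : ℝ, B = 1 + (Fintype.card (Finset I) : ℝ) * (3 * C2) := ⟨_, rfl⟩
  have hB0 : 1 ≤ B := by
    rw [hB]
    have : 0 ≤ (Fintype.card (Finset I) : ℝ) * (3 * C2) := by positivity
    linarith
  -- large values of Y
  have hlarge : ∀ Y : ℕ, Y0 ≤ Y → 3 ≤ Y →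
      ((GT F u P N Y).card : ℝ) ≤ B * Y / Real.log Y ^ (κ / 2) := by
    intro Y hY hY3
    obtain ⟨z, hz⟩ : ∃ z : ℕ, z = ⌈Real.log (Y : ℝ) ^ (80 * (w + 4))⌉₊ := ⟨_, rfl⟩
    obtain ⟨hL1, hz1, h1, h2, h3, h4, h5⟩ := hY0 Y hY z hz
    obtain ⟨L, hL⟩ : ∃ L : ℝ, L = Real.log (Y : ℝ) := ⟨_, rfl⟩
    have hYR : (3 : ℝ) ≤ Y := by exact_mod_cast hY3
    have hYpos : (0 : ℝ) < Y := by linarith
    rw [Real.exp_log hYpos] at h1 h5
    rw [← hL] at hL1 h2 h3 h4 h5 ⊢
    have hL0 : 0 < L := by linarith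
    have hbig : (32 * z ^ (w * Fintype.card I + 2 * w + 1)) ^ 2 ≤ Y := by
      rw [← hm]
      exact_mod_cast h1
    have hW1 : 1 ≤ z ^ w := Nat.one_le_pow _ _ hz1
    have hsl := slice F u P N Y (z ^ w) hW1
    -- the bound for one term
    have hterm : ∀ K : Finset I, K.Nonempty → ∀ s ∈ smalls P N (z ^ w) K,
        (((Tup {x // x ∈ K} (Y / ∏ j, s j)).filter
          (fun D => (∀ k, z ^ w < D k) ∧ Cond (sg F u P K s) D)).card : ℝ) ≤
        (Y * (C2 * (2 * (L ^ (-κ) * L ^ (κ / 4)) + L ^ (-1 : ℝ)))) *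
          (((∏ j, s j : ℕ) : ℝ))⁻¹ := by
      intro K hK s hs
      have g1 := ct_term F u P N (by linarith) hC1 hC20 K (hav K hK) (hkc K) (hw K) hz1 hbig s hs
      rw [← hL, ← hm] at g1
      refine g1.trans ?_
      have g2 : 0 ≤ L ^ (-κ) := Real.rpow_nonneg hL0.le _
      have g3 : 2 * (1 + Real.log z) ^ w * L ^ (-κ) *
          Real.exp (C1 * (1 + Real.log (Real.log ((z : ℝ) ^ (w * m) + 3)))) ≤
          2 * (L ^ (-κ) * L ^ (κ / 4)) := by
        calc _ = 2 * (L ^ (-κ) * ((1 + Real.log z) ^ w *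
              Real.exp (C1 * (1 + Real.log (Real.log ((z : ℝ) ^ (w * m) + 3)))))) := by ring
          _ ≤ _ := mul_le_mul_of_nonneg_left (mul_le_mul_of_nonneg_left h2 g2) (by norm_num)
      have g4 : 0 ≤ (Y : ℝ) / ((∏ j, s j : ℕ) : ℝ) := by positivity
      calc _ ≤ ((Y : ℝ) / ((∏ j, s j : ℕ) : ℝ)) *
            (C2 * (2 * (L ^ (-κ) * L ^ (κ / 4)) + L ^ (-1 : ℝ))) :=
            mul_le_mul_of_nonneg_left (mul_le_mul_of_nonneg_left (add_le_add g3 h4) hC20) g4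
        _ = _ := by
            rw [div_eq_mul_inv]
            ring
    obtain ⟨E, hE⟩ : ∃ E : ℝ, E = Y * (C2 * (2 * (L ^ (-κ) * L ^ (κ / 4)) + L ^ (-1 : ℝ))) :=
      ⟨_, rfl⟩
    have hE0 : 0 ≤ E := by
      rw [hE]
      have g1 : 0 ≤ L ^ (-κ) := Real.rpow_nonneg hL0.le _
      have g2 : 0 ≤ L ^ (κ / 4) := Real.rpow_nonneg hL0.le _
      have g3 : 0 ≤ L ^ (-1 : ℝ) := Real.rpow_nonneg hL0.le _
      positivity
    have hsum : ∀ K : Finset I, K.Nonempty → ∑ s ∈ smalls P N (z ^ w) K,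
        (((Tup {x // x ∈ K} (Y / ∏ j, s j)).filter
          (fun D => (∀ k, z ^ w < D k) ∧ Cond (sg F u P K s) D)).card : ℝ) ≤
        E * L ^ (κ / 4) := by
      intro K hK
      refine (Finset.sum_le_sum fun s hs => hterm K hK s hs).trans ?_
      rw [← Finset.mul_sum, ← hE]
      refine mul_le_mul_of_nonneg_left ?_ hE0
      have g1 := ct_harm P N (z ^ w) K
      rw [← hm] at g1
      exact g1.trans h3
    have hsum2 : ∑ K ∈ univ.filter (fun K : Finset I => K.Nonempty), ∑ s ∈ smalls P N (z ^ w) K,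
        (((Tup {x // x ∈ K} (Y / ∏ j, s j)).filter
          (fun D => (∀ k, z ^ w < D k) ∧ Cond (sg F u P K s) D)).card : ℝ) ≤
        (Fintype.card (Finset I) : ℝ) * (E * L ^ (κ / 4)) := by
      refine (Finset.sum_le_sum fun K hK => hsum K (mem_filter.1 hK).2).trans ?_
      rw [Finset.sum_const, nsmul_eq_mul]
      refine mul_le_mul_of_nonneg_right ?_ (mul_nonneg hE0 (Real.rpow_nonneg hL0.le _))
      exact_mod_cast (Finset.card_filter_le _ _).trans (Finset.card_univ).le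
    have hfin : E * L ^ (κ / 4) ≤ Y * (3 * C2) * L ^ (-(κ / 2)) := by
      have g1 : L ^ (-κ) * L ^ (κ / 4) * L ^ (κ / 4) = L ^ (-(κ / 2)) := by
        rw [← Real.rpow_add hL0, ← Real.rpow_add hL0]
        congr 1
        ring
      have g2 : L ^ (-1 : ℝ) * L ^ (κ / 4) ≤ L ^ (-(κ / 2)) := by
        rw [← Real.rpow_add hL0]
        exact Real.rpow_le_rpow_of_exponent_le hL1 (by linarith)
      calc E * L ^ (κ / 4) = Y * C2 * (2 * (L ^ (-κ) * L ^ (κ / 4) * L ^ (κ / 4)) +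
            L ^ (-1 : ℝ) * L ^ (κ / 4)) := by
            rw [hE]
            ring
        _ ≤ Y * C2 * (2 * L ^ (-(κ / 2)) + L ^ (-(κ / 2))) := by
            refine mul_le_mul_of_nonneg_left ?_ (by positivity)
            rw [g1]
            linarith
        _ = _ := by ring
    have hneg : L ^ (-(κ / 2)) = (L ^ (κ / 2))⁻¹ := Real.rpow_neg hL0.le _
    calc ((GT F u P N Y).card : ℝ) ≤ (((z ^ w : ℕ) : ℝ) + 1) ^ Fintype.card I +
          (Fintype.card (Finset I) : ℝ) * (E * L ^ (κ / 4)) := by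
            refine hsl.trans (add_le_add le_rfl ?_)
            exact hsum2
      _ ≤ Y * L ^ (-(κ / 2)) +
          (Fintype.card (Finset I) : ℝ) * (Y * (3 * C2) * L ^ (-(κ / 2))) := by
            rw [← hm]
            exact add_le_add h5 (mul_le_mul_of_nonneg_left hfin (by positivity))
      _ = B * Y / L ^ (κ / 2) := by
            rw [hB, hneg]
            ring
  -- small values
  obtain ⟨M, hM⟩ : ∃ M : ℝ, M = ∑ Y ∈ Finset.range Y0, ((GT F u P N Y).card : ℝ) := ⟨_, rfl⟩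
  have hM0 : 0 ≤ M := by
    rw [hM]
    exact Finset.sum_nonneg fun _ _ => Nat.cast_nonneg _
  obtain ⟨R, hR⟩ : ∃ R : ℝ, R = Real.log ((Y0 : ℝ) + 3) ^ (κ / 2) := ⟨_, rfl⟩
  have hlY0 : 0 < Real.log ((Y0 : ℝ) + 3) :=
    Real.log_pos (by
      have : (0 : ℝ) ≤ Y0 := Nat.cast_nonneg _
      linarith)
  have hR0 : 0 < R := by
    rw [hR]
    exact Real.rpow_pos_of_pos hlY0 _
  refine ⟨κ / 2, B + M * R, by linarith, by positivity, ?_⟩
  intro Y hY3
  have hYR : (3 : ℝ) ≤ Y := by exact_mod_cast hY3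
  have hlY : 0 < Real.log Y := Real.log_pos (by linarith)
  have hpow : 0 < Real.log Y ^ (κ / 2) := Real.rpow_pos_of_pos hlY _
  rcases Nat.lt_or_ge Y Y0 with hY | hY
  · have h1 : ((GT F u P N Y).card : ℝ) ≤ M := by
      rw [hM]
      exact Finset.single_le_sum (f := fun Y => ((GT F u P N Y).card : ℝ))
        (fun _ _ => Nat.cast_nonneg _) (Finset.mem_range.2 hY)
    have h2 : Real.log Y ^ (κ / 2) ≤ R := by
      rw [hR]
      refine Real.rpow_le_rpow hlY.le (Real.log_le_log (by linarith) ?_) (by linarith)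
      have h3 : (Y : ℝ) ≤ Y0 := by exact_mod_cast hY.le
      linarith
    rw [le_div_iff₀ hpow]
    have h3 : ((GT F u P N Y).card : ℝ) * Real.log Y ^ (κ / 2) ≤ M * R :=
      mul_le_mul h1 h2 hpow.le hM0
    have h4 : M * R ≤ (B + M * R) * Y := by
      have h5 : 0 ≤ M * R := by positivity
      nlinarith
    exact h3.trans h4
  · refine (hlarge Y hY hY3).trans ?_
    refine div_le_div_of_nonneg_right ?_ hpow.le
    refine mul_le_mul_of_nonneg_right ?_ (by linarith)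
    have : 0 ≤ M * R := by positivity
    linarith

end Pool.Agent.QTW
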