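import Pool.Agent.QTW.Expd

/-!
# QTW-Cnt: the number of tuples as a sum over tuples of types; bounds for the coefficients
-/

set_option autoImplicit false

namespace Pool.Agent.QTW

open Finset

private theorem cn_SF {T : Type} [DecidableEq T] (G : T → ℕ) (hSF : ∀ t, SF (G t))
    (hcop : ∀ t t', t ≠ t' → Nat.Coprime (G t) (G t')) (s : Finset T) : SF (∏ t ∈ s, G t) := by
  induction s using Finset.induction_on with
  | empty =>
    rw [Finset.prod_empty]
    exact ⟨squarefree_one, odd_one⟩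
  | insert t s ht ih =>
    rw [Finset.prod_insert ht]
    have hc : Nat.Coprime (G t) (∏ t ∈ s, G t) := by
      refine Nat.Coprime.prod_right fun t' ht' => hcop t t' ?_
      rintro rfl
      exact ht ht'
    exact ⟨(Nat.squarefree_mul hc).2 ⟨(hSF t).1, ih.1⟩, (hSF t).2.mul ih.2⟩

private theorem cn_cop {T : Type} [DecidableEq T] (G : T → ℕ)
    (hcop : ∀ t t', t ≠ t' → Nat.Coprime (G t) (G t')) (s s' : Finset T) (h : Disjoint s s') :
    Nat.Coprime (∏ t ∈ s, G t) (∏ t ∈ s', G t) := by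
  refine Nat.Coprime.prod_left fun t ht => Nat.Coprime.prod_right fun t' ht' => hcop t t' ?_
  rintro rfl
  exact Finset.disjoint_left.1 h ht ht'

private theorem cn_prod {K : Type} [Fintype K] [DecidableEq K] (G : TT K → ℕ) :
    ∏ k, ∏ t ∈ univ.filter (fun t : TT K => t.own = k), G t = ∏ t, G t :=
  Finset.prod_fiberwise univ (fun t : TT K => t.own) G

private theorem cn_SF_dvd {m n : ℕ} (h : m ∣ n) (hn : SF n) : SF m :=
  ⟨hn.1.squarefree_of_dvd h, by
    obtain ⟨c, rfl⟩ := h
    exact (Nat.odd_mul.1 hn.2).1⟩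

private theorem cn_fib {K : Type} [Fintype K] [DecidableEq K] {Y : ℕ} {D : K → ℕ} (hD : D ∈ Tup K Y)
    (G : TT K → ℕ) :
    (G ∈ Tup (TT K) Y ∧ (fun k => ∏ t ∈ univ.filter (fun t : TT K => t.own = k), G t) = D) ↔
      ((∀ t, G t ∈ (D t.own).divisors) ∧
        ∀ k, ∏ t ∈ univ.filter (fun t : TT K => t.own = k), G t = D k) := by
  rw [mem_Tup] at hD
  obtain ⟨hD1, hD2, hD3⟩ := hD
  constructor
  · rintro ⟨-, h2⟩
    have h3 : ∀ k, ∏ t ∈ univ.filter (fun t : TT K => t.own = k), G t = D k := fun k => congrFun h2 k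
    refine ⟨fun t => ?_, h3⟩
    rw [Nat.mem_divisors]
    refine ⟨?_, (hD1 _).1.ne_zero⟩
    rw [← h3 t.own]
    exact Finset.dvd_prod_of_mem _ (by simp)
  · rintro ⟨h1, h2⟩
    refine ⟨?_, funext h2⟩
    rw [mem_Tup]
    have hdvd : ∀ t, G t ∣ D t.own := fun t => (Nat.mem_divisors.1 (h1 t)).1
    refine ⟨fun t => cn_SF_dvd (hdvd t) (hD1 _), fun t t' htt' => ?_, ?_⟩
    · by_cases ho : t.own = t'.own
      · have h4 : G t * G t' ∣ D t.own := by
          rw [← h2 t.own, ← Finset.mul_prod_erase _ G (a := t) (by simp)]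
          refine Nat.mul_dvd_mul_left _ (Finset.dvd_prod_of_mem _ ?_)
          rw [Finset.mem_erase, Finset.mem_filter]
          exact ⟨htt'.symm, mem_univ _, ho.symm⟩
        exact Nat.coprime_of_squarefree_mul ((hD1 t.own).1.squarefree_of_dvd h4)
      · exact Nat.Coprime.coprime_dvd_left (hdvd t)
          (Nat.Coprime.coprime_dvd_right (hdvd t') (hD2 _ _ ho))
    · rw [← cn_prod G]
      rw [Finset.prod_congr rfl fun k _ => h2 k]
      exact hD3

open Classical in
theorem count_eq {K : Type} [Fintype K] [DecidableEq K] (𝓔 : K → ℕ → Finset (K → ℤ))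
    (h𝓔 : SignSets 𝓔) (Y z : ℕ) :
    (((Tup K Y).filter (fun D => (∀ k, z < D k) ∧ Cond 𝓔 D)).card : ℝ) =
      ∑ G ∈ (Tup (TT K) Y).filter
          (fun G => ∀ k, z < ∏ t ∈ univ.filter (fun t : TT K => t.own = k), G t),
        term (fc 𝓔) lk G := by
  have h1 : (((Tup K Y).filter (fun D => (∀ k, z < D k) ∧ Cond 𝓔 D)).card : ℝ) =
      ∑ D ∈ (Tup K Y).filter (fun D => ∀ k, z < D k), (if Cond 𝓔 D then (1 : ℝ) else 0) := by
    rw [← Finset.filter_filter, Finset.card_filter, Nat.cast_sum]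
    refine Finset.sum_congr rfl fun D _ => ?_
    split_ifs <;> simp
  rw [h1]
  have hmap : ∀ G ∈ (Tup (TT K) Y).filter
      (fun G => ∀ k, z < ∏ t ∈ univ.filter (fun t : TT K => t.own = k), G t),
      (fun k => ∏ t ∈ univ.filter (fun t : TT K => t.own = k), G t) ∈
        (Tup K Y).filter (fun D => ∀ k, z < D k) := by
    intro G hG
    rw [mem_filter, mem_Tup] at hG
    obtain ⟨⟨g1, g2, g3⟩, g4⟩ := hG
    rw [mem_filter, mem_Tup]
    refine ⟨⟨fun k => cn_SF G g1 g2 _, fun k k' hkk' => cn_cop G g2 _ _ ?_, ?_⟩, g4⟩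
    · rw [Finset.disjoint_filter]
      intro t _ h5 h6
      exact hkk' (h5.symm.trans h6)
    · rw [cn_prod]
      exact g3
  rw [← Finset.sum_fiberwise_of_maps_to hmap]
  refine Finset.sum_congr rfl fun D hD => ?_
  rw [mem_filter] at hD
  obtain ⟨hD, hz⟩ := hD
  have hD' := mem_Tup.1 hD
  rw [expand 𝓔 h𝓔 D hD'.1 hD'.2.1]
  refine Finset.sum_congr ?_ fun _ _ => rfl
  ext G
  rw [mem_filter, mem_filter, mem_filter, Fintype.mem_piFinset, ← cn_fib hD G]
  constructor
  · rintro ⟨g1, g2⟩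
    refine ⟨⟨g1, fun k => ?_⟩, g2⟩
    rw [congrFun g2 k]
    exact hz k
  · rintro ⟨⟨g1, -⟩, g2⟩
    exact ⟨g1, g2⟩

theorem abs_fc_le {K : Type} [Fintype K] [DecidableEq K] (𝓔 : K → ℕ → Finset (K → ℤ))
    (h𝓔 : SignSets 𝓔) (t : TT K) (p : ℕ) :
    |fc 𝓔 t p| ≤ (2 : ℝ)⁻¹ ^ (Fintype.card K - 1) * (𝓔 t.own p).card ∧
    (2 : ℝ)⁻¹ ^ (Fintype.card K - 1) * (𝓔 t.own p).card ≤ 1 := by
  classical
  constructor
  · unfold fc
    rw [abs_mul, abs_of_nonneg (by positivity : (0 : ℝ) ≤ (2 : ℝ)⁻¹ ^ (Fintype.card K - 1))]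
    refine mul_le_mul_of_nonneg_left ?_ (by positivity)
    refine (Finset.abs_sum_le_sum_abs _ _).trans ?_
    have h1 : ∀ v ∈ 𝓔 t.own p, |∏ l ∈ t.set, ((v l : ℤ) : ℝ)| ≤ 1 := by
      intro v hv
      rw [Finset.abs_prod]
      refine Finset.prod_le_one (fun _ _ => abs_nonneg _) fun l _ => ?_
      rcases (h𝓔 _ _ _ hv).2 l with h | h
      · rw [h]; simp
      · rw [h]; simp
    refine (Finset.sum_le_sum h1).trans (le_of_eq ?_)
    simp
  · have h1 : (𝓔 t.own p).card ≤ 2 ^ (Fintype.card K - 1) := by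
      have h2 : ((univ.erase t.own).powerset : Finset (Finset K)).card = 2 ^ (Fintype.card K - 1) := by
        rw [Finset.card_powerset, Finset.card_erase_of_mem (mem_univ _), Finset.card_univ]
      rw [← h2]
      refine Finset.card_le_card_of_injOn (fun v : K → ℤ => univ.filter fun l => v l = -1) ?_ ?_
      · intro v hv
        rw [Finset.mem_coe] at hv
        rw [Finset.mem_coe, Finset.mem_powerset]
        intro l hl
        rw [Finset.mem_filter] at hl
        rw [Finset.mem_erase]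
        refine ⟨?_, mem_univ _⟩
        rintro rfl
        have h3 := (h𝓔 _ _ _ hv).1
        rw [hl.2] at h3
        norm_num at h3
      · intro v hv v' hv' hvv'
        rw [Finset.mem_coe] at hv hv'
        funext l
        have h4 : (v l = -1) ↔ (v' l = -1) := by
          have := Finset.ext_iff.1 hvv' l
          simpa using this
        rcases (h𝓔 _ _ _ hv).2 l with h | h <;> rcases (h𝓔 _ _ _ hv').2 l with h' | h'
        · rw [h, h']
        · exfalso
          have := h4.2 h'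
          rw [h] at this
          norm_num at this
        · exfalso
          have := h4.1 h
          rw [h'] at this
          norm_num at this
        · rw [h, h']
    have h5 : ((𝓔 t.own p).card : ℝ) ≤ 2 ^ (Fintype.card K - 1) := by exact_mod_cast h1
    calc (2 : ℝ)⁻¹ ^ (Fintype.card K - 1) * (𝓔 t.own p).card
        ≤ (2 : ℝ)⁻¹ ^ (Fintype.card K - 1) * 2 ^ (Fintype.card K - 1) :=
          mul_le_mul_of_nonneg_left h5 (by positivity)
      _ = 1 := by rw [← mul_pow]; norm_num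

end Pool.Agent.QTW
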