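import Pool.Agent.QTW.Rect

/-!
# QTW-Cut: dyadic rectangles with a hyperbolic cut

Divide `Ioc M (2M)` into `R` blocks of `q = M / R + 1` numbers, `R = ⌈μ^(1/80)⌉₊`, `μ = min M N`. For fixed `b` the
condition `a * b ≤ Y` cuts at most one block; the whole blocks are estimated by `rect`.
-/

set_option autoImplicit false

namespace Pool.Agent.QTW

open Finset

private theorem J_abs (a : ℤ) (n : ℕ) : |J a n| ≤ 1 := by
  unfold J
  rcases jacobiSym.trichotomy a n with h | h | h <;> rw [h] <;> norm_num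

/-- the blocks -/
private def blk (M q i : ℕ) : Finset ℕ :=
  (Ioc M (2 * M)).filter fun a => (a - 1 - M) / q = i

private theorem blk_card (M q i : ℕ) (hq : 1 ≤ q) : (blk M q i).card ≤ q := by
  have h : blk M q i ⊆ Ioc (M + q * i) (M + q * i + q) := by
    intro a ha
    rw [blk, mem_filter, mem_Ioc] at ha
    obtain ⟨⟨h1, h2⟩, h3⟩ := ha
    have h4 := Nat.div_add_mod (a - 1 - M) q
    have h5 := Nat.mod_lt (a - 1 - M) (show 0 < q by omega)
    rw [h3] at h4
    rw [mem_Ioc]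
    constructor <;> omega
  refine (card_le_card h).trans ?_
  rw [Nat.card_Ioc]
  omega

private theorem block_bound (M q R t : ℕ) (hq : 1 ≤ q) (hR : M < R * q) (w : ℕ → ℝ)
    (hw : ∀ a, |w a| ≤ 1) :
    |∑ a ∈ Ioc M (2 * M), if a ≤ t then w a else 0| ≤
      (∑ i ∈ range R, |∑ a ∈ blk M q i, w a|) + q := by
  have h1 : ∑ a ∈ Ioc M (2 * M), (if a ≤ t then w a else 0) =
      ∑ i ∈ range R, ∑ a ∈ blk M q i, (if a ≤ t then w a else 0) := by
    unfold blk
    rw [Finset.sum_fiberwise_of_maps_to]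
    intro a ha
    rw [mem_Ioc] at ha
    rw [mem_range, Nat.div_lt_iff_lt_mul (by omega)]
    omega
  rw [h1]
  refine (abs_sum_le_sum_abs _ _).trans ?_
  have h2 : ∀ i ∈ range R, |∑ a ∈ blk M q i, (if a ≤ t then w a else 0)| ≤
      |∑ a ∈ blk M q i, w a| + (if i = (t - M) / q then (q : ℝ) else 0) := by
    intro i _
    rcases lt_trichotomy i ((t - M) / q) with h | h | h
    · rw [if_neg h.ne, add_zero]
      refine le_of_eq (congrArg _ (sum_congr rfl fun a ha => ?_))
      rw [blk, mem_filter, mem_Ioc] at ha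
      obtain ⟨⟨h3, h4⟩, h5⟩ := ha
      refine if_pos ?_
      by_contra h6
      have h7 : (t - M) / q ≤ (a - 1 - M) / q := Nat.div_le_div_right (by omega)
      omega
    · rw [if_pos h]
      have h3 : |∑ a ∈ blk M q i, (if a ≤ t then w a else 0)| ≤ q := by
        refine (abs_sum_le_sum_abs _ _).trans ?_
        have h4 : ∀ a ∈ blk M q i, |(if a ≤ t then w a else 0)| ≤ (1 : ℝ) := by
          intro a _
          split_ifs
          · exact hw a
          · rw [abs_zero]; exact zero_le_one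
        refine (sum_le_sum h4).trans ?_
        rw [sum_const, nsmul_eq_mul, mul_one]
        exact_mod_cast blk_card M q i hq
      have h5 := abs_nonneg (∑ a ∈ blk M q i, w a)
      linarith
    · rw [if_neg h.ne', add_zero]
      have h3 : ∑ a ∈ blk M q i, (if a ≤ t then w a else 0) = 0 := by
        refine sum_eq_zero fun a ha => ?_
        rw [blk, mem_filter, mem_Ioc] at ha
        obtain ⟨⟨h3, h4⟩, h5⟩ := ha
        refine if_neg fun h6 => ?_
        have h7 : (a - 1 - M) / q ≤ (t - M) / q := Nat.div_le_div_right (by omega)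
        omega
      rw [h3, abs_zero]
      exact abs_nonneg _
  refine (sum_le_sum h2).trans ?_
  rw [sum_add_distrib]
  refine add_le_add le_rfl ?_
  rw [sum_ite_eq']
  split_ifs
  · exact le_rfl
  · positivity

private theorem block_sum {C : ℝ} {M N : ℕ} (α β : ℕ → ℝ) (hα : Adm α) (hβ : Adm β) (q i : ℕ)
    (hC : ∀ α β : ℕ → ℝ, Adm α → Adm β →
      |∑ a ∈ Ioc M (2 * M), ∑ b ∈ Ioc N (2 * N), α a * β b * J (a : ℤ) b| ≤ C) :
    ∑ b ∈ Ioc N (2 * N), |β b| * |∑ a ∈ blk M q i, α a * J (a : ℤ) b| ≤ C := by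
  have hA : Adm (fun a => if a ∈ blk M q i then α a else 0) := by
    intro n
    dsimp only
    split_ifs
    · exact hα n
    · exact ⟨by rw [abs_zero]; exact zero_le_one, fun h => absurd rfl h⟩
  have hB : Adm (fun b => |β b| * (SignType.sign (∑ a ∈ blk M q i, α a * J (a : ℤ) b) : ℝ)) := by
    intro n
    dsimp only
    constructor
    · rw [abs_mul, abs_abs]
      have h1 : |((SignType.sign (∑ a ∈ blk M q i, α a * J (a : ℤ) n) : SignType) : ℝ)| ≤ 1 := by
        rcases h : SignType.sign (∑ a ∈ blk M q i, α a * J (a : ℤ) n) with _ | _ | _ <;> simp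
      have h2 := (hβ n).1
      have h3 := abs_nonneg (β n)
      calc _ ≤ 1 * 1 := mul_le_mul h2 h1 (abs_nonneg _) zero_le_one
        _ = 1 := one_mul 1
    · intro h
      refine (hβ n).2 fun h1 => h ?_
      rw [h1, abs_zero, zero_mul]
  refine le_trans ?_ ((le_abs_self _).trans (hC _ _ hA hB))
  rw [sum_comm]
  refine le_of_eq (sum_congr rfl fun b _ => ?_)
  have h1 : ∑ a ∈ Ioc M (2 * M), (if a ∈ blk M q i then α a else 0) *
      (|β b| * (SignType.sign (∑ a ∈ blk M q i, α a * J (a : ℤ) b) : ℝ)) * J (a : ℤ) b =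
      |β b| * ((SignType.sign (∑ a ∈ blk M q i, α a * J (a : ℤ) b) : ℝ) *
        ∑ a ∈ blk M q i, α a * J (a : ℤ) b) := by
    have h2 : ∑ a ∈ blk M q i, α a * J (a : ℤ) b =
        ∑ a ∈ Ioc M (2 * M), (if a ∈ blk M q i then α a else 0) * J (a : ℤ) b := by
      have h3 : blk M q i ⊆ Ioc M (2 * M) := by
        rw [blk]; exact filter_subset _ _
      rw [← sum_subset h3 (f := fun a => (if a ∈ blk M q i then α a else 0) * J (a : ℤ) b)]
      · exact sum_congr rfl fun a ha => by rw [if_pos ha]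
      · intro a _ ha
        rw [if_neg ha, zero_mul]
    generalize hs : ((SignType.sign (∑ a ∈ blk M q i, α a * J (a : ℤ) b) : SignType) : ℝ) = s
    rw [h2, mul_sum, mul_sum]
    exact sum_congr rfl fun a _ => by ring
  rw [h1, sign_mul_self]

theorem cut : ∃ C : ℝ, 0 < C ∧ ∀ M N Y : ℕ, 1 ≤ M → 1 ≤ N → ∀ α β : ℕ → ℝ, Adm α → Adm β →
    |∑ a ∈ Ioc M (2 * M), ∑ b ∈ Ioc N (2 * N),
        if a * b ≤ Y then α a * β b * J (a : ℤ) b else 0| ≤
      C * M * N * ((min M N : ℕ) : ℝ) ^ (-(1 / 80) : ℝ) := by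
  obtain ⟨C, hC0, hC⟩ := rect
  refine ⟨2 * C + 2, by linarith, ?_⟩
  intro M N Y hM hN α β hα hβ
  set μ : ℝ := ((min M N : ℕ) : ℝ) with hμ
  have hμ1 : 1 ≤ μ := by
    rw [hμ]; exact_mod_cast le_min hM hN
  have hμ0 : 0 < μ := by linarith
  set R : ℕ := ⌈μ ^ (1 / 80 : ℝ)⌉₊ with hRdef
  have hpow1 : 1 ≤ μ ^ (1 / 80 : ℝ) := Real.one_le_rpow hμ1 (by norm_num)
  have hRge : μ ^ (1 / 80 : ℝ) ≤ R := Nat.le_ceil _
  have hRle : (R : ℝ) ≤ 2 * μ ^ (1 / 80 : ℝ) := by
    have := Nat.ceil_lt_add_one (show 0 ≤ μ ^ (1 / 80 : ℝ) by linarith)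
    rw [← hRdef] at this
    linarith
  have hR1 : 1 ≤ R := by
    have : (1 : ℝ) ≤ R := hpow1.trans hRge
    exact_mod_cast this
  set q : ℕ := M / R + 1 with hq
  have hMq : M < R * q := by
    have h1 := Nat.div_add_mod M R
    have h2 := Nat.mod_lt M (show 0 < R by omega)
    rw [hq, mul_add, mul_one]
    omega
  have hqle : (q : ℝ) ≤ M / R + 1 := by
    rw [hq]
    push_cast
    have := Nat.cast_div_le (α := ℝ) (m := M) (n := R)
    linarith
  set K : ℝ := C * M * N * μ ^ (-(1 / 40) : ℝ) with hK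
  have e1 : |∑ a ∈ Ioc M (2 * M), ∑ b ∈ Ioc N (2 * N),
        if a * b ≤ Y then α a * β b * J (a : ℤ) b else 0| ≤
      ∑ b ∈ Ioc N (2 * N), |β b| * ((∑ i ∈ range R, |∑ a ∈ blk M q i, α a * J (a : ℤ) b|) + q) := by
    rw [sum_comm]
    refine (abs_sum_le_sum_abs _ _).trans (sum_le_sum fun b hb => ?_)
    have hb0 : 0 < b := by
      rw [mem_Ioc] at hb
      omega
    have h1 : ∑ a ∈ Ioc M (2 * M), (if a * b ≤ Y then α a * β b * J (a : ℤ) b else 0) =
        β b * ∑ a ∈ Ioc M (2 * M), if a ≤ Y / b then α a * J (a : ℤ) b else 0 := by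
      rw [mul_sum]
      refine sum_congr rfl fun a _ => ?_
      rw [mul_ite, mul_zero]
      refine if_congr (Nat.le_div_iff_mul_le hb0).symm ?_ rfl
      ring
    rw [h1, abs_mul]
    refine mul_le_mul_of_nonneg_left ?_ (abs_nonneg _)
    refine block_bound M q R (Y / b) (hq ▸ Nat.le_add_left 1 _) hMq _ fun a => ?_
    rw [abs_mul]
    calc _ ≤ (1 : ℝ) * 1 := mul_le_mul (hα a).1 (J_abs _ _) (abs_nonneg _) zero_le_one
      _ = 1 := one_mul 1
  have e2 : ∑ b ∈ Ioc N (2 * N), |β b| *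
      ((∑ i ∈ range R, |∑ a ∈ blk M q i, α a * J (a : ℤ) b|) + q) ≤ R * K + N * q := by
    have h1 : ∀ b ∈ Ioc N (2 * N), |β b| *
        ((∑ i ∈ range R, |∑ a ∈ blk M q i, α a * J (a : ℤ) b|) + q) ≤
        (∑ i ∈ range R, |β b| * |∑ a ∈ blk M q i, α a * J (a : ℤ) b|) + q := by
      intro b _
      rw [mul_add, mul_sum]
      refine add_le_add le_rfl ?_
      have h2 : (0 : ℝ) ≤ q := Nat.cast_nonneg q
      calc |β b| * q ≤ 1 * q := mul_le_mul_of_nonneg_right (hβ b).1 h2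
        _ = q := one_mul _
    refine (sum_le_sum h1).trans ?_
    rw [sum_add_distrib, sum_comm]
    refine add_le_add ?_ ?_
    · refine (sum_le_sum fun i _ => block_sum α β hα hβ q i (hC M N hM hN)).trans ?_
      rw [sum_const, card_range, nsmul_eq_mul]
    · rw [sum_const, Nat.card_Ioc, nsmul_eq_mul]
      refine mul_le_mul_of_nonneg_right ?_ (Nat.cast_nonneg q)
      exact_mod_cast (show 2 * N - N ≤ N by omega)
  refine (e1.trans e2).trans ?_
  have hM0 : (0 : ℝ) < M := by exact_mod_cast hM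
  have hN0 : (0 : ℝ) < N := by exact_mod_cast hN
  have hR0 : (0 : ℝ) < R := by exact_mod_cast hR1
  set v : ℝ := μ ^ (-(1 / 80) : ℝ) with hv
  have hv0 : 0 < v := Real.rpow_pos_of_pos hμ0 _
  have huv : μ ^ (1 / 80 : ℝ) * v = 1 := by
    rw [hv, ← Real.rpow_add hμ0]
    norm_num
  have f1 : (R : ℝ) * K ≤ 2 * C * M * N * v := by
    have h1 : μ ^ (-(1 / 40) : ℝ) = v * v := by
      rw [hv, ← Real.rpow_add hμ0]
      norm_num
    have h2 : (R : ℝ) * v ≤ 2 := by
      calc (R : ℝ) * v ≤ 2 * μ ^ (1 / 80 : ℝ) * v := mul_le_mul_of_nonneg_right hRle hv0.le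
        _ = 2 * (μ ^ (1 / 80 : ℝ) * v) := by ring
        _ = 2 := by rw [huv, mul_one]
    rw [hK, h1]
    have h3 : 0 ≤ C * M * N * v := by positivity
    calc (R : ℝ) * (C * M * N * (v * v)) = (R * v) * (C * M * N * v) := by ring
      _ ≤ 2 * (C * M * N * v) := mul_le_mul_of_nonneg_right h2 h3
      _ = 2 * C * M * N * v := by ring
  have f2 : (M : ℝ) / R ≤ M * v := by
    rw [div_le_iff₀ hR0]
    have h1 : 1 ≤ v * R := by
      calc (1 : ℝ) = v * μ ^ (1 / 80 : ℝ) := by rw [mul_comm, huv]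
        _ ≤ v * R := mul_le_mul_of_nonneg_left hRge hv0.le
    calc (M : ℝ) = M * 1 := (mul_one _).symm
      _ ≤ M * (v * R) := mul_le_mul_of_nonneg_left h1 hM0.le
      _ = M * v * R := by ring
  have f3 : (1 : ℝ) ≤ M * v := by
    have h1 : μ ^ (1 / 80 : ℝ) ≤ M := by
      calc μ ^ (1 / 80 : ℝ) ≤ μ ^ (1 : ℝ) := Real.rpow_le_rpow_of_exponent_le hμ1 (by norm_num)
        _ = μ := Real.rpow_one μ
        _ ≤ M := by
          rw [hμ]; exact_mod_cast min_le_left M N
    calc (1 : ℝ) = μ ^ (1 / 80 : ℝ) * v := huv.symm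
      _ ≤ M * v := mul_le_mul_of_nonneg_right h1 hv0.le
  have f4 : (N : ℝ) * q ≤ 2 * M * N * v := by
    calc (N : ℝ) * q ≤ N * (M / R + 1) := mul_le_mul_of_nonneg_left hqle hN0.le
      _ ≤ N * (M * v + M * v) := mul_le_mul_of_nonneg_left (add_le_add f2 f3) hN0.le
      _ = 2 * M * N * v := by ring
  calc (R : ℝ) * K + N * q ≤ 2 * C * M * N * v + 2 * M * N * v := add_le_add f1 f4
    _ = (2 * C + 2) * M * N * v := by ring

end Pool.Agent.QTW
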