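import Mathlib

/-!
# QTW: quadratic twists without rational points (definitions of the analytic part)

Project QTW (MP_f4d5ac_nt, helper12).
-/

set_option autoImplicit false

namespace Pool.Agent.QTW

open Finset

/-- Jacobi symbol as a real number. -/
noncomputable def J (a : ℤ) (n : ℕ) : ℝ := ((jacobiSym a n : ℤ) : ℝ)

/-- squarefree and odd -/
def SF (n : ℕ) : Prop := Squarefree n ∧ Odd n

/-- coefficients bounded by one, supported on odd squarefree numbers -/
def Adm (β : ℕ → ℝ) : Prop := ∀ n, |β n| ≤ 1 ∧ (β n ≠ 0 → SF n)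

/-- the primes `≤ x` -/
def pri (x : ℕ) : Finset ℕ := (Finset.Ioc 0 x).filter Nat.Prime

theorem mem_pri {x p : ℕ} : p ∈ pri x ↔ p ≤ x ∧ p.Prime := by
  rw [pri, mem_filter, mem_Ioc]
  exact ⟨fun h => ⟨h.1.2, h.2⟩, fun h => ⟨⟨h.2.pos, h.1⟩, h.2⟩⟩

/-- the multiplicative function with values `c p`, on squarefree numbers -/
noncomputable def cc (c : ℕ → ℝ) (n : ℕ) : ℝ := ∏ p ∈ n.primeFactors, c p

open Classical in
/-- tuples of pairwise coprime odd squarefree numbers with product `≤ Y` -/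
noncomputable def Tup (T : Type) [Fintype T] [DecidableEq T] (Y : ℕ) : Finset (T → ℕ) :=
  (Fintype.piFinset fun _ : T => Icc 1 Y).filter fun D =>
    (∀ t, SF (D t)) ∧ (∀ t t', t ≠ t' → Nat.Coprime (D t) (D t')) ∧ ∏ t, D t ≤ Y

theorem mem_Tup {T : Type} [Fintype T] [DecidableEq T] {Y : ℕ} {D : T → ℕ} :
    D ∈ Tup T Y ↔ (∀ t, SF (D t)) ∧ (∀ t t', t ≠ t' → Nat.Coprime (D t) (D t')) ∧
      ∏ t, D t ≤ Y := by
  classical
  rw [Tup, mem_filter, Fintype.mem_piFinset]
  refine ⟨fun h => h.2, fun h => ⟨fun t => ?_, h⟩⟩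
  have h1 : ∀ s, 1 ≤ D s := fun s => Nat.one_le_iff_ne_zero.2 (h.1 s).1.ne_zero
  refine mem_Icc.2 ⟨h1 t, le_trans ?_ h.2.2⟩
  exact Finset.single_le_prod' (fun s _ => h1 s) (mem_univ t)

/-- the types of the Fourier expansion: an owner `k` and a set `S` not containing it -/
def TT (K : Type) [DecidableEq K] : Type := {x : K × Finset K // x.1 ∉ x.2}

instance (K : Type) [DecidableEq K] : DecidableEq (TT K) := by unfold TT; infer_instance

instance (K : Type) [Fintype K] [DecidableEq K] : Fintype (TT K) := by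
  unfold TT; infer_instance

/-- owner of a type -/
def TT.own {K : Type} [DecidableEq K] (t : TT K) : K := t.1.1

/-- set of a type -/
def TT.set {K : Type} [DecidableEq K] (t : TT K) : Finset K := t.1.2

/-- `𝓔 k p` consists of vectors of signs, with the convention that the `k`-th is `1` -/
def SignSets {K : Type} (𝓔 : K → ℕ → Finset (K → ℤ)) : Prop :=
  ∀ k p v, v ∈ 𝓔 k p → v k = 1 ∧ ∀ l, v l = 1 ∨ v l = -1

/-- the vector of Jacobi symbols of the `D l`, `l ≠ k`, at `p` -/
def vec {K : Type} [DecidableEq K] (D : K → ℕ) (k : K) (p : ℕ) : K → ℤ :=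
  fun l => if l = k then 1 else jacobiSym (D l : ℤ) p

/-- the condition on a tuple: for every `k` and every prime `p ∣ D k` the symbols of the other
entries at `p` form an element of `𝓔 k p` -/
def Cond {K : Type} [DecidableEq K] (𝓔 : K → ℕ → Finset (K → ℤ)) (D : K → ℕ) : Prop :=
  ∀ k, ∀ p ∈ (D k).primeFactors, vec D k p ∈ 𝓔 k p

/-- Fourier coefficients of the indicator function of `𝓔 k p` -/
noncomputable def fc {K : Type} [Fintype K] [DecidableEq K] (𝓔 : K → ℕ → Finset (K → ℤ))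
    (t : TT K) (p : ℕ) : ℝ :=
  (2 : ℝ)⁻¹ ^ (Fintype.card K - 1) * ∑ v ∈ 𝓔 t.own p, ∏ l ∈ t.set, ((v l : ℤ) : ℝ)

/-- the general term of the expanded sum: `ℓ t' t` says that `J (D t') (D t)` occurs -/
noncomputable def term {T : Type} [Fintype T] (c : T → ℕ → ℝ) (ℓ : T → T → Bool) (D : T → ℕ) : ℝ :=
  (∏ t, cc (c t) (D t)) * ∏ t, ∏ t', if ℓ t' t then J (D t' : ℤ) (D t) else 1

/-- the links of the Fourier expansion -/
def lk {K : Type} [DecidableEq K] (t' t : TT K) : Bool := decide (t'.own ∈ t.set)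

end Pool.Agent.QTW
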