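import Pool.Agent.QTW.Defs

/-!
# QTW-Expd: the Fourier expansion of the condition

Fourier inversion on vectors of signs for every prime divisor of the `D k`, and expansion of the product: a choice of a
type for every prime is the same as a factorisation of the `D k`.
-/

set_option autoImplicit false

namespace Pool.Agent.QTW

open Finset

section

variable {K : Type} [Fintype K] [DecidableEq K]

private theorem prod_signs (k : K) (v w : K → ℤ) (hvk : v k = 1) (hv : ∀ l, v l = 1 ∨ v l = -1)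
    (hwk : w k = 1) (hw : ∀ l, w l = 1 ∨ w l = -1) [Decidable (v = w)] :
    ∏ l ∈ univ.erase k, (1 + ((v l : ℤ) : ℝ) * ((w l : ℤ) : ℝ)) =
      if v = w then (2 : ℝ) ^ (Fintype.card K - 1) else 0 := by
  by_cases h : v = w
  · rw [if_pos h]
    subst h
    have h1 : ∀ l ∈ univ.erase k, (1 + ((v l : ℤ) : ℝ) * ((v l : ℤ) : ℝ)) = 2 := fun l _ => by
      rcases hv l with h1 | h1 <;> rw [h1] <;> norm_num
    rw [Finset.prod_congr rfl h1, Finset.prod_const, Finset.card_erase_of_mem (mem_univ k),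
      Finset.card_univ]
  · rw [if_neg h]
    obtain ⟨l, hl⟩ := Function.ne_iff.1 h
    have hlk : l ≠ k := by
      rintro rfl
      exact hl (hvk.trans hwk.symm)
    refine Finset.prod_eq_zero (Finset.mem_erase.2 ⟨hlk, mem_univ l⟩) ?_
    rcases hv l with h1 | h1 <;> rcases hw l with h2 | h2 <;> rw [h1, h2] at hl ⊢
    · exact absurd rfl hl
    · norm_num
    · norm_num
    · exact absurd rfl hl

open Classical in
/-- Fourier inversion -/
private theorem fourier (E : Finset (K → ℤ)) (k : K)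
    (hE : ∀ v ∈ E, v k = 1 ∧ ∀ l, v l = 1 ∨ v l = -1) (w : K → ℤ) (hwk : w k = 1)
    (hw : ∀ l, w l = 1 ∨ w l = -1) :
    (if w ∈ E then (1 : ℝ) else 0) = ∑ S ∈ (univ.erase k).powerset,
      ((2 : ℝ)⁻¹ ^ (Fintype.card K - 1) * ∑ v ∈ E, ∏ l ∈ S, ((v l : ℤ) : ℝ)) *
        ∏ l ∈ S, ((w l : ℤ) : ℝ) := by
  have e1 : (if w ∈ E then (1 : ℝ) else 0) = ∑ v ∈ E, if v = w then (1 : ℝ) else 0 := by
    rw [Finset.sum_ite_eq' E w]
  have e2 : ∀ v ∈ E, (if v = w then (1 : ℝ) else 0) = (2 : ℝ)⁻¹ ^ (Fintype.card K - 1) *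
      ∑ S ∈ (univ.erase k).powerset, ∏ l ∈ S, (((v l : ℤ) : ℝ) * ((w l : ℤ) : ℝ)) := by
    intro v hv
    rw [← Finset.prod_one_add, prod_signs k v w (hE v hv).1 (hE v hv).2 hwk hw]
    by_cases h : v = w
    · rw [if_pos h, if_pos h, ← mul_pow]
      norm_num
    · rw [if_neg h, if_neg h, mul_zero]
  rw [e1, Finset.sum_congr rfl e2, ← Finset.mul_sum, Finset.sum_comm, Finset.mul_sum]
  refine Finset.sum_congr rfl fun S _ => ?_
  rw [mul_assoc, Finset.sum_mul]
  congr 1
  exact Finset.sum_congr rfl fun v _ => Finset.prod_mul_distrib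

private theorem sum_types (k : K) (g : K → Finset K → ℝ) :
    ∑ t ∈ univ.filter (fun t : TT K => t.own = k), g t.own t.set =
      ∑ S ∈ (univ.erase k).powerset, g k S := by
  refine Finset.sum_bij (fun t _ => t.set) ?_ ?_ ?_ ?_
  · intro t ht
    rw [mem_filter] at ht
    rw [mem_powerset]
    intro l hl
    rw [mem_erase]
    refine ⟨?_, mem_univ l⟩
    rintro rfl
    rw [← ht.2] at hl
    exact t.2 hl
  · intro t ht t' ht' h
    rw [mem_filter] at ht ht'
    exact Subtype.ext (Prod.ext (ht.2.trans ht'.2.symm) h)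
  · intro S hS
    rw [mem_powerset] at hS
    have hk : k ∉ S := fun h => (mem_erase.1 (hS h)).1 rfl
    exact ⟨⟨(k, S), hk⟩, mem_filter.2 ⟨mem_univ _, rfl⟩, rfl⟩
  · intro t ht
    rw [mem_filter] at ht
    rw [ht.2]

private theorem jac_prod_left {ι : Type} (s : Finset ι) (g : ι → ℕ) (n : ℕ) :
    J ((∏ i ∈ s, g i : ℕ) : ℤ) n = ∏ i ∈ s, J (g i : ℤ) n := by
  classical
  induction s using Finset.induction_on with
  | empty =>
    rw [prod_empty, prod_empty, J, Nat.cast_one, jacobiSym.one_left, Int.cast_one]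
  | insert a s ha ih =>
    rw [prod_insert ha, prod_insert ha, ← ih, J, J, J, Nat.cast_mul, jacobiSym.mul_left,
      Int.cast_mul]

private theorem jac_prod_right (a : ℤ) (s : Finset ℕ) (hs : ∀ p ∈ s, p ≠ 0) :
    J a (∏ p ∈ s, p) = ∏ p ∈ s, J a p := by
  classical
  induction s using Finset.induction_on with
  | empty =>
    rw [prod_empty, prod_empty, J, jacobiSym.one_right, Int.cast_one]
  | insert b s hb ih =>
    have hs' : ∀ p ∈ s, p ≠ 0 := fun p hp => hs p (mem_insert_of_mem hp)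
    have h0 : ∏ p ∈ s, p ≠ 0 := Finset.prod_ne_zero_iff.2 hs'
    rw [prod_insert hb, prod_insert hb, ← ih hs', J, J, J,
      jacobiSym.mul_right' a (hs b (mem_insert_self b s)) h0, Int.cast_mul]

private theorem jac_sqf (a : ℤ) {n : ℕ} (hn : Squarefree n) :
    ∏ p ∈ n.primeFactors, J a p = J a n := by
  rw [← jac_prod_right a _ (fun p hp => (Nat.prime_of_mem_primeFactors hp).ne_zero),
    Nat.prod_primeFactors_of_squarefree hn]

/-- the local factor -/
private noncomputable def aa (𝓔 : K → ℕ → Finset (K → ℤ)) (D : K → ℕ) (t : TT K) (p : ℕ) : ℝ :=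
  fc 𝓔 t p * ∏ l ∈ t.set, ((vec D t.own p l : ℤ) : ℝ)

private theorem val_eq (𝓔 : K → ℕ → Finset (K → ℤ)) (D : K → ℕ) (hSF : ∀ k, SF (D k))
    (G : TT K → ℕ) (hG : ∀ k, ∏ t ∈ univ.filter (fun t : TT K => t.own = k), G t = D k) :
    ∏ t, ∏ p ∈ (G t).primeFactors, aa 𝓔 D t p = term (fc 𝓔) lk G := by
  have hdvd : ∀ t, G t ∣ D t.own := fun t => by
    rw [← hG t.own]
    exact Finset.dvd_prod_of_mem G (mem_filter.2 ⟨mem_univ t, rfl⟩)
  have hsq : ∀ t, Squarefree (G t) := fun t => (hSF t.own).1.squarefree_of_dvd (hdvd t)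
  rw [term, ← Finset.prod_mul_distrib]
  refine Finset.prod_congr rfl fun t _ => ?_
  unfold aa
  rw [Finset.prod_mul_distrib, cc]
  congr 1
  rw [Finset.prod_comm]
  have e1 : ∀ l ∈ t.set, ∏ p ∈ (G t).primeFactors, ((vec D t.own p l : ℤ) : ℝ) =
      ∏ t' ∈ univ.filter (fun t' : TT K => t'.own = l), J (G t' : ℤ) (G t) := by
    intro l hl
    have hlk : l ≠ t.own := fun h => t.2 (by
      show t.own ∈ t.set
      rw [← h]
      exact hl)
    rw [← jac_prod_left, hG l, ← jac_sqf (D l : ℤ) (hsq t)]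
    refine Finset.prod_congr rfl fun p _ => ?_
    rw [vec, if_neg hlk, J]
  rw [Finset.prod_congr rfl e1]
  have e2 : ∏ t' : TT K, (if lk t' t then J (G t' : ℤ) (G t) else 1) =
      ∏ t' ∈ univ.filter (fun t' : TT K => t'.own ∈ t.set), J (G t' : ℤ) (G t) := by
    rw [Finset.prod_filter]
    refine Finset.prod_congr rfl fun t' _ => ?_
    by_cases h : t'.own ∈ t.set
    · rw [if_pos h, if_pos (by rw [lk]; exact decide_eq_true h)]
    · rw [if_neg h, if_neg (by rw [lk]; exact fun h' => h (of_decide_eq_true h'))]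
  rw [e2, ← Finset.prod_fiberwise_of_maps_to (s := univ.filter (fun t' : TT K => t'.own ∈ t.set))
    (t := t.set) (g := fun t' => t'.own) (fun t' ht' => (mem_filter.1 ht').2)]
  refine Finset.prod_congr rfl fun l hl => ?_
  refine Finset.prod_congr ?_ fun _ _ => rfl
  ext t'
  simp only [mem_filter, mem_univ, true_and]
  constructor
  · intro h
    exact ⟨by rw [h]; exact hl, h⟩
  · exact fun h => h.2

/-- the product of the primes of type `t` -/
private def gg {P : Finset ℕ} (f : P → TT K) (t : TT K) : ℕ :=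
  ∏ q ∈ (univ.filter (fun q : P => f q = t)).map (Function.Embedding.subtype _), q

omit [Fintype K] in
private theorem mem_gg {P : Finset ℕ} (f : P → TT K) (t : TT K) (q : ℕ) :
    q ∈ (univ.filter (fun q : P => f q = t)).map (Function.Embedding.subtype _) ↔
      ∃ h : q ∈ P, f ⟨q, h⟩ = t := by
  rw [mem_map]
  constructor
  · rintro ⟨x, hx, rfl⟩
    exact ⟨x.2, (mem_filter.1 hx).2⟩
  · rintro ⟨h, hf⟩
    exact ⟨⟨q, h⟩, mem_filter.2 ⟨mem_univ _, hf⟩, rfl⟩

omit [Fintype K] in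
private theorem pf_gg {P : Finset ℕ} (hP : ∀ p ∈ P, p.Prime) (f : P → TT K) (t : TT K) :
    (gg f t).primeFactors =
      (univ.filter (fun q : P => f q = t)).map (Function.Embedding.subtype _) := by
  rw [gg]
  refine Nat.primeFactors_prod fun q hq => ?_
  obtain ⟨h, _⟩ := (mem_gg f t q).1 hq
  exact hP q h

omit [Fintype K] in
private theorem dvd_gg {P : Finset ℕ} (hP : ∀ p ∈ P, p.Prime) (f : P → TT K) (t : TT K) {p : ℕ}
    (hp : p.Prime) : p ∣ gg f t ↔ ∃ h : p ∈ P, f ⟨p, h⟩ = t := by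
  rw [← mem_gg, ← pf_gg hP, Nat.mem_primeFactors]
  have h0 : gg f t ≠ 0 := Finset.prod_ne_zero_iff.2 fun q hq => by
    obtain ⟨h, _⟩ := (mem_gg f t q).1 hq
    exact (hP q h).ne_zero
  exact ⟨fun h => ⟨hp, h, h0⟩, fun h => h.2.1⟩

end

open Classical in
theorem expand {K : Type} [Fintype K] [DecidableEq K] (𝓔 : K → ℕ → Finset (K → ℤ))
    (h𝓔 : SignSets 𝓔) (D : K → ℕ) (hSF : ∀ k, SF (D k))
    (hcop : ∀ k l, k ≠ l → Nat.Coprime (D k) (D l)) :
    (if Cond 𝓔 D then (1 : ℝ) else 0) =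
      ∑ G ∈ (Fintype.piFinset fun t : TT K => (D t.own).divisors).filter
          (fun G => ∀ k, ∏ t ∈ univ.filter (fun t : TT K => t.own = k), G t = D k),
        term (fc 𝓔) lk G := by
  set P : Finset ℕ := (∏ k, D k).primeFactors with hPdef
  have hD0 : ∀ k, D k ≠ 0 := fun k => (hSF k).1.ne_zero
  have hN0 : ∏ k, D k ≠ 0 := Finset.prod_ne_zero_iff.2 fun k _ => hD0 k
  have hP : ∀ p ∈ P, p.Prime := fun p hp => Nat.prime_of_mem_primeFactors hp
  have hmemP : ∀ p, p.Prime → (p ∈ P ↔ ∃ k, p ∣ D k) := by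
    intro p hp
    rw [hPdef, Nat.mem_primeFactors]
    constructor
    · rintro ⟨_, h, _⟩
      obtain ⟨k, _, hk⟩ := (Prime.dvd_finsetProd_iff hp.prime _).1 h
      exact ⟨k, hk⟩
    · rintro ⟨k, hk⟩
      exact ⟨hp, hk.trans (Finset.dvd_prod_of_mem D (mem_univ k)), hN0⟩
  have huniq : ∀ p, p.Prime → ∀ k l, p ∣ D k → p ∣ D l → k = l := by
    intro p hp k l hk hl
    by_contra hkl
    exact Nat.not_coprime_of_dvd_of_dvd hp.one_lt hk hl (hcop k l hkl)
  -- the condition as a product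
  have e1 : (if Cond 𝓔 D then (1 : ℝ) else 0) =
      ∏ p : P, ∑ t ∈ univ.filter (fun t : TT K => (p : ℕ) ∣ D t.own), aa 𝓔 D t p := by
    have e2 : ∀ p : P, ∑ t ∈ univ.filter (fun t : TT K => (p : ℕ) ∣ D t.own), aa 𝓔 D t p =
        if (∀ k, (p : ℕ) ∣ D k → vec D k p ∈ 𝓔 k p) then (1 : ℝ) else 0 := by
      rintro ⟨p, hpP⟩
      have hp := hP p hpP
      obtain ⟨k, hk⟩ := (hmemP p hp).1 hpP
      have hf : univ.filter (fun t : TT K => p ∣ D t.own) =
          univ.filter (fun t : TT K => t.own = k) := by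
        ext t
        simp only [mem_filter, mem_univ, true_and]
        exact ⟨fun h => huniq p hp _ _ h hk, fun h => by rw [h]; exact hk⟩
      have hc : (∀ k', p ∣ D k' → vec D k' p ∈ 𝓔 k' p) ↔ vec D k p ∈ 𝓔 k p := by
        constructor
        · exact fun h => h k hk
        · intro h k' hk'
          rw [← huniq p hp k k' hk hk']
          exact h
      show ∑ t ∈ univ.filter (fun t : TT K => p ∣ D t.own), aa 𝓔 D t p =
        if (∀ k, p ∣ D k → vec D k p ∈ 𝓔 k p) then (1 : ℝ) else 0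
      rw [hf, if_congr hc rfl rfl]
      have hvk : vec D k p k = 1 := by rw [vec, if_pos rfl]
      have hv : ∀ l, vec D k p l = 1 ∨ vec D k p l = -1 := by
        intro l
        by_cases hl : l = k
        · left
          rw [hl]
          exact hvk
        · rw [vec, if_neg hl]
          apply jacobiSym.eq_one_or_neg_one
          rw [Int.gcd_natCast_natCast]
          have h1 : ¬ p ∣ D l := fun h => hl (huniq p hp l k h hk)
          exact ((Nat.Prime.coprime_iff_not_dvd hp).2 h1).symm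
      rw [fourier (𝓔 k p) k (fun v hv' => h𝓔 k p v hv') (vec D k p) hvk hv]
      exact sum_types k (fun k' S => ((2 : ℝ)⁻¹ ^ (Fintype.card K - 1) *
        ∑ v ∈ 𝓔 k' p, ∏ l ∈ S, ((v l : ℤ) : ℝ)) * ∏ l ∈ S, ((vec D k' p l : ℤ) : ℝ))
    by_cases hC : Cond 𝓔 D
    · rw [if_pos hC]
      symm
      refine Finset.prod_eq_one fun p _ => ?_
      rw [e2 p, if_pos]
      intro k hk
      exact hC k p (Nat.mem_primeFactors.2 ⟨hP p.1 p.2, hk, hD0 k⟩)
    · rw [if_neg hC]
      symm
      unfold Cond at hC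
      push Not at hC
      obtain ⟨k, p, hp, hv⟩ := hC
      have hp' := Nat.prime_of_mem_primeFactors hp
      have hk := Nat.dvd_of_mem_primeFactors hp
      refine Finset.prod_eq_zero (mem_univ ⟨p, (hmemP p hp').2 ⟨k, hk⟩⟩) ?_
      rw [e2, if_neg]
      exact fun h => hv (h k hk)
  rw [e1, Finset.prod_univ_sum]
  -- the products of the primes of the types with owner `k`
  have hprod : ∀ f ∈ Fintype.piFinset (fun p : P =>
      univ.filter (fun t : TT K => (p : ℕ) ∣ D t.own)), ∀ k,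
      ∏ t ∈ univ.filter (fun t : TT K => t.own = k), gg f t = D k := by
    intro f hf k
    have hf' : ∀ p : P, (p : ℕ) ∣ D (f p).own := fun p =>
      (mem_filter.1 (Fintype.mem_piFinset.1 hf p)).2
    have e3 : ∀ t, gg f t = ∏ q ∈ univ.filter (fun q : P => f q = t), (q : ℕ) := fun t => by
      rw [gg, Finset.prod_map]
      rfl
    rw [Finset.prod_congr rfl fun t _ => e3 t]
    have e4 : ∀ t ∈ univ.filter (fun t : TT K => t.own = k),
        ∏ q ∈ univ.filter (fun q : P => f q = t), (q : ℕ) =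
        ∏ q ∈ (univ.filter (fun q : P => (f q).own = k)).filter (fun q => f q = t), (q : ℕ) := by
      intro t ht
      refine Finset.prod_congr ?_ fun _ _ => rfl
      ext q
      simp only [mem_filter, mem_univ, true_and] at ht ⊢
      exact ⟨fun h => ⟨by rw [h]; exact ht, h⟩, fun h => h.2⟩
    rw [Finset.prod_congr rfl e4, Finset.prod_fiberwise_of_maps_to
      (s := univ.filter (fun q : P => (f q).own = k)) (fun q hq => by
        rw [mem_filter] at hq ⊢
        exact ⟨mem_univ _, hq.2⟩)]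
    rw [← Nat.prod_primeFactors_of_squarefree (hSF k).1]
    have e5 : (D k).primeFactors = (univ.filter (fun q : P => (f q).own = k)).map
        (Function.Embedding.subtype _) := by
      ext q
      rw [mem_map, Nat.mem_primeFactors]
      constructor
      · rintro ⟨hq, hqk, _⟩
        have hqP : q ∈ P := (hmemP q hq).2 ⟨k, hqk⟩
        refine ⟨⟨q, hqP⟩, mem_filter.2 ⟨mem_univ _, ?_⟩, rfl⟩
        exact huniq q hq _ _ (hf' ⟨q, hqP⟩) hqk
      · rintro ⟨x, hx, rfl⟩
        have h1 := (mem_filter.1 hx).2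
        refine ⟨hP x.1 x.2, ?_, hD0 k⟩
        rw [← h1]
        exact hf' x
    rw [e5, Finset.prod_map]
    rfl
  refine Finset.sum_bij (fun f _ => gg f) ?_ ?_ ?_ ?_
  · intro f hf
    rw [mem_filter, Fintype.mem_piFinset]
    refine ⟨fun t => ?_, hprod f hf⟩
    rw [Nat.mem_divisors]
    refine ⟨?_, hD0 _⟩
    rw [← hprod f hf t.own]
    exact Finset.dvd_prod_of_mem (gg f) (mem_filter.2 ⟨mem_univ t, rfl⟩)
  · intro f hf g hg h
    funext p
    have h1 : (p : ℕ) ∣ gg f (f p) := (dvd_gg hP f (f p) (hP p.1 p.2)).2 ⟨p.2, rfl⟩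
    rw [congrFun h (f p)] at h1
    obtain ⟨_, h2⟩ := (dvd_gg hP g (f p) (hP p.1 p.2)).1 h1
    exact h2.symm
  · intro G hG
    rw [mem_filter, Fintype.mem_piFinset] at hG
    obtain ⟨hG1, hG2⟩ := hG
    have hdvd : ∀ t, G t ∣ D t.own := fun t => Nat.dvd_of_mem_divisors (hG1 t)
    have hsq : ∀ t, Squarefree (G t) := fun t => (hSF t.own).1.squarefree_of_dvd (hdvd t)
    have hun : ∀ p, p.Prime → ∀ t t', p ∣ G t → p ∣ G t' → t = t' := by
      intro p hp t t' ht ht'
      by_contra hne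
      have hown : t.own = t'.own := huniq p hp _ _ (ht.trans (hdvd t)) (ht'.trans (hdvd t'))
      have h1 : p * p ∣ D t.own := by
        rw [← hG2 t.own, ← Finset.mul_prod_erase (univ.filter (fun s : TT K => s.own = t.own)) G
          (a := t) (mem_filter.2 ⟨mem_univ t, rfl⟩)]
        refine mul_dvd_mul ht (ht'.trans (Finset.dvd_prod_of_mem G ?_))
        rw [mem_erase, mem_filter]
        exact ⟨Ne.symm hne, mem_univ _, hown.symm⟩
      exact hp.one_lt.ne' (Nat.isUnit_iff.1 ((hSF t.own).1 p h1))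
    have hex : ∀ p : P, ∃ t : TT K, (p : ℕ) ∣ G t := by
      rintro ⟨p, hpP⟩
      obtain ⟨k, hk⟩ := (hmemP p (hP p hpP)).1 hpP
      rw [← hG2 k] at hk
      obtain ⟨t, _, ht⟩ := (Prime.dvd_finsetProd_iff (hP p hpP).prime _).1 hk
      exact ⟨t, ht⟩
    choose f hf using hex
    refine ⟨f, Fintype.mem_piFinset.2 fun p => mem_filter.2 ⟨mem_univ _, (hf p).trans (hdvd _)⟩, ?_⟩
    funext t
    rw [← Nat.prod_primeFactors_of_squarefree (hsq t)]
    show gg f t = _
    rw [gg]
    refine Finset.prod_congr ?_ fun _ _ => rfl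
    ext q
    rw [mem_gg]
    refine Iff.trans ?_ (Nat.mem_primeFactors (n := G t)).symm
    constructor
    · rintro ⟨h, rfl⟩
      exact ⟨hP q h, hf ⟨q, h⟩, (hsq _).ne_zero⟩
    · rintro ⟨hq, hqt, _⟩
      have hqP : q ∈ P := (hmemP q hq).2 ⟨t.own, hqt.trans (hdvd t)⟩
      exact ⟨hqP, hun q hq _ _ (hf ⟨q, hqP⟩) hqt⟩
  · intro f hf
    rw [← val_eq 𝓔 D hSF (gg f) (hprod f hf)]
    have e6 : ∀ t, ∏ p ∈ (gg f t).primeFactors, aa 𝓔 D t p =
        ∏ p ∈ univ.filter (fun q : P => f q = t), aa 𝓔 D (f p) p := by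
      intro t
      rw [pf_gg hP, Finset.prod_map]
      refine Finset.prod_congr rfl fun p hp => ?_
      rw [(mem_filter.1 hp).2]
      rfl
    rw [Finset.prod_congr rfl fun t _ => e6 t]
    exact (Finset.prod_fiberwise univ f (fun p => aa 𝓔 D (f p) p)).symm

end Pool.Agent.QTW
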