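import Pool.Agent.QTW.Defs

/-!
# QTW: families of binary forms, local conditions (definitions)
-/

set_option autoImplicit false

namespace Pool.Agent.QTW

open Finset

/-- the value at `(X, Z)` of the binary form of degree `n` attached to `f` (`natDegree f ≤ n`) -/
noncomputable def hom (f : Polynomial ℤ) (n : ℕ) (X Z : ℤ) : ℤ :=
  ∑ i ∈ Finset.range (n + 1), f.coeff i * X ^ i * Z ^ (n - i)

/-- the value of this form at a point of the projective line over `ZMod p`: `some x` is `(x : 1)`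
and `none` is `(1 : 0)` -/
noncomputable def ev (p : ℕ) (f : Polynomial ℤ) (n : ℕ) : Option (ZMod p) → ZMod p
  | some x => (f.map (Int.castRingHom (ZMod p))).eval x
  | none => ((f.coeff n : ℤ) : ZMod p)

/-- quadratic character of `ZMod p` with values in `ℤ` -/
noncomputable def qc (p : ℕ) (a : ZMod p) : ℤ := jacobiSym (a.val : ℤ) p

/-- a family of binary forms: polynomials and degrees -/
structure Fam (I : Type) where
  f : I → Polynomial ℤ
  n : I → ℕ

variable {I : Type} [Fintype I] [DecidableEq I]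

/-- the local condition at a prime `p ∣ D k` -/
def Loc (F : Fam I) (u : I → ℤ) (D : I → ℕ) (k : I) (p : ℕ) : Prop :=
  ∃ r : Option (ZMod p), ev p (F.f k) (F.n k) r = 0 ∧ ∃ τ : ℤ, (τ = 1 ∨ τ = -1) ∧
    ∀ l, l ≠ k → jacobiSym (u l * (D l : ℤ)) p = qc p (ev p (F.f l) (F.n l) r) * τ ^ (F.n l)

open Classical in
/-- The vectors of signs, indexed by `K`, which are possible at a prime `p ∣ D k` if the entries
outside `K` are given by `s`: `v l` stands for the symbol of `D l` at `p`, `v k = 1`. -/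
noncomputable def sg (F : Fam I) (u : I → ℤ) (P : ℕ) (K : Finset I) (s : I → ℕ)
    (k : {x // x ∈ K}) (p : ℕ) : Finset ({x // x ∈ K} → ℤ) :=
  (Fintype.piFinset fun _ => ({1, -1} : Finset ℤ)).filter fun v =>
    v k = 1 ∧ ¬ p ∣ P ∧ ∃ r : Option (ZMod p), ev p (F.f k) (F.n k) r = 0 ∧
      ∃ τ : ℤ, (τ = 1 ∨ τ = -1) ∧
      (∀ l : {x // x ∈ K}, l ≠ k →
        jacobiSym (u l) p * v l = qc p (ev p (F.f l) (F.n l) r) * τ ^ (F.n l)) ∧
      (∀ l, l ∉ K → jacobiSym (u l * (s l : ℤ)) p = qc p (ev p (F.f l) (F.n l) r) * τ ^ (F.n l))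

theorem mem_sg {F : Fam I} {u : I → ℤ} {P : ℕ} {K : Finset I} {s : I → ℕ} {k : {x // x ∈ K}}
    {p : ℕ} {v : {x // x ∈ K} → ℤ} : v ∈ sg F u P K s k p ↔
      (∀ l, v l = 1 ∨ v l = -1) ∧ v k = 1 ∧ ¬ p ∣ P ∧
      ∃ r : Option (ZMod p), ev p (F.f k) (F.n k) r = 0 ∧ ∃ τ : ℤ, (τ = 1 ∨ τ = -1) ∧
      (∀ l : {x // x ∈ K}, l ≠ k →
        jacobiSym (u l) p * v l = qc p (ev p (F.f l) (F.n l) r) * τ ^ (F.n l)) ∧
      (∀ l, l ∉ K →
        jacobiSym (u l * (s l : ℤ)) p = qc p (ev p (F.f l) (F.n l) r) * τ ^ (F.n l)) := by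
  classical
  rw [sg, mem_filter, Fintype.mem_piFinset]
  simp

theorem signSets_sg (F : Fam I) (u : I → ℤ) (P : ℕ) (K : Finset I) (s : I → ℕ) :
    SignSets (sg F u P K s) := by
  intro k p v hv
  rw [mem_sg] at hv
  exact ⟨hv.2.1, hv.1⟩

/-- the part of a tuple outside `K` -/
def sm (K : Finset I) (D : I → ℕ) : I → ℕ := fun j => if j ∈ K then 1 else D j

/-- admissible small parts -/
def Sml (P : ℕ) (K : Finset I) (s : I → ℕ) : Prop :=
  (∀ j, SF (s j)) ∧ (∀ i j, i ≠ j → Nat.Coprime (s i) (s j)) ∧ (∀ j, Nat.Coprime (s j) P) ∧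
    ∀ j ∈ K, s j = 1

/-- The hypothesis on averages: the mean of the numbers of possible vectors of signs, weighted
by `2 ^ (1 - card K)`, is less than one. -/
def AV (F : Fam I) (u : I → ℤ) (P : ℕ) (N : Finset I → (I → ℕ) → Prop) : Prop :=
  ∀ K : Finset I, K.Nonempty → ∃ κ C : ℝ, 0 < κ ∧ 0 ≤ C ∧ ∀ s : I → ℕ, Sml P K s → N K s →
    ∀ x : ℕ, 3 ≤ x →
    ∑ p ∈ pri x, ∑ k : {x // x ∈ K}, (2 : ℝ)⁻¹ ^ (K.card - 1) * ((sg F u P K s k p).card : ℝ) / p ≤
      (1 - κ) * Real.log (Real.log x) + C * (1 + Real.log (Real.log ((∏ j, s j : ℕ) + 3)))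

open Classical in
/-- the tuples to be counted -/
noncomputable def GT (F : Fam I) (u : I → ℤ) (P : ℕ) (N : Finset I → (I → ℕ) → Prop) (Y : ℕ) :
    Finset (I → ℕ) :=
  (Tup I Y).filter fun D => (∀ k, Nat.Coprime (D k) P) ∧
    (∀ k, ∀ p ∈ (D k).primeFactors, Loc F u D k p) ∧ ∀ K : Finset I, K.Nonempty → N K (sm K D)

end Pool.Agent.QTW
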