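import Pool.Agent.QTW.Setup

/-!
# QTW: the family attached to `(X ^ 5 - X) * h` (definitions)

The four linear forms `X`, `X - Z`, `X + Z`, `Z` have the indices `inl 0, .., inl 3`; the form
`X ^ 2 + Z ^ 2` has the index `inr none`, and the factors of `h` have the indices `inr (some i)`.
-/

set_option autoImplicit false

namespace Pool.Agent.QTW

open Finset

/-- the index type -/
abbrev I2 (r : ℕ) : Type := Fin 4 ⊕ Option (Fin r)

/-- the linear forms `X`, `X - Z`, `X + Z`, `Z` (dehomogenised) -/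
noncomputable def lin : Fin 4 → Polynomial ℤ :=
  ![Polynomial.X, Polynomial.X - 1, Polynomial.X + 1, 1]

/-- the family -/
noncomputable def fam2 {r : ℕ} (g : Fin r → Polynomial ℤ) : Fam (I2 r) where
  f := Sum.elim lin (fun o => o.elim (Polynomial.X ^ 2 + 1) g)
  n := Sum.elim (fun _ => 1) (fun o => o.elim 2 (fun i => (g i).natDegree))

/-- the values of `X ^ 2 + Z ^ 2` at the roots `(0:1)`, `(1:1)`, `(-1:1)`, `(1:0)` of the linear
forms -/
def b4 : Fin 4 → ℤ := ![1, 2, 2, 1]

/-- for each linear form a pair of other linear forms -/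
def pa : Fin 4 → Fin 4 := ![1, 0, 0, 1]

/-- for each linear form a pair of other linear forms -/
def pb : Fin 4 → Fin 4 := ![2, 3, 3, 2]

/-- the values of the products `pa k * pb k` at the root of the form `k` -/
def bp : Fin 4 → ℤ := ![-1, 1, -1, 1]

/-- `Sq u K s k`: no restriction on the primes dividing `D k`, `k` linear -/
def Sq {r : ℕ} (u : I2 r → ℤ) (K : Finset (I2 r)) (s : I2 r → ℕ) (k : Fin 4) : Prop :=
  (Sum.inr none ∉ K → IsSquare (u (Sum.inr none) * (s (Sum.inr none) : ℤ) * b4 k)) ∧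
  (Sum.inl (pa k) ∉ K → Sum.inl (pb k) ∉ K →
    IsSquare (u (Sum.inl (pa k)) * (s (Sum.inl (pa k)) : ℤ) *
      (u (Sum.inl (pb k)) * (s (Sum.inl (pb k)) : ℤ)) * bp k))

/-- the condition satisfied by the tuples coming from points -/
def N2 {r : ℕ} (u : I2 r → ℤ) (K : Finset (I2 r)) (s : I2 r → ℕ) : Prop :=
  ∀ k : Fin 4, K = {Sum.inl k} → ¬ Sq u K s k

end Pool.Agent.QTW
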