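import Mathlib

/-!
# QTW-Frm: Fermat's theorem on `x⁴ - y⁴ = z²` and two consequences

`fermat_diff` PROOF (infinite descent on `|x|`). Assume a solution in positive integers with `x` minimal. Then `gcd(x, y) = 1` (a common prime `p`: `p^4 ∣ z^2`, divide). `x` is odd.
Case `z` odd, `y` even: `x^4 = z^2 + (y^2)^2`, a primitive Pythagorean triple `z^2 + (y^2)^2 = (x^2)^2`: `x^2 = m^2 + n^2`, `y^2 = 2mn`, `m, n` coprime of different parity. So `m = 2 a^2`, `n = b^2` or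
`m = a^2`, `n = 2 b^2` (in either order): `x^2 = m^2 + n^2` is again a primitive triple with one leg a square and the other twice a square: `2a^2 = 2rs`, `b^2 = r^2 - s^2`, `x = r^2 + s^2`, so `r = c^2`, `s = d^2`,
`b^2 = c^4 - d^4`, `0 < c < x` (`c^4 ≤ r^2 + .. = x`-ish): smaller solution.
Case `z` even, `y` odd: `z = 2mn`, `y^2 = m^2 - n^2`, `x^2 = m^2 + n^2`, so `m^4 - n^4 = (xy)^2` with `m < x`: smaller solution.
(Mathlib: `PythagoreanTriple.coprime_classification'`, `Int.sq_of_isCoprime`/`Int.sq_of_gcd_eq_one`; compare `Mathlib/NumberTheory/FLT/Four.lean` for the technique.)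

`frm1` PROOF. `Z^2 - X^2 = s^2`, `Z^2 + X^2 = t^2`: `Z^4 - X^4 = (s t)^2`, and `s ≠ 0` (else `t^2 = 2 Z^2`, impossible), `t ≠ 0`.

`frm2` PROOF. `X Z` is a square and `X, Z` are coprime: `X = ε a^2`, `Z = ε b^2`, `ε = ±1` (`Int.sq_of_isCoprime`), `a, b` nonzero. `2 (a^4 + b^4) = m^2`, `m = 2 n`, `a^4 + b^4 = 2 n^2`; then
`n^4 - (a b)^4 = ((a^4 - b^4)/2)^2` (`a^4 - b^4` is even). By `fermat_diff` `a^4 = b^4` (as `n ≠ 0`, `a b ≠ 0`), so `X = Z`.
-/

set_option autoImplicit false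

namespace Pool.Agent.QTW

private theorem frm_sqsq {a b c : ℤ} (h : Int.gcd a b = 1) (heq : a * b = c ^ 2) :
    (∃ a₀ : ℤ, a ^ 2 = a₀ ^ 4) ∧ ∃ b₀ : ℤ, b ^ 2 = b₀ ^ 4 := by
  constructor
  · obtain ⟨a₀, h₀ | h₀⟩ := Int.sq_of_gcd_eq_one h heq
    · exact ⟨a₀, by rw [h₀]; ring⟩
    · exact ⟨a₀, by rw [h₀]; ring⟩
  · rw [Int.gcd_comm] at h
    obtain ⟨b₀, h₀ | h₀⟩ := Int.sq_of_gcd_eq_one h (by rw [mul_comm]; exact heq)
    · exact ⟨b₀, by rw [h₀]; ring⟩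
    · exact ⟨b₀, by rw [h₀]; ring⟩

private theorem frm_caseC {x y z : ℤ} (hx : x ≠ 0) (hy : y ≠ 0) (hz : z ≠ 0)
    (h : x ^ 4 - y ^ 4 = z ^ 2) (hc : Int.gcd x y = 1) (hyo : y % 2 = 1) :
    ∃ x' y' z' : ℤ, y' ≠ 0 ∧ z' ≠ 0 ∧ x' ^ 4 - y' ^ 4 = z' ^ 2 ∧ x' ^ 2 < x ^ 2 := by
  have hpt : PythagoreanTriple (y ^ 2) z (x ^ 2) := by
    unfold PythagoreanTriple
    linarith [h, (by ring : x ^ 2 * x ^ 2 = x ^ 4), (by ring : y ^ 2 * y ^ 2 = y ^ 4),
      (by ring : z * z = z ^ 2)]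
  have hxy : IsCoprime x y := Int.isCoprime_iff_gcd_eq_one.2 hc
  have hyz : IsCoprime (y ^ 2) z := by
    have h1 : IsCoprime (y ^ 4) (z ^ 2) := by
      have h2 : IsCoprime (y ^ 4) (x ^ 4) := (hxy.pow (m := 4) (n := 4)).symm
      have h3 : z ^ 2 = x ^ 4 + y ^ 4 * (-1) := by linarith
      rw [h3]
      exact IsCoprime.add_mul_left_right h2 (-1)
    have h4 : IsCoprime ((y ^ 2) ^ 2) (z ^ 2) := by
      have : (y ^ 2) ^ 2 = y ^ 4 := by ring
      rw [this]; exact h1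
    exact (IsCoprime.pow_iff (by norm_num) (by norm_num)).1 h4
  have hodd : y ^ 2 % 2 = 1 := by
    rw [pow_two, Int.mul_emod, hyo]; norm_num
  have hpos : 0 < x ^ 2 := by positivity
  obtain ⟨m, n, e1, e2, e3, -, -, -⟩ :=
    hpt.coprime_classification' (Int.isCoprime_iff_gcd_eq_one.1 hyz) hodd hpos
  have hn : n ≠ 0 := by
    rintro rfl
    apply hz
    rw [e2]; ring
  refine ⟨m, n, x * y, hn, mul_ne_zero hx hy, ?_, ?_⟩
  · rw [mul_pow, e3, e1]; ring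
  · have : 0 < n ^ 2 := by positivity
    linarith

private theorem frm_caseA {x y z : ℤ} (hx : x ≠ 0) (hy : y ≠ 0) (hz : z ≠ 0)
    (h : x ^ 4 - y ^ 4 = z ^ 2) (hc : Int.gcd x y = 1) (hye : y % 2 = 0) :
    ∃ x' y' z' : ℤ, y' ≠ 0 ∧ z' ≠ 0 ∧ x' ^ 4 - y' ^ 4 = z' ^ 2 ∧ x' ^ 2 < x ^ 2 := by
  have hpt : PythagoreanTriple z (y ^ 2) (x ^ 2) := by
    unfold PythagoreanTriple
    linarith [h, (by ring : x ^ 2 * x ^ 2 = x ^ 4), (by ring : y ^ 2 * y ^ 2 = y ^ 4),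
      (by ring : z * z = z ^ 2)]
  have hxy : IsCoprime x y := Int.isCoprime_iff_gcd_eq_one.2 hc
  have hyz : IsCoprime z (y ^ 2) := by
    have h1 : IsCoprime (y ^ 4) (z ^ 2) := by
      have h2 : IsCoprime (y ^ 4) (x ^ 4) := (hxy.pow (m := 4) (n := 4)).symm
      have h3 : z ^ 2 = x ^ 4 + y ^ 4 * (-1) := by linarith
      rw [h3]
      exact IsCoprime.add_mul_left_right h2 (-1)
    have h4 : IsCoprime ((y ^ 2) ^ 2) (z ^ 2) := by
      have : (y ^ 2) ^ 2 = y ^ 4 := by ring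
      rw [this]; exact h1
    exact ((IsCoprime.pow_iff (by norm_num) (by norm_num)).1 h4).symm
  have hxo : x % 2 = 1 := by
    rcases Int.emod_two_eq_zero_or_one x with h0 | h0
    · exfalso
      have d1 : (2 : ℤ) ∣ x := Int.dvd_of_emod_eq_zero h0
      have d2 : (2 : ℤ) ∣ y := Int.dvd_of_emod_eq_zero hye
      have d3 := Int.isUnit_iff.1 (hxy.isUnit_of_dvd' d1 d2)
      omega
    · exact h0
  have hzo : z % 2 = 1 := by
    rcases Int.emod_two_eq_zero_or_one z with h0 | h0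
    · exfalso
      have d1 : (2 : ℤ) ∣ z := Int.dvd_of_emod_eq_zero h0
      have d2 : (2 : ℤ) ∣ y ^ 2 := (Int.dvd_of_emod_eq_zero hye).trans (dvd_pow_self y (by norm_num))
      have d3 := Int.isUnit_iff.1 (hyz.isUnit_of_dvd' d1 d2)
      omega
    · exact h0
  have hpos : 0 < x ^ 2 := by positivity
  obtain ⟨m, n, e1, e2, e3, g, par, -⟩ :=
    hpt.coprime_classification' (Int.isCoprime_iff_gcd_eq_one.1 hyz) hzo hpos
  -- even and odd part
  obtain ⟨e', o, f1, f2, f3, f4⟩ : ∃ e' o : ℤ, y ^ 2 = 4 * (e' * o) ∧ x ^ 2 = 4 * e' ^ 2 + o ^ 2 ∧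
      Int.gcd e' o = 1 ∧ o % 2 = 1 := by
    rcases par with ⟨p1, p2⟩ | ⟨p1, p2⟩
    · obtain ⟨k, hk⟩ := Int.dvd_of_emod_eq_zero p1
      refine ⟨k, n, by rw [e2, hk]; ring, by rw [e3, hk]; ring, ?_, p2⟩
      rw [← Int.isCoprime_iff_gcd_eq_one] at g ⊢
      rw [hk] at g
      exact (IsCoprime.mul_left_iff.1 g).2
    · obtain ⟨k, hk⟩ := Int.dvd_of_emod_eq_zero p2
      refine ⟨k, m, by rw [e2, hk]; ring, by rw [e3, hk]; ring, ?_, p1⟩
      rw [← Int.isCoprime_iff_gcd_eq_one] at g ⊢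
      rw [hk] at g
      exact (IsCoprime.mul_right_iff.1 g).2.symm
  obtain ⟨w, hw⟩ := Int.dvd_of_emod_eq_zero hye
  have f5 : e' * o = w ^ 2 := by
    rw [hw] at f1
    linarith [f1, (by ring : (2 * w) ^ 2 = 4 * w ^ 2)]
  have hw0 : w ≠ 0 := by
    rintro rfl
    apply hy
    rw [hw]; ring
  have he0 : e' ≠ 0 := by
    rintro rfl
    apply hw0
    have : w ^ 2 = 0 := by rw [← f5]; ring
    exact pow_eq_zero_iff (by norm_num) |>.1 this
  obtain ⟨⟨a, ha⟩, ⟨b, hb⟩⟩ := frm_sqsq f3 f5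
  have ha0 : a ≠ 0 := by
    rintro rfl
    apply he0
    have : e' ^ 2 = 0 := by rw [ha]; ring
    exact pow_eq_zero_iff (by norm_num) |>.1 this
  have hbo : b % 2 = 1 := by
    rcases Int.emod_two_eq_zero_or_one b with h0 | h0
    · exfalso
      have d1 : (2 : ℤ) ∣ b ^ 4 := (Int.dvd_of_emod_eq_zero h0).trans (dvd_pow_self b (by norm_num))
      rw [← hb] at d1
      have := Int.prime_two.dvd_of_dvd_pow d1
      omega
    · exact h0
  have hb0 : b ≠ 0 := by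
    rintro rfl
    norm_num at hbo
  have hpt2 : PythagoreanTriple (b ^ 2) (2 * a ^ 2) |x| := by
    unfold PythagoreanTriple
    rw [abs_mul_abs_self, ← pow_two x, f2, ha, hb]
    ring
  have hcab : IsCoprime a b := by
    have h1 : IsCoprime (e' ^ 2) (o ^ 2) := (Int.isCoprime_iff_gcd_eq_one.2 f3).pow
    rw [ha, hb] at h1
    exact (IsCoprime.pow_iff (by norm_num) (by norm_num)).1 h1
  have hc2 : IsCoprime (b ^ 2) (2 * a ^ 2) := by
    refine IsCoprime.mul_right ?_ (hcab.symm.pow)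
    refine IsCoprime.pow_left ?_
    rw [Int.isCoprime_iff_gcd_eq_one]
    have : Odd b := Int.odd_iff.2 hbo
    exact Int.isCoprime_iff_gcd_eq_one.1 (Int.isCoprime_two_right.2 this)
  have hbo2 : b ^ 2 % 2 = 1 := by
    rw [pow_two, Int.mul_emod, hbo]; norm_num
  obtain ⟨r, s, g1, g2, g3, g4, -, -⟩ :=
    hpt2.coprime_classification' (Int.isCoprime_iff_gcd_eq_one.1 hc2) hbo2 (abs_pos.2 hx)
  have g5 : r * s = a ^ 2 := by linarith [g2]
  obtain ⟨⟨c, hcc⟩, ⟨d, hd⟩⟩ := frm_sqsq g4 g5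
  have hs0 : s ≠ 0 := by
    rintro rfl
    apply ha0
    have : a ^ 2 = 0 := by rw [← g5]; ring
    exact pow_eq_zero_iff (by norm_num) |>.1 this
  have hd0 : d ≠ 0 := by
    rintro rfl
    apply hs0
    have : s ^ 2 = 0 := by rw [hd]; ring
    exact pow_eq_zero_iff (by norm_num) |>.1 this
  refine ⟨c, d, b, hd0, hb0, ?_, ?_⟩
  · rw [← hcc, ← hd, g1]
  · have h1 : 0 < s ^ 2 := by positivity
    have h2 : c ^ 2 ≤ c ^ 4 := by
      rcases eq_or_ne c 0 with h0 | h0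
      · rw [h0]; norm_num
      · have h5 : 1 ≤ c ^ 2 := by
          have : 0 < c ^ 2 := by positivity
          omega
        have h6 : c ^ 4 = c ^ 2 * c ^ 2 := by ring
        rw [h6]
        nlinarith
    have h3 : |x| ≤ x ^ 2 := by
      rw [← sq_abs]
      have : 1 ≤ |x| := Int.one_le_abs hx
      nlinarith
    linarith

private theorem frm_desc (N : ℕ) : ∀ x y z : ℤ, x.natAbs = N → y ≠ 0 → z ≠ 0 →
    x ^ 4 - y ^ 4 ≠ z ^ 2 := by
  induction N using Nat.strong_induction_on with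
  | _ N ih =>
    intro x y z hN hy hz h
    have hx : x ≠ 0 := by
      rintro rfl
      have h1 : 0 < y ^ 4 := by positivity
      have h2 : 0 < z ^ 2 := by positivity
      have h3 : (0 : ℤ) ^ 4 = 0 := by norm_num
      linarith
    have fin : ∀ x' y' z' : ℤ, y' ≠ 0 → z' ≠ 0 → x' ^ 4 - y' ^ 4 = z' ^ 2 → x' ^ 2 < x ^ 2 →
        False := by
      intro x' y' z' h1 h2 h3 h4
      exact ih x'.natAbs (hN ▸ Int.natAbs_lt_iff_sq_lt.2 h4) x' y' z' rfl h1 h2 h3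
    by_cases hc : Int.gcd x y = 1
    · rcases Int.emod_two_eq_zero_or_one y with h0 | h0
      · obtain ⟨x', y', z', h1, h2, h3, h4⟩ := frm_caseA hx hy hz h hc h0
        exact fin x' y' z' h1 h2 h3 h4
      · obtain ⟨x', y', z', h1, h2, h3, h4⟩ := frm_caseC hx hy hz h hc h0
        exact fin x' y' z' h1 h2 h3 h4
    · set d : ℤ := (Int.gcd x y : ℤ) with hd
      obtain ⟨x', hx'⟩ : d ∣ x := Int.gcd_dvd_left _ _
      obtain ⟨y', hy'⟩ : d ∣ y := Int.gcd_dvd_right _ _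
      have hg0 : Int.gcd x y ≠ 0 := by
        intro h0
        exact hx (Int.gcd_eq_zero_iff.1 h0).1
      have hd2 : 2 ≤ d := by
        rw [hd]
        have : 2 ≤ Int.gcd x y := by omega
        exact_mod_cast this
      have hdz : d ^ 2 ∣ z := by
        have : (d ^ 2) ^ 2 ∣ z ^ 2 := by
          refine ⟨x' ^ 4 - y' ^ 4, ?_⟩
          rw [← h, hx', hy']
          ring
        exact (Int.pow_dvd_pow_iff (by norm_num)).1 this
      obtain ⟨z', hz'⟩ := hdz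
      have hx0 : x' ≠ 0 := by
        rintro rfl
        apply hx
        rw [hx']; ring
      refine fin x' y' z' ?_ ?_ ?_ ?_
      · rintro rfl
        apply hy
        rw [hy']; ring
      · rintro rfl
        apply hz
        rw [hz']; ring
      · have hd4 : d ^ 4 ≠ 0 := by positivity
        apply mul_left_cancel₀ hd4
        have : z ^ 2 = d ^ 4 * z' ^ 2 := by rw [hz']; ring
        rw [← this, ← h, hx', hy']
        ring
      · rw [hx', mul_pow]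
        have h1 : 0 < x' ^ 2 := by positivity
        have h2 : 4 ≤ d ^ 2 := by nlinarith
        nlinarith

theorem fermat_diff {x y z : ℤ} (hy : y ≠ 0) (hz : z ≠ 0) : x ^ 4 - y ^ 4 ≠ z ^ 2 :=
  frm_desc x.natAbs x y z rfl hy hz

private theorem frm_two {t Z : ℤ} (hZ : Z ≠ 0) : t * t ≠ 2 * (Z * Z) := by
  intro h
  have hZR : (Z : ℝ) ≠ 0 := by exact_mod_cast hZ
  have hR : (t : ℝ) * t = 2 * (Z * Z) := by exact_mod_cast h
  refine irrational_sqrt_two ⟨|(t : ℚ) / Z|, ?_⟩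
  rw [eq_comm, Real.sqrt_eq_iff_mul_self_eq (by norm_num) (by positivity)]
  push_cast
  rw [abs_mul_abs_self]
  field_simp
  linarith [hR]

theorem frm1 {X Z : ℤ} (hX : X ≠ 0) (hZ : Z ≠ 0) :
    ¬ (IsSquare (Z ^ 2 - X ^ 2) ∧ IsSquare (X ^ 2 + Z ^ 2)) := by
  rintro ⟨⟨s, hs⟩, ⟨t, ht⟩⟩
  have hXp : 0 < X ^ 2 := by positivity
  have hZp : 0 < Z ^ 2 := by positivity
  have ht0 : t ≠ 0 := by
    rintro rfl
    linarith
  have hs0 : s ≠ 0 := by
    rintro rfl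
    exact frm_two hZ (t := t) (by linarith [ht, hs, (by ring : Z ^ 2 = Z * Z)])
  refine fermat_diff (x := Z) hX (mul_ne_zero hs0 ht0) ?_
  have : Z ^ 4 - X ^ 4 = (Z ^ 2 - X ^ 2) * (X ^ 2 + Z ^ 2) := by ring
  rw [this, hs, ht]
  ring

theorem frm2 {X Z : ℤ} (hX : X ≠ 0) (hZ : Z ≠ 0) (hc : IsCoprime X Z) (h1 : IsSquare (X * Z))
    (h2 : IsSquare (2 * (X ^ 2 + Z ^ 2))) : X = Z := by
  obtain ⟨k, hk⟩ := h1
  obtain ⟨m, hm⟩ := h2
  obtain ⟨⟨a, ha⟩, ⟨b, hb⟩⟩ := frm_sqsq (Int.isCoprime_iff_gcd_eq_one.1 hc)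
    (by rw [hk, pow_two] : X * Z = k ^ 2)
  have ha0 : a ≠ 0 := by
    rintro rfl
    apply hX
    have : X ^ 2 = 0 := by rw [ha]; ring
    exact pow_eq_zero_iff (by norm_num) |>.1 this
  have hb0 : b ≠ 0 := by
    rintro rfl
    apply hZ
    have : Z ^ 2 = 0 := by rw [hb]; ring
    exact pow_eq_zero_iff (by norm_num) |>.1 this
  have hm2 : (2 : ℤ) ∣ m := by
    have : (2 : ℤ) ∣ m * m := ⟨X ^ 2 + Z ^ 2, hm.symm⟩
    rcases Int.prime_two.dvd_or_dvd this with h | h <;> exact h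
  obtain ⟨n, rfl⟩ := hm2
  have hn : a ^ 4 + b ^ 4 = 2 * n ^ 2 := by
    rw [ha, hb] at hm
    linarith [hm, (by ring : 2 * n * (2 * n) = 2 * (2 * n ^ 2))]
  have key : n ^ 4 - (a * b) ^ 4 = (n ^ 2 - b ^ 4) ^ 2 := by
    have : a ^ 4 = 2 * n ^ 2 - b ^ 4 := by linarith
    rw [mul_pow, this]
    ring
  have hz : n ^ 2 - b ^ 4 = 0 := by
    by_contra hne
    exact fermat_diff (mul_ne_zero ha0 hb0) hne key
  have hab : X ^ 2 = Z ^ 2 := by
    rw [ha, hb]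
    linarith
  rcases sq_eq_sq_iff_eq_or_eq_neg.1 hab with h | h
  · exact h
  · exfalso
    have h3 : 0 ≤ X * Z := by rw [hk]; exact mul_self_nonneg k
    rw [h] at h3
    have h4 : 0 < Z ^ 2 := by positivity
    nlinarith

end Pool.Agent.QTW
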