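import Pool.Agent.QTW.Setup

/-!
# QTW-HomM: multiplicativity of the forms, existence of a bad modulus

The binary forms are multiplicative; pairwise coprime polynomials have no common root modulo
all primes outside a finite set.
-/

set_option autoImplicit false

namespace Pool.Agent.QTW

open Finset

private theorem hom_sum {κ : Type} (s : Finset κ) (F : κ → Polynomial ℤ) (n : ℕ) (X Z : ℤ) :
    hom (∑ k ∈ s, F k) n X Z = ∑ k ∈ s, hom (F k) n X Z := by
  unfold hom
  rw [Finset.sum_comm]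
  refine Finset.sum_congr rfl fun i _ => ?_
  rw [Polynomial.finsetSum_coeff, Finset.sum_mul, Finset.sum_mul]

private theorem hom_monomial {k n : ℕ} (h : k ≤ n) (a X Z : ℤ) :
    hom (Polynomial.monomial k a) n X Z = a * X ^ k * Z ^ (n - k) := by
  unfold hom
  rw [Finset.sum_eq_single k]
  · rw [Polynomial.coeff_monomial, if_pos rfl]
  · intro i _ hi
    rw [Polynomial.coeff_monomial, if_neg (Ne.symm hi), zero_mul, zero_mul]
  · intro hk
    exact absurd (Finset.mem_range.2 (Nat.lt_succ_of_le h)) hk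

theorem hom_mul (f g : Polynomial ℤ) (m n : ℕ) (hf : f.natDegree ≤ m) (hg : g.natDegree ≤ n)
    (X Z : ℤ) : hom (f * g) (m + n) X Z = hom f m X Z * hom g n X Z := by
  have h1 : f * g = ∑ i ∈ Finset.range (m + 1), ∑ j ∈ Finset.range (n + 1),
      Polynomial.monomial (i + j) (f.coeff i * g.coeff j) := by
    conv_lhs => rw [f.as_sum_range' (m + 1) (Nat.lt_succ_of_le hf),
      g.as_sum_range' (n + 1) (Nat.lt_succ_of_le hg), Finset.sum_mul_sum]
    simp only [Polynomial.monomial_mul_monomial]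
  rw [h1, hom_sum]
  conv_rhs => rw [hom, hom, Finset.sum_mul_sum]
  refine Finset.sum_congr rfl fun i hi => ?_
  rw [hom_sum]
  refine Finset.sum_congr rfl fun j hj => ?_
  have hi' : i ≤ m := Nat.lt_succ_iff.1 (Finset.mem_range.1 hi)
  have hj' : j ≤ n := Nat.lt_succ_iff.1 (Finset.mem_range.1 hj)
  rw [hom_monomial (Nat.add_le_add hi' hj')]
  have h2 : m + n - (i + j) = (m - i) + (n - j) := by omega
  rw [h2, pow_add, pow_add]
  ring

theorem hom_prod {I : Type} [DecidableEq I] (s : Finset I) (f : I → Polynomial ℤ) (n : I → ℕ)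
    (h : ∀ i ∈ s, (f i).natDegree ≤ n i) (X Z : ℤ) :
    hom (∏ i ∈ s, f i) (∑ i ∈ s, n i) X Z = ∏ i ∈ s, hom (f i) (n i) X Z := by
  induction s using Finset.induction_on with
  | empty => simp [hom]
  | insert a s ha ih =>
    rw [Finset.prod_insert ha, Finset.sum_insert ha, Finset.prod_insert ha,
      hom_mul _ _ _ _ (h a (Finset.mem_insert_self a s)) _,
      ih fun i hi => h i (Finset.mem_insert_of_mem hi)]
    exact (Polynomial.natDegree_prod_le s f).trans
      (Finset.sum_le_sum fun i hi => h i (Finset.mem_insert_of_mem hi))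

theorem hom_C_mul (c : ℤ) (f : Polynomial ℤ) (n : ℕ) (X Z : ℤ) :
    hom (Polynomial.C c * f) n X Z = c * hom f n X Z := by
  unfold hom
  rw [Finset.mul_sum]
  refine Finset.sum_congr rfl fun i _ => ?_
  rw [Polynomial.coeff_C_mul]
  ring

private theorem bad_res {f g : Polynomial ℤ}
    (h : IsCoprime (f.map (Int.castRingHom ℚ)) (g.map (Int.castRingHom ℚ))) :
    ∃ (a b : Polynomial ℤ) (R : ℤ), R ≠ 0 ∧ a * f + b * g = Polynomial.C R := by
  obtain ⟨a, b, hab⟩ := h
  obtain ⟨d, hd⟩ := IsLocalization.integerNormalization_map_to_map (nonZeroDivisors ℤ) a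
  obtain ⟨e, he⟩ := IsLocalization.integerNormalization_map_to_map (nonZeroDivisors ℤ) b
  have hd0 : (d : ℤ) ≠ 0 := nonZeroDivisors.ne_zero d.2
  have he0 : (e : ℤ) ≠ 0 := nonZeroDivisors.ne_zero e.2
  refine ⟨Polynomial.C (e : ℤ) * IsLocalization.integerNormalization (nonZeroDivisors ℤ) a,
    Polynomial.C (d : ℤ) * IsLocalization.integerNormalization (nonZeroDivisors ℤ) b,
    d * e, mul_ne_zero hd0 he0, ?_⟩
  apply Polynomial.map_injective (Int.castRingHom ℚ) Int.cast_injective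
  have hd' : (IsLocalization.integerNormalization (nonZeroDivisors ℤ) a).map
      (Int.castRingHom ℚ) = Polynomial.C ((d : ℤ) : ℚ) * a := by
    have h1 : (IsLocalization.integerNormalization (nonZeroDivisors ℤ) a).map
      (Int.castRingHom ℚ) = (d : ℤ) • a := hd
    rw [h1, zsmul_eq_mul]
    simp
  have he' : (IsLocalization.integerNormalization (nonZeroDivisors ℤ) b).map
      (Int.castRingHom ℚ) = Polynomial.C ((e : ℤ) : ℚ) * b := by
    have h1 : (IsLocalization.integerNormalization (nonZeroDivisors ℤ) b).map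
      (Int.castRingHom ℚ) = (e : ℤ) • b := he
    rw [h1, zsmul_eq_mul]
    simp
  rw [Polynomial.map_add, Polynomial.map_mul, Polynomial.map_mul, Polynomial.map_mul,
    Polynomial.map_mul, hd', he', Polynomial.map_C, Polynomial.map_C, Polynomial.map_C]
  simp only [eq_intCast]
  have h2 : Polynomial.C (((d : ℤ) * (e : ℤ) : ℤ) : ℚ) =
      Polynomial.C ((d : ℤ) : ℚ) * Polynomial.C ((e : ℤ) : ℚ) := by
    rw [← Polynomial.C_mul]
    push_cast
    rfl
  rw [h2]
  calc _ = Polynomial.C ((d : ℤ) : ℚ) * Polynomial.C ((e : ℤ) : ℚ) *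
        (a * f.map (Int.castRingHom ℚ) + b * g.map (Int.castRingHom ℚ)) := by ring
    _ = _ := by rw [hab, mul_one]

private theorem bad_pair {I : Type} (F : Fam I) (i j : I)
    (h : IsCoprime ((F.f i).map (Int.castRingHom ℚ)) ((F.f j).map (Int.castRingHom ℚ)))
    (h' : (F.f i).coeff (F.n i) ≠ 0 ∨ (F.f j).coeff (F.n j) ≠ 0) :
    ∃ P : ℕ, P ≠ 0 ∧ ∀ p : ℕ, ¬ p ∣ P → ∀ r : Option (ZMod p),
      ¬ (ev p (F.f i) (F.n i) r = 0 ∧ ev p (F.f j) (F.n j) r = 0) := by
  obtain ⟨a, b, R, hR, hab⟩ := bad_res h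
  obtain ⟨T, hT, hT'⟩ : ∃ T : ℤ, T ≠ 0 ∧
      (T = (F.f i).coeff (F.n i) ∨ T = (F.f j).coeff (F.n j)) := by
    rcases h' with h' | h'
    · exact ⟨_, h', Or.inl rfl⟩
    · exact ⟨_, h', Or.inr rfl⟩
  refine ⟨R.natAbs * T.natAbs, mul_ne_zero (Int.natAbs_ne_zero.2 hR) (Int.natAbs_ne_zero.2 hT),
    fun p hp r => ?_⟩
  rintro ⟨h1, h2⟩
  cases r with
  | some x =>
    apply hp
    apply Dvd.dvd.mul_right
    rw [← Int.natCast_dvd, ← ZMod.intCast_zmod_eq_zero_iff_dvd]
    have h3 := congrArg (fun q : Polynomial ℤ => (q.map (Int.castRingHom (ZMod p))).eval x) hab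
    simp only [Polynomial.map_add, Polynomial.map_mul, Polynomial.eval_add, Polynomial.eval_mul,
      Polynomial.map_C, Polynomial.eval_C] at h3
    have h1' : ((F.f i).map (Int.castRingHom (ZMod p))).eval x = 0 := h1
    have h2' : ((F.f j).map (Int.castRingHom (ZMod p))).eval x = 0 := h2
    rw [h1', h2', mul_zero, mul_zero, add_zero] at h3
    exact h3.symm
  | none =>
    apply hp
    apply Dvd.dvd.mul_left
    rw [← Int.natCast_dvd, ← ZMod.intCast_zmod_eq_zero_iff_dvd]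
    rcases hT' with h3 | h3
    · rw [h3]
      exact h1
    · rw [h3]
      exact h2

theorem bad_exists {I : Type} [Fintype I] [DecidableEq I] (F : Fam I) {c : ℤ} (hc : c ≠ 0)
    (h : ∀ i j, i ≠ j →
      IsCoprime ((F.f i).map (Int.castRingHom ℚ)) ((F.f j).map (Int.castRingHom ℚ)) ∧
      ((F.f i).coeff (F.n i) ≠ 0 ∨ (F.f j).coeff (F.n j) ≠ 0)) : ∃ P : ℕ, Bad F c P := by
  have h1 : ∀ i j, ∃ P : ℕ, P ≠ 0 ∧ (i ≠ j → ∀ p : ℕ, ¬ p ∣ P → ∀ r : Option (ZMod p),
      ¬ (ev p (F.f i) (F.n i) r = 0 ∧ ev p (F.f j) (F.n j) r = 0)) := by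
    intro i j
    by_cases hij : i = j
    · exact ⟨1, one_ne_zero, fun h => absurd hij h⟩
    · obtain ⟨P, hP, hP'⟩ := bad_pair F i j (h i j hij).1 (h i j hij).2
      exact ⟨P, hP, fun _ => hP'⟩
  choose P hP hP' using h1
  have h0 : 2 * c.natAbs * ∏ i, ∏ j, P i j ≠ 0 := by
    refine mul_ne_zero (mul_ne_zero two_ne_zero (Int.natAbs_ne_zero.2 hc)) ?_
    exact Finset.prod_ne_zero_iff.2 fun i _ => Finset.prod_ne_zero_iff.2 fun j _ => hP i j
  refine ⟨2 * c.natAbs * ∏ i, ∏ j, P i j, Nat.one_le_iff_ne_zero.2 h0, fun p _ hpP => ?_⟩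
  refine ⟨?_, ?_, ?_⟩
  · rintro rfl
    exact hpP (Dvd.dvd.mul_right (dvd_mul_right _ _) _)
  · intro hpc
    exact hpP (Dvd.dvd.mul_right (Dvd.dvd.mul_left (Int.natCast_dvd.1 hpc) _) _)
  · intro i j hij
    refine hP' i j hij p fun hd => hpP ?_
    refine hd.trans (Dvd.dvd.mul_left ?_ _)
    exact (Finset.dvd_prod_of_mem (P i) (Finset.mem_univ j)).trans
      (Finset.dvd_prod_of_mem (fun i => ∏ j, P i j) (Finset.mem_univ i))

end Pool.Agent.QTW
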