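import Pool.Agent.QTW.Cut

/-!
# QTW-Hyp: the hyperbolic bilinear sum

Replace `α`, `β` by their restrictions to `a > z`, `b > z` and split the sum into the dyadic blocks of `cut`. A block is
nonzero only if `2^i 2^j ≤ Y` and `2^i, 2^j ≥ z/2`, so it is `≤ 2 C Y z^(-1/80)`, and there are at most
`(log_2 Y + 1)^2 ≤ 4 (log Y + 1)^2` blocks.
-/

set_option autoImplicit false

namespace Pool.Agent.QTW

open Finset

private theorem hyp_dyad (h : ℕ → ℝ) (n : ℕ) :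
    ∑ i ∈ range n, ∑ a ∈ Ioc (2 ^ i) (2 * 2 ^ i), h a = ∑ a ∈ Ioc 1 (2 ^ n), h a := by
  induction n with
  | zero => simp
  | succ n ih =>
    rw [sum_range_succ, ih, ← pow_succ']
    exact sum_Ioc_consecutive h Nat.one_le_two_pow (Nat.pow_le_pow_right (by norm_num) (by omega))

private theorem hyp_split (h : ℕ → ℝ) (Y : ℕ) (h1 : h 1 = 0) (h2 : ∀ a, Y < a → h a = 0) :
    ∑ a ∈ Icc 1 Y, h a = ∑ i ∈ range (Nat.log 2 Y + 1), ∑ a ∈ Ioc (2 ^ i) (2 * 2 ^ i), h a := by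
  rw [hyp_dyad]
  have hY : Y < 2 ^ (Nat.log 2 Y + 1) := Nat.lt_pow_succ_log_self (by norm_num) Y
  have e1 : ∑ a ∈ Icc 1 Y ∩ Ioc 1 (2 ^ (Nat.log 2 Y + 1)), h a = ∑ a ∈ Icc 1 Y, h a := by
    refine sum_subset inter_subset_left fun a ha ha' => ?_
    rw [mem_inter, not_and, mem_Ioc] at ha'
    have h3 := ha' ha
    rw [mem_Icc] at ha
    have : a = 1 := by omega
    rw [this, h1]
  have e2 : ∑ a ∈ Icc 1 Y ∩ Ioc 1 (2 ^ (Nat.log 2 Y + 1)), h a =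
      ∑ a ∈ Ioc 1 (2 ^ (Nat.log 2 Y + 1)), h a := by
    refine sum_subset inter_subset_right fun a ha ha' => ?_
    rw [mem_inter, not_and'] at ha'
    have h3 := ha' ha
    rw [mem_Icc] at h3
    rw [mem_Ioc] at ha
    exact h2 a (by omega)
  rw [← e1, e2]

private theorem hyp_adm {α : ℕ → ℝ} (z : ℕ) (h : Adm α) : Adm (fun a => if z < a then α a else 0) := by
  intro n
  by_cases hn : z < n
  · simp only [hn, if_true]
    exact h n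
  · simp only [hn, if_false]
    simp

private theorem hyp_log (Y : ℕ) (hY : 1 ≤ Y) :
    ((Nat.log 2 Y + 1 : ℕ) : ℝ) ^ 2 ≤ 4 * (Real.log Y + 1) ^ 2 := by
  have h1 : (2 : ℝ) ^ (Nat.log 2 Y) ≤ Y := by
    exact_mod_cast Nat.pow_log_le_self 2 (by omega)
  have h2 : (Nat.log 2 Y : ℝ) * Real.log 2 ≤ Real.log Y := by
    rw [← Real.log_pow]
    exact Real.log_le_log (by positivity) h1
  have h3 : (1 : ℝ) / 2 ≤ Real.log 2 := by
    have := Real.log_two_gt_d9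
    linarith
  have h4 : (Nat.log 2 Y : ℝ) * (1 / 2) ≤ (Nat.log 2 Y : ℝ) * Real.log 2 :=
    mul_le_mul_of_nonneg_left h3 (Nat.cast_nonneg _)
  have h5 : (0 : ℝ) ≤ (Nat.log 2 Y : ℝ) := Nat.cast_nonneg _
  push_cast
  nlinarith

/-- one block -/
private theorem hyp_block {C : ℝ} (hC : 0 < C)
    (hcut : ∀ M N Y : ℕ, 1 ≤ M → 1 ≤ N → ∀ α β : ℕ → ℝ, Adm α → Adm β →
      |∑ a ∈ Ioc M (2 * M), ∑ b ∈ Ioc N (2 * N),
        if a * b ≤ Y then α a * β b * J (a : ℤ) b else 0| ≤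
      C * M * N * ((min M N : ℕ) : ℝ) ^ (-(1 / 80) : ℝ))
    (Y z : ℕ) (hz : 1 ≤ z) (α β : ℕ → ℝ) (hα : Adm α) (hβ : Adm β)
    (hα0 : ∀ a, a ≤ z → α a = 0) (hβ0 : ∀ a, a ≤ z → β a = 0) (i j : ℕ) :
    |∑ a ∈ Ioc (2 ^ i) (2 * 2 ^ i), ∑ b ∈ Ioc (2 ^ j) (2 * 2 ^ j),
        if a * b ≤ Y then α a * β b * J (a : ℤ) b else 0| ≤
      2 * C * Y * (z : ℝ) ^ (-(1 / 80) : ℝ) := by
  have hz0 : (0 : ℝ) < z := by exact_mod_cast hz
  by_cases h0 : ∑ a ∈ Ioc (2 ^ i) (2 * 2 ^ i), ∑ b ∈ Ioc (2 ^ j) (2 * 2 ^ j),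
      (if a * b ≤ Y then α a * β b * J (a : ℤ) b else 0) = 0
  · rw [h0, abs_zero]
    positivity
  · obtain ⟨a, ha, hab⟩ := exists_ne_zero_of_sum_ne_zero h0
    obtain ⟨b, hb, hab'⟩ := exists_ne_zero_of_sum_ne_zero hab
    rw [mem_Ioc] at ha hb
    have h1 : a * b ≤ Y := by
      by_contra h
      rw [if_neg h] at hab'
      exact hab' rfl
    rw [if_pos h1] at hab'
    have h2 : z < a := by
      by_contra h
      rw [hα0 a (by omega), zero_mul, zero_mul] at hab'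
      exact hab' rfl
    have h3 : z < b := by
      by_contra h
      rw [hβ0 b (by omega), mul_zero, zero_mul] at hab'
      exact hab' rfl
    have h4 : 2 ^ i * 2 ^ j ≤ Y := (Nat.mul_le_mul ha.1.le hb.1.le).trans h1
    have h5 := hcut (2 ^ i) (2 ^ j) Y Nat.one_le_two_pow Nat.one_le_two_pow α β hα hβ
    refine h5.trans ?_
    have h6 : z ≤ 2 * min (2 ^ i) (2 ^ j) := by
      rcases le_total (2 ^ i) (2 ^ j) with h | h
      · rw [min_eq_left h]; omega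
      · rw [min_eq_right h]; omega
    have h7 : (z : ℝ) / 2 ≤ ((min (2 ^ i) (2 ^ j) : ℕ) : ℝ) := by
      have : (z : ℝ) ≤ 2 * ((min (2 ^ i) (2 ^ j) : ℕ) : ℝ) := by exact_mod_cast h6
      linarith
    have h8 : ((min (2 ^ i) (2 ^ j) : ℕ) : ℝ) ^ (-(1 / 80) : ℝ) ≤ ((z : ℝ) / 2) ^ (-(1 / 80) : ℝ) :=
      Real.rpow_le_rpow_of_nonpos (by positivity) h7 (by norm_num)
    have h9 : ((z : ℝ) / 2) ^ (-(1 / 80) : ℝ) ≤ 2 * (z : ℝ) ^ (-(1 / 80) : ℝ) := by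
      rw [Real.div_rpow hz0.le (by norm_num), Real.rpow_neg (by norm_num : (0 : ℝ) ≤ 2), div_inv_eq_mul, mul_comm]
      refine mul_le_mul_of_nonneg_right ?_ (by positivity)
      calc (2 : ℝ) ^ (1 / 80 : ℝ) ≤ (2 : ℝ) ^ (1 : ℝ) :=
            Real.rpow_le_rpow_of_exponent_le (by norm_num) (by norm_num)
        _ = 2 := Real.rpow_one 2
    have h10 : ((2 ^ i : ℕ) : ℝ) * ((2 ^ j : ℕ) : ℝ) ≤ Y := by exact_mod_cast h4
    calc C * ((2 ^ i : ℕ) : ℝ) * ((2 ^ j : ℕ) : ℝ) * ((min (2 ^ i) (2 ^ j) : ℕ) : ℝ) ^ (-(1 / 80) : ℝ)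
        = C * (((2 ^ i : ℕ) : ℝ) * ((2 ^ j : ℕ) : ℝ)) *
          ((min (2 ^ i) (2 ^ j) : ℕ) : ℝ) ^ (-(1 / 80) : ℝ) := by ring
      _ ≤ C * Y * (2 * (z : ℝ) ^ (-(1 / 80) : ℝ)) := by
          refine mul_le_mul (mul_le_mul_of_nonneg_left h10 hC.le) (h8.trans h9) (by positivity)
            (by positivity)
      _ = 2 * C * Y * (z : ℝ) ^ (-(1 / 80) : ℝ) := by ring

open Classical in
theorem hyp : ∃ C : ℝ, 0 < C ∧ ∀ Y z : ℕ, 1 ≤ Y → 1 ≤ z → ∀ α β : ℕ → ℝ, Adm α → Adm β →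
    |∑ a ∈ Icc 1 Y, ∑ b ∈ Icc 1 Y,
        if z < a ∧ z < b ∧ a * b ≤ Y then α a * β b * J (a : ℤ) b else 0| ≤
      C * Y * (Real.log Y + 1) ^ 2 * (z : ℝ) ^ (-(1 / 80) : ℝ) := by
  obtain ⟨C, hC, hcut⟩ := cut
  refine ⟨8 * C, by positivity, fun Y z hY hz α β hα hβ => ?_⟩
  obtain ⟨α', hα'⟩ : ∃ f : ℕ → ℝ, f = fun a => if z < a then α a else 0 := ⟨_, rfl⟩
  obtain ⟨β', hβ'⟩ : ∃ f : ℕ → ℝ, f = fun a => if z < a then β a else 0 := ⟨_, rfl⟩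
  have hAα : Adm α' := by rw [hα']; exact hyp_adm z hα
  have hAβ : Adm β' := by rw [hβ']; exact hyp_adm z hβ
  have hα0 : ∀ a, a ≤ z → α' a = 0 := by
    intro a ha
    rw [hα']
    exact if_neg (by omega)
  have hβ0 : ∀ a, a ≤ z → β' a = 0 := by
    intro a ha
    rw [hβ']
    exact if_neg (by omega)
  have e1 : ∀ a b : ℕ, (if z < a ∧ z < b ∧ a * b ≤ Y then α a * β b * J (a : ℤ) b else 0) =
      if a * b ≤ Y then α' a * β' b * J (a : ℤ) b else 0 := by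
    intro a b
    rw [hα', hβ']
    by_cases h1 : z < a <;> by_cases h2 : z < b <;> by_cases h3 : a * b ≤ Y <;> simp [h1, h2, h3]
  simp_rw [e1]
  have e2 : ∀ a : ℕ, 1 ≤ a → ∑ b ∈ Icc 1 Y, (if a * b ≤ Y then α' a * β' b * J (a : ℤ) b else 0) =
      ∑ j ∈ range (Nat.log 2 Y + 1), ∑ b ∈ Ioc (2 ^ j) (2 * 2 ^ j),
        if a * b ≤ Y then α' a * β' b * J (a : ℤ) b else 0 := by
    intro a ha
    refine hyp_split _ Y ?_ ?_
    · rw [hβ0 1 hz]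
      simp
    · intro b hb
      rw [if_neg]
      have : Y < a * b := by nlinarith
      omega
  have e3 : ∑ a ∈ Icc 1 Y, ∑ b ∈ Icc 1 Y, (if a * b ≤ Y then α' a * β' b * J (a : ℤ) b else 0) =
      ∑ i ∈ range (Nat.log 2 Y + 1), ∑ a ∈ Ioc (2 ^ i) (2 * 2 ^ i),
        ∑ b ∈ Icc 1 Y, if a * b ≤ Y then α' a * β' b * J (a : ℤ) b else 0 := by
    refine hyp_split (fun a => ∑ b ∈ Icc 1 Y, if a * b ≤ Y then α' a * β' b * J (a : ℤ) b else 0) Y ?_ ?_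
    · rw [hα0 1 hz]
      simp
    · intro a ha
      refine sum_eq_zero fun b hb => ?_
      rw [mem_Icc] at hb
      rw [if_neg]
      have : Y < a * b := by nlinarith
      omega
  have e4 : ∑ a ∈ Icc 1 Y, ∑ b ∈ Icc 1 Y, (if a * b ≤ Y then α' a * β' b * J (a : ℤ) b else 0) =
      ∑ i ∈ range (Nat.log 2 Y + 1), ∑ j ∈ range (Nat.log 2 Y + 1),
        ∑ a ∈ Ioc (2 ^ i) (2 * 2 ^ i), ∑ b ∈ Ioc (2 ^ j) (2 * 2 ^ j),
          if a * b ≤ Y then α' a * β' b * J (a : ℤ) b else 0 := by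
    rw [e3]
    refine sum_congr rfl fun i _ => ?_
    refine Eq.trans ?_ sum_comm
    refine sum_congr rfl fun a ha => ?_
    rw [mem_Ioc] at ha
    exact e2 a (by omega)
  rw [e4]
  refine (abs_sum_le_sum_abs _ _).trans ?_
  have h1 : ∀ i ∈ range (Nat.log 2 Y + 1), |∑ j ∈ range (Nat.log 2 Y + 1),
        ∑ a ∈ Ioc (2 ^ i) (2 * 2 ^ i), ∑ b ∈ Ioc (2 ^ j) (2 * 2 ^ j),
          if a * b ≤ Y then α' a * β' b * J (a : ℤ) b else 0| ≤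
      ((Nat.log 2 Y + 1 : ℕ) : ℝ) * (2 * C * Y * (z : ℝ) ^ (-(1 / 80) : ℝ)) := by
    intro i _
    refine (abs_sum_le_sum_abs _ _).trans ?_
    refine (sum_le_sum fun j _ =>
      hyp_block hC hcut Y z hz α' β' hAα hAβ hα0 hβ0 i j).trans ?_
    rw [sum_const, card_range, nsmul_eq_mul]
  refine (sum_le_sum h1).trans ?_
  rw [sum_const, card_range, nsmul_eq_mul]
  have h2 := hyp_log Y hY
  have h3 : 0 ≤ 2 * C * Y * (z : ℝ) ^ (-(1 / 80) : ℝ) := by positivity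
  calc ((Nat.log 2 Y + 1 : ℕ) : ℝ) * (((Nat.log 2 Y + 1 : ℕ) : ℝ) * (2 * C * Y * (z : ℝ) ^ (-(1 / 80) : ℝ)))
      = ((Nat.log 2 Y + 1 : ℕ) : ℝ) ^ 2 * (2 * C * Y * (z : ℝ) ^ (-(1 / 80) : ℝ)) := by ring
    _ ≤ 4 * (Real.log Y + 1) ^ 2 * (2 * C * Y * (z : ℝ) ^ (-(1 / 80) : ℝ)) :=
        mul_le_mul_of_nonneg_right h2 h3
    _ = 8 * C * Y * (Real.log Y + 1) ^ 2 * (z : ℝ) ^ (-(1 / 80) : ℝ) := by ring

end Pool.Agent.QTW
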