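import Pool.Agent.QTW.SgLin
import Pool.Agent.QTW.CSum

/-!
# QTW-LinAv: means for the linear forms

PROOF. Write `t = 1` if some `inl j ∉ K`, `t = 2` otherwise; `card sg ≤ t` (`card_sg_lin`). If `Sq u K s k`: `∑_{p ≤ x} t / p ≤ t (log log x + C)` (Mertens' second theorem, `MEN.mert_sum0` from
`Pool/Agent/MEN/Mer.lean`; or `Helper36.RH.mertens_upper`). If not, there is (by the definition of `Sq`) an integer `a`, not a square, `a = u₄ s₄ b4 k` or `a = u_a s_a u_b s_b bp k`, with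
`jacobiSym a p = 1` whenever `sg .. p` is nonempty (`sg_lin`); so `card sg ≤ t * (if jacobiSym a p = 1 then 1 else 0)` and `ind` applies. As all `s j ≥ 1` and `|u j| ≥ 1`, `|a| ≤ 2 U ∏ s j` with
`U = ∏ |u j|`, so `log log (|a| + 3) ≤ log log (2 U ∏ s + 3) ≤ log log (∏ s + 3) + C_U` (`2 U m + 3 ≤ (2U+1)(m + 3)`, `log (A y) ≤ (1 + log A) log y` for `y ≥ 3 > e`).
`log log x ≥ 0` for `x ≥ 3`, `1 + log log (∏ s + 3) ≥ 1`.
-/

set_option autoImplicit false

namespace Pool.Agent.QTW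

open Finset

private theorem one_le_abs {z : ℤ} (hz : z ≠ 0) : (1 : ℝ) ≤ |(z : ℝ)| := by
  have h1 : 1 ≤ |z| := Int.one_le_abs hz
  have h2 : ((1 : ℤ) : ℝ) ≤ ((|z| : ℤ) : ℝ) := by exact_mod_cast h1
  simpa using h2

private theorem le_prod_one {I : Type} [Fintype I] [DecidableEq I] {f : I → ℝ}
    (hf : ∀ i, 1 ≤ f i) (i : I) : f i ≤ ∏ j, f j := by
  rw [← Finset.mul_prod_erase univ f (mem_univ i)]
  have h1 : 1 ≤ ∏ j ∈ univ.erase i, f j := by
    rw [← Finset.prod_const_one (s := univ.erase i)]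
    exact Finset.prod_le_prod (fun _ _ => zero_le_one) fun j _ => hf j
  have h2 := hf i
  nlinarith

private theorem le_prod_two {I : Type} [Fintype I] [DecidableEq I] {f : I → ℝ}
    (hf : ∀ i, 1 ≤ f i) {i j : I} (hij : i ≠ j) : f i * f j ≤ ∏ j, f j := by
  rw [← Finset.mul_prod_erase univ f (mem_univ i),
    ← Finset.mul_prod_erase (univ.erase i) f (mem_erase.2 ⟨hij.symm, mem_univ j⟩)]
  have h1 : 1 ≤ ∏ l ∈ (univ.erase i).erase j, f l := by
    rw [← Finset.prod_const_one (s := (univ.erase i).erase j)]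
    exact Finset.prod_le_prod (fun _ _ => zero_le_one) fun j _ => hf j
  have h2 := hf i
  have h3 := hf j
  have h4 : 1 ≤ f i * f j := by nlinarith
  rw [← mul_assoc]
  nlinarith

private theorem loglog_le {U S a : ℝ} (hU : 1 ≤ U) (hS : 1 ≤ S) (ha0 : 0 ≤ a)
    (ha : a ≤ 2 * U * S) :
    Real.log (Real.log (a + 3)) ≤
      Real.log (1 + Real.log (2 * U + 1)) + Real.log (Real.log (S + 3)) := by
  have e1 : Real.exp 1 ≤ 3 := by linarith [Real.exp_one_lt_d9]
  have h3 : (1 : ℝ) ≤ Real.log (S + 3) := by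
    rw [Real.le_log_iff_exp_le (by linarith)]
    linarith
  have h4 : (1 : ℝ) ≤ Real.log (a + 3) := by
    rw [Real.le_log_iff_exp_le (by linarith)]
    linarith
  have h5 : 0 ≤ Real.log (2 * U + 1) := Real.log_nonneg (by linarith)
  have h6 : Real.log (a + 3) ≤ (1 + Real.log (2 * U + 1)) * Real.log (S + 3) := by
    have h7 : a + 3 ≤ (2 * U + 1) * (S + 3) := by nlinarith
    have h8 := Real.log_le_log (by linarith) h7
    rw [Real.log_mul (by linarith) (by linarith)] at h8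
    nlinarith
  have h9 := Real.log_le_log (by linarith) h6
  rw [Real.log_mul (by linarith) (by linarith)] at h9
  exact h9

open Classical in
theorem lin_av {r : ℕ} {g : Fin r → Polynomial ℤ} {c : ℤ} {P : ℕ} (hP : Bad (fam2 g) c P)
    (u : I2 r → ℤ) (hu : ∀ i, u i ≠ 0) :
    ∃ C : ℝ, 0 ≤ C ∧ ∀ (K : Finset (I2 r)) (s : I2 r → ℕ), Sml P K s →
      ∀ (k : Fin 4) (hk : Sum.inl k ∈ K) (x : ℕ), 3 ≤ x →
      ∑ p ∈ pri x, ((sg (fam2 g) u P K s ⟨Sum.inl k, hk⟩ p).card : ℝ) / p ≤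
        (if ∀ j : Fin 4, Sum.inl j ∈ K then 2 else 1) * (if Sq u K s k then 1 else 1 / 2) *
          Real.log (Real.log x) + C * (1 + Real.log (Real.log ((∏ j, s j : ℕ) + 3))) := by
  obtain ⟨C1, hC1, hm⟩ := MEN.mert_sum0
  obtain ⟨C2, hC2, hind⟩ := ind
  set U : ℝ := ∏ i, |(u i : ℝ)| with hU
  have hu1 : ∀ i, 1 ≤ |(u i : ℝ)| := fun i => one_le_abs (hu i)
  have hU1 : 1 ≤ U := (hu1 (Sum.inr none)).trans (le_prod_one hu1 _)
  have hCU : 0 ≤ Real.log (1 + Real.log (2 * U + 1)) :=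
    Real.log_nonneg (by linarith [Real.log_nonneg (by linarith : (1 : ℝ) ≤ 2 * U + 1)])
  refine ⟨2 * C1 + 2 * C2 + 2 * Real.log (1 + Real.log (2 * U + 1)) + 2, by linarith,
    fun K s hs k hk x hx => ?_⟩
  set S : ℝ := ((∏ j, s j : ℕ) : ℝ) with hS
  have hSp : S = ∏ j, (s j : ℝ) := by
    rw [hS]
    push_cast
    rfl
  have hs1 : ∀ j, 1 ≤ (s j : ℝ) := by
    intro j
    exact_mod_cast Nat.one_le_iff_ne_zero.2 (hs.1 j).1.ne_zero
  have hS1 : 1 ≤ S := by
    rw [hSp]
    exact (hs1 (Sum.inr none)).trans (le_prod_one hs1 _)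
  set M : ℝ := Real.log (Real.log (S + 3)) with hM
  have e1 : Real.exp 1 ≤ 3 := by linarith [Real.exp_one_lt_d9]
  have hM0 : 0 ≤ M := by
    apply Real.log_nonneg
    rw [Real.le_log_iff_exp_le (by linarith)]
    linarith
  set t : ℝ := if ∀ j : Fin 4, Sum.inl j ∈ K then 2 else 1 with ht
  have ht1 : 1 ≤ t := by
    rw [ht]
    split_ifs <;> norm_num
  have ht2 : t ≤ 2 := by
    rw [ht]
    split_ifs <;> norm_num
  have hcard : ∀ p ∈ pri x, ((sg (fam2 g) u P K s ⟨Sum.inl k, hk⟩ p).card : ℝ) ≤ t := by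
    intro p hp
    have h1 := card_sg_lin hP u K s k hk (mem_pri.1 hp).2
    rw [ht]
    split_ifs with h2
    · exact_mod_cast h1.1
    · push Not at h2
      exact_mod_cast h1.2 h2
  by_cases hsq : Sq u K s k
  · rw [if_pos hsq]
    have h1 : ∑ p ∈ pri x, ((sg (fam2 g) u P K s ⟨Sum.inl k, hk⟩ p).card : ℝ) / p ≤
        ∑ p ∈ pri x, t * (1 / (p : ℝ)) := by
      refine Finset.sum_le_sum fun p hp => ?_
      rw [mul_one_div]
      exact div_le_div_of_nonneg_right (hcard p hp) (Nat.cast_nonneg p)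
    rw [← Finset.mul_sum] at h1
    have h2 := (abs_le.1 (hm x (by omega))).2
    have h3 : ∑ p ∈ pri x, 1 / (p : ℝ) ≤ Real.log (Real.log x) + C1 := by
      have h4 : ∑ p ∈ pri x, 1 / (p : ℝ) - Real.log (Real.log x) ≤ C1 := h2
      linarith
    have h4 : t * ∑ p ∈ pri x, 1 / (p : ℝ) ≤ t * (Real.log (Real.log x) + C1) :=
      mul_le_mul_of_nonneg_left h3 (by linarith)
    nlinarith
  · rw [if_neg hsq]
    obtain ⟨a, ha1, ha2, ha3⟩ : ∃ a : ℤ, ¬ IsSquare a ∧ |(a : ℝ)| ≤ 2 * U * S ∧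
        ∀ p ∈ pri x, (sg (fam2 g) u P K s ⟨Sum.inl k, hk⟩ p).Nonempty → jacobiSym a p = 1 := by
      unfold Sq at hsq
      rw [not_and_or] at hsq
      rcases hsq with hsq | hsq
      · push Not at hsq
        refine ⟨_, hsq.2, ?_, fun p hp hne =>
          (sg_lin hP u K s k hk (mem_pri.1 hp).2 hne).1 hsq.1⟩
        push_cast
        rw [abs_mul, abs_mul]
        have hb : |((b4 k : ℤ) : ℝ)| ≤ 2 := by
          fin_cases k <;> norm_num [b4]
        have h1 := le_prod_one hu1 (Sum.inr none)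
        have h2 := le_prod_one hs1 (Sum.inr none)
        rw [← hSp] at h2
        rw [Nat.abs_cast]
        calc |(u (Sum.inr none) : ℝ)| * (s (Sum.inr none) : ℝ) * |((b4 k : ℤ) : ℝ)|
            ≤ U * S * 2 := by
              apply mul_le_mul (mul_le_mul h1 h2 (Nat.cast_nonneg _) (by linarith)) hb
                (abs_nonneg _) (by positivity)
          _ = 2 * U * S := by ring
      · push Not at hsq
        refine ⟨_, hsq.2.2, ?_, fun p hp hne =>
          (sg_lin hP u K s k hk (mem_pri.1 hp).2 hne).2 hsq.1 hsq.2.1⟩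
        push_cast
        rw [abs_mul, abs_mul, abs_mul, abs_mul]
        have hb : |((bp k : ℤ) : ℝ)| ≤ 2 := by
          fin_cases k <;> norm_num [bp]
        have hne : (Sum.inl (pa k) : I2 r) ≠ Sum.inl (pb k) := by
          intro h
          have h5 := Sum.inl.inj h
          fin_cases k <;> simp [pa, pb] at h5
        have h1 := le_prod_two hu1 hne
        have h2 := le_prod_two hs1 hne
        rw [← hSp] at h2
        rw [Nat.abs_cast, Nat.abs_cast]
        calc |(u (Sum.inl (pa k)) : ℝ)| * (s (Sum.inl (pa k)) : ℝ) *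
              (|(u (Sum.inl (pb k)) : ℝ)| * (s (Sum.inl (pb k)) : ℝ)) * |((bp k : ℤ) : ℝ)|
            = (|(u (Sum.inl (pa k)) : ℝ)| * |(u (Sum.inl (pb k)) : ℝ)|) *
              ((s (Sum.inl (pa k)) : ℝ) * (s (Sum.inl (pb k)) : ℝ)) * |((bp k : ℤ) : ℝ)| := by
              ring
          _ ≤ U * S * 2 := by
              apply mul_le_mul (mul_le_mul h1 h2 (by positivity) (by linarith)) hb
                (abs_nonneg _) (by positivity)
          _ = 2 * U * S := by ring
    have h1 : ∑ p ∈ pri x, ((sg (fam2 g) u P K s ⟨Sum.inl k, hk⟩ p).card : ℝ) / p ≤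
        ∑ p ∈ pri x, t * ((if jacobiSym a p = 1 then (1 : ℝ) else 0) / p) := by
      refine Finset.sum_le_sum fun p hp => ?_
      rw [← mul_div_assoc]
      refine div_le_div_of_nonneg_right ?_ (Nat.cast_nonneg p)
      by_cases hj : jacobiSym a p = 1
      · rw [if_pos hj, mul_one]
        exact hcard p hp
      · rw [if_neg hj, mul_zero]
        have h2 : sg (fam2 g) u P K s ⟨Sum.inl k, hk⟩ p = ∅ := by
          rw [← Finset.not_nonempty_iff_eq_empty]
          exact fun h3 => hj (ha3 p hp h3)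
        rw [h2, Finset.card_empty, Nat.cast_zero]
    rw [← Finset.mul_sum] at h1
    have h2 := hind a ha1 x hx
    have h3 := loglog_le hU1 hS1 (abs_nonneg (a : ℝ)) ha2
    have h4 : t * ∑ p ∈ pri x, (if jacobiSym a p = 1 then (1 : ℝ) else 0) / p ≤
        t * ((1 / 2 : ℝ) * Real.log (Real.log x) +
          (Real.log (1 + Real.log (2 * U + 1)) + M) + C2) :=
      mul_le_mul_of_nonneg_left (by linarith) (by linarith)
    nlinarith

end Pool.Agent.QTW
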