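import Pool.Agent.QTW.Fam2
import Pool.Agent.QTW.Fct
import Pool.Agent.QTW.HomM

/-!
# QTW-Set2: the setup for `(X ^ 5 - X) * h`

`h` is up to a constant a product of irreducible polynomials `g i` of even degree (`fct`), and `X ^ 5 - X` is the product of
`X`, `X - 1`, `X + 1` and `X ^ 2 + 1`; the members of the family are pairwise coprime because `(X ^ 5 - X) * h` is separable.
-/

set_option autoImplicit false

namespace Pool.Agent.QTW

open Finset

private theorem fam2_prod {r : ℕ} (g : Fin r → Polynomial ℤ) :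
    ∏ i, (fam2 g).f i = (Polynomial.X ^ 5 - Polynomial.X) * ∏ i, g i := by
  rw [Fintype.prod_sum_type, Fintype.prod_option, Fin.prod_univ_four]
  show (Polynomial.X * (Polynomial.X - 1) * (Polynomial.X + 1) * 1) * ((Polynomial.X ^ 2 + 1) * ∏ i, g i) =
    (Polynomial.X ^ 5 - Polynomial.X) * ∏ i, g i
  ring

private theorem fam2_sum {r : ℕ} (g : Fin r → Polynomial ℤ) :
    ∑ i, (fam2 g).n i = 4 + (2 + ∑ i, (g i).natDegree) := by
  rw [Fintype.sum_sum_type, Fintype.sum_option, Fin.sum_univ_four]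
  rfl

private theorem fam2_deg {r : ℕ} (g : Fin r → Polynomial ℤ) (hg : ∀ i, 1 ≤ (g i).natDegree) (i : I2 r) :
    ((fam2 g).f i).natDegree ≤ (fam2 g).n i ∧ 1 ≤ (fam2 g).n i := by
  rcases i with k | o
  · refine ⟨?_, le_rfl⟩
    show (lin k).natDegree ≤ 1
    fin_cases k
    · exact Polynomial.natDegree_X_le
    · show (Polynomial.X - 1 : Polynomial ℤ).natDegree ≤ 1
      rw [← Polynomial.C_1]
      exact (Polynomial.natDegree_X_sub_C_le 1)
    · show (Polynomial.X + 1 : Polynomial ℤ).natDegree ≤ 1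
      rw [← Polynomial.C_1, Polynomial.natDegree_X_add_C]
    · show (1 : Polynomial ℤ).natDegree ≤ 1
      rw [Polynomial.natDegree_one]
      exact Nat.zero_le 1
  · rcases o with _ | i
    · refine ⟨?_, by show 1 ≤ 2; omega⟩
      show (Polynomial.X ^ 2 + 1 : Polynomial ℤ).natDegree ≤ 2
      rw [← Polynomial.C_1, Polynomial.natDegree_X_pow_add_C]
    · exact ⟨le_rfl, hg i⟩

private theorem fam2_coeff {r : ℕ} (g : Fin r → Polynomial ℤ) (hg : ∀ i, 1 ≤ (g i).natDegree) (i : I2 r)
    (hi : i ≠ Sum.inl 3) : ((fam2 g).f i).coeff ((fam2 g).n i) ≠ 0 := by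
  rcases i with k | o
  · show (lin k).coeff 1 ≠ 0
    fin_cases k
    · show (Polynomial.X : Polynomial ℤ).coeff 1 ≠ 0
      rw [Polynomial.coeff_X_one]
      exact one_ne_zero
    · show (Polynomial.X - 1 : Polynomial ℤ).coeff 1 ≠ 0
      rw [Polynomial.coeff_sub, Polynomial.coeff_X_one, Polynomial.coeff_one]
      norm_num
    · show (Polynomial.X + 1 : Polynomial ℤ).coeff 1 ≠ 0
      rw [Polynomial.coeff_add, Polynomial.coeff_X_one, Polynomial.coeff_one]
      norm_num
    · exact absurd rfl hi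
  · rcases o with _ | i
    · show (Polynomial.X ^ 2 + 1 : Polynomial ℤ).coeff 2 ≠ 0
      rw [Polynomial.coeff_add, Polynomial.coeff_X_pow, Polynomial.coeff_one]
      norm_num
    · show (g i).coeff (g i).natDegree ≠ 0
      intro h
      have h1 : g i = 0 := Polynomial.leadingCoeff_eq_zero.mp h
      have h2 := hg i
      rw [h1, Polynomial.natDegree_zero] at h2
      omega

theorem setup2 (h : Polynomial ℤ)
    (hsep : (((Polynomial.X ^ 5 - Polynomial.X) * h).map (Int.castRingHom ℚ)).Separable)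
    (heven : ∀ q ∈ UniqueFactorizationMonoid.normalizedFactors (h.map (Int.castRingHom ℚ)),
      Even q.natDegree) :
    ∃ (r : ℕ) (g : Fin r → Polynomial ℤ) (c : ℤ),
      Setup ((Polynomial.X ^ 5 - Polynomial.X) * h) (fam2 g) c ∧
      (∃ P : ℕ, Bad (fam2 g) c P) ∧
      (∀ i, Irreducible ((g i).map (Int.castRingHom ℚ))) ∧ (∀ i, Even (g i).natDegree) ∧
      (∀ i, 2 ≤ (g i).natDegree) ∧
      (∀ i j, i ≠ j → IsCoprime (((fam2 g).f i).map (Int.castRingHom ℚ))
        (((fam2 g).f j).map (Int.castRingHom ℚ))) := by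
  classical
  have hhsep : (h.map (Int.castRingHom ℚ)).Separable := by
    rw [Polynomial.map_mul] at hsep
    exact hsep.of_mul_right
  obtain ⟨r, g, c, hc, hfac, hirr, _, hcard⟩ := fct h hhsep
  have hge : ∀ i, Even (g i).natDegree := by
    have h0 : Multiset.filter (fun q : Polynomial ℚ => Odd q.natDegree)
        (UniqueFactorizationMonoid.normalizedFactors (h.map (Int.castRingHom ℚ))) = 0 :=
      Multiset.filter_eq_nil.mpr fun q hq => Nat.not_odd_iff_even.mpr (heven q hq)
    rw [h0, Multiset.card_zero, Finset.card_eq_zero, Finset.filter_eq_empty_iff] at hcard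
    intro i
    exact Nat.not_odd_iff_even.mp (hcard (mem_univ i))
  have hg1 : ∀ i, 1 ≤ (g i).natDegree := by
    intro i
    have h1 := Polynomial.natDegree_pos_iff_degree_pos.mpr (Polynomial.degree_pos_of_irreducible (hirr i))
    rw [Polynomial.natDegree_map_eq_of_injective Int.cast_injective] at h1
    exact h1
  have hprod : (Polynomial.X ^ 5 - Polynomial.X) * h = Polynomial.C c * ∏ i, (fam2 g).f i := by
    rw [fam2_prod, hfac]
    ring
  have hcop : ∀ i j, i ≠ j → IsCoprime (((fam2 g).f i).map (Int.castRingHom ℚ))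
        (((fam2 g).f j).map (Int.castRingHom ℚ)) := by
    intro i j hij
    have h1 : ((fam2 g).f i).map (Int.castRingHom ℚ) * ((fam2 g).f j).map (Int.castRingHom ℚ) ∣
        ((Polynomial.X ^ 5 - Polynomial.X) * h).map (Int.castRingHom ℚ) := by
      rw [hprod, Polynomial.map_mul, Polynomial.map_prod]
      refine Dvd.dvd.mul_left ?_ _
      rw [← Finset.mul_prod_erase univ (fun i => ((fam2 g).f i).map (Int.castRingHom ℚ)) (Finset.mem_univ i)]
      refine mul_dvd_mul_left _ ?_
      exact Finset.dvd_prod_of_mem (fun i => ((fam2 g).f i).map (Int.castRingHom ℚ))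
        (Finset.mem_erase.2 ⟨hij.symm, Finset.mem_univ j⟩)
    exact (hsep.of_dvd h1).isCoprime
  refine ⟨r, g, c, ⟨hc, fam2_deg g hg1, ?_, ?_, fun X Z => ?_⟩, ?_, hirr, hge, fun i => ?_, hcop⟩
  · rw [fam2_sum]
    have h1 : Even (∑ i, (g i).natDegree) := Finset.even_sum _ fun i _ => hge i
    exact (show Even 4 from ⟨2, rfl⟩).add ((show Even 2 from ⟨1, rfl⟩).add h1)
  · rw [hprod]
    refine (Polynomial.natDegree_C_mul_le _ _).trans ((Polynomial.natDegree_prod_le _ _).trans ?_)
    exact Finset.sum_le_sum fun i _ => (fam2_deg g hg1 i).1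
  · rw [hprod, hom_C_mul, hom_prod _ _ _ fun i _ => (fam2_deg g hg1 i).1]
  · refine bad_exists (fam2 g) hc fun i j hij => ⟨hcop i j hij, ?_⟩
    by_cases hi : i = Sum.inl 3
    · right
      refine fam2_coeff g hg1 j fun hj => hij ?_
      rw [hi, hj]
    · left
      exact fam2_coeff g hg1 i hi
  · obtain ⟨a, ha⟩ := hge i
    have := hg1 i
    omega

end Pool.Agent.QTW
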