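import Pool.Agent.QTW.Fam2
import Pool.Agent.QTW.Frm

/-!
# QTW-TPt: tuples coming from points satisfy `N2`

The forms `X`, `X - Z`, `X + Z`, `Z`, `X ^ 2 + Z ^ 2` have nonzero values at a point, and the two conditions in
`Sq` contradict Fermat's theorem (`frm1`, `frm2`).
-/

set_option autoImplicit false

namespace Pool.Agent.QTW

open Finset

private theorem sqm {a b v : ℤ} (h : IsSquare (a * b)) : IsSquare (a * v ^ 2 * b) := by
  obtain ⟨t, ht⟩ := h
  refine ⟨t * v, ?_⟩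
  have : a * v ^ 2 * b = a * b * v ^ 2 := by ring
  rw [this, ht]
  ring

private theorem sqm2 {a b c v w : ℤ} (h : IsSquare (a * b * c)) : IsSquare (a * v ^ 2 * (b * w ^ 2) * c) := by
  obtain ⟨t, ht⟩ := h
  refine ⟨t * (v * w), ?_⟩
  have : a * v ^ 2 * (b * w ^ 2) * c = a * b * c * (v * w) ^ 2 := by ring
  rw [this, ht]
  ring

theorem tpt {r : ℕ} {g : Fin r → Polynomial ℤ} {P : ℕ} (hP : P ≠ 0) {d X Z : ℤ} {u : I2 r → ℤ}
    {D : I2 r → ℕ} {v : I2 r → ℤ} {d₀ : ℤ} (h : PData (fam2 g) P d X Z u D v d₀)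
    (K : Finset (I2 r)) : N2 u K (sm K D) := by
  have hu : ∀ l, u l ≠ 0 := by
    intro l hl
    have := h.udvd l
    rw [hl, zero_dvd_iff] at this
    exact hP (by exact_mod_cast this)
  have hD : ∀ l, (D l : ℤ) ≠ 0 := fun l => by exact_mod_cast (h.sf l).1.ne_zero
  have hval : ∀ l, hom ((fam2 g).f l) ((fam2 g).n l) X Z ≠ 0 := by
    intro l
    rw [h.fac l]
    exact mul_ne_zero (mul_ne_zero (hu l) (hD l)) (pow_ne_zero 2 (h.v0 l))
  have e0 : hom ((fam2 g).f (Sum.inl 0)) ((fam2 g).n (Sum.inl 0)) X Z = X := by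
    simp [fam2, lin, hom, Finset.sum_range_succ]
  have e1 : hom ((fam2 g).f (Sum.inl 1)) ((fam2 g).n (Sum.inl 1)) X Z = X - Z := by
    simp [fam2, lin, hom, Finset.sum_range_succ, Polynomial.coeff_one]
    ring
  have e2 : hom ((fam2 g).f (Sum.inl 2)) ((fam2 g).n (Sum.inl 2)) X Z = X + Z := by
    simp [fam2, lin, hom, Finset.sum_range_succ, Polynomial.coeff_one]
    ring
  have e3 : hom ((fam2 g).f (Sum.inl 3)) ((fam2 g).n (Sum.inl 3)) X Z = Z := by
    simp [fam2, lin, hom, Finset.sum_range_succ, Polynomial.coeff_one]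
  have e4 : hom ((fam2 g).f (Sum.inr none)) ((fam2 g).n (Sum.inr none)) X Z = X ^ 2 + Z ^ 2 := by
    simp [fam2, hom, Finset.sum_range_succ, Polynomial.coeff_one, Polynomial.coeff_X_pow]
    ring
  have hX : X ≠ 0 := e0 ▸ hval (Sum.inl 0)
  have hXZ : X - Z ≠ 0 := e1 ▸ hval (Sum.inl 1)
  have hXZ' : X + Z ≠ 0 := e2 ▸ hval (Sum.inl 2)
  have hZ : Z ≠ 0 := e3 ▸ hval (Sum.inl 3)
  intro k hk hSq
  obtain ⟨s1, s2⟩ := hSq
  have n4 : (Sum.inr none : I2 r) ∉ K := by rw [hk]; simp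
  have na : (Sum.inl (pa k) : I2 r) ∉ K := by
    rw [hk, Finset.mem_singleton]
    intro e
    have := Sum.inl_injective e
    revert this
    fin_cases k <;> decide
  have nb : (Sum.inl (pb k) : I2 r) ∉ K := by
    rw [hk, Finset.mem_singleton]
    intro e
    have := Sum.inl_injective e
    revert this
    fin_cases k <;> decide
  have t1 := s1 n4
  have t2 := s2 na nb
  have m4 : sm K D (Sum.inr none) = D (Sum.inr none) := by unfold sm; rw [if_neg n4]
  have ma : sm K D (Sum.inl (pa k)) = D (Sum.inl (pa k)) := by unfold sm; rw [if_neg na]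
  have mb : sm K D (Sum.inl (pb k)) = D (Sum.inl (pb k)) := by unfold sm; rw [if_neg nb]
  rw [m4] at t1
  rw [ma, mb] at t2
  have r1 := sqm (v := v (Sum.inr none)) t1
  have r2 := sqm2 (v := v (Sum.inl (pa k))) (w := v (Sum.inl (pb k))) t2
  rw [← h.fac, e4] at r1
  rw [← h.fac, ← h.fac] at r2
  fin_cases k
  · change IsSquare ((X ^ 2 + Z ^ 2) * 1) at r1
    change IsSquare (hom ((fam2 g).f (Sum.inl 1)) ((fam2 g).n (Sum.inl 1)) X Z *
      hom ((fam2 g).f (Sum.inl 2)) ((fam2 g).n (Sum.inl 2)) X Z * (-1)) at r2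
    rw [e1, e2] at r2
    rw [mul_one] at r1
    have : (X - Z) * (X + Z) * (-1) = Z ^ 2 - X ^ 2 := by ring
    rw [this] at r2
    exact frm1 hX hZ ⟨r2, r1⟩
  · change IsSquare ((X ^ 2 + Z ^ 2) * 2) at r1
    change IsSquare (hom ((fam2 g).f (Sum.inl 0)) ((fam2 g).n (Sum.inl 0)) X Z *
      hom ((fam2 g).f (Sum.inl 3)) ((fam2 g).n (Sum.inl 3)) X Z * 1) at r2
    rw [e0, e3, mul_one] at r2
    rw [mul_comm] at r1
    exact hXZ (sub_eq_zero.2 (frm2 hX hZ h.cop r2 r1))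
  · change IsSquare ((X ^ 2 + Z ^ 2) * 2) at r1
    change IsSquare (hom ((fam2 g).f (Sum.inl 0)) ((fam2 g).n (Sum.inl 0)) X Z *
      hom ((fam2 g).f (Sum.inl 3)) ((fam2 g).n (Sum.inl 3)) X Z * (-1)) at r2
    rw [e0, e3] at r2
    have h1 : X * Z * (-1) = -X * Z := by ring
    have h2 : (X ^ 2 + Z ^ 2) * 2 = 2 * ((-X) ^ 2 + Z ^ 2) := by ring
    rw [h1] at r2
    rw [h2] at r1
    have h3 := frm2 (neg_ne_zero.2 hX) hZ h.cop.neg_left r2 r1
    exact hXZ' (by rw [← h3]; ring)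
  · change IsSquare ((X ^ 2 + Z ^ 2) * 1) at r1
    change IsSquare (hom ((fam2 g).f (Sum.inl 1)) ((fam2 g).n (Sum.inl 1)) X Z *
      hom ((fam2 g).f (Sum.inl 2)) ((fam2 g).n (Sum.inl 2)) X Z * 1) at r2
    rw [e1, e2, mul_one] at r2
    rw [mul_one, add_comm] at r1
    have : (X - Z) * (X + Z) = X ^ 2 - Z ^ 2 := by ring
    rw [this] at r2
    exact frm1 hZ hX ⟨r2, r1⟩

end Pool.Agent.QTW
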