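import Pool.Agent.QTW.Set1
import Pool.Agent.QTW.Set2
import Pool.Agent.QTW.AvA
import Pool.Agent.QTW.AvB
import Pool.Agent.QTW.TPt
import Pool.Agent.QTW.CT
import Pool.Agent.QTW.NfLe

/-!
# QTW: main theorem
-/

set_option autoImplicit false

namespace Pool.Agent.QTW

open Finset

theorem main1 (f : Polynomial ℤ) (hsep : (f.map (Int.castRingHom ℚ)).Separable)
    (heven : Even f.natDegree) (hroot : ∀ x : ℚ, (f.map (Int.castRingHom ℚ)).eval x ≠ 0)
    (hodd : Multiset.card ((UniqueFactorizationMonoid.normalizedFactors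
      (f.map (Int.castRingHom ℚ))).filter (fun q => Odd q.natDegree)) ≠ 2) :
    ∃ δ C : ℝ, 0 < δ ∧ 0 < C ∧ ∀ B : ℕ, 3 ≤ B → (Nf f B : ℝ) ≤ C * B / Real.log B ^ δ := by
  obtain ⟨r, g, c, S, ⟨P, hP⟩, hirr, hdeg, hcop, hcard⟩ := setup1 f hsep heven hroot
  refine nf_le S hP (fun _ _ _ => True) (fun _ _ _ _ _ _ _ _ _ _ => trivial) (fun u _ => ?_)
  refine ct (fam1 g) u P (fun _ _ => True) ?_
  exact av_a (fam1 g) hP hirr hdeg (fun _ => rfl) hcop S.even (by rw [← hcard] at hodd; exact hodd) u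

theorem main2 (h : Polynomial ℤ)
    (hsep : (((Polynomial.X ^ 5 - Polynomial.X) * h).map (Int.castRingHom ℚ)).Separable)
    (heven : ∀ q ∈ UniqueFactorizationMonoid.normalizedFactors (h.map (Int.castRingHom ℚ)),
      Even q.natDegree) :
    ∃ δ C : ℝ, 0 < δ ∧ 0 < C ∧ ∀ B : ℕ, 3 ≤ B →
      (Nf ((Polynomial.X ^ 5 - Polynomial.X) * h) B : ℝ) ≤ C * B / Real.log B ^ δ := by
  obtain ⟨r, g, c, S, ⟨P, hP⟩, hirr, _, hdeg, hcop⟩ := setup2 h hsep heven
  have hP0 : P ≠ 0 := by have := hP.1; omega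
  refine nf_le S hP N2 (fun d X Z u D v d₀ hd K _ => tpt hP0 hd K) (fun u hu => ?_)
  refine ct (fam2 g) u P (N2 u) ?_
  refine av_b hP hirr hdeg hcop u (fun i h0 => ?_)
  have h1 := hu i
  rw [h0, zero_dvd_iff] at h1
  exact hP0 (by exact_mod_cast h1)

end Pool.Agent.QTW
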