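import Pool.Agent.QTW.Defs

/-!
# QTW-Per: a Jacobi symbol sum over a top variable

For different odd squarefree `b`, `b'` the function `m ↦ (m / b) (m / b')` is periodic modulo
`b * b'` with mean value zero; so its partial sums are bounded by `b * b'`.
-/

set_option autoImplicit false

namespace Pool.Agent.QTW

open Finset

private lemma per_exists_prime {b b' : ℕ} (hb : Squarefree b) (hb' : Squarefree b')
    (hne : b ≠ b') : ∃ q : ℕ, q.Prime ∧ ((q ∣ b ∧ ¬ q ∣ b') ∨ (q ∣ b' ∧ ¬ q ∣ b)) := by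
  by_contra hcon
  push Not at hcon
  apply hne
  have h : b.primeFactors = b'.primeFactors := by
    ext q
    simp only [Nat.mem_primeFactors]
    constructor
    · rintro ⟨h1, h2, -⟩
      exact ⟨h1, (hcon q h1).1 h2, hb'.ne_zero⟩
    · rintro ⟨h1, h2, -⟩
      exact ⟨h1, (hcon q h1).2 h2, hb.ne_zero⟩
  rw [← Nat.prod_primeFactors_of_squarefree hb, h, Nat.prod_primeFactors_of_squarefree hb']

private lemma per_exists_g_aux {b b' q : ℕ} (hb : Squarefree b) (ob : Odd b) (hq : q.Prime)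
    (h1 : q ∣ b) (h2 : ¬ q ∣ b') : ∃ g : ℕ, jacobiSym (g : ℤ) (b * b') = -1 := by
  obtain ⟨c, rfl⟩ := h1
  have : Fact q.Prime := ⟨hq⟩
  have hcop : Nat.Coprime q (c * b') := by
    rw [hq.coprime_iff_not_dvd]
    intro hdvd
    rcases (hq.dvd_mul).1 hdvd with h | h
    · obtain ⟨e, rfl⟩ := h
      have h3 := hb q ⟨e, by ring⟩
      exact hq.one_lt.ne' (Nat.isUnit_iff.1 h3)
    · exact h2 h
  have hq2 : q ≠ 2 := by
    rintro rfl
    rcases ob with ⟨k, hk⟩
    omega
  have hchar : ringChar (ZMod q) ≠ 2 := by rwa [ZMod.ringChar_zmod_n]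
  obtain ⟨a, ha⟩ := FiniteField.exists_nonsquare hchar
  obtain ⟨g, hg1, hg2⟩ := Nat.chineseRemainder hcop a.val 1
  refine ⟨g, ?_⟩
  rw [mul_assoc, jacobiSym.mul_right' _ hq.ne_zero]
  swap
  · intro h0
    rw [h0, Nat.coprime_zero_right] at hcop
    exact hq.one_lt.ne' hcop
  have e1 : jacobiSym (g : ℤ) q = -1 := by
    rw [← jacobiSym.legendreSym.to_jacobiSym, legendreSym.eq_neg_one_iff]
    have : ((g : ℤ) : ZMod q) = a := by
      have h3 := (ZMod.natCast_eq_natCast_iff _ _ _).2 hg1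
      rw [ZMod.natCast_zmod_val] at h3
      simpa using h3
    rw [this]
    exact ha
  have e2 : jacobiSym (g : ℤ) (c * b') = 1 := by
    have h3 : ((g : ℤ)) % ((c * b' : ℕ) : ℤ) = 1 % ((c * b' : ℕ) : ℤ) := by
      have h4 : ((g % (c * b') : ℕ) : ℤ) = ((1 % (c * b') : ℕ) : ℤ) := by
        exact_mod_cast hg2
      push_cast at h4 ⊢
      exact h4
    rw [jacobiSym.mod_left, h3, ← jacobiSym.mod_left, jacobiSym.one_left]
  rw [e1, e2]
  norm_num

private lemma per_exists_g {b b' : ℕ} (hb : SF b) (hb' : SF b') (hne : b ≠ b') :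
    ∃ g : ℕ, jacobiSym (g : ℤ) (b * b') = -1 := by
  obtain ⟨q, hq, h | h⟩ := per_exists_prime hb.1 hb'.1 hne
  · exact per_exists_g_aux hb.1 hb.2 hq h.1 h.2
  · rw [mul_comm]
    exact per_exists_g_aux hb'.1 hb'.2 hq h.1 h.2

private lemma per_sum_range {n g : ℕ} (hn : 0 < n) (hg : jacobiSym (g : ℤ) n = -1) :
    ∑ m ∈ range n, jacobiSym (m : ℤ) n = 0 := by
  have hcop : Nat.Coprime n g := by
    have h1 : jacobiSym (g : ℤ) n ≠ 0 := by rw [hg]; norm_num
    by_contra hc
    refine h1 (jacobiSym.eq_zero_iff.2 ⟨hn.ne', fun h => hc ?_⟩)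
    rw [Int.gcd_natCast_natCast] at h
    rw [Nat.coprime_comm]
    exact h
  have hmaps : ∀ m ∈ range n, (g * m) % n ∈ range n := fun m _ => mem_range.2 (Nat.mod_lt _ hn)
  have hinj : Set.InjOn (fun m => (g * m) % n) (range n : Set ℕ) := by
    intro m hm m' hm' h
    have h3 : m ≡ m' [MOD n] := Nat.ModEq.cancel_left_of_coprime hcop h
    exact Nat.ModEq.eq_of_lt_of_lt h3 (mem_range.1 hm) (mem_range.1 hm')
  have himg : (range n).image (fun m => (g * m) % n) = range n := by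
    refine Finset.eq_of_subset_of_card_le ?_ ?_
    · intro x hx
      obtain ⟨m, hm, rfl⟩ := mem_image.1 hx
      exact hmaps m hm
    · rw [Finset.card_image_of_injOn hinj]
  have key : ∑ m ∈ range n, jacobiSym (m : ℤ) n
      = ∑ m ∈ range n, jacobiSym ((g * m : ℕ) : ℤ) n := by
    conv_lhs => rw [← himg]
    rw [Finset.sum_image hinj]
    refine Finset.sum_congr rfl fun m _ => ?_
    rw [jacobiSym.mod_left ((g * m : ℕ) : ℤ)]
    push_cast
    rfl
  have e2 : ∑ m ∈ range n, jacobiSym ((g * m : ℕ) : ℤ) n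
      = - ∑ m ∈ range n, jacobiSym (m : ℤ) n := by
    rw [← Finset.sum_neg_distrib]
    refine Finset.sum_congr rfl fun m _ => ?_
    push_cast
    rw [jacobiSym.mul_left, hg]
    ring
  rw [e2] at key
  omega

private lemma per_shift {n : ℕ} {f : ℕ → ℤ} (hper : ∀ m, f (m + n) = f m)
    (h0 : ∑ m ∈ range n, f m = 0) (a : ℕ) : ∑ m ∈ range n, f (a + m) = 0 := by
  induction a with
  | zero => simpa using h0
  | succ a ih =>
    have h1 := Finset.sum_range_succ (fun m => f (a + m)) n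
    have h2 := Finset.sum_range_succ' (fun m => f (a + m)) n
    rw [h1, ih] at h2
    have h3 : ∑ m ∈ range n, f (a + (m + 1)) = ∑ m ∈ range n, f (a + 1 + m) :=
      Finset.sum_congr rfl fun m _ => by congr 1; ring
    rw [h3, hper a] at h2
    simp only [add_zero, zero_add] at h2
    omega

private lemma per_bound {n : ℕ} {f : ℕ → ℤ} (hn : 0 < n) (hper : ∀ m, f (m + n) = f m)
    (h0 : ∑ m ∈ range n, f m = 0) (hf : ∀ m, |f m| ≤ 1) (M : ℕ) :
    |∑ m ∈ range M, f (1 + m)| ≤ n := by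
  induction M using Nat.strong_induction_on with
  | _ M ih =>
    rcases lt_or_ge M n with h | h
    · calc |∑ m ∈ range M, f (1 + m)| ≤ ∑ m ∈ range M, |f (1 + m)| :=
            Finset.abs_sum_le_sum_abs _ _
        _ ≤ ∑ m ∈ range M, (1 : ℤ) := Finset.sum_le_sum fun m _ => hf _
        _ = M := by simp
        _ ≤ n := by exact_mod_cast h.le
    · obtain ⟨k, rfl⟩ := Nat.exists_eq_add_of_le' h
      rw [Finset.sum_range_add]
      have h1 : ∑ x ∈ range n, f (1 + (k + x)) = 0 := by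
        have h2 := per_shift hper h0 (1 + k)
        rw [← h2]
        exact Finset.sum_congr rfl fun m _ => by congr 1; ring
      rw [h1, add_zero]
      exact ih k (by omega)

theorem per {b b' : ℕ} (hb : SF b) (hb' : SF b') (hne : b ≠ b') (M : ℕ) :
    |∑ m ∈ Icc 1 M, J (m : ℤ) b * J (m : ℤ) b'| ≤ (b : ℝ) * b' := by
  have hb0 : b ≠ 0 := hb.1.ne_zero
  have hb0' : b' ≠ 0 := hb'.1.ne_zero
  obtain ⟨g, hg⟩ := per_exists_g hb hb' hne
  have hn : 0 < b * b' := by positivity
  have h0 := per_sum_range hn hg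
  have hper : ∀ m : ℕ, jacobiSym ((m + b * b' : ℕ) : ℤ) (b * b')
      = jacobiSym (m : ℤ) (b * b') := by
    intro m
    apply jacobiSym.mod_left'
    push_cast
    exact Int.add_emod_right _ _
  have hf : ∀ m : ℕ, |jacobiSym (m : ℤ) (b * b')| ≤ 1 := by
    intro m
    rcases jacobiSym.trichotomy (m : ℤ) (b * b') with h | h | h <;> rw [h] <;> norm_num
  have h1 := per_bound (f := fun m => jacobiSym (m : ℤ) (b * b')) hn hper h0 hf M
  have h2 : ∑ m ∈ Icc 1 M, J (m : ℤ) b * J (m : ℤ) b'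
      = ((∑ m ∈ range M, jacobiSym ((1 + m : ℕ) : ℤ) (b * b') : ℤ) : ℝ) := by
    push_cast
    refine (Finset.sum_bij (fun m _ => 1 + m) ?_ ?_ ?_ ?_).symm
    · intro m hm
      have := mem_range.1 hm
      exact mem_Icc.2 ⟨by omega, by omega⟩
    · intro m _ m' _ h
      omega
    · intro m hm
      have := mem_Icc.1 hm
      exact ⟨m - 1, mem_range.2 (by omega), by omega⟩
    · intro m _
      rw [jacobiSym.mul_right' _ hb0 hb0', J, J]
      push_cast
      rfl
  rw [h2]
  have h3 : (|((∑ m ∈ range M, jacobiSym ((1 + m : ℕ) : ℤ) (b * b') : ℤ) : ℝ)|)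
      = ((|∑ m ∈ range M, jacobiSym ((1 + m : ℕ) : ℤ) (b * b')| : ℤ) : ℝ) := by
    rw [Int.cast_abs]
  rw [h3]
  exact_mod_cast h1

end Pool.Agent.QTW
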