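import Pool.Agent.QTW.Rep

/-!
# QTW-Pt: from a point of a twist to a tuple

A point `x = X / Z` of the twist gives `c ∏ F_i(X, Z) = d m²`. The `F_i(X, Z)` are written as `u_i D_i v_i²`, `u_i`
the part with primes dividing `P`, `D_i` squarefree and prime to `P`.
-/

set_option autoImplicit false

namespace Pool.Agent.QTW

open Finset

variable {I : Type} [Fintype I] [DecidableEq I]

private theorem sqf_dvd {n m : ℕ} (hn : Squarefree n)
    (h : ∀ p : ℕ, p.Prime → p ∣ n → p ∣ m) : n ∣ m := by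
  rw [← Nat.prod_primeFactors_of_squarefree hn]
  refine Finset.prod_primes_dvd m (fun p hp => (Nat.prime_of_mem_primeFactors hp).prime)
    (fun p hp => h p (Nat.prime_of_mem_primeFactors hp) (Nat.dvd_of_mem_primeFactors hp))

/-- the square is an integer -/
private theorem int_sq {d H : ℤ} (hd : Squarefree d) {w : ℚ} (h : (d : ℚ) * w ^ 2 = H) :
    H = d * w.num ^ 2 := by
  have h1 : (d : ℚ) * (w.num : ℚ) ^ 2 = (H : ℚ) * ((w.den : ℤ) : ℚ) ^ 2 := by
    have h2 : (w.den : ℚ) ≠ 0 := Nat.cast_ne_zero.2 w.den_nz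
    have h3 : w * (w.den : ℚ) = w.num := Rat.mul_den_eq_num w
    rw [← h3, ← h]
    push_cast
    ring
  have h2 : d * w.num ^ 2 = H * (w.den : ℤ) ^ 2 := by exact_mod_cast h1
  have hco : IsCoprime ((w.den : ℤ)) (w.num) := by
    rw [Int.isCoprime_iff_gcd_eq_one, Int.gcd_comm]
    exact w.reduced
  have h3 : (w.den : ℤ) * (w.den : ℤ) ∣ d := by
    have h4 : IsCoprime ((w.den : ℤ) ^ 2) (w.num ^ 2) := hco.pow
    rw [← sq]
    exact h4.dvd_of_dvd_mul_right ⟨H, by rw [h2]; ring⟩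
  have h4 : IsUnit (w.den : ℤ) := hd _ h3
  have h5 : w.den = 1 := by
    have := Int.isUnit_iff_natAbs_eq.1 h4
    simpa using this
  rw [h5] at h2
  rw [h2]
  norm_num

private theorem qc_one {p : ℕ} (hp : p.Prime) : qc p 1 = 1 := by
  have h := qc_int hp 1
  rwa [Int.cast_one, jacobiSym.one_left] at h

private theorem qc_pow {p : ℕ} (hp : p.Prime) (a : ZMod p) (n : ℕ) : qc p (a ^ n) = qc p a ^ n := by
  induction n with
  | zero => rw [pow_zero, pow_zero, qc_one hp]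
  | succ n ih => rw [pow_succ, pow_succ, qc_mul hp, ih]

/-- splitting of a nonzero integer -/
private theorem split {P : ℕ} (F : ℤ) (hF : F ≠ 0) : ∃ (u : ℤ) (D : ℕ) (v : ℤ),
    F = u * (D : ℤ) * v ^ 2 ∧ v ≠ 0 ∧ u ∣ (P : ℤ) ∧ Squarefree D ∧ Nat.Coprime D P := by
  obtain ⟨a, b, hab, ha⟩ := Nat.sq_mul_squarefree F.natAbs
  have hF0 : F.natAbs ≠ 0 := Int.natAbs_ne_zero.2 hF
  have hb : b ≠ 0 := by
    rintro rfl
    apply hF0
    rw [← hab]
    simp
  have ha0 : a ≠ 0 := ha.ne_zero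
  obtain ⟨D, hD⟩ := Nat.gcd_dvd_left a P
  have hDa : D ∣ a := ⟨a.gcd P, by rw [mul_comm]; exact hD⟩
  have hcop : Nat.Coprime D P := by
    rw [Nat.coprime_iff_gcd_eq_one]
    by_contra hne
    obtain ⟨p, hp, hpd⟩ := Nat.exists_prime_and_dvd hne
    have h1 : p ∣ D := hpd.trans (Nat.gcd_dvd_left _ _)
    have h2 : p ∣ P := hpd.trans (Nat.gcd_dvd_right _ _)
    have h3 : p ∣ a.gcd P := Nat.dvd_gcd (h1.trans hDa) h2
    have h4 : p * p ∣ a := by
      rw [hD]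
      exact mul_dvd_mul h3 h1
    exact hp.one_lt.ne' (Nat.isUnit_iff.1 (ha p h4))
  refine ⟨F.sign * ((a.gcd P : ℕ) : ℤ), D, (b : ℤ), ?_, ?_, ?_, ha.squarefree_of_dvd hDa, hcop⟩
  · conv_lhs => rw [← Int.sign_mul_natAbs F, ← hab]
    rw [show ((b ^ 2 * a : ℕ) : ℤ) = (b : ℤ) ^ 2 * ((a.gcd P * D : ℕ) : ℤ) by
      rw [← hD]; push_cast; ring]
    push_cast
    ring
  · exact_mod_cast hb
  · have h1 : ((a.gcd P : ℕ) : ℤ) ∣ (P : ℤ) := Int.natCast_dvd_natCast.2 (Nat.gcd_dvd_right _ _)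
    have h2 : IsUnit F.sign := by
      rcases lt_or_gt_of_ne hF with h | h
      · rw [Int.sign_eq_neg_one_of_neg h]
        exact isUnit_one.neg
      · rw [Int.sign_eq_one_of_pos h]
        exact isUnit_one
    exact h2.mul_left_dvd.2 h1

private theorem fac_eq {p : ℕ} (hp : p.Prime) {A E V d m : ℕ} (h : A * E * V ^ 2 = d * m ^ 2)
    (hA : ¬ p ∣ A) (hE : Squarefree E) (hd : Squarefree d) (hV : V ≠ 0) (hm : m ≠ 0) :
    p ∣ E ↔ p ∣ d := by
  have hA0 : A ≠ 0 := fun h0 => hA (by rw [h0]; exact dvd_zero p)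
  have hE0 := hE.ne_zero
  have hd0 := hd.ne_zero
  have h1 : (A * E * V ^ 2).factorization p = (d * m ^ 2).factorization p := by rw [h]
  rw [Nat.factorization_mul (mul_ne_zero hA0 hE0) (pow_ne_zero 2 hV),
    Nat.factorization_mul hA0 hE0, Nat.factorization_mul hd0 (pow_ne_zero 2 hm),
    Nat.factorization_pow, Nat.factorization_pow] at h1
  simp only [Finsupp.coe_add, Pi.add_apply, Finsupp.coe_smul, Pi.smul_apply, smul_eq_mul,
    Nat.factorization_eq_zero_of_not_dvd hA] at h1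
  have h2 : E.factorization p ≤ 1 := hE.natFactorization_le_one p
  have h3 : d.factorization p ≤ 1 := hd.natFactorization_le_one p
  have h4 : E.factorization p = d.factorization p := by omega
  rw [hp.dvd_iff_one_le_factorization hE0, hp.dvd_iff_one_le_factorization hd0, h4]

omit [Fintype I] in
private theorem sqf_prod (s : Finset I) {D : I → ℕ} (hD : ∀ i, Squarefree (D i))
    (hc : ∀ i j, i ≠ j → Nat.Coprime (D i) (D j)) : Squarefree (∏ i ∈ s, D i) := by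
  induction s using Finset.induction_on with
  | empty => rw [Finset.prod_empty]; exact squarefree_one
  | insert a s ha ih =>
    rw [Finset.prod_insert ha, Nat.squarefree_mul
      (Nat.Coprime.prod_right fun j hj => hc a j fun h => ha (h ▸ hj))]
    exact ⟨hD a, ih⟩

theorem pt {f : Polynomial ℤ} {F : Fam I} {c : ℤ} {P : ℕ} (S : Setup f F c) (hP : Bad F c P)
    {d : ℤ} (hd : Squarefree d) {x y : ℚ} (hy : y ≠ 0)
    (h : (d : ℚ) * y ^ 2 = (f.map (Int.castRingHom ℚ)).eval x) :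
    ∃ (X Z : ℤ) (u : I → ℤ) (D : I → ℕ) (v : I → ℤ) (d₀ : ℤ), PData F P d X Z u D v d₀ := by
  obtain ⟨M, hM⟩ := S.even
  have hZ0 : (x.den : ℤ) ≠ 0 := by exact_mod_cast x.den_nz
  have hcop : IsCoprime x.num (x.den : ℤ) := by
    rw [Int.isCoprime_iff_gcd_eq_one]
    exact x.reduced
  -- the equation in integers
  have e1 := hom_eval f (∑ i, F.n i) S.deg x.num (x.den : ℤ) hZ0
  have e2 : ((x.num : ℤ) : ℚ) / ((x.den : ℤ) : ℚ) = x := by
    push_cast
    exact Rat.num_div_den x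
  have e3 : (d : ℚ) * (y * (x.den : ℚ) ^ M) ^ 2 =
      ((hom f (∑ i, F.n i) x.num (x.den : ℤ) : ℤ) : ℚ) := by
    rw [e1, e2, ← h, hM]
    push_cast
    ring
  have hw0 : y * (x.den : ℚ) ^ M ≠ 0 :=
    mul_ne_zero hy (pow_ne_zero M (Nat.cast_ne_zero.2 x.den_nz))
  have e4 := int_sq hd e3
  rw [S.prod] at e4
  set m : ℤ := (y * (x.den : ℚ) ^ M).num with hm
  have hm0 : m ≠ 0 := Rat.num_ne_zero.2 hw0
  have hd0 : d ≠ 0 := hd.ne_zero
  have hF0 : ∀ i, hom (F.f i) (F.n i) x.num (x.den : ℤ) ≠ 0 := by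
    intro i hi
    apply mul_ne_zero hd0 (pow_ne_zero 2 hm0)
    rw [← e4, Finset.prod_eq_zero (mem_univ i) hi, mul_zero]
  have hsp := fun i => split (P := P) _ (hF0 i)
  choose u D v hfac hv0 hu hDs hDP using hsp
  have hpP : ∀ i, ∀ p : ℕ, p.Prime → p ∣ D i → ¬ p ∣ P := by
    intro i p hp h1 h2
    exact Nat.not_coprime_of_dvd_of_dvd hp.one_lt h1 h2 (hDP i)
  -- reduction modulo `p`
  have hz : ∀ i, ∀ p : ℕ, p.Prime → p ∣ D i → ∀ (r : Option (ZMod p)) (σ : ZMod p), σ ≠ 0 →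
      (∀ (g : Polynomial ℤ) (n : ℕ), g.natDegree ≤ n →
        ((hom g n x.num (x.den : ℤ) : ℤ) : ZMod p) = ev p g n r * σ ^ n) →
      ev p (F.f i) (F.n i) r = 0 := by
    intro i p hp hpi r σ hσ hr
    haveI := Fact.mk hp
    have h1 := hr (F.f i) (F.n i) (S.hn i).1
    have h2 : ((hom (F.f i) (F.n i) x.num (x.den : ℤ) : ℤ) : ZMod p) = 0 := by
      rw [hfac i]
      push_cast
      rw [(ZMod.natCast_eq_zero_iff (D i) p).2 hpi]
      ring
    rw [h2] at h1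
    rcases mul_eq_zero.1 h1.symm with h3 | h3
    · exact h3
    · exact absurd h3 (pow_ne_zero _ hσ)
  have hDcop : ∀ i j, i ≠ j → Nat.Coprime (D i) (D j) := by
    intro i j hij
    rw [Nat.coprime_iff_gcd_eq_one]
    by_contra hne
    obtain ⟨p, hp, hpd⟩ := Nat.exists_prime_and_dvd hne
    have h1 : p ∣ D i := hpd.trans (Nat.gcd_dvd_left _ _)
    have h2 : p ∣ D j := hpd.trans (Nat.gcd_dvd_right _ _)
    obtain ⟨r, σ, hσ, hr⟩ := rep hp hcop
    exact (hP.2 p hp (hpP i p hp h1)).2.2 i j hij r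
      ⟨hz i p hp h1 r σ hσ hr, hz j p hp h2 r σ hσ hr⟩
  have hodd : ∀ i, Odd (D i) := by
    intro i
    rw [← Nat.not_even_iff_odd]
    intro he
    have h2 : 2 ∣ D i := he.two_dvd
    exact (hP.2 2 Nat.prime_two (hpP i 2 Nat.prime_two h2)).1 rfl
  -- the squarefree parts
  have hEs : Squarefree (∏ i, D i) := sqf_prod univ hDs hDcop
  have hkey : (c * ∏ i, u i) * ((∏ i, D i : ℕ) : ℤ) * (∏ i, v i) ^ 2 = d * m ^ 2 := by
    rw [← e4, Finset.prod_congr rfl fun i _ => hfac i]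
    rw [Finset.prod_mul_distrib, Finset.prod_mul_distrib, Finset.prod_pow]
    push_cast
    ring
  have hkey' : (c * ∏ i, u i).natAbs * (∏ i, D i) * (∏ i, v i).natAbs ^ 2 =
      d.natAbs * m.natAbs ^ 2 := by
    have h1 := congrArg Int.natAbs hkey
    rw [Int.natAbs_mul, Int.natAbs_mul, Int.natAbs_pow, Int.natAbs_mul d, Int.natAbs_pow,
      Int.natAbs_natCast] at h1
    exact h1
  have hA : ∀ p : ℕ, p.Prime → ¬ p ∣ P → ¬ p ∣ (c * ∏ i, u i).natAbs := by
    intro p hp hpP' h1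
    have h2 : (p : ℤ) ∣ c * ∏ i, u i := Int.natCast_dvd.2 h1
    have hpi : Prime (p : ℤ) := Nat.prime_iff_prime_int.1 hp
    rcases hpi.dvd_or_dvd h2 with h3 | h3
    · exact (hP.2 p hp hpP').2.1 h3
    · obtain ⟨i, _, h4⟩ := (Prime.dvd_finsetProd_iff hpi _).1 h3
      exact hpP' (Int.natCast_dvd_natCast.1 (h4.trans (hu i)))
  have hds : Squarefree d.natAbs := Int.squarefree_natAbs.2 hd
  have hpd : ∀ p : ℕ, p.Prime → ¬ p ∣ P → (p ∣ (∏ i, D i) ↔ p ∣ d.natAbs) := by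
    intro p hp hpP'
    exact fac_eq hp hkey' (hA p hp hpP') hEs hds
      (Int.natAbs_ne_zero.2 (Finset.prod_ne_zero_iff.2 fun i _ => hv0 i))
      (Int.natAbs_ne_zero.2 hm0)
  have hEP : ∀ p : ℕ, p.Prime → p ∣ (∏ i, D i) → ¬ p ∣ P := by
    intro p hp h1
    obtain ⟨i, _, h2⟩ := (Prime.dvd_finsetProd_iff hp.prime _).1 h1
    exact hpP i p hp h2
  have hEd : (∏ i, D i) ∣ d.natAbs :=
    sqf_dvd hEs fun p hp h1 => (hpd p hp (hEP p hp h1)).1 h1
  obtain ⟨d₀, hd₀⟩ : ((∏ i, D i : ℕ) : ℤ) ∣ d := Int.natCast_dvd.2 hEd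
  have hd₀d : d₀.natAbs * (∏ i, D i) = d.natAbs := by
    have h1 := congrArg Int.natAbs hd₀
    rw [Int.natAbs_mul, Int.natAbs_natCast] at h1
    rw [h1, mul_comm]
  have hd₀P : d₀ ∣ (P : ℤ) := by
    rw [Int.dvd_natCast]
    refine sqf_dvd (hds.squarefree_of_dvd ⟨_, hd₀d.symm⟩) fun p hp h1 => ?_
    by_contra hpP'
    have h2 : p ∣ d.natAbs := by
      rw [← hd₀d]
      exact h1.mul_right _
    have h3 : p ∣ ∏ i, D i := (hpd p hp hpP').2 h2
    have h4 : p * p ∣ d.natAbs := by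
      rw [← hd₀d]
      exact mul_dvd_mul h1 h3
    exact hp.one_lt.ne' (Nat.isUnit_iff.1 (hds p h4))
  refine ⟨x.num, (x.den : ℤ), u, D, v, d₀, ⟨hcop, hfac, hv0, hu, fun i => ⟨hDs i, hodd i⟩, hDP,
    hDcop, hd₀P, ?_, ?_⟩⟩
  · conv_lhs => rw [hd₀]
    push_cast
    ring
  · intro k p hpk
    have hp := Nat.prime_of_mem_primeFactors hpk
    have hpD := Nat.dvd_of_mem_primeFactors hpk
    haveI := Fact.mk hp
    obtain ⟨r, σ, hσ, hr⟩ := rep hp hcop
    have hk0 := hz k p hp hpD r σ hσ hr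
    refine ⟨r, hk0, qc p σ, qc_sign hp hσ, fun l hl => ?_⟩
    have hl0 : ev p (F.f l) (F.n l) r ≠ 0 := fun h0 =>
      (hP.2 p hp (hpP k p hp hpD)).2.2 l k hl r ⟨h0, hk0⟩
    have h1 := hr (F.f l) (F.n l) (S.hn l).1
    have h2 : ((hom (F.f l) (F.n l) x.num (x.den : ℤ) : ℤ) : ZMod p) =
        ((u l * (D l : ℤ) : ℤ) : ZMod p) * ((v l : ℤ) : ZMod p) ^ 2 := by
      rw [hfac l]
      push_cast
      ring
    rw [h2] at h1
    have hv : ((v l : ℤ) : ZMod p) ≠ 0 := by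
      intro h0
      rw [h0] at h1
      have h3 : ev p (F.f l) (F.n l) r * σ ^ F.n l = 0 := by
        rw [← h1]
        ring
      rcases mul_eq_zero.1 h3 with h4 | h4
      · exact hl0 h4
      · exact pow_ne_zero _ hσ h4
    have h3 := congrArg (qc p) h1
    rw [qc_mul hp, qc_mul hp, qc_sq hp hv, mul_one, qc_int hp, qc_pow hp] at h3
    exact h3

end Pool.Agent.QTW
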