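import Pool.Agent.QTW.Per

/-!
# QTW-Quad: the quadratic form bound

Expand the square: the sum is `∑ b, ∑ b', β b * β b' * ∑ m, J m b * J m b'`. The diagonal contributes at most
`N * M`, the other terms at most `N ^ 4` by `per`.
-/

set_option autoImplicit false

namespace Pool.Agent.QTW

open Finset

theorem abs_J_le (a : ℤ) (n : ℕ) : |J a n| ≤ 1 := by
  unfold J
  rcases jacobiSym.trichotomy a n with h | h | h <;> rw [h] <;> simp

private theorem term_le (β : ℕ → ℝ) (hβ : Adm β) (N M b b' : ℕ) (hb : b ∈ Icc 1 N)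
    (hb' : b' ∈ Icc 1 N) :
    β b * β b' * ∑ m ∈ Icc 1 M, J (m : ℤ) b * J (m : ℤ) b' ≤
      (if b = b' then (M : ℝ) else 0) + (N : ℝ) ^ 2 := by
  have hN : (0 : ℝ) ≤ (N : ℝ) ^ 2 := by positivity
  have hβ1 : |β b * β b'| ≤ 1 := by
    rw [abs_mul]
    exact mul_le_one₀ (hβ b).1 (abs_nonneg _) (hβ b').1
  by_cases hbb : b = b'
  · rw [if_pos hbb]
    have h1 : |∑ m ∈ Icc 1 M, J (m : ℤ) b * J (m : ℤ) b'| ≤ M := by
      refine (abs_sum_le_sum_abs _ _).trans ?_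
      calc ∑ m ∈ Icc 1 M, |J (m : ℤ) b * J (m : ℤ) b'| ≤ ∑ m ∈ Icc 1 M, (1 : ℝ) := by
            refine sum_le_sum fun m _ => ?_
            rw [abs_mul]
            exact mul_le_one₀ (abs_J_le _ _) (abs_nonneg _) (abs_J_le _ _)
        _ = M := by simp
    have h2 : |β b * β b' * ∑ m ∈ Icc 1 M, J (m : ℤ) b * J (m : ℤ) b'| ≤ 1 * M := by
      rw [abs_mul]
      exact mul_le_mul hβ1 h1 (abs_nonneg _) zero_le_one
    have h3 := (abs_le.1 h2).2
    linarith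
  · rw [if_neg hbb, zero_add]
    by_cases h0 : β b * β b' = 0
    · rw [h0, zero_mul]; exact hN
    · have hb0 : β b ≠ 0 := left_ne_zero_of_mul h0
      have hb0' : β b' ≠ 0 := right_ne_zero_of_mul h0
      have h1 := per ((hβ b).2 hb0) ((hβ b').2 hb0') hbb M
      have h4 : (b : ℝ) * b' ≤ (N : ℝ) ^ 2 := by
        have a1 : (b : ℝ) ≤ N := by exact_mod_cast (mem_Icc.1 hb).2
        have a2 : (b' : ℝ) ≤ N := by exact_mod_cast (mem_Icc.1 hb').2
        rw [sq]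
        exact mul_le_mul a1 a2 (Nat.cast_nonneg _) (Nat.cast_nonneg _)
      have h2 : |β b * β b' * ∑ m ∈ Icc 1 M, J (m : ℤ) b * J (m : ℤ) b'| ≤ 1 * (N : ℝ) ^ 2 := by
        rw [abs_mul]
        exact mul_le_mul hβ1 (h1.trans h4) (abs_nonneg _) zero_le_one
      have h3 := (abs_le.1 h2).2
      linarith

theorem quad (β : ℕ → ℝ) (hβ : Adm β) (N M : ℕ) :
    ∑ m ∈ Icc 1 M, (∑ b ∈ Icc 1 N, β b * J (m : ℤ) b) ^ 2 ≤ (N : ℝ) * M + (N : ℝ) ^ 4 := by
  have e1 : ∑ m ∈ Icc 1 M, (∑ b ∈ Icc 1 N, β b * J (m : ℤ) b) ^ 2 =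
      ∑ b ∈ Icc 1 N, ∑ b' ∈ Icc 1 N,
        β b * β b' * ∑ m ∈ Icc 1 M, J (m : ℤ) b * J (m : ℤ) b' := by
    calc ∑ m ∈ Icc 1 M, (∑ b ∈ Icc 1 N, β b * J (m : ℤ) b) ^ 2
        = ∑ m ∈ Icc 1 M, ∑ b ∈ Icc 1 N, ∑ b' ∈ Icc 1 N,
          β b * β b' * (J (m : ℤ) b * J (m : ℤ) b') := by
          refine sum_congr rfl fun m _ => ?_
          rw [sq, sum_mul_sum]
          refine sum_congr rfl fun b _ => sum_congr rfl fun b' _ => ?_
          ring
      _ = ∑ b ∈ Icc 1 N, ∑ b' ∈ Icc 1 N, ∑ m ∈ Icc 1 M,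
          β b * β b' * (J (m : ℤ) b * J (m : ℤ) b') := by
          rw [sum_comm]
          refine sum_congr rfl fun b _ => ?_
          rw [sum_comm]
      _ = _ := by
          refine sum_congr rfl fun b _ => sum_congr rfl fun b' _ => ?_
          rw [mul_sum]
  rw [e1]
  calc ∑ b ∈ Icc 1 N, ∑ b' ∈ Icc 1 N,
        β b * β b' * ∑ m ∈ Icc 1 M, J (m : ℤ) b * J (m : ℤ) b'
      ≤ ∑ b ∈ Icc 1 N, ∑ b' ∈ Icc 1 N, ((if b = b' then (M : ℝ) else 0) + (N : ℝ) ^ 2) :=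
        sum_le_sum fun b hb => sum_le_sum fun b' hb' => term_le β hβ N M b b' hb hb'
    _ = (N : ℝ) * M + (N : ℝ) ^ 4 := by
        have h1 : ∀ b ∈ Icc 1 N, (∑ b' ∈ Icc 1 N, ((if b = b' then (M : ℝ) else 0) +
            (N : ℝ) ^ 2)) = M + (N : ℝ) * (N : ℝ) ^ 2 := by
          intro b hb
          rw [sum_add_distrib, sum_ite_eq, if_pos hb, sum_const, Nat.card_Icc, nsmul_eq_mul]
          simp
        rw [sum_congr rfl h1, sum_const, Nat.card_Icc, nsmul_eq_mul]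
        simp only [add_tsub_cancel_right]
        ring

end Pool.Agent.QTW
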