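import Pool.Agent.QTW.Defs

/-!
# QTW-Tau: the number of ordered factorisations is `O(m^ε)`

Every entry of such a tuple divides `m`, so the number is at most `(m.divisors.card) ^ k`; the divisor
bound is taken from Pool/Agent/Helper27/DivBound.lean (copied).
-/

set_option autoImplicit false

namespace Pool.Agent.QTW

open Finset

private theorem succ_pow_le (m : ℕ) (hm : 0 < m) (a : ℕ) : (a + 1) ^ m ≤ 2 * m ^ m * 2 ^ a := by
  have h1 : a + 1 ≤ m * ((a + 1) / m + 1) := (Nat.lt_mul_div_succ (a + 1) hm).le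
  have h2 : (a + 1) / m + 1 ≤ 2 ^ ((a + 1) / m) := Nat.lt_two_pow_self
  have h3 : a + 1 ≤ m * 2 ^ ((a + 1) / m) := h1.trans (Nat.mul_le_mul_left _ h2)
  calc (a + 1) ^ m ≤ (m * 2 ^ ((a + 1) / m)) ^ m := Nat.pow_le_pow_left h3 m
    _ = m ^ m * 2 ^ (((a + 1) / m) * m) := by rw [mul_pow, ← pow_mul]
    _ ≤ m ^ m * 2 ^ (a + 1) := by
        apply Nat.mul_le_mul_left
        exact Nat.pow_le_pow_right (by norm_num) (Nat.div_mul_le_self _ _)
    _ = 2 * m ^ m * 2 ^ a := by ring

private theorem card_divisors_pow_le (m : ℕ) (hm : 0 < m) (n : ℕ) (hn : 0 < n) :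
    n.divisors.card ^ m ≤
      (2 * m ^ m) ^ (n.primeFactors.filter (fun q => q < 2 ^ m)).card * n := by
  revert hn
  induction n using Nat.recOnPosPrimePosCoprime with
  | zero => intro h; exact absurd h (lt_irrefl 0)
  | one => intro _; simp
  | prime_pow q a hq ha =>
    intro _
    rw [Nat.divisors_prime_pow hq, Finset.card_map, Finset.card_range,
      Nat.primeFactors_prime_pow ha.ne' hq]
    by_cases h : q < 2 ^ m
    · rw [Finset.filter_singleton, if_pos h, Finset.card_singleton, pow_one]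
      refine (succ_pow_le m hm a).trans ?_
      gcongr
      exact hq.two_le
    · rw [Finset.filter_singleton, if_neg h, Finset.card_empty, pow_zero, one_mul]
      push Not at h
      calc (a + 1) ^ m ≤ (2 ^ a) ^ m := Nat.pow_le_pow_left Nat.lt_two_pow_self m
        _ = (2 ^ m) ^ a := by rw [← pow_mul, ← pow_mul, mul_comm]
        _ ≤ q ^ a := Nat.pow_le_pow_left h a
  | coprime a b ha hb hab iha ihb =>
    intro _
    have ha0 : 0 < a := by omega
    have hb0 : 0 < b := by omega
    have e1 : (a * b).divisors.card = a.divisors.card * b.divisors.card :=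
      hab.card_divisors_mul
    have e2 : (a * b).primeFactors = a.primeFactors ∪ b.primeFactors :=
      hab.primeFactors_mul
    have e3 : ((a * b).primeFactors.filter (fun q => q < 2 ^ m)).card =
        (a.primeFactors.filter (fun q => q < 2 ^ m)).card +
        (b.primeFactors.filter (fun q => q < 2 ^ m)).card := by
      rw [e2, Finset.filter_union, Finset.card_union_of_disjoint]
      exact Finset.disjoint_filter_filter hab.disjoint_primeFactors
    rw [e1, e3, mul_pow, pow_add]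
    calc a.divisors.card ^ m * b.divisors.card ^ m ≤
        ((2 * m ^ m) ^ (a.primeFactors.filter (fun q => q < 2 ^ m)).card * a) *
        ((2 * m ^ m) ^ (b.primeFactors.filter (fun q => q < 2 ^ m)).card * b) :=
          Nat.mul_le_mul (iha ha0) (ihb hb0)
      _ = _ := by ring

private theorem card_divisors_pow_le' (m : ℕ) (hm : 0 < m) (n : ℕ) (hn : 0 < n) :
    n.divisors.card ^ m ≤ (2 * m ^ m) ^ (2 ^ m) * n := by
  refine (card_divisors_pow_le m hm n hn).trans (Nat.mul_le_mul_right _ ?_)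
  apply Nat.pow_le_pow_right
  · have : 0 < m ^ m := pow_pos hm m
    omega
  · have h : n.primeFactors.filter (fun q => q < 2 ^ m) ⊆ Finset.range (2 ^ m) := by
      intro q hq
      exact Finset.mem_range.2 (Finset.mem_filter.1 hq).2
    exact (Finset.card_le_card h).trans (by rw [Finset.card_range])

/-- the ordered factorisations of `m` in `k` factors -/
def facs (k m : ℕ) : Finset (Fin k → ℕ) :=
  (Fintype.piFinset fun _ : Fin k => m.divisors).filter fun a => ∏ i, a i = m

theorem card_facs_le (k : ℕ) (ε : ℝ) (hε : 0 < ε) : ∃ C : ℝ, 0 < C ∧ ∀ m : ℕ, 1 ≤ m →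
    ((facs k m).card : ℝ) ≤ C * (m : ℝ) ^ ε := by
  obtain ⟨r, hr⟩ := exists_nat_gt ((k : ℝ) / ε)
  have hr0' : (0 : ℝ) < r := lt_of_le_of_lt (div_nonneg (Nat.cast_nonneg k) hε.le) hr
  have hr0 : 0 < r := by exact_mod_cast hr0'
  have hkr : (k : ℝ) / r ≤ ε := by
    rw [div_lt_iff₀ hε] at hr
    rw [div_le_iff₀ hr0']
    linarith
  have hkr0 : 0 ≤ (k : ℝ) / r := div_nonneg (Nat.cast_nonneg k) hr0'.le
  set K : ℝ := (((2 * r ^ r) ^ (2 ^ r) : ℕ) : ℝ) with hK
  have hK0 : 0 < K := by
    rw [hK]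
    have h : 0 < (2 * r ^ r) ^ (2 ^ r) := pow_pos (mul_pos (by norm_num) (pow_pos hr0 r)) _
    exact_mod_cast h
  refine ⟨K ^ ((k : ℝ) / r), Real.rpow_pos_of_pos hK0 _, fun m hm => ?_⟩
  have hm1 : (1 : ℝ) ≤ m := by exact_mod_cast hm
  have hm0 : (0 : ℝ) ≤ m := zero_le_one.trans hm1
  have h1 : (facs k m).card ≤ m.divisors.card ^ k := by
    unfold facs
    refine (Finset.card_filter_le _ _).trans ?_
    rw [Fintype.card_piFinset]
    simp
  have h2 := card_divisors_pow_le' r hr0 m hm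
  have h3 : ((m.divisors.card : ℝ)) ^ r ≤ K * m := by
    rw [hK]
    exact_mod_cast h2
  have h4 : ((m.divisors.card : ℝ)) ^ k = (((m.divisors.card : ℝ)) ^ r) ^ ((k : ℝ) / r) := by
    rw [← Real.rpow_natCast ((m.divisors.card : ℝ)) r, ← Real.rpow_mul (Nat.cast_nonneg _),
      mul_div_cancel₀ _ hr0'.ne', Real.rpow_natCast]
  calc ((facs k m).card : ℝ) ≤ ((m.divisors.card ^ k : ℕ) : ℝ) := by exact_mod_cast h1
    _ = (((m.divisors.card : ℝ)) ^ r) ^ ((k : ℝ) / r) := by rw [← h4]; push_cast; rfl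
    _ ≤ (K * m) ^ ((k : ℝ) / r) := Real.rpow_le_rpow (by positivity) h3 hkr0
    _ = K ^ ((k : ℝ) / r) * (m : ℝ) ^ ((k : ℝ) / r) := Real.mul_rpow hK0.le hm0
    _ ≤ K ^ ((k : ℝ) / r) * (m : ℝ) ^ ε :=
        mul_le_mul_of_nonneg_left (Real.rpow_le_rpow_of_exponent_le hm1 hkr)
          (Real.rpow_nonneg hK0.le _)

end Pool.Agent.QTW
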