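import Pool.Agent.QTW.Quad
import Pool.Agent.QTW.Tau

/-!
# QTW-RectB: the bilinear sum when the variables have comparable logarithms

Hölder amplification of the top variable (tenth power), Cauchy-Schwarz, the divisor bound and the quadratic form bound.
-/

set_option autoImplicit false

namespace Pool.Agent.QTW

open Finset

private theorem rb_Jprod {κ : Type} (s : Finset κ) (a : κ → ℕ) (b : ℕ) :
    ∏ i ∈ s, J (a i : ℤ) b = J ((∏ i ∈ s, a i : ℕ) : ℤ) b := by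
  classical
  induction s using Finset.induction_on with
  | empty => simp [J]
  | insert i s hi ih =>
    rw [Finset.prod_insert hi, Finset.prod_insert hi, ih]
    unfold J
    push_cast
    rw [jacobiSym.mul_left]
    push_cast
    rfl

/-- the coefficients of the amplified sum. -/
private noncomputable def rbA (α : ℕ → ℝ) (M m : ℕ) : ℝ :=
  ∑ p ∈ (Fintype.piFinset fun _ : Fin 10 => Ioc M (2 * M)).filter (fun p => ∏ i, p i = m), ∏ i, α (p i)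

private theorem rb_pow (α : ℕ → ℝ) (M b : ℕ) :
    (∑ a ∈ Ioc M (2 * M), α a * J (a : ℤ) b) ^ 10 =
      ∑ m ∈ Icc 1 ((2 * M) ^ 10), rbA α M m * J (m : ℤ) b := by
  rw [Finset.sum_pow']
  have hmap : ∀ p ∈ (Fintype.piFinset fun _ : Fin 10 => Ioc M (2 * M)),
      (∏ i, p i) ∈ Icc 1 ((2 * M) ^ 10) := by
    intro p hp
    rw [Fintype.mem_piFinset] at hp
    rw [mem_Icc]
    constructor
    · have : 0 < ∏ i, p i := Finset.prod_pos fun i _ => by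
        have := mem_Ioc.1 (hp i)
        omega
      omega
    · calc ∏ i, p i ≤ ∏ _i : Fin 10, 2 * M := Finset.prod_le_prod' fun i _ => (mem_Ioc.1 (hp i)).2
        _ = (2 * M) ^ 10 := by simp
  rw [← Finset.sum_fiberwise_of_maps_to hmap]
  refine Finset.sum_congr rfl fun m _ => ?_
  unfold rbA
  rw [Finset.sum_mul]
  refine Finset.sum_congr rfl fun p hp => ?_
  rw [Finset.prod_mul_distrib, rb_Jprod, (mem_filter.1 hp).2]

private theorem rb_A_le {α : ℕ → ℝ} (hα : Adm α) (M m : ℕ) (hm : 1 ≤ m) :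
    |rbA α M m| ≤ ((facs 10 m).card : ℝ) := by
  unfold rbA
  refine (Finset.abs_sum_le_sum_abs _ _).trans ?_
  have h1 : ∀ p ∈ (Fintype.piFinset fun _ : Fin 10 => Ioc M (2 * M)).filter (fun p => ∏ i, p i = m),
      |∏ i, α (p i)| ≤ 1 := by
    intro p _
    rw [Finset.abs_prod]
    exact Finset.prod_le_one (fun i _ => abs_nonneg _) (fun i _ => (hα _).1)
  refine (Finset.sum_le_sum h1).trans ?_
  rw [Finset.sum_const, nsmul_eq_mul, mul_one]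
  have h2 : (Fintype.piFinset fun _ : Fin 10 => Ioc M (2 * M)).filter (fun p => ∏ i, p i = m) ⊆
      facs 10 m := by
    intro p hp
    rw [mem_filter] at hp
    unfold facs
    rw [mem_filter, Fintype.mem_piFinset]
    refine ⟨fun i => ?_, hp.2⟩
    rw [Nat.mem_divisors]
    refine ⟨?_, by omega⟩
    rw [← hp.2]
    exact Finset.dvd_prod_of_mem _ (mem_univ i)
  exact_mod_cast Finset.card_le_card h2

private theorem rb_E {M N : ℕ} (hM : 1 ≤ M) (hN : 1 ≤ N) (h : M ≤ N ^ 3) :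
    ((((2 * M) ^ 10 : ℕ) : ℝ) ^ (1 / 120 : ℝ)) ^ 2 ≤ 2 * (N : ℝ) ^ (1 / 2 : ℝ) := by
  have hM0 : (0 : ℝ) < M := by exact_mod_cast hM
  have hN0 : (0 : ℝ) < N := by exact_mod_cast hN
  have h' : (M : ℝ) ≤ (N : ℝ) ^ 3 := by exact_mod_cast h
  have e1 : ((((2 * M) ^ 10 : ℕ) : ℝ) ^ (1 / 120 : ℝ)) ^ 2 = (2 * (M : ℝ)) ^ (1 / 6 : ℝ) := by
    push_cast
    rw [← Real.rpow_natCast (2 * (M : ℝ)) 10, ← Real.rpow_mul (by positivity), ← Real.rpow_natCast _ 2,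
      ← Real.rpow_mul (by positivity)]
    norm_num
  rw [e1]
  have e2 : (2 * (M : ℝ)) ^ (1 / 6 : ℝ) ≤ (2 * (N : ℝ) ^ 3) ^ (1 / 6 : ℝ) :=
    Real.rpow_le_rpow (by positivity) (by linarith) (by norm_num)
  refine e2.trans ?_
  rw [Real.mul_rpow (by norm_num) (by positivity)]
  have e3 : ((N : ℝ) ^ 3) ^ (1 / 6 : ℝ) = (N : ℝ) ^ (1 / 2 : ℝ) := by
    rw [← Real.rpow_natCast (N : ℝ) 3, ← Real.rpow_mul hN0.le]
    norm_num
  rw [e3]
  refine mul_le_mul_of_nonneg_right ?_ (by positivity)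
  have e4 : (2 : ℝ) ^ (1 / 6 : ℝ) ≤ 2 ^ (1 : ℝ) :=
    Real.rpow_le_rpow_of_exponent_le (by norm_num) (by norm_num)
  rwa [Real.rpow_one] at e4

theorem rectB : ∃ C : ℝ, 0 < C ∧ ∀ M N : ℕ, 1 ≤ M → 1 ≤ N → N ≤ M ^ 3 → M ≤ N ^ 3 →
    ∀ α β : ℕ → ℝ, Adm α → Adm β →
    |∑ a ∈ Ioc M (2 * M), ∑ b ∈ Ioc N (2 * N), α a * β b * J (a : ℤ) b| ≤
      C * M * N * (N : ℝ) ^ (-(1 / 40) : ℝ) := by
  classical
  obtain ⟨C, hC, hfac⟩ := card_facs_le 10 (1 / 120) (by norm_num)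
  refine ⟨4 * (C + 1), by positivity, ?_⟩
  intro M N hM hN hNM hMN α β hα hβ
  have hM0 : (0 : ℝ) < M := by exact_mod_cast hM
  have hN0 : (0 : ℝ) < N := by exact_mod_cast hN
  obtain ⟨S, hS⟩ : ∃ S : ℕ → ℝ, S = fun b => ∑ a ∈ Ioc M (2 * M), α a * J (a : ℤ) b := ⟨_, rfl⟩
  obtain ⟨B, hB⟩ : ∃ B : Finset ℕ, B = (Ioc N (2 * N)).filter SF := ⟨_, rfl⟩
  have hBcard : (B.card : ℝ) ≤ N := by
    have h1 : B.card ≤ (Ioc N (2 * N)).card := by rw [hB]; exact Finset.card_filter_le _ _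
    rw [Nat.card_Ioc] at h1
    have h2 : B.card ≤ N := by omega
    exact_mod_cast h2
  -- first step
  have step1 : |∑ a ∈ Ioc M (2 * M), ∑ b ∈ Ioc N (2 * N), α a * β b * J (a : ℤ) b| ≤ ∑ b ∈ B, |S b| := by
    rw [Finset.sum_comm]
    have h1 : ∀ b ∈ Ioc N (2 * N), ∑ a ∈ Ioc M (2 * M), α a * β b * J (a : ℤ) b = β b * S b := by
      intro b _
      rw [hS, Finset.mul_sum]
      refine Finset.sum_congr rfl fun a _ => ?_
      ring
    rw [Finset.sum_congr rfl h1]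
    refine (Finset.abs_sum_le_sum_abs _ _).trans ?_
    rw [hB, Finset.sum_filter]
    refine Finset.sum_le_sum fun b _ => ?_
    split_ifs with hb
    · rw [abs_mul]
      have := mul_le_mul_of_nonneg_right (hβ b).1 (abs_nonneg (S b))
      linarith
    · have : β b = 0 := by
        by_contra hb'
        exact hb ((hβ b).2 hb')
      rw [this, zero_mul, abs_zero]
  obtain ⟨X, hX⟩ : ∃ X : ℝ, X = ∑ b ∈ B, |S b| := ⟨_, rfl⟩
  have hX0 : 0 ≤ X := by rw [hX]; exact Finset.sum_nonneg fun b _ => abs_nonneg _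
  rw [← hX] at step1
  obtain ⟨T, hT⟩ : ∃ T : ℝ, T = ∑ b ∈ B, (S b) ^ 10 := ⟨_, rfl⟩
  have hT0 : 0 ≤ T := by
    rw [hT]
    exact Finset.sum_nonneg fun b _ => Even.pow_nonneg (by decide) _
  -- power mean
  have step2 : X ^ 10 ≤ (N : ℝ) ^ 9 * T := by
    have h1 := pow_sum_le_card_mul_sum_pow (s := B) (f := fun b => |S b|) (fun b _ => abs_nonneg _) 9
    have h2 : ∑ b ∈ B, |S b| ^ (9 + 1) = T := by
      rw [hT]
      refine Finset.sum_congr rfl fun b _ => ?_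
      exact Even.pow_abs (by decide) _
    rw [h2, ← hX] at h1
    refine h1.trans (mul_le_mul_of_nonneg_right ?_ hT0)
    exact pow_le_pow_left₀ (Nat.cast_nonneg _) hBcard 9
  -- amplification
  obtain ⟨M', hM'⟩ : ∃ M' : ℕ, M' = (2 * M) ^ 10 := ⟨_, rfl⟩
  have hM'1 : 1 ≤ M' := by rw [hM']; exact Nat.one_le_pow _ _ (by omega)
  have hM'0 : (0 : ℝ) < M' := by exact_mod_cast hM'1
  obtain ⟨E, hE⟩ : ∃ E : ℝ, E = (M' : ℝ) ^ (1 / 120 : ℝ) := ⟨_, rfl⟩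
  have hE0 : 0 ≤ E := by rw [hE]; positivity
  have hE2 : E ^ 2 ≤ 2 * (N : ℝ) ^ (1 / 2 : ℝ) := by rw [hE, hM']; exact rb_E hM hN hMN
  have step3 : T = ∑ m ∈ Icc 1 M', rbA α M m * ∑ b ∈ B, J (m : ℤ) b := by
    rw [hT]
    have h1 : ∀ b ∈ B, (S b) ^ 10 = ∑ m ∈ Icc 1 M', rbA α M m * J (m : ℤ) b := by
      intro b _
      rw [hS, hM']
      exact rb_pow α M b
    rw [Finset.sum_congr rfl h1, Finset.sum_comm]
    refine Finset.sum_congr rfl fun m _ => ?_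
    rw [Finset.mul_sum]
  have hA2 : ∑ m ∈ Icc 1 M', (rbA α M m) ^ 2 ≤ M' * (C * E) ^ 2 := by
    have h1 : ∀ m ∈ Icc 1 M', (rbA α M m) ^ 2 ≤ (C * E) ^ 2 := by
      intro m hm
      rw [mem_Icc] at hm
      rw [← sq_abs]
      refine pow_le_pow_left₀ (abs_nonneg _) ?_ 2
      refine (rb_A_le hα M m hm.1).trans ((hfac m hm.1).trans ?_)
      refine mul_le_mul_of_nonneg_left ?_ hC.le
      rw [hE]
      refine Real.rpow_le_rpow (Nat.cast_nonneg _) ?_ (by norm_num)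
      exact_mod_cast hm.2
    refine (Finset.sum_le_sum h1).trans (le_of_eq ?_)
    rw [Finset.sum_const, nsmul_eq_mul, Nat.card_Icc]
    congr 2
  have hB2 : ∑ m ∈ Icc 1 M', (∑ b ∈ B, J (m : ℤ) b) ^ 2 ≤ 4 * N * M' := by
    obtain ⟨β', hβ'⟩ : ∃ β' : ℕ → ℝ, β' = fun b => if b ∈ B then 1 else 0 := ⟨_, rfl⟩
    have hAdm : Adm β' := by
      intro b
      rw [hβ']
      simp only
      split_ifs with hb
      · refine ⟨by simp, fun _ => ?_⟩
        rw [hB, mem_filter] at hb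
        exact hb.2
      · exact ⟨by simp, fun h => absurd rfl h⟩
    have h1 : ∀ m ∈ Icc 1 M', (∑ b ∈ B, J (m : ℤ) b) ^ 2 =
        (∑ b ∈ Icc 1 (2 * N), β' b * J (m : ℤ) b) ^ 2 := by
      intro m _
      congr 1
      have h2 : B ⊆ Icc 1 (2 * N) := by
        intro b hb
        rw [hB, mem_filter, mem_Ioc] at hb
        rw [mem_Icc]
        omega
      rw [← Finset.sum_subset h2]
      · refine Finset.sum_congr rfl fun b hb => ?_
        rw [hβ']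
        simp [hb]
      · intro b _ hb
        rw [hβ']
        simp [hb]
    rw [Finset.sum_congr rfl h1]
    refine (quad β' hAdm (2 * N) M').trans ?_
    have h3 : (N : ℝ) ^ 3 ≤ (M : ℝ) ^ 9 := by
      have : N ^ 3 ≤ (M ^ 3) ^ 3 := Nat.pow_le_pow_left hNM 3
      have h4 : N ^ 3 ≤ M ^ 9 := by
        rw [← pow_mul] at this
        exact this
      exact_mod_cast h4
    have h4 : (M : ℝ) ^ 9 ≤ (M : ℝ) ^ 10 := pow_le_pow_right₀ (by exact_mod_cast hM) (by norm_num)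
    have h5 : (M' : ℝ) = 1024 * (M : ℝ) ^ 10 := by
      rw [hM']
      push_cast
      rw [mul_pow]
      norm_num
    have h6 : (2 * (N : ℝ)) ^ 4 = 16 * N * (N : ℝ) ^ 3 := by ring
    push_cast
    rw [h6]
    have h7 : (N : ℝ) ^ 3 ≤ M' / 1024 := by rw [h5]; linarith
    have h8 : 16 * (N : ℝ) * (N : ℝ) ^ 3 ≤ 16 * N * (M' / 1024) :=
      mul_le_mul_of_nonneg_left h7 (by positivity)
    nlinarith [mul_pos hN0 hM'0]
  have step4 : T ^ 2 ≤ (M' * (C * E) ^ 2) * (4 * N * M') := by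
    rw [step3]
    refine (sum_mul_sq_le_sq_mul_sq _ _ _).trans ?_
    exact mul_le_mul hA2 hB2 (Finset.sum_nonneg fun _ _ => sq_nonneg _) (by positivity)
  -- conclusion
  have hfin : X ≤ 4 * (C + 1) * M * N * (N : ℝ) ^ (-(1 / 40) : ℝ) := by
    refine le_of_pow_le_pow_left₀ (n := 20) (by norm_num) (by positivity) ?_
    have f1 : X ^ 20 ≤ (N : ℝ) ^ 18 * T ^ 2 := by
      have h1 : X ^ 20 = (X ^ 10) ^ 2 := by ring
      have h2 : (N : ℝ) ^ 18 * T ^ 2 = ((N : ℝ) ^ 9 * T) ^ 2 := by ring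
      rw [h1, h2]
      exact pow_le_pow_left₀ (by positivity) step2 2
    have hM'R : (M' : ℝ) = 2 ^ 10 * (M : ℝ) ^ 10 := by
      rw [hM']
      push_cast
      rw [mul_pow]
    have f2 : (N : ℝ) ^ 18 * T ^ 2 ≤ (N : ℝ) ^ 18 * ((M' * (C * E) ^ 2) * (4 * N * M')) :=
      mul_le_mul_of_nonneg_left step4 (by positivity)
    have f3 : (N : ℝ) ^ 18 * ((M' * (C * E) ^ 2) * (4 * N * M')) =
        4 * 2 ^ 20 * C ^ 2 * (M : ℝ) ^ 20 * (N : ℝ) ^ 19 * E ^ 2 := by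
      rw [hM'R]; ring
    have f4 : 4 * 2 ^ 20 * C ^ 2 * (M : ℝ) ^ 20 * (N : ℝ) ^ 19 * E ^ 2 ≤
        4 * 2 ^ 20 * C ^ 2 * (M : ℝ) ^ 20 * (N : ℝ) ^ 19 * (2 * (N : ℝ) ^ (1 / 2 : ℝ)) :=
      mul_le_mul_of_nonneg_left hE2 (by positivity)
    have f5 : (4 * (C + 1) * M * N * (N : ℝ) ^ (-(1 / 40) : ℝ)) ^ 20 =
        4 ^ 20 * (C + 1) ^ 20 * (M : ℝ) ^ 20 * (N : ℝ) ^ 19 * (N : ℝ) ^ (1 / 2 : ℝ) := by
      have g1 : ((N : ℝ) ^ (-(1 / 40) : ℝ)) ^ 20 = (N : ℝ) ^ (-(1 / 2) : ℝ) := by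
        rw [← Real.rpow_natCast _ 20, ← Real.rpow_mul hN0.le]
        norm_num
      have g2 : (N : ℝ) ^ (20 : ℕ) * (N : ℝ) ^ (-(1 / 2) : ℝ) = (N : ℝ) ^ 19 * (N : ℝ) ^ (1 / 2 : ℝ) := by
        rw [← Real.rpow_natCast _ 20, ← Real.rpow_natCast _ 19, ← Real.rpow_add hN0, ← Real.rpow_add hN0]
        norm_num
      calc (4 * (C + 1) * M * N * (N : ℝ) ^ (-(1 / 40) : ℝ)) ^ 20
          = 4 ^ 20 * (C + 1) ^ 20 * (M : ℝ) ^ 20 *
            ((N : ℝ) ^ (20 : ℕ) * ((N : ℝ) ^ (-(1 / 40) : ℝ)) ^ 20) := by ring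
        _ = _ := by rw [g1, g2]; ring
    rw [f5]
    refine f1.trans (f2.trans ?_)
    rw [f3]
    refine f4.trans ?_
    have f6 : C ^ 2 ≤ (C + 1) ^ 20 := by
      have g1 : C ^ 2 ≤ (C + 1) ^ 2 := pow_le_pow_left₀ hC.le (by linarith) 2
      have g2 : (C + 1) ^ 2 ≤ (C + 1) ^ 20 := pow_le_pow_right₀ (by linarith) (by norm_num)
      exact g1.trans g2
    have f7 : 4 * 2 ^ 20 * C ^ 2 * (M : ℝ) ^ 20 * (N : ℝ) ^ 19 * (2 * (N : ℝ) ^ (1 / 2 : ℝ)) =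
        (8 * 2 ^ 20 * C ^ 2) * ((M : ℝ) ^ 20 * (N : ℝ) ^ 19 * (N : ℝ) ^ (1 / 2 : ℝ)) := by ring
    have f8 : 4 ^ 20 * (C + 1) ^ 20 * (M : ℝ) ^ 20 * (N : ℝ) ^ 19 * (N : ℝ) ^ (1 / 2 : ℝ) =
        (4 ^ 20 * (C + 1) ^ 20) * ((M : ℝ) ^ 20 * (N : ℝ) ^ 19 * (N : ℝ) ^ (1 / 2 : ℝ)) := by ring
    rw [f7, f8]
    refine mul_le_mul_of_nonneg_right ?_ (by positivity)
    have f9 : (8 : ℝ) * 2 ^ 20 ≤ 4 ^ 20 := by norm_num
    exact mul_le_mul f9 f6 (by positivity) (by positivity)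
  exact step1.trans hfin

end Pool.Agent.QTW
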