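import Pool.Agent.QTW.RectA
import Pool.Agent.QTW.RectB

/-!
# QTW-Rect: the bilinear sum on dyadic rectangles

Three cases: `N ^ 3 ≤ M` (`rectA`), `M ^ 3 ≤ N` (`rectA` after quadratic reciprocity, which expresses `J a b` by
`J b a` and the character modulo `4`), and comparable logarithms (`rectB`).
-/

set_option autoImplicit false

namespace Pool.Agent.QTW

open Finset

/-- the character modulo 4 on odd numbers -/
private noncomputable def rcχ (n : ℕ) : ℝ := if n % 4 = 3 then -1 else 1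

private theorem rc_recip {a b : ℕ} (ha : Odd a) (hb : Odd b) :
    J (a : ℤ) b = (1 + rcχ a + rcχ b - rcχ a * rcχ b) / 2 * J (b : ℤ) a := by
  have h := jacobiSym.quadratic_reciprocity_if (Nat.odd_iff.mp ha) (Nat.odd_iff.mp hb)
  unfold J rcχ
  rw [← h]
  by_cases h1 : a % 4 = 3 <;> by_cases h2 : b % 4 = 3
  · simp only [h1, h2, and_self, if_true]
    push_cast
    ring
  · simp only [h1, h2, and_false, if_true, if_false]
    ring
  · simp only [h1, h2, false_and, if_true, if_false]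
    ring
  · simp only [h1, h2, and_self, if_false]
    ring

private theorem rc_adm {α : ℕ → ℝ} (h : Adm α) : Adm (fun n => α n * rcχ n) := by
  intro n
  refine ⟨?_, fun hn => (h n).2 (left_ne_zero_of_mul hn)⟩
  have h1 : |rcχ n| = 1 := by
    unfold rcχ
    split_ifs <;> simp
  rw [abs_mul, h1, mul_one]
  exact (h n).1

private theorem rc_term {α β : ℕ → ℝ} (hα : Adm α) (hβ : Adm β) (a b : ℕ) :
    α a * β b * J (a : ℤ) b = 1 / 2 * (β b * α a * J (b : ℤ) a + β b * (α a * rcχ a) * J (b : ℤ) a +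
      (β b * rcχ b) * α a * J (b : ℤ) a - (β b * rcχ b) * (α a * rcχ a) * J (b : ℤ) a) := by
  by_cases ha : α a = 0
  · rw [ha]
    ring
  · by_cases hb : β b = 0
    · rw [hb]
      ring
    · rw [rc_recip ((hα a).2 ha).2 ((hβ b).2 hb).2]
      ring

private theorem rc_swap {α β : ℕ → ℝ} (hα : Adm α) (hβ : Adm β) (M N : ℕ) {B : ℝ}
    (hB : ∀ α β : ℕ → ℝ, Adm α → Adm β →
      |∑ b ∈ Ioc N (2 * N), ∑ a ∈ Ioc M (2 * M), β b * α a * J (b : ℤ) a| ≤ B) :
    |∑ a ∈ Ioc M (2 * M), ∑ b ∈ Ioc N (2 * N), α a * β b * J (a : ℤ) b| ≤ 2 * B := by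
  have e : ∑ a ∈ Ioc M (2 * M), ∑ b ∈ Ioc N (2 * N), α a * β b * J (a : ℤ) b =
      1 / 2 * (∑ b ∈ Ioc N (2 * N), ∑ a ∈ Ioc M (2 * M), β b * α a * J (b : ℤ) a +
        ∑ b ∈ Ioc N (2 * N), ∑ a ∈ Ioc M (2 * M), β b * (α a * rcχ a) * J (b : ℤ) a +
        ∑ b ∈ Ioc N (2 * N), ∑ a ∈ Ioc M (2 * M), (β b * rcχ b) * α a * J (b : ℤ) a -
        ∑ b ∈ Ioc N (2 * N), ∑ a ∈ Ioc M (2 * M), (β b * rcχ b) * (α a * rcχ a) * J (b : ℤ) a) := by
    rw [Finset.sum_comm, ← Finset.sum_add_distrib, ← Finset.sum_add_distrib, ← Finset.sum_sub_distrib,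
      Finset.mul_sum]
    refine Finset.sum_congr rfl fun b _ => ?_
    rw [← Finset.sum_add_distrib, ← Finset.sum_add_distrib, ← Finset.sum_sub_distrib, Finset.mul_sum]
    refine Finset.sum_congr rfl fun a _ => ?_
    exact rc_term hα hβ a b
  rw [e, abs_le]
  have h1 := abs_le.mp (hB α β hα hβ)
  have h2 := abs_le.mp (hB (fun n => α n * rcχ n) β (rc_adm hα) hβ)
  have h3 := abs_le.mp (hB α (fun n => β n * rcχ n) hα (rc_adm hβ))
  have h4 := abs_le.mp (hB (fun n => α n * rcχ n) (fun n => β n * rcχ n) (rc_adm hα) (rc_adm hβ))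
  constructor <;> linarith [h1.1, h1.2, h2.1, h2.2, h3.1, h3.2, h4.1, h4.2]

theorem rect : ∃ C : ℝ, 0 < C ∧ ∀ M N : ℕ, 1 ≤ M → 1 ≤ N → ∀ α β : ℕ → ℝ, Adm α → Adm β →
    |∑ a ∈ Ioc M (2 * M), ∑ b ∈ Ioc N (2 * N), α a * β b * J (a : ℤ) b| ≤
      C * M * N * ((min M N : ℕ) : ℝ) ^ (-(1 / 40) : ℝ) := by
  obtain ⟨CA, hCA, hA⟩ := rectA
  obtain ⟨CB, hCB, hB⟩ := rectB
  refine ⟨2 * CA + CB, by positivity, ?_⟩
  intro M N hM hN α β hα hβ
  have hM1 : (1 : ℝ) ≤ M := by exact_mod_cast hM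
  have hN1 : (1 : ℝ) ≤ N := by exact_mod_cast hN
  have hM0 : (0 : ℝ) < M := by linarith
  have hN0 : (0 : ℝ) < N := by linarith
  by_cases h1 : N ^ 3 ≤ M
  · have hle : N ≤ M := (Nat.le_self_pow (by norm_num) N).trans h1
    rw [min_eq_right hle]
    refine (hA M N hM hN h1 α β hα hβ).trans ?_
    have h2 : (N : ℝ) ^ (-(1 / 2) : ℝ) ≤ (N : ℝ) ^ (-(1 / 40) : ℝ) :=
      Real.rpow_le_rpow_of_exponent_le hN1 (by norm_num)
    have h3 : CA * M * N ≤ (2 * CA + CB) * M * N := by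
      have : 0 < (M : ℝ) * N := by positivity
      nlinarith
    exact mul_le_mul h3 h2 (by positivity) (by positivity)
  · by_cases h2 : M ^ 3 ≤ N
    · have hle : M ≤ N := (Nat.le_self_pow (by norm_num) M).trans h2
      rw [min_eq_left hle]
      refine (rc_swap hα hβ M N (B := CA * N * M * (M : ℝ) ^ (-(1 / 2) : ℝ))
        fun α β hα hβ => hA N M hN hM h2 β α hβ hα).trans ?_
      have h3 : (M : ℝ) ^ (-(1 / 2) : ℝ) ≤ (M : ℝ) ^ (-(1 / 40) : ℝ) :=
        Real.rpow_le_rpow_of_exponent_le hM1 (by norm_num)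
      have h4 : 2 * (CA * N * M) ≤ (2 * CA + CB) * M * N := by
        have : 0 < (M : ℝ) * N := by positivity
        nlinarith
      calc 2 * (CA * N * M * (M : ℝ) ^ (-(1 / 2) : ℝ))
          = 2 * (CA * N * M) * (M : ℝ) ^ (-(1 / 2) : ℝ) := by ring
        _ ≤ (2 * CA + CB) * M * N * (M : ℝ) ^ (-(1 / 40) : ℝ) :=
          mul_le_mul h4 h3 (by positivity) (by positivity)
    · refine (hB M N hM hN (by omega) (by omega) α β hα hβ).trans ?_
      have hmin : (0 : ℝ) < ((min M N : ℕ) : ℝ) := by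
        have : 0 < min M N := by omega
        exact_mod_cast this
      have h3 : (N : ℝ) ^ (-(1 / 40) : ℝ) ≤ ((min M N : ℕ) : ℝ) ^ (-(1 / 40) : ℝ) :=
        Real.rpow_le_rpow_of_nonpos hmin (by exact_mod_cast min_le_right M N) (by norm_num)
      have h4 : CB * M * N ≤ (2 * CA + CB) * M * N := by
        have : 0 < (M : ℝ) * N := by positivity
        nlinarith
      exact mul_le_mul h4 h3 (by positivity) (by positivity)

end Pool.Agent.QTW
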