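import Pool.Agent.QTW.Quad

/-!
# QTW-RectA: the bilinear sum when the top variable is much longer than the bottom variable

Cauchy–Schwarz in the long variable and the quadratic form bound `quad`.
-/

set_option autoImplicit false

namespace Pool.Agent.QTW

open Finset

theorem rectA : ∃ C : ℝ, 0 < C ∧ ∀ M N : ℕ, 1 ≤ M → 1 ≤ N → N ^ 3 ≤ M →
    ∀ α β : ℕ → ℝ, Adm α → Adm β →
    |∑ a ∈ Ioc M (2 * M), ∑ b ∈ Ioc N (2 * N), α a * β b * J (a : ℤ) b| ≤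
      C * M * N * (N : ℝ) ^ (-(1 / 2) : ℝ) := by
  classical
  refine ⟨5, by norm_num, ?_⟩
  intro M N hM hN hNM α β hα hβ
  set β' : ℕ → ℝ := fun b => if b ∈ Ioc N (2 * N) then β b else 0 with hβ'
  have hβa : Adm β' := by
    intro b
    rw [hβ']
    by_cases hb : b ∈ Ioc N (2 * N)
    · simp only [if_pos hb]
      exact hβ b
    · simp only [if_neg hb]
      refine ⟨by simp, fun h => absurd rfl h⟩
  have hS : ∀ a : ℕ, ∑ b ∈ Icc 1 (2 * N), β' b * J (a : ℤ) b =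
      ∑ b ∈ Ioc N (2 * N), β b * J (a : ℤ) b := by
    intro a
    have hsub : Ioc N (2 * N) ⊆ Icc 1 (2 * N) := by
      intro b hb
      rw [mem_Ioc] at hb
      rw [mem_Icc]
      omega
    rw [← Finset.sum_subset hsub]
    · refine Finset.sum_congr rfl fun b hb => ?_
      rw [hβ']
      simp only [if_pos hb]
    · intro b _ hb
      rw [hβ']
      simp only [if_neg hb, zero_mul]
  have hq := quad β' hβa (2 * N) (2 * M)
  simp only [hS] at hq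
  have hsum : ∑ a ∈ Ioc M (2 * M), ∑ b ∈ Ioc N (2 * N), α a * β b * J (a : ℤ) b =
      ∑ a ∈ Ioc M (2 * M), α a * ∑ b ∈ Ioc N (2 * N), β b * J (a : ℤ) b := by
    refine Finset.sum_congr rfl fun a _ => ?_
    rw [Finset.mul_sum]
    refine Finset.sum_congr rfl fun b _ => ?_
    ring
  rw [hsum]
  have hcs := Finset.sum_mul_sq_le_sq_mul_sq (Ioc M (2 * M)) α
    (fun a => ∑ b ∈ Ioc N (2 * N), β b * J (a : ℤ) b)
  have h1 : ∑ a ∈ Ioc M (2 * M), α a ^ 2 ≤ (M : ℝ) := by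
    calc ∑ a ∈ Ioc M (2 * M), α a ^ 2 ≤ ∑ a ∈ Ioc M (2 * M), (1 : ℝ) := by
          refine Finset.sum_le_sum fun a _ => ?_
          rw [sq_le_one_iff_abs_le_one]
          exact (hα a).1
      _ = (M : ℝ) := by
          rw [Finset.sum_const, Nat.card_Ioc, nsmul_eq_mul, mul_one]
          congr 1
          omega
  have h2 : ∑ a ∈ Ioc M (2 * M), (∑ b ∈ Ioc N (2 * N), β b * J (a : ℤ) b) ^ 2 ≤
      ∑ a ∈ Icc 1 (2 * M), (∑ b ∈ Ioc N (2 * N), β b * J (a : ℤ) b) ^ 2 := by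
    refine Finset.sum_le_sum_of_subset_of_nonneg ?_ fun _ _ _ => sq_nonneg _
    intro a ha
    rw [mem_Ioc] at ha
    rw [mem_Icc]
    omega
  have hNM' : (N : ℝ) ^ 3 ≤ M := by exact_mod_cast hNM
  have hN0 : (0 : ℝ) < N := by exact_mod_cast hN
  have hM0 : (0 : ℝ) < M := by exact_mod_cast hM
  have h3 : ∑ a ∈ Icc 1 (2 * M), (∑ b ∈ Ioc N (2 * N), β b * J (a : ℤ) b) ^ 2 ≤
      20 * N * M := by
    refine hq.trans ?_
    push_cast
    have h4 : (N : ℝ) * N ^ 3 ≤ N * M := mul_le_mul_of_nonneg_left hNM' hN0.le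
    nlinarith
  apply abs_le_of_sq_le_sq _ (by positivity)
  have h5 : (5 * (M : ℝ) * N * (N : ℝ) ^ (-(1 / 2) : ℝ)) ^ 2 = 25 * M ^ 2 * N := by
    have h6 : ((N : ℝ) ^ (-(1 / 2) : ℝ)) ^ 2 = (N : ℝ)⁻¹ := by
      rw [← Real.rpow_natCast, ← Real.rpow_mul hN0.le]
      norm_num
      exact Real.rpow_neg_one _
    rw [mul_pow, h6]
    field_simp
    ring
  rw [h5]
  have hnn : (0 : ℝ) ≤ ∑ a ∈ Ioc M (2 * M), (∑ b ∈ Ioc N (2 * N), β b * J (a : ℤ) b) ^ 2 :=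
    Finset.sum_nonneg fun _ _ => sq_nonneg _
  calc (∑ a ∈ Ioc M (2 * M), α a * ∑ b ∈ Ioc N (2 * N), β b * J (a : ℤ) b) ^ 2
      ≤ (∑ a ∈ Ioc M (2 * M), α a ^ 2) *
        ∑ a ∈ Ioc M (2 * M), (∑ b ∈ Ioc N (2 * N), β b * J (a : ℤ) b) ^ 2 := hcs
    _ ≤ M * (20 * N * M) := mul_le_mul h1 (h2.trans h3) hnn hM0.le
    _ ≤ 25 * M ^ 2 * N := by nlinarith [mul_pos hM0 (mul_pos hM0 hN0)]

end Pool.Agent.QTW
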