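import Pool.Agent.QTW.Setup

/-!
# QTW-Rep: values of the forms modulo `p`

Relation between the values of a binary form and of the polynomial, over `ℚ` and over `ZMod p`; elementary properties of the
quadratic character.
-/

set_option autoImplicit false

namespace Pool.Agent.QTW

open Finset

private theorem rep_field {K : Type} [Field K] (φ : ℤ →+* K) (f : Polynomial ℤ) (N : ℕ) (hN : f.natDegree ≤ N)
    (X Z : ℤ) (hZ : φ Z ≠ 0) :
    φ (hom f N X Z) = (f.map φ).eval (φ X / φ Z) * (φ Z) ^ N := by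
  have h1 : (f.map φ).natDegree < N + 1 := by
    have := Polynomial.natDegree_map_le (f := φ) (p := f)
    omega
  rw [Polynomial.eval_eq_sum_range' h1, Finset.sum_mul, hom, map_sum]
  refine Finset.sum_congr rfl fun i hi => ?_
  rw [Finset.mem_range] at hi
  rw [map_mul, map_mul, map_pow, map_pow, Polynomial.coeff_map]
  have h2 : φ Z ^ N = φ Z ^ i * φ Z ^ (N - i) := by
    rw [← pow_add]
    congr 1
    omega
  rw [h2, div_pow]
  field_simp

theorem hom_eval (f : Polynomial ℤ) (N : ℕ) (hN : f.natDegree ≤ N) (X Z : ℤ) (hZ : Z ≠ 0) :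
    ((hom f N X Z : ℤ) : ℚ) =
      (f.map (Int.castRingHom ℚ)).eval ((X : ℚ) / Z) * (Z : ℚ) ^ N := by
  have h := rep_field (Int.castRingHom ℚ) f N hN X Z (by simpa using hZ)
  simpa using h

theorem rep {p : ℕ} (hp : p.Prime) {X Z : ℤ} (hc : IsCoprime X Z) :
    ∃ (r : Option (ZMod p)) (σ : ZMod p), σ ≠ 0 ∧ ∀ (f : Polynomial ℤ) (n : ℕ), f.natDegree ≤ n →
      ((hom f n X Z : ℤ) : ZMod p) = ev p f n r * σ ^ n := by
  have : Fact p.Prime := ⟨hp⟩
  by_cases hZ : ((Z : ℤ) : ZMod p) = 0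
  · refine ⟨none, ((X : ℤ) : ZMod p), ?_, fun f n _ => ?_⟩
    · intro hX
      obtain ⟨u, v, huv⟩ := hc
      have h1 : (((u * X + v * Z : ℤ)) : ZMod p) = 1 := by rw [huv]; simp
      push_cast at h1
      rw [hX, hZ] at h1
      simp at h1
    · show ((hom f n X Z : ℤ) : ZMod p) = ((f.coeff n : ℤ) : ZMod p) * ((X : ℤ) : ZMod p) ^ n
      rw [hom]
      push_cast
      rw [hZ, Finset.sum_eq_single n]
      · simp
      · intro i hi hin
        rw [Finset.mem_range] at hi
        rw [zero_pow (by omega), mul_zero]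
      · intro h
        exact absurd (Finset.mem_range.2 (by omega)) h
  · refine ⟨some (((X : ℤ) : ZMod p) / ((Z : ℤ) : ZMod p)), ((Z : ℤ) : ZMod p), hZ, fun f n hn => ?_⟩
    have h := rep_field (Int.castRingHom (ZMod p)) f n hn X Z (by simpa using hZ)
    simpa [ev] using h

/-- for the quadratic character -/
private theorem rep_qc_int {p : ℕ} (hp : p.Prime) (a : ℤ) : qc p (a : ZMod p) = jacobiSym a p := by
  have : NeZero p := ⟨hp.ne_zero⟩
  rw [qc, ZMod.val_intCast, ← jacobiSym.mod_left]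

private theorem rep_val {p : ℕ} (hp : p.Prime) (a : ZMod p) : (((a.val : ℤ)) : ZMod p) = a := by
  have : NeZero p := ⟨hp.ne_zero⟩
  simp

theorem qc_mul {p : ℕ} (hp : p.Prime) (a b : ZMod p) : qc p (a * b) = qc p a * qc p b := by
  have h : a * b = (((a.val : ℤ) * (b.val : ℤ) : ℤ) : ZMod p) := by
    rw [Int.cast_mul, rep_val hp, rep_val hp]
  rw [h, rep_qc_int hp, jacobiSym.mul_left]
  rfl

theorem qc_int {p : ℕ} (hp : p.Prime) (a : ℤ) : qc p (a : ZMod p) = jacobiSym a p := rep_qc_int hp a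

theorem qc_sign {p : ℕ} (hp : p.Prime) {a : ZMod p} (ha : a ≠ 0) : qc p a = 1 ∨ qc p a = -1 := by
  have : NeZero p := ⟨hp.ne_zero⟩
  refine jacobiSym.eq_one_or_neg_one ?_
  rw [Int.gcd_natCast_natCast]
  have h1 : ¬ p ∣ a.val := by
    intro h
    have h2 := Nat.eq_zero_of_dvd_of_lt h (ZMod.val_lt a)
    exact ha ((ZMod.val_eq_zero a).1 h2)
  exact ((Nat.Prime.coprime_iff_not_dvd hp).2 h1).symm

theorem qc_sq {p : ℕ} (hp : p.Prime) {a : ZMod p} (ha : a ≠ 0) : qc p (a ^ 2) = 1 := by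
  rw [pow_two, qc_mul hp]
  rcases qc_sign hp ha with h | h <;> rw [h] <;> norm_num

end Pool.Agent.QTW
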