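import Pool.Agent.SNP.B.Mean

/-!
# QTW-RtHom: roots modulo `p` and homomorphisms from the ring of integers

`K = ℚ[X]/(G)` for the integral normalisation `G` of `g`, `β` the root of `G`; by the discriminant there is an integer
`N` with `N z ∈ ℤ[β]` for all integral `z`. A root `x` of `g` modulo `p` gives the root `a x` of `G` (`a` the leading
coefficient), and the homomorphism `z ↦ P_z(a x) / N`, where `N z = P_z(β)`.
-/

set_option autoImplicit false

namespace Pool.Agent.QTW

open NumberField Polynomial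

/-- the integral normalisation is irreducible over `ℚ` -/
private theorem irr_norm (g : ℤ[X]) (hirr : Irreducible (g.map (Int.castRingHom ℚ)))
    (hdeg : 1 ≤ g.natDegree) (ha : g.leadingCoeff ≠ 0) :
    Irreducible (g.integralNormalization.map (Int.castRingHom ℚ)) := by
  set a' : ℚ := (g.leadingCoeff : ℚ) with ha'
  have ha0 : a' ≠ 0 := by rw [ha']; exact_mod_cast ha
  let _ : Invertible a' := invertibleOfNonzero ha0
  have h1 := integralNormalization_eval₂_leadingCoeff_mul hdeg
    (C.comp (Int.castRingHom ℚ) : ℤ →+* ℚ[X]) X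
  have h2 : algEquivCMulXAddC a' 0 (g.integralNormalization.map (Int.castRingHom ℚ)) =
      C a' ^ (g.natDegree - 1) * g.map (Int.castRingHom ℚ) := by
    rw [algEquivCMulXAddC_apply]
    have e1 : (C a' * X + C 0 : ℚ[X]) = (C.comp (Int.castRingHom ℚ)) g.leadingCoeff * X := by
      simp [ha']
    have e2 : (C.comp (Int.castRingHom ℚ)) g.leadingCoeff = C a' := by simp [ha']
    rw [e1, aeval_def, eval₂_map]
    have e3 : ((algebraMap ℚ ℚ[X]).comp (Int.castRingHom ℚ)) = C.comp (Int.castRingHom ℚ) := rfl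
    rw [e3, h1, e2]
    rfl
  have h3 : Irreducible (algEquivCMulXAddC a' 0
      (g.integralNormalization.map (Int.castRingHom ℚ))) := by
    rw [h2, irreducible_isUnit_mul]
    · exact hirr
    · exact (isUnit_C.2 (isUnit_iff_ne_zero.2 ha0)).pow _
  exact (MulEquiv.irreducible_iff (algEquivCMulXAddC a' 0)).1 h3

/-- denominators of integral elements -/
private theorem denom (G : ℤ[X]) (hG : G.Monic)
    [hf : Fact (Irreducible (G.map (Int.castRingHom ℚ)))] :
    ∃ N : ℤ, N ≠ 0 ∧ ∀ z : 𝓞 (AdjoinRoot (G.map (Int.castRingHom ℚ))), ∃ P : ℤ[X],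
      aeval (AdjoinRoot.root (G.map (Int.castRingHom ℚ))) P =
        (N : AdjoinRoot (G.map (Int.castRingHom ℚ))) *
          (z : AdjoinRoot (G.map (Int.castRingHom ℚ))) := by
  set K := AdjoinRoot (G.map (Int.castRingHom ℚ)) with hK
  let B : PowerBasis ℚ K := AdjoinRoot.powerBasis hf.out.ne_zero
  have hβ : IsIntegral ℤ B.gen := by
    refine ⟨G, hG, ?_⟩
    have h1 : B.gen = AdjoinRoot.root (G.map (Int.castRingHom ℚ)) := AdjoinRoot.powerBasis_gen _
    rw [h1]
    have h2 := AdjoinRoot.eval₂_root (G.map (Int.castRingHom ℚ))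
    rw [eval₂_map] at h2
    have e : algebraMap ℤ K = (AdjoinRoot.of (G.map (Int.castRingHom ℚ))).comp
      (Int.castRingHom ℚ) := RingHom.ext_int _ _
    rw [e]
    exact h2
  have : FiniteDimensional ℚ K := B.finite
  have hd : Algebra.discr ℚ B.basis ≠ 0 := Algebra.discr_not_zero_of_basis ℚ B.basis
  have hdi : IsIntegral ℤ (Algebra.discr ℚ B.basis) := by
    apply Algebra.discr_isIntegral
    intro i
    rw [B.basis_eq_pow]
    exact hβ.pow _
  obtain ⟨N, hN⟩ := IsIntegrallyClosed.isIntegral_iff.1 hdi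
  refine ⟨N, ?_, fun z => ?_⟩
  · rintro rfl
    apply hd
    rw [← hN, map_zero]
  · have hz : IsIntegral ℤ (z : K) := z.2
    have h1 := Algebra.discr_mul_isIntegral_mem_adjoin ℚ (R := ℤ) hβ hz
    rw [Algebra.adjoin_singleton_eq_range_aeval] at h1
    obtain ⟨P, hP⟩ := h1
    refine ⟨P, ?_⟩
    have h2 : B.gen = AdjoinRoot.root (G.map (Int.castRingHom ℚ)) := AdjoinRoot.powerBasis_gen _
    rw [← h2]
    have h3 : aeval B.gen P = Algebra.discr ℚ B.basis • (z : K) := hP
    rw [h3, ← hN, Algebra.smul_def]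
    simp

private theorem fin_hom (K : Type) [Field K] [NumberField K] (p : ℕ) [Fact p.Prime] :
    Finite (𝓞 K →+* ZMod p) := by
  refine Finite.of_injective (fun f : 𝓞 K →+* ZMod p =>
    fun i => f (RingOfIntegers.basis K i)) ?_
  intro f f' h
  have h1 : f.toAddMonoidHom.toIntLinearMap = f'.toAddMonoidHom.toIntLinearMap := by
    refine (RingOfIntegers.basis K).ext fun i => ?_
    exact congrFun h i
  ext z
  exact DFunLike.congr_fun h1 z

theorem rt_hom (g : Polynomial ℤ) (hirr : Irreducible (g.map (Int.castRingHom ℚ))) :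
    ∃ (K : Type) (_ : Field K) (_ : NumberField K) (p₀ : ℕ), ∀ p : ℕ, p.Prime → p₀ < p →
      Nat.card {x : ZMod p // (g.map (Int.castRingHom (ZMod p))).eval x = 0} ≤
        Nat.card (𝓞 K →+* ZMod p) := by
  classical
  have hg0 : g ≠ 0 := by
    rintro rfl
    rw [Polynomial.map_zero] at hirr
    exact not_irreducible_zero hirr
  have hdeg : 1 ≤ g.natDegree := by
    by_contra hlt
    have h0 : g.natDegree = 0 := by omega
    rw [eq_C_of_natDegree_eq_zero h0] at hirr hg0
    rw [map_C] at hirr
    apply hirr.not_isUnit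
    rw [isUnit_C, isUnit_iff_ne_zero]
    intro h1
    apply hg0
    have h2 : g.coeff 0 = 0 := by
      have : ((g.coeff 0 : ℤ) : ℚ) = 0 := h1
      exact_mod_cast this
    rw [h2, map_zero]
  have ha : g.leadingCoeff ≠ 0 := leadingCoeff_ne_zero.2 hg0
  set G := g.integralNormalization with hGdef
  have hGm : G.Monic := monic_integralNormalization hg0
  have : Fact (Irreducible (G.map (Int.castRingHom ℚ))) := ⟨irr_norm g hirr hdeg ha⟩
  obtain ⟨N, hN0, hN⟩ := denom G hGm
  choose P hP using hN
  set K := AdjoinRoot (G.map (Int.castRingHom ℚ)) with hK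
  set β : K := AdjoinRoot.root (G.map (Int.castRingHom ℚ)) with hβdef
  have hGβ : aeval β G = 0 := by
    have h2 := AdjoinRoot.eval₂_root (G.map (Int.castRingHom ℚ))
    rw [eval₂_map] at h2
    have e : algebraMap ℤ K = (AdjoinRoot.of (G.map (Int.castRingHom ℚ))).comp
      (Int.castRingHom ℚ) := RingHom.ext_int _ _
    rw [aeval_def, e]
    exact h2
  let βO : 𝓞 K := ⟨β, ⟨G, hGm, by rw [← aeval_def]; exact hGβ⟩⟩
  -- polynomials vanishing at `β` are divisible by `G`
  have hdvd : ∀ h : ℤ[X], aeval β h = 0 → G ∣ h := by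
    intro h hh
    have h1 : AdjoinRoot.mk (G.map (Int.castRingHom ℚ)) (h.map (Int.castRingHom ℚ)) = 0 := by
      rw [← AdjoinRoot.aeval_eq, aeval_def, eval₂_map, ← hh, aeval_def]
      congr 1
    rw [AdjoinRoot.mk_eq_zero] at h1
    exact (map_dvd_map (Int.castRingHom ℚ) (RingHom.injective_int _) hGm).1 h1
  refine ⟨K, inferInstance, inferInstance, N.natAbs + g.leadingCoeff.natAbs, fun p hp hlt => ?_⟩
  have : Fact p.Prime := ⟨hp⟩
  have hnz : ∀ m : ℤ, m ≠ 0 → m.natAbs < p → (m : ZMod p) ≠ 0 := by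
    intro m hm hmp h
    rw [ZMod.intCast_zmod_eq_zero_iff_dvd] at h
    have h1 : p ∣ m.natAbs := Int.natCast_dvd.1 h
    have h2 := Nat.le_of_dvd (Int.natAbs_pos.2 hm) h1
    omega
  have hNp : (N : ZMod p) ≠ 0 := hnz N hN0 (by omega)
  have hap : (g.leadingCoeff : ZMod p) ≠ 0 := hnz _ ha (by omega)
  have := fin_hom K p
  have cm : ∀ z w : 𝓞 K, ((z * w : 𝓞 K) : K) = (z : K) * (w : K) := fun _ _ => rfl
  have ca : ∀ z w : 𝓞 K, ((z + w : 𝓞 K) : K) = (z : K) + (w : K) := fun _ _ => rfl
  -- evaluation at `a x` kills the relations of `β`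
  have key : ∀ x : ZMod p, (g.map (Int.castRingHom (ZMod p))).eval x = 0 → ∀ h : ℤ[X],
      aeval β h = 0 → eval₂ (Int.castRingHom (ZMod p)) (g.leadingCoeff * x) h = 0 := by
    intro x hx h hh
    obtain ⟨q, rfl⟩ := hdvd h hh
    rw [eval₂_mul]
    have h1 := integralNormalization_eval₂_leadingCoeff_mul hdeg (Int.castRingHom (ZMod p)) x
    rw [eval_map] at hx
    rw [hx, mul_zero] at h1
    have h2 : eval₂ (Int.castRingHom (ZMod p)) (g.leadingCoeff * x) G = 0 := h1
    rw [h2, zero_mul]
  have hom : ∀ x : ZMod p, (g.map (Int.castRingHom (ZMod p))).eval x = 0 →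
      ∃ ψ : 𝓞 K →+* ZMod p, ψ βO = g.leadingCoeff * x := by
    intro x hx
    have k := key x hx
    set y : ZMod p := g.leadingCoeff * x with hy
    have ev_sub : ∀ h h' : ℤ[X], aeval β h = aeval β h' →
        eval₂ (Int.castRingHom (ZMod p)) y h = eval₂ (Int.castRingHom (ZMod p)) y h' := by
      intro h h' e
      have := k (h - h') (by rw [map_sub, e, sub_self])
      rw [eval₂_sub] at this
      exact sub_eq_zero.1 this
    have e1 : eval₂ (Int.castRingHom (ZMod p)) y (P 1) = (N : ZMod p) := by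
      have := ev_sub (P 1) (C N) (by rw [hP]; simp)
      rw [this, eval₂_C]; rfl
    have e0 : eval₂ (Int.castRingHom (ZMod p)) y (P 0) = 0 := by
      have := ev_sub (P 0) 0 (by rw [hP]; simp)
      rw [this, eval₂_zero]
    have emul : ∀ z w, (N : ZMod p) * eval₂ (Int.castRingHom (ZMod p)) y (P (z * w)) =
        eval₂ (Int.castRingHom (ZMod p)) y (P z) * eval₂ (Int.castRingHom (ZMod p)) y (P w) := by
      intro z w
      have := ev_sub (C N * P (z * w)) (P z * P w) (by
        rw [map_mul, map_mul, hP, hP, hP, cm, aeval_C]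
        simp
        ring)
      rw [eval₂_mul, eval₂_mul, eval₂_C] at this
      exact this
    have eadd : ∀ z w, eval₂ (Int.castRingHom (ZMod p)) y (P (z + w)) =
        eval₂ (Int.castRingHom (ZMod p)) y (P z) + eval₂ (Int.castRingHom (ZMod p)) y (P w) := by
      intro z w
      have := ev_sub (P (z + w)) (P z + P w) (by
        rw [map_add, hP, hP, hP, ca]
        ring)
      rw [this, eval₂_add]
    have eβ : eval₂ (Int.castRingHom (ZMod p)) y (P βO) = (N : ZMod p) * y := by
      have := ev_sub (P βO) (C N * X) (by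
        rw [hP, map_mul, aeval_C, aeval_X]
        simp [βO])
      rw [this, eval₂_mul, eval₂_C, eval₂_X]; rfl
    refine ⟨{ toFun := fun z => eval₂ (Int.castRingHom (ZMod p)) y (P z) * (N : ZMod p)⁻¹
              map_one' := by rw [e1, mul_inv_cancel₀ hNp]
              map_zero' := by rw [e0, zero_mul]
              map_mul' := fun z w => by
                have := emul z w
                field_simp
                rw [← this]; ring
              map_add' := fun z w => by rw [eadd, add_mul] }, ?_⟩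
    show eval₂ (Int.castRingHom (ZMod p)) y (P βO) * (N : ZMod p)⁻¹ = y
    rw [eβ]
    field_simp
  choose ψ hψ using hom
  refine Nat.card_le_card_of_injective
    (fun x : {x : ZMod p // (g.map (Int.castRingHom (ZMod p))).eval x = 0} => ψ x.1 x.2) ?_
  intro x x' h
  have h1 := hψ x.1 x.2
  have h2 := hψ x'.1 x'.2
  have h3 : ψ x.1 x.2 = ψ x'.1 x'.2 := h
  rw [h3, h2] at h1
  exact Subtype.ext (mul_left_cancel₀ hap h1).symm

end Pool.Agent.QTW
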