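import Pool.Agent.QTW.Setup
import Pool.Agent.QTW.Fct
import Pool.Agent.QTW.HomM

/-!
# QTW-Set1: the setup for a polynomial of even degree without rational roots

PROOF. `fct f` gives `r, g, c`. For every `i`: `(g i).map` is irreducible, so its degree is at least one; if it were one, `(g i).map` and hence `f.map = C c * ∏ (g i).map` would have a rational root. So
`2 ≤ (g i).natDegree` (`natDegree` of the map equals that of `g i`: `Polynomial.natDegree_map_eq_of_injective`). `f.natDegree = ∑ (g i).natDegree` (`Polynomial.natDegree_prod`, `natDegree_C_mul`, all nonzero).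
`Setup`: `hom_C_mul`, `hom_prod` with `f = C c * ∏ i, g i`. `bad_exists`: leading coefficients are nonzero.
-/

set_option autoImplicit false

namespace Pool.Agent.QTW

open Finset

/-- the family of the forms attached to `g` -/
noncomputable def fam1 {r : ℕ} (g : Fin r → Polynomial ℤ) : Fam (Fin r) where
  f := g
  n := fun i => (g i).natDegree

theorem setup1 (f : Polynomial ℤ) (hsep : (f.map (Int.castRingHom ℚ)).Separable)
    (heven : Even f.natDegree) (hroot : ∀ x : ℚ, (f.map (Int.castRingHom ℚ)).eval x ≠ 0) :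
    ∃ (r : ℕ) (g : Fin r → Polynomial ℤ) (c : ℤ),
      Setup f (fam1 g) c ∧ (∃ P : ℕ, Bad (fam1 g) c P) ∧
      (∀ i, Irreducible ((g i).map (Int.castRingHom ℚ))) ∧ (∀ i, 2 ≤ (g i).natDegree) ∧
      (∀ i j, i ≠ j →
        IsCoprime ((g i).map (Int.castRingHom ℚ)) ((g j).map (Int.castRingHom ℚ))) ∧
      (univ.filter (fun i => Odd (g i).natDegree)).card =
        Multiset.card ((UniqueFactorizationMonoid.normalizedFactors
          (f.map (Int.castRingHom ℚ))).filter (fun q => Odd q.natDegree)) := by
  classical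
  obtain ⟨r, g, c, hc, hfac, hirr, hcop, hcard⟩ := fct f hsep
  have hg1 : ∀ i, 1 ≤ (g i).natDegree := by
    intro i
    have h1 := Polynomial.natDegree_pos_iff_degree_pos.mpr (Polynomial.degree_pos_of_irreducible (hirr i))
    rw [Polynomial.natDegree_map_eq_of_injective Int.cast_injective] at h1
    exact h1
  have hg0 : ∀ i, g i ≠ 0 := by
    intro i h0
    have := hg1 i
    rw [h0, Polynomial.natDegree_zero] at this
    omega
  have hg2 : ∀ i, 2 ≤ (g i).natDegree := by
    intro i
    by_contra hlt
    have h1 : (g i).natDegree = 1 := by have := hg1 i; omega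
    have h2 : ((g i).map (Int.castRingHom ℚ)).degree = 1 := by
      rw [Polynomial.degree_eq_natDegree (hirr i).ne_zero,
        Polynomial.natDegree_map_eq_of_injective Int.cast_injective, h1]
      rfl
    obtain ⟨x, hx⟩ := Polynomial.exists_root_of_degree_eq_one h2
    apply hroot x
    rw [hfac, Polynomial.map_mul, Polynomial.map_prod, Polynomial.eval_mul, Polynomial.eval_prod]
    have h3 : ∏ j, ((g j).map (Int.castRingHom ℚ)).eval x = 0 :=
      Finset.prod_eq_zero (Finset.mem_univ i) hx
    rw [h3, mul_zero]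
  have hdeg : f.natDegree = ∑ i, (g i).natDegree := by
    rw [hfac, Polynomial.natDegree_C_mul hc, Polynomial.natDegree_prod _ _ (fun i _ => hg0 i)]
  refine ⟨r, g, c, ⟨hc, fun i => ⟨le_rfl, hg1 i⟩, ?_, ?_, fun X Z => ?_⟩, ?_, hirr, hg2, hcop, hcard⟩
  · show Even (∑ i, (g i).natDegree)
    rw [← hdeg]
    exact heven
  · exact hdeg.le
  · show hom f (∑ i, (g i).natDegree) X Z = c * ∏ i, hom (g i) ((g i).natDegree) X Z
    conv_lhs => rw [hfac]
    rw [hom_C_mul, hom_prod _ _ _ fun i _ => le_rfl]
  · refine bad_exists (fam1 g) hc fun i j hij => ⟨hcop i j hij, Or.inl ?_⟩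
    show (g i).coeff (g i).natDegree ≠ 0
    intro h
    exact hg0 i (Polynomial.leadingCoeff_eq_zero.mp h)

end Pool.Agent.QTW
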