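import Pool.Agent.QTW.Fam

/-!
# QTW: the setup attached to a polynomial (definitions)
-/

set_option autoImplicit false

namespace Pool.Agent.QTW

open Finset

variable {I : Type} [Fintype I] [DecidableEq I]

/-- `P` is divisible by all bad primes of the family -/
def Bad (F : Fam I) (c : ℤ) (P : ℕ) : Prop :=
  1 ≤ P ∧ ∀ p : ℕ, p.Prime → ¬ p ∣ P → p ≠ 2 ∧ ¬ (p : ℤ) ∣ c ∧
    ∀ i j, i ≠ j → ∀ r : Option (ZMod p),
      ¬ (ev p (F.f i) (F.n i) r = 0 ∧ ev p (F.f j) (F.n j) r = 0)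

/-- The binary form of even degree attached to `f` is `c` times the product of the forms of the
family. -/
structure Setup (f : Polynomial ℤ) (F : Fam I) (c : ℤ) : Prop where
  hc : c ≠ 0
  hn : ∀ i, (F.f i).natDegree ≤ F.n i ∧ 1 ≤ F.n i
  even : Even (∑ i, F.n i)
  deg : f.natDegree ≤ ∑ i, F.n i
  prod : ∀ X Z : ℤ, hom f (∑ i, F.n i) X Z = c * ∏ i, hom (F.f i) (F.n i) X Z

/-- the number of squarefree `d` with `|d| < B` such that `d y² = f(x)` has a point with `y ≠ 0` -/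
noncomputable def Nf (f : Polynomial ℤ) (B : ℕ) : ℕ :=
  {d : ℤ | |d| < (B : ℤ) ∧ Squarefree d ∧
    ∃ x y : ℚ, y ≠ 0 ∧ (d : ℚ) * y ^ 2 = (f.map (Int.castRingHom ℚ)).eval x}.ncard

/-- Data extracted from a point of a twist: coprime integers `X, Z` and factorisations
`F_i(X, Z) = u_i D_i v_i²`. -/
structure PData (F : Fam I) (P : ℕ) (d : ℤ) (X Z : ℤ) (u : I → ℤ) (D : I → ℕ) (v : I → ℤ)
    (d₀ : ℤ) : Prop where
  cop : IsCoprime X Z
  fac : ∀ i, hom (F.f i) (F.n i) X Z = u i * (D i : ℤ) * v i ^ 2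
  v0 : ∀ i, v i ≠ 0
  udvd : ∀ i, u i ∣ (P : ℤ)
  sf : ∀ i, SF (D i)
  copP : ∀ i, Nat.Coprime (D i) P
  copD : ∀ i j, i ≠ j → Nat.Coprime (D i) (D j)
  d0dvd : d₀ ∣ (P : ℤ)
  dd : d = d₀ * ∏ i, (D i : ℤ)
  loc : ∀ k, ∀ p ∈ (D k).primeFactors, Loc F u D k p

end Pool.Agent.QTW
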