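import Pool.Agent.QTW.Fam2
import Pool.Agent.QTW.ESet

/-!
# QTW-SgLin: the local condition at the primes dividing the value of a linear form

The root of the `k`-th linear form is `sgl_rt k`; the values of `X ^ 2 + Z ^ 2` and of the products of the forms `pa k`, `pb k`
at this root are `b4 k` and `bp k`.
-/

set_option autoImplicit false

namespace Pool.Agent.QTW

open Finset

private def sgl_rt (p : ℕ) : Fin 4 → Option (ZMod p) := ![some 0, some 1, some (-1), none]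

private theorem sgl_root {p : ℕ} (hp : p.Prime) (k : Fin 4) (r : Option (ZMod p)) (h : ev p (lin k) 1 r = 0) :
    r = sgl_rt p k := by
  have : Fact p.Prime := ⟨hp⟩
  rcases r with _ | x
  · fin_cases k
    · exfalso
      simp [ev, lin] at h
    · exfalso
      simp [ev, lin, Polynomial.coeff_one] at h
    · exfalso
      simp [ev, lin, Polynomial.coeff_one] at h
    · rfl
  · fin_cases k
    · simp [ev, lin] at h
      simp [sgl_rt, h]
    · simp [ev, lin] at h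
      simp [sgl_rt, sub_eq_zero.1 h]
    · simp [ev, lin] at h
      simp [sgl_rt, eq_neg_of_add_eq_zero_left h]
    · exfalso
      simp [ev, lin] at h

private theorem sgl_b4 {p : ℕ} (k : Fin 4) :
    ev p (Polynomial.X ^ 2 + 1) 2 (sgl_rt p k) = ((b4 k : ℤ) : ZMod p) := by
  fin_cases k
  · simp [ev, sgl_rt, b4]
  · simp [ev, sgl_rt, b4]
    norm_num
  · simp [ev, sgl_rt, b4]
    norm_num
  · simp [ev, sgl_rt, b4, Polynomial.coeff_one]

private theorem sgl_bp {p : ℕ} (k : Fin 4) :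
    ev p (lin (pa k)) 1 (sgl_rt p k) * ev p (lin (pb k)) 1 (sgl_rt p k) = ((bp k : ℤ) : ZMod p) := by
  fin_cases k
  · simp [ev, sgl_rt, bp, pa, pb, lin]
  · simp [ev, sgl_rt, bp, pa, pb, lin]
  · simp [ev, sgl_rt, bp, pa, pb, lin]
  · simp [ev, sgl_rt, bp, pa, pb, lin, Polynomial.coeff_one]

private theorem sgl_sq {p : ℕ} (hp : p.Prime) (hp2 : p ≠ 2) (a : ℤ)
    (ha : a = 1 ∨ a = 2 ∨ a = -1) : jacobiSym a p * jacobiSym a p = 1 := by
  rw [← sq]
  refine jacobiSym.sq_one ?_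
  have h2 : Nat.gcd 2 p = 1 := (Nat.coprime_primes Nat.prime_two hp).2 (Ne.symm hp2)
  rcases ha with rfl | rfl | rfl
  · simp
  · exact h2
  · simp

theorem sg_lin {r : ℕ} {g : Fin r → Polynomial ℤ} {c : ℤ} {P : ℕ} (hP : Bad (fam2 g) c P)
    (u : I2 r → ℤ) (K : Finset (I2 r)) (s : I2 r → ℕ) (k : Fin 4) (hk : Sum.inl k ∈ K) {p : ℕ}
    (hp : p.Prime) (hne : (sg (fam2 g) u P K s ⟨Sum.inl k, hk⟩ p).Nonempty) :
    (Sum.inr none ∉ K →
      jacobiSym (u (Sum.inr none) * (s (Sum.inr none) : ℤ) * b4 k) p = 1) ∧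
    (Sum.inl (pa k) ∉ K → Sum.inl (pb k) ∉ K →
      jacobiSym (u (Sum.inl (pa k)) * (s (Sum.inl (pa k)) : ℤ) *
        (u (Sum.inl (pb k)) * (s (Sum.inl (pb k)) : ℤ)) * bp k) p = 1) := by
  obtain ⟨v, hv⟩ := hne
  obtain ⟨-, -, hpP, ρ, hr, τ, hτ, h1, h2⟩ := mem_sg.1 hv
  have hp2 : p ≠ 2 := (hP.2 p hp hpP).1
  have hρ : ρ = sgl_rt p k := sgl_root hp k ρ hr
  have hτ2 : τ ^ 2 = 1 := by
    rcases hτ with rfl | rfl <;> norm_num
  have hb4 : b4 k = 1 ∨ b4 k = 2 ∨ b4 k = -1 := by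
    fin_cases k <;> simp [b4]
  have hbp : bp k = 1 ∨ bp k = 2 ∨ bp k = -1 := by
    fin_cases k <;> simp [bp]
  constructor
  · intro hK
    have h3 : jacobiSym (u (Sum.inr none) * (s (Sum.inr none) : ℤ)) p =
        qc p (ev p (Polynomial.X ^ 2 + 1) 2 ρ) * τ ^ 2 := h2 (Sum.inr none) hK
    rw [hτ2, mul_one, hρ, sgl_b4, qc_int hp] at h3
    rw [jacobiSym.mul_left, h3]
    exact sgl_sq hp hp2 _ hb4
  · intro hKa hKb
    have h3 : jacobiSym (u (Sum.inl (pa k)) * (s (Sum.inl (pa k)) : ℤ)) p =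
        qc p (ev p (lin (pa k)) 1 ρ) * τ ^ 1 := h2 (Sum.inl (pa k)) hKa
    have h4 : jacobiSym (u (Sum.inl (pb k)) * (s (Sum.inl (pb k)) : ℤ)) p =
        qc p (ev p (lin (pb k)) 1 ρ) * τ ^ 1 := h2 (Sum.inl (pb k)) hKb
    have h5 : jacobiSym (u (Sum.inl (pa k)) * (s (Sum.inl (pa k)) : ℤ)) p *
        jacobiSym (u (Sum.inl (pb k)) * (s (Sum.inl (pb k)) : ℤ)) p = jacobiSym (bp k) p := by
      rw [h3, h4]
      calc qc p (ev p (lin (pa k)) 1 ρ) * τ ^ 1 * (qc p (ev p (lin (pb k)) 1 ρ) * τ ^ 1)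
          = qc p (ev p (lin (pa k)) 1 ρ) * qc p (ev p (lin (pb k)) 1 ρ) * τ ^ 2 := by ring
        _ = jacobiSym (bp k) p := by
            rw [hτ2, mul_one, ← qc_mul hp, hρ, sgl_bp, qc_int hp]
    rw [jacobiSym.mul_left, jacobiSym.mul_left, h5]
    exact sgl_sq hp hp2 _ hbp

theorem card_sg_lin {r : ℕ} {g : Fin r → Polynomial ℤ} {c : ℤ} {P : ℕ} (hP : Bad (fam2 g) c P)
    (u : I2 r → ℤ) (K : Finset (I2 r)) (s : I2 r → ℕ) (k : Fin 4) (hk : Sum.inl k ∈ K) {p : ℕ}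
    (hp : p.Prime) :
    (sg (fam2 g) u P K s ⟨Sum.inl k, hk⟩ p).card ≤ 2 ∧
    ((∃ j : Fin 4, Sum.inl j ∉ K) → (sg (fam2 g) u P K s ⟨Sum.inl k, hk⟩ p).card ≤ 1) := by
  obtain ⟨h1, h2⟩ := card_sg_le hP u K s ⟨Sum.inl k, hk⟩ hp
  have hdeg : (lin k).natDegree ≤ 1 := by
    fin_cases k
    · simp [lin]
    · simp only [lin]
      exact (Polynomial.natDegree_sub_le _ _).trans (by simp)
    · simp only [lin]
      exact (Polynomial.natDegree_add_le _ _).trans (by simp)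
    · simp [lin]
  have hco : (lin k).coeff 0 = 1 ∨ (lin k).coeff 1 = 1 := by
    fin_cases k
    · simp [lin]
    · simp [lin, Polynomial.coeff_one]
    · simp [lin, Polynomial.coeff_one]
    · simp [lin]
  have hne : lin k ≠ 0 := by
    intro h0
    rw [h0] at hco
    simp at hco
  have h3 : (es (fam2 g) (Sum.inl k) p).card ≤ 1 := by
    refine card_es_linear (F := fam2 g) (k := Sum.inl k) rfl hdeg hne hp ?_
    rintro ⟨ha, hb⟩
    have h4 : (p : ℤ) ∣ 1 := by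
      rcases hco with h | h
      · have ha' : (p : ℤ) ∣ (lin k).coeff 0 := ha
        rwa [h] at ha'
      · have hb' : (p : ℤ) ∣ (lin k).coeff 1 := hb
        rwa [h] at hb'
    have h5 : p ∣ 1 := by exact_mod_cast h4
    exact hp.one_lt.ne' (Nat.dvd_one.1 h5)
  have h1' : (sg (fam2 g) u P K s ⟨Sum.inl k, hk⟩ p).card ≤ 2 * (es (fam2 g) (Sum.inl k) p).card := h1
  refine ⟨by omega, fun ⟨j, hj⟩ => ?_⟩
  have h6 : (sg (fam2 g) u P K s ⟨Sum.inl k, hk⟩ p).card ≤ (es (fam2 g) (Sum.inl k) p).card :=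
    h2 (Or.inr ⟨Sum.inl j, hj, odd_one⟩)
  exact h6.trans h3

end Pool.Agent.QTW
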