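import Pool.Agent.QTW.Fam

/-!
# QTW-Slc: slicing the tuples according to their small entries

The tuples `D` are sorted by the set `K` of the indices with `W < D k` and by the small part `sm K D`; a tuple
is determined by its small part and its restriction to `K`.
-/

set_option autoImplicit false

namespace Pool.Agent.QTW

open Finset

variable {I : Type} [Fintype I] [DecidableEq I]

open Classical in
/-- the possible small parts with entries `≤ W` -/
noncomputable def smalls (P : ℕ) (N : Finset I → (I → ℕ) → Prop) (W : ℕ) (K : Finset I) :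
    Finset (I → ℕ) :=
  (Fintype.piFinset fun _ : I => Icc 1 W).filter fun s => Sml P K s ∧ N K s

private theorem sf_one : SF 1 := ⟨squarefree_one, odd_one⟩

private theorem prod_split (K : Finset I) (D : I → ℕ) :
    (∏ k : {x // x ∈ K}, D k) * ∏ j, sm K D j = ∏ j, D j := by
  have h1 : ∏ k : {x // x ∈ K}, D k = ∏ j, (if j ∈ K then D j else 1) := by
    rw [Finset.prod_coe_sort K D, Finset.prod_ite_mem, Finset.univ_inter]
  rw [h1, ← Finset.prod_mul_distrib]
  refine Finset.prod_congr rfl fun j _ => ?_
  unfold sm
  split_ifs <;> simp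

private theorem sml_sm {F : Fam I} {u : I → ℤ} {P : ℕ} {N : Finset I → (I → ℕ) → Prop} {Y : ℕ} {D : I → ℕ}
    (hD : D ∈ GT F u P N Y) (K : Finset I) : Sml P K (sm K D) := by
  classical
  rw [GT, mem_filter, mem_Tup] at hD
  obtain ⟨⟨h1, h2, -⟩, h3, -, -⟩ := hD
  refine ⟨fun j => ?_, fun i j hij => ?_, fun j => ?_, fun j hj => ?_⟩
  · unfold sm
    split_ifs
    · exact sf_one
    · exact h1 j
  · unfold sm
    split_ifs
    · exact Nat.coprime_one_left _
    · exact Nat.coprime_one_left _
    · exact Nat.coprime_one_right _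
    · exact h2 i j hij
  · unfold sm
    split_ifs
    · exact Nat.coprime_one_left _
    · exact h3 j
  · unfold sm
    rw [if_pos hj]

private theorem cond_restrict {F : Fam I} {u : I → ℤ} {P : ℕ} {N : Finset I → (I → ℕ) → Prop} {Y : ℕ} {D : I → ℕ}
    (hD : D ∈ GT F u P N Y) (K : Finset I) :
    Cond (sg F u P K (sm K D)) (fun k : {x // x ∈ K} => D k) := by
  classical
  rw [GT, mem_filter, mem_Tup] at hD
  obtain ⟨⟨h1, h2, -⟩, h3, h4, -⟩ := hD
  intro k p hp
  have hpp : p.Prime := Nat.prime_of_mem_primeFactors hp
  have hpk : p ∣ D k := Nat.dvd_of_mem_primeFactors hp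
  obtain ⟨r, hr, τ, hτ, hl⟩ := h4 k p hp
  rw [mem_sg]
  refine ⟨fun l => ?_, ?_, ?_, r, hr, τ, hτ, fun l hlk => ?_, fun l hlK => ?_⟩
  · unfold vec
    split_ifs with h
    · exact Or.inl rfl
    · have hne : (l : I) ≠ k := fun e => h (Subtype.ext e)
      have hc : Nat.Coprime (D l) p := Nat.Coprime.coprime_dvd_right hpk (h2 l k hne)
      apply jacobiSym.eq_one_or_neg_one
      rw [Int.gcd_natCast_natCast]
      exact hc
  · unfold vec
    rw [if_pos rfl]
  · intro hpP
    exact Nat.Prime.not_coprime_iff_dvd.2 ⟨p, hpp, hpk, hpP⟩ (h3 k)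
  · have hne : (l : I) ≠ k := fun e => hlk (Subtype.ext e)
    have := hl l hne
    rw [jacobiSym.mul_left] at this
    unfold vec
    rw [if_neg hlk]
    exact this
  · have hne : l ≠ k := fun e => hlK (e ▸ k.2)
    have := hl l hne
    unfold sm
    rw [if_neg hlK]
    exact this

open Classical in
theorem slice (F : Fam I) (u : I → ℤ) (P : ℕ) (N : Finset I → (I → ℕ) → Prop) (Y W : ℕ)
    (hW : 1 ≤ W) :
    ((GT F u P N Y).card : ℝ) ≤ ((W : ℝ) + 1) ^ Fintype.card I +
      ∑ K ∈ univ.filter (fun K : Finset I => K.Nonempty), ∑ s ∈ smalls P N W K,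
        (((Tup {x // x ∈ K} (Y / ∏ j, s j)).filter
          (fun D => (∀ k, W < D k) ∧ Cond (sg F u P K s) D)).card : ℝ) := by
  have hnat : (GT F u P N Y).card ≤ (W + 1) ^ Fintype.card I +
      ∑ K ∈ univ.filter (fun K : Finset I => K.Nonempty), ∑ s ∈ smalls P N W K,
        ((Tup {x // x ∈ K} (Y / ∏ j, s j)).filter
          (fun D => (∀ k, W < D k) ∧ Cond (sg F u P K s) D)).card := by
    have hpos : ∀ D ∈ GT F u P N Y, ∀ j, 1 ≤ D j := by
      intro D hD j
      rw [GT, mem_filter, mem_Tup] at hD
      exact Nat.one_le_iff_ne_zero.2 (hD.1.1 j).1.ne_zero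
    set big : (I → ℕ) → Finset I := fun D => univ.filter fun k => W < D k with hbig
    have hmb : ∀ D k, k ∈ big D ↔ W < D k := fun D k => by simp [hbig]
    rw [← Finset.card_filter_add_card_filter_not (s := GT F u P N Y) (fun D => ¬ (big D).Nonempty)]
    apply Nat.add_le_add
    · -- all entries are small
      have hsub : (GT F u P N Y).filter (fun D => ¬ (big D).Nonempty) ⊆
          Fintype.piFinset fun _ : I => Icc 1 W := by
        intro D hD
        rw [mem_filter] at hD
        rw [Fintype.mem_piFinset]
        intro j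
        rw [mem_Icc]
        refine ⟨hpos D hD.1 j, ?_⟩
        by_contra hc
        exact hD.2 ⟨j, (hmb D j).2 (not_le.1 hc)⟩
      refine (Finset.card_le_card hsub).trans ?_
      rw [Fintype.card_piFinset, Finset.prod_const, Nat.card_Icc, Finset.card_univ, Nat.add_sub_cancel]
      exact Nat.pow_le_pow_left (Nat.le_succ W) _
    · have hmaps : ∀ D ∈ (GT F u P N Y).filter (fun D => ¬ ¬ (big D).Nonempty),
          big D ∈ univ.filter (fun K : Finset I => K.Nonempty) := by
        intro D hD
        rw [mem_filter] at hD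
        exact mem_filter.2 ⟨mem_univ _, not_not.1 hD.2⟩
      rw [Finset.card_eq_sum_card_fiberwise hmaps]
      apply Finset.sum_le_sum
      intro K hK
      rw [mem_filter] at hK
      have hmaps2 : ∀ D ∈ ((GT F u P N Y).filter (fun D => ¬ ¬ (big D).Nonempty)).filter (fun D => big D = K),
          sm K D ∈ smalls P N W K := by
        intro D hD
        rw [mem_filter, mem_filter] at hD
        obtain ⟨⟨hD, -⟩, hDK⟩ := hD
        unfold smalls
        rw [mem_filter, Fintype.mem_piFinset]
        refine ⟨fun j => ?_, sml_sm hD K, ?_⟩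
        · rw [mem_Icc]
          unfold sm
          split_ifs with hj
          · exact ⟨le_rfl, hW⟩
          · refine ⟨hpos D hD j, ?_⟩
            rw [← hDK, hmb] at hj
            exact not_lt.1 hj
        · rw [GT, mem_filter] at hD
          exact hD.2.2.2 K hK.2
      rw [Finset.card_eq_sum_card_fiberwise hmaps2]
      apply Finset.sum_le_sum
      intro s hs
      refine Finset.card_le_card_of_injOn (fun D => fun k : {x // x ∈ K} => D k) ?_ ?_
      · intro D hD
        rw [Finset.mem_coe, mem_filter, mem_filter, mem_filter] at hD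
        obtain ⟨⟨⟨hD, -⟩, hDK⟩, hDs⟩ := hD
        rw [Finset.mem_coe, mem_filter, mem_Tup]
        have hcond := cond_restrict hD K
        rw [hDs] at hcond
        have hD' := hD
        rw [GT, mem_filter, mem_Tup] at hD'
        refine ⟨⟨fun t => hD'.1.1 t, fun t t' htt => hD'.1.2.1 t t' fun e => htt (Subtype.ext e), ?_⟩, ?_, hcond⟩
        · rw [Nat.le_div_iff_mul_le (Finset.prod_pos fun j _ => ?_)]
          · rw [← hDs, prod_split]
            exact hD'.1.2.2
          · rw [← hDs]
            unfold sm
            split_ifs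
            · exact one_pos
            · exact hpos D hD j
        · intro k
          exact (hmb D k).1 (hDK ▸ k.2)
      · intro D hD D' hD' hDD
        rw [Finset.mem_coe, mem_filter, mem_filter, mem_filter] at hD hD'
        funext j
        by_cases hj : j ∈ K
        · exact congrFun hDD ⟨j, hj⟩
        · have h1 : sm K D j = sm K D' j := by rw [hD.2, hD'.2]
          unfold sm at h1
          rwa [if_neg hj, if_neg hj] at h1
  exact_mod_cast hnat

end Pool.Agent.QTW
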